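import Mathlib

/-!
# Basic definitions for the non-sofic group (helper418)

`ae A` is the filter of asymptotically conull subsets of `Σ n, A n`, for a sequence of finite
sets `A n`.
-/

open Filter Topology Finset
open scoped Classical

namespace Helper418

/-! ## Densities and the asymptotic filter -/

/-- proportion of points of `A n` that satisfy `P n` -/
noncomputable def dens {A : ℕ → Type} [∀ n, Fintype (A n)] (P : ∀ n, A n → Prop) (n : ℕ) : ℝ :=
  ((univ.filter (P n)).card : ℝ) / (Fintype.card (A n) : ℝ)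

section Dens
variable {A : ℕ → Type} [∀ n, Fintype (A n)]

theorem dens_nonneg (P : ∀ n, A n → Prop) (n : ℕ) : 0 ≤ dens P n := by
  unfold dens; positivity

theorem dens_mono {P Q : ∀ n, A n → Prop} {n : ℕ} (h : ∀ a, P n a → Q n a) :
    dens P n ≤ dens Q n := by
  unfold dens
  apply div_le_div_of_nonneg_right _ (Nat.cast_nonneg _)
  exact_mod_cast card_le_card (monotone_filter_right _ (fun a _ ha => h a ha))

theorem dens_or_le (P Q : ∀ n, A n → Prop) (n : ℕ) :
    dens (fun n a => P n a ∨ Q n a) n ≤ dens P n + dens Q n := by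
  unfold dens
  rw [← add_div]
  apply div_le_div_of_nonneg_right _ (Nat.cast_nonneg _)
  refine le_trans (Nat.cast_le.mpr
    (card_le_card (t := univ.filter (P n) ∪ univ.filter (Q n)) ?_)) ?_
  · intro a; simp
  · exact_mod_cast card_union_le _ _

theorem dens_le_one (P : ∀ n, A n → Prop) (n : ℕ) : dens P n ≤ 1 := by
  unfold dens
  apply div_le_one_of_le₀ _ (Nat.cast_nonneg _)
  exact_mod_cast card_le_univ _

/-- the filter of asymptotically conull sets -/
noncomputable def ae (A : ℕ → Type) [∀ n, Fintype (A n)] : Filter (Σ n, A n) where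
  sets := {X | Tendsto (dens (fun n (a : A n) => (⟨n, a⟩ : Σ n, A n) ∉ X)) atTop (𝓝 0)}
  univ_sets := by
    have : (dens (fun n (a : A n) => (⟨n, a⟩ : Σ n, A n) ∉ (Set.univ : Set (Σ n, A n)))) =
        fun _ => (0 : ℝ) := by
      funext n; simp [dens]
    show Tendsto _ _ _
    rw [this]
    exact tendsto_const_nhds
  sets_of_superset := by
    intro X Y hX hXY
    refine squeeze_zero (fun n => dens_nonneg _ n) (fun n => ?_) hX
    exact dens_mono (fun a ha hx => ha (hXY hx))
  inter_sets := by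
    intro X Y hX hY
    have := hX.add hY
    rw [add_zero] at this
    refine squeeze_zero (fun n => dens_nonneg _ n) (fun n => ?_) this
    refine le_trans (dens_mono (Q := fun n a => ((⟨n, a⟩ : Σ n, A n) ∉ X) ∨
      ((⟨n, a⟩ : Σ n, A n) ∉ Y)) ?_) (dens_or_le _ _ n)
    intro a ha
    by_contra hcon
    push Not at hcon
    exact ha ⟨hcon.1, hcon.2⟩

theorem mem_ae {P : ∀ n, A n → Prop} :
    (∀ᶠ x in ae A, P x.1 x.2) ↔ Tendsto (dens (fun n a => ¬ P n a)) atTop (𝓝 0) := Iff.rfl

end Dens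

/-! ## Labellings -/

/-- the size of the part of the labelling `f` that contains `x` -/
noncomputable def sz {X : Type} [Fintype X] (f : X → ℕ) (x : X) : ℕ :=
  (univ.filter fun y => f y = f x).card

/-- number of pairs `(i,x)` for which the label changes -/
noncomputable def inv {X : Type} [Fintype X] {ι : Type} [Fintype ι] (σ : ι → Equiv.Perm X)
    (f : X → ℕ) : ℕ :=
  ∑ i, (univ.filter fun x => f (σ i x) ≠ f x).card

/-- size of the boundary of a set -/
noncomputable def bd {X : Type} [Fintype X] {ι : Type} [Fintype ι] (σ : ι → Equiv.Perm X)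
    (W : Finset X) : ℕ :=
  ∑ i, (W.filter fun x => σ i x ∉ W).card

section Asym
variable {A : ℕ → Type} [∀ n, Fintype (A n)] {ι : Type} [Fintype ι]

/-- asymptotic invariance of a sequence of labellings -/
def AsInv (σ : ∀ n, ι → Equiv.Perm (A n)) (f : ∀ n, A n → ℕ) : Prop :=
  ∀ i, ∀ᶠ x in ae A, f x.1 (σ x.1 i x.2) = f x.1 x.2

/-- `g` is asymptotically a function of `f` -/
def Ref (f g : ∀ n, A n → ℕ) : Prop :=
  ∃ H : ℕ → ℕ → ℕ, ∀ᶠ x in ae A, g x.1 x.2 = H x.1 (f x.1 x.2)

/-- the improvement property: almost invariant labellings are close to asymptotically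
invariant ones -/
def Improves (σ : ∀ n, ι → Equiv.Perm (A n)) : Prop :=
  ∃ C : ℝ, 0 ≤ C ∧ ∀ f : ∀ n, A n → ℕ, ∃ f' : ∀ n, A n → ℕ, AsInv σ f' ∧
    ∃ e : ℕ → ℝ, Tendsto e atTop (𝓝 0) ∧
      ∀ n, dens (fun n a => f' n a ≠ f n a) n ≤
        C * ((inv (σ n) (f n) : ℝ) / Fintype.card (A n)) + e n

/-- `f` is a finest asymptotically invariant labelling -/
def Finest (σ : ∀ n, ι → Equiv.Perm (A n)) (f : ∀ n, A n → ℕ) : Prop :=
  AsInv σ f ∧ ∀ h : ∀ n, A n → ℕ, AsInv σ h → ∀ η : ℝ, 0 < η →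
    ∀ᶠ x in ae A, (sz (f x.1) x.2 : ℝ) ≤ (1 + η) * sz (h x.1) x.2

end Asym

/-- an asymptotically multiplicative sequence of maps from `G` to finite symmetric groups -/
structure Approx (G : Type) [Group G] (A : ℕ → Type) [∀ n, Fintype (A n)] where
  φ : ∀ n, G → Equiv.Perm (A n)
  mul : ∀ g h, ∀ᶠ x in ae A, φ x.1 (g * h) x.2 = φ x.1 g (φ x.1 h x.2)

/-! ## T-systems -/

/-- the commutator -/
def cm {G : Type} [Group G] (a b : G) : G := a * b * a⁻¹ * b⁻¹

/-- a finite family of elements of order `p`, pairwise generating groups of nilpotency class two,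
each one not commuting with at most `D` others, `D ^ 2 < p`. -/
structure IsTSystem {G : Type} [Group G] {ι : Type} [Fintype ι] (p D : ℕ) (s : ι → G) :
    Prop where
  prime : p.Prime
  hD : D ^ 2 < p
  pow : ∀ i, s i ^ p = 1
  comm : ∀ i j, Commute (cm (s i) (s j)) (s i)
  deg : ∀ i, (univ.filter fun j => ¬ Commute (s i) (s j)).card ≤ D

/-- local version on a finite set: permutations `σ i` of order `p`, such that for every pair the
relations hold on an invariant set `Y` containing the complement of the bad set `B`. -/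
structure IsTAct {ι : Type} [Fintype ι] (p : ℕ) (nc : ι → ι → Prop) {X : Type} [Fintype X]
    (σ : ι → Equiv.Perm X) (B : Finset X) : Prop where
  pow : ∀ i, σ i ^ p = 1
  comm : ∀ i j, i ≠ j → ¬ nc i j → ∃ Y : Finset X, (∀ x, x ∉ B → x ∈ Y) ∧
    (∀ x ∈ Y, σ i x ∈ Y) ∧ (∀ x ∈ Y, σ j x ∈ Y) ∧ ∀ x ∈ Y, σ i (σ j x) = σ j (σ i x)
  heis : ∀ i j, nc i j → ∃ Y : Finset X, (∀ x, x ∉ B → x ∈ Y) ∧
    (∀ x ∈ Y, σ i x ∈ Y) ∧ (∀ x ∈ Y, σ j x ∈ Y) ∧
    (∀ x ∈ Y, cm (σ i) (σ j) (σ i x) = σ i (cm (σ i) (σ j) x)) ∧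
    (∀ x ∈ Y, cm (σ i) (σ j) (σ j x) = σ j (cm (σ i) (σ j) x))

/-- average over the cyclic group generated by `σ` -/
noncomputable def avg {X : Type} (p : ℕ) (σ : Equiv.Perm X) (f : X → ℝ) : X → ℝ :=
  fun x => (∑ j ∈ range p, f ((σ ^ j) x)) / p

/-- `1 - avg` -/
noncomputable def lap {X : Type} (p : ℕ) (σ : Equiv.Perm X) (f : X → ℝ) : X → ℝ :=
  fun x => f x - avg p σ f x

end Helper418
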