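import Pool.Agent.Helper418_Sofic.Alg

open scoped Classical

namespace Helper418

namespace GenC

theorem inc_code {i j : Fin 3} (h : i ≠ j) : Inc (code i) (code j) := by
  unfold Inc
  fin_cases i <;> fin_cases j <;> first | exact absurd rfl h | (simp [code])

theorem inc_append {a b : List Bool} (h : Inc a b) (u v : List Bool) :
    Inc (a ++ u) (b ++ v) := by
  constructor
  · intro hp
    have h1 : a <+: b ++ v := (List.prefix_append a u).trans hp
    rcases List.prefix_or_prefix_of_prefix h1 (List.prefix_append b v) with h2 | h2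
    · exact h.1 h2
    · exact h.2 h2
  · intro hp
    have h1 : b <+: a ++ u := (List.prefix_append b v).trans hp
    rcases List.prefix_or_prefix_of_prefix h1 (List.prefix_append a u) with h2 | h2
    · exact h.2 h2
    · exact h.1 h2

theorem inc_of_append {c a b : List Bool} (h : Inc (c ++ a) (c ++ b)) : Inc a b := by
  constructor
  · intro hp
    exact h.1 ((List.prefix_append_right_inj c).2 hp)
  · intro hp
    exact h.2 ((List.prefix_append_right_inj c).2 hp)

theorem exists_code (u : List Bool) (hu : 2 ≤ u.length) :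
    ∃ (i : Fin 3) (u' : List Bool), u = code i ++ u' := by
  match u, hu with
  | false :: d :: w, _ => exact ⟨0, d :: w, rfl⟩
  | true :: false :: w, _ => exact ⟨1, w, rfl⟩
  | true :: true :: w, _ => exact ⟨2, w, rfl⟩

section
variable {R : Type} [Ring R] {x y : Bool → R} {p : ℕ}

theorem cm_mem {G : Type} [Group G] {C : Subgroup G} {a b : G} (ha : a ∈ C) (hb : b ∈ C) :
    cm a b ∈ C :=
  C.mul_mem (C.mul_mem (C.mul_mem ha hb) (C.inv_mem ha)) (C.inv_mem hb)

/-- commutator of two matrix unit transvections through a common word -/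
theorem mem_mul (L : Leav p x y) {C : Subgroup Rˣ} {a b c : List Bool} {r r' : R}
    (hac : Inc a c) (hcb : Inc c b) (h0 : r' * (YY y b * XX x a) * r = 0)
    (h1 : tr (XX x a * r * YY y c) ∈ C) (h2 : tr (XX x c * r' * YY y b) ∈ C) :
    tr (XX x a * (r * r') * YY y b) ∈ C := by
  have e : cm (tr (XX x a * r * YY y c)) (tr (XX x c * r' * YY y b)) =
      tr (XX x a * (r * r') * YY y b) := by
    rw [cm_tr (L.sq_zero hac r) (L.sq_zero hcb r')]
    · congr 1
      calc XX x a * r * YY y c * (XX x c * r' * YY y b)
          = XX x a * r * (YY y c * XX x c) * r' * YY y b := by noncomm_ring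
        _ = XX x a * (r * r') * YY y b := by rw [L.YX_same]; noncomm_ring
    · calc XX x c * r' * YY y b * (XX x a * r * YY y c)
          = XX x c * (r' * (YY y b * XX x a) * r) * YY y c := by noncomm_ring
        _ = 0 := by rw [h0]; simp
  rw [← e]
  exact cm_mem h1 h2

theorem mem_three (L : Leav p x y) {C : Subgroup Rˣ} {i j k : Fin 3} {r r' : R}
    (hik : i ≠ k) (hkj : k ≠ j) (hij : i ≠ j)
    (h1 : tr (XX x (code i) * r * YY y (code k)) ∈ C)
    (h2 : tr (XX x (code k) * r' * YY y (code j)) ∈ C) :
    tr (XX x (code i) * (r * r') * YY y (code j)) ∈ C := by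
  refine mem_mul L (inc_code hik) (inc_code hkj) ?_ h1 h2
  rw [L.YX_inc (inc_code hij.symm)]
  simp

/-- all the off-diagonal transvections with entry `r` are in `C` -/
def Mem (x y : Bool → R) (C : Subgroup Rˣ) (r : R) : Prop :=
  ∀ i j : Fin 3, i ≠ j → tr (XX x (code i) * r * YY y (code j)) ∈ C

theorem Mem.mul (L : Leav p x y) {C : Subgroup Rˣ} {r r' : R} (h : Mem x y C r)
    (h' : Mem x y C r') : Mem x y C (r * r') := by
  intro i j hij
  obtain ⟨k, hik, hkj⟩ : ∃ k : Fin 3, i ≠ k ∧ k ≠ j := by
    revert i j; decide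
  exact mem_three L hik hkj hij (h i k hik) (h' k j hkj)

theorem mem_gen (s : Fin 5) (i : Fin 3) :
    tr (XX x (code i) * rr x y s * YY y (code (i + 1))) ∈
      Subgroup.closure (Set.range (gen x y)) :=
  Subgroup.subset_closure ⟨(i, s), rfl⟩

theorem mem_rr (L : Leav p x y) (s : Fin 5) :
    Mem x y (Subgroup.closure (Set.range (gen x y))) (rr x y s) := by
  intro i j hij
  have h : j = i + 1 ∨ j = i + 1 + 1 := by
    revert i j; decide
  rcases h with rfl | rfl
  · exact mem_gen s i
  · have h1 := mem_gen (x := x) (y := y) s i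
    have h2 := mem_gen (x := x) (y := y) 0 (i + 1)
    have h3 : rr x y 0 = 1 := rfl
    rw [h3] at h2
    have h4 := mem_three L ((by decide : ∀ i : Fin 3, i ≠ i + 1) i)
      ((by decide : ∀ i : Fin 3, i + 1 ≠ i + 1 + 1) i) hij h1 h2
    rwa [mul_one] at h4

theorem mem_XX (L : Leav p x y) (a : List Bool) :
    Mem x y (Subgroup.closure (Set.range (gen x y))) (XX x a) := by
  induction a with
  | nil => exact mem_rr L 0
  | cons c w ih =>
    refine Mem.mul L ?_ ih
    cases c
    · exact mem_rr L 1
    · exact mem_rr L 2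

theorem mem_YY (L : Leav p x y) (a : List Bool) :
    Mem x y (Subgroup.closure (Set.range (gen x y))) (YY y a) := by
  induction a with
  | nil => exact mem_rr L 0
  | cons c w ih =>
    refine Mem.mul L ih ?_
    cases c
    · exact mem_rr L 3
    · exact mem_rr L 4

theorem mem_long (L : Leav p x y) {a b : List Bool} (h : Inc a b) (ha : 2 ≤ a.length)
    (hb : 2 ≤ b.length) : tr (XX x a * YY y b) ∈ Subgroup.closure (Set.range (gen x y)) := by
  obtain ⟨i, a', rfl⟩ := exists_code a ha
  obtain ⟨j, b', rfl⟩ := exists_code b hb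
  have e : XX x (code i ++ a') * YY y (code j ++ b') =
      XX x (code i) * (XX x a' * YY y b') * YY y (code j) := by
    rw [XX_append, YY_append]
    simp only [mul_assoc]
  rw [e]
  by_cases hij : i = j
  · subst hij
    have h' := inc_of_append h
    obtain ⟨k, hik⟩ : ∃ k : Fin 3, i ≠ k := (by decide : ∀ i : Fin 3, ∃ k : Fin 3, i ≠ k) i
    refine mem_mul L (inc_code hik) (inc_code hik.symm) ?_ (mem_XX L a' i k hik)
      (mem_YY L b' k i hik.symm)
    rw [L.YX_same, mul_one]
    exact L.YX_inc h'.symm
  · exact (Mem.mul L (mem_XX L a') (mem_YY L b')) i j hij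

theorem mem_split (L : Leav p x y) {C : Subgroup Rˣ} {a b : List Bool} (h : Inc a b)
    (h1 : ∀ d : Bool, tr (XX x (a ++ [d]) * YY y (b ++ [d])) ∈ C) :
    tr (XX x a * YY y b) ∈ C := by
  have hsq : ∀ d d' : Bool, (XX x (a ++ [d]) * YY y (b ++ [d])) *
      (XX x (a ++ [d']) * YY y (b ++ [d'])) = 0 := by
    intro d d'
    calc (XX x (a ++ [d]) * YY y (b ++ [d])) * (XX x (a ++ [d']) * YY y (b ++ [d']))
        = XX x (a ++ [d]) * (YY y (b ++ [d]) * XX x (a ++ [d'])) * YY y (b ++ [d']) := by
          noncomm_ring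
      _ = 0 := by rw [L.YX_inc (inc_append h.symm _ _)]; simp
  have e : XX x (a ++ [false]) * YY y (b ++ [false]) + XX x (a ++ [true]) * YY y (b ++ [true]) =
      XX x a * YY y b := by
    rw [XX_append, XX_append, YY_append, YY_append]
    simp only [XX, YY, mul_one, one_mul]
    calc XX x a * x false * (y false * YY y b) + XX x a * x true * (y true * YY y b)
        = XX x a * (x false * y false + x true * y true) * YY y b := by noncomm_ring
      _ = XX x a * YY y b := by rw [L.sum, mul_one]
  rw [← e, ← tr_mul (hsq _ _) (hsq _ _) (hsq _ _) (hsq _ _)]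
  exact C.mul_mem (h1 false) (h1 true)

end

end GenC

/-- TARGET -/
theorem gen_closure {R : Type} [Ring R] {x y : Bool → R} {p : ℕ} (L : Leav p x y)
    {a b : List Bool} (h : Inc a b) :
    tr (XX x a * YY y b) ∈ Subgroup.closure (Set.range (gen x y)) := by
  refine GenC.mem_split L h (fun d => ?_)
  refine GenC.mem_split L (GenC.inc_append h _ _) (fun e => ?_)
  refine GenC.mem_long L (GenC.inc_append (GenC.inc_append h _ _) _ _) ?_ ?_
  · simp only [List.length_append, List.length_singleton]; omega
  · simp only [List.length_append, List.length_singleton]; omega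

end Helper418
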