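import Pool.Agent.Helper418_Sofic.Alg

open scoped Classical

namespace Helper418

namespace WW

section
variable {R : Type} [Ring R] {x y : Bool → R} {p : ℕ}

theorem ww_val (L : Leav p x y) {a b : List Bool} (h : Inc a b) :
    ((ww x y a b : Rˣ) : R) = 1 - XX x a * YY y a - XX x b * YY y b + XX x a * YY y b -
      XX x b * YY y a := by
  have h1 := L.YX_same a
  have h2 := L.YX_same b
  have h3 := L.YX_inc h
  have h4 := L.YX_inc h.symm
  have he : (XX x a * YY y b) * (XX x a * YY y b) = 0 := by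
    calc (XX x a * YY y b) * (XX x a * YY y b) = XX x a * (YY y b * XX x a) * YY y b := by
          noncomm_ring
      _ = 0 := by rw [h4]; simp
  have hf : (-(XX x b * YY y a)) * (-(XX x b * YY y a)) = 0 := by
    calc (-(XX x b * YY y a)) * (-(XX x b * YY y a)) = XX x b * (YY y a * XX x b) * YY y a := by
          noncomm_ring
      _ = 0 := by rw [h3]; simp
  unfold ww
  rw [Units.val_mul, Units.val_mul, tr_val he, tr_val hf]
  set A := XX x a
  set B := XX x b
  set A' := YY y a
  set B' := YY y b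
  calc (1 + A * B') * (1 + -(B * A')) * (1 + A * B')
      = 1 + A * B' - B * A' - A * (B' * B) * A' + A * B' + A * (B' * A) * B' - B * (A' * A) * B'
        - A * (B' * B) * (A' * A) * B' := by noncomm_ring
    _ = 1 - A * A' - B * B' + A * B' - B * A' := by
      rw [h1, h2, h4]
      noncomm_ring

theorem ww_inv_val (L : Leav p x y) {a b : List Bool} (h : Inc a b) :
    (((ww x y a b)⁻¹ : Rˣ) : R) = 1 - XX x a * YY y a - XX x b * YY y b - XX x a * YY y b +
      XX x b * YY y a := by
  have h1 := L.YX_same a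
  have h2 := L.YX_same b
  have h3 := L.YX_inc h
  have h4 := L.YX_inc h.symm
  have he : (XX x a * YY y b) * (XX x a * YY y b) = 0 := by
    calc (XX x a * YY y b) * (XX x a * YY y b) = XX x a * (YY y b * XX x a) * YY y b := by
          noncomm_ring
      _ = 0 := by rw [h4]; simp
  have hf : (-(XX x b * YY y a)) * (-(XX x b * YY y a)) = 0 := by
    calc (-(XX x b * YY y a)) * (-(XX x b * YY y a)) = XX x b * (YY y a * XX x b) * YY y a := by
          noncomm_ring
      _ = 0 := by rw [h3]; simp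
  unfold ww
  rw [mul_inv_rev, mul_inv_rev, Units.val_mul, Units.val_mul, tr_inv_val he, tr_inv_val hf]
  set A := XX x a
  set B := XX x b
  set A' := YY y a
  set B' := YY y b
  calc (1 - A * B') * ((1 - -(B * A')) * (1 - A * B'))
      = 1 - A * B' + B * A' - A * (B' * B) * A' - A * B' + A * (B' * A) * B' - B * (A' * A) * B'
        + A * (B' * B) * (A' * A) * B' := by noncomm_ring
    _ = 1 - A * A' - B * B' - A * B' + B * A' := by
      rw [h1, h2, h4]
      noncomm_ring

theorem ww_Xb (L : Leav p x y) {a b : List Bool} (h : Inc a b) :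
    ((ww x y a b : Rˣ) : R) * XX x b = XX x a := by
  rw [ww_val L h]
  calc (1 - XX x a * YY y a - XX x b * YY y b + XX x a * YY y b - XX x b * YY y a) * XX x b
      = XX x b - XX x a * (YY y a * XX x b) - XX x b * (YY y b * XX x b)
        + XX x a * (YY y b * XX x b) - XX x b * (YY y a * XX x b) := by noncomm_ring
    _ = XX x a := by rw [L.YX_same b, L.YX_inc h]; simp

theorem ww_Xa (L : Leav p x y) {a b : List Bool} (h : Inc a b) :
    ((ww x y a b : Rˣ) : R) * XX x a = -XX x b := by
  rw [ww_val L h]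
  calc (1 - XX x a * YY y a - XX x b * YY y b + XX x a * YY y b - XX x b * YY y a) * XX x a
      = XX x a - XX x a * (YY y a * XX x a) - XX x b * (YY y b * XX x a)
        + XX x a * (YY y b * XX x a) - XX x b * (YY y a * XX x a) := by noncomm_ring
    _ = -XX x b := by rw [L.YX_same a, L.YX_inc h.symm]; simp

theorem Yb_ww (L : Leav p x y) {a b : List Bool} (h : Inc a b) :
    YY y b * (((ww x y a b)⁻¹ : Rˣ) : R) = YY y a := by
  rw [ww_inv_val L h]
  calc YY y b * (1 - XX x a * YY y a - XX x b * YY y b - XX x a * YY y b + XX x b * YY y a)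
      = YY y b - (YY y b * XX x a) * YY y a - (YY y b * XX x b) * YY y b
        - (YY y b * XX x a) * YY y b + (YY y b * XX x b) * YY y a := by noncomm_ring
    _ = YY y a := by rw [L.YX_same b, L.YX_inc h.symm]; simp

theorem Ya_ww (L : Leav p x y) {a b : List Bool} (h : Inc a b) :
    YY y a * (((ww x y a b)⁻¹ : Rˣ) : R) = -YY y b := by
  rw [ww_inv_val L h]
  calc YY y a * (1 - XX x a * YY y a - XX x b * YY y b - XX x a * YY y b + XX x b * YY y a)
      = YY y a - (YY y a * XX x a) * YY y a - (YY y a * XX x b) * YY y b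
        - (YY y a * XX x a) * YY y b + (YY y a * XX x b) * YY y a := by noncomm_ring
    _ = -YY y b := by rw [L.YX_same a, L.YX_inc h]; simp

theorem ww_Xc (L : Leav p x y) {a b c : List Bool} (h : Inc a b) (hca : Inc c a)
    (hcb : Inc c b) : ((ww x y a b : Rˣ) : R) * XX x c = XX x c := by
  rw [ww_val L h]
  calc (1 - XX x a * YY y a - XX x b * YY y b + XX x a * YY y b - XX x b * YY y a) * XX x c
      = XX x c - XX x a * (YY y a * XX x c) - XX x b * (YY y b * XX x c)
        + XX x a * (YY y b * XX x c) - XX x b * (YY y a * XX x c) := by noncomm_ring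
    _ = XX x c := by rw [L.YX_inc hca.symm, L.YX_inc hcb.symm]; simp

theorem Yc_ww (L : Leav p x y) {a b c : List Bool} (h : Inc a b) (hca : Inc c a)
    (hcb : Inc c b) : YY y c * (((ww x y a b)⁻¹ : Rˣ) : R) = YY y c := by
  rw [ww_inv_val L h]
  calc YY y c * (1 - XX x a * YY y a - XX x b * YY y b - XX x a * YY y b + XX x b * YY y a)
      = YY y c - (YY y c * XX x a) * YY y a - (YY y c * XX x b) * YY y b
        - (YY y c * XX x a) * YY y b + (YY y c * XX x b) * YY y a := by noncomm_ring
    _ = YY y c := by rw [L.YX_inc hca, L.YX_inc hcb]; simp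

theorem conj_val (u v v' : Rˣ) (X n Y : R) (hv : (v : R) = 1 + X * n * Y)
    (hv' : (v' : R) = 1 + ((u : R) * X) * n * (Y * ((u⁻¹ : Rˣ) : R))) : u * v * u⁻¹ = v' := by
  ext
  rw [Units.val_mul, Units.val_mul, hv, hv']
  have h1 : (u : R) * ((u⁻¹ : Rˣ) : R) = 1 := by simp
  calc (u : R) * (1 + X * n * Y) * ((u⁻¹ : Rˣ) : R)
      = (u : R) * ((u⁻¹ : Rˣ) : R) + ((u : R) * X) * n * (Y * ((u⁻¹ : Rˣ) : R)) := by
        noncomm_ring
    _ = _ := by rw [h1]

end

end WW

/-- TARGET 1 -/
theorem ww_conj {R : Type} [Ring R] {x y : Bool → R} {p : ℕ} (L : Leav p x y)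
    {a b : List Bool} (h : Inc a b) (g : Rˣ) :
    ww x y a b * L.rho b g * (ww x y a b)⁻¹ = L.rho a g ∧
    ww x y a b * L.rho a g * (ww x y a b)⁻¹ = L.rho b g := by
  constructor
  · refine WW.conj_val _ _ _ (XX x b) ((g : R) - 1) (YY y b) (L.rho_val b g) ?_
    rw [WW.ww_Xb L h, WW.Yb_ww L h, L.rho_val]
  · refine WW.conj_val _ _ _ (XX x a) ((g : R) - 1) (YY y a) (L.rho_val a g) ?_
    rw [WW.ww_Xa L h, WW.Ya_ww L h, L.rho_val]
    noncomm_ring

/-- TARGET 2 -/
theorem ww_comm {R : Type} [Ring R] {x y : Bool → R} {p : ℕ} (L : Leav p x y)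
    {a b c : List Bool} (h : Inc a b) (hca : Inc c a) (hcb : Inc c b) (g : Rˣ) :
    Commute (ww x y a b) (L.rho c g) := by
  have h1 : ww x y a b * L.rho c g * (ww x y a b)⁻¹ = L.rho c g := by
    refine WW.conj_val _ _ _ (XX x c) ((g : R) - 1) (YY y c) (L.rho_val c g) ?_
    rw [WW.ww_Xc L h hca hcb, WW.Yc_ww L h hca hcb, L.rho_val]
  rw [mul_inv_eq_iff_eq_mul] at h1
  exact h1

/-- TARGET 3 -/
theorem ww_tr_left {R : Type} [Ring R] {x y : Bool → R} {p : ℕ} (L : Leav p x y)
    {a b c : List Bool} (h : Inc a b) (hca : Inc c a) (hcb : Inc c b) (n : R) :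
    ww x y a b * tr (XX x b * n * YY y c) * (ww x y a b)⁻¹ = tr (XX x a * n * YY y c) := by
  refine WW.conj_val _ _ _ (XX x b) n (YY y c) (tr_val (L.sq_zero hcb.symm n)) ?_
  rw [WW.ww_Xb L h, WW.Yc_ww L h hca hcb, tr_val (L.sq_zero hca.symm n)]

/-- TARGET 4 -/
theorem ww_tr_right {R : Type} [Ring R] {x y : Bool → R} {p : ℕ} (L : Leav p x y)
    {a b c : List Bool} (h : Inc a b) (hca : Inc c a) (hcb : Inc c b) (n : R) :
    ww x y a b * tr (XX x c * n * YY y b) * (ww x y a b)⁻¹ = tr (XX x c * n * YY y a) := by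
  refine WW.conj_val _ _ _ (XX x c) n (YY y b) (tr_val (L.sq_zero hcb n)) ?_
  rw [WW.ww_Xc L h hca hcb, WW.Yb_ww L h, tr_val (L.sq_zero hca n)]

/-- TARGET 5 -/
theorem rho_commute {R : Type} [Ring R] {x y : Bool → R} {p : ℕ} (L : Leav p x y)
    {a b : List Bool} (h : Inc a b) (g k : Rˣ) : Commute (L.rho a g) (L.rho b k) := by
  show L.rho a g * L.rho b k = L.rho b k * L.rho a g
  ext
  rw [Units.val_mul, Units.val_mul, L.rho_val, L.rho_val]
  have h1 := L.YX_inc h
  have h2 := L.YX_inc h.symm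
  calc (1 + XX x a * ((g : R) - 1) * YY y a) * (1 + XX x b * ((k : R) - 1) * YY y b)
      = 1 + XX x a * ((g : R) - 1) * YY y a + XX x b * ((k : R) - 1) * YY y b
        + XX x a * ((g : R) - 1) * (YY y a * XX x b) * ((k : R) - 1) * YY y b := by
        noncomm_ring
    _ = 1 + XX x a * ((g : R) - 1) * YY y a + XX x b * ((k : R) - 1) * YY y b
        + XX x b * ((k : R) - 1) * (YY y b * XX x a) * ((g : R) - 1) * YY y a := by
        rw [h1, h2]; simp
    _ = (1 + XX x b * ((k : R) - 1) * YY y b) * (1 + XX x a * ((g : R) - 1) * YY y a) := by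
        noncomm_ring

/-- TARGET 6 -/
theorem rho_rho {R : Type} [Ring R] {x y : Bool → R} {p : ℕ} (L : Leav p x y)
    (a b : List Bool) (g : Rˣ) : L.rho a (L.rho b g) = L.rho (a ++ b) g := by
  ext
  rw [L.rho_val, L.rho_val, L.rho_val, XX_append, YY_append]
  noncomm_ring

/-- TARGET 7 -/
theorem rho_injective {R : Type} [Ring R] {x y : Bool → R} {p : ℕ} (L : Leav p x y)
    (a : List Bool) : Function.Injective (L.rho a) := by
  intro g k hgk
  have h1 := congrArg (fun u : Rˣ => YY y a * (u : R) * XX x a) hgk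
  simp only [L.rho_val] at h1
  have h2 := L.YX_same a
  have h3 : ∀ g : R, YY y a * (1 + XX x a * (g - 1) * YY y a) * XX x a = g := by
    intro g
    calc YY y a * (1 + XX x a * (g - 1) * YY y a) * XX x a
        = YY y a * XX x a + (YY y a * XX x a) * (g - 1) * (YY y a * XX x a) := by noncomm_ring
      _ = g := by rw [h2]; simp
  rw [h3, h3] at h1
  exact Units.ext h1

end Helper418
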