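import Pool.Agent.Helper418_Sofic.GenT
import Pool.Agent.Helper418_Sofic.GenC
import Pool.Agent.Helper418_Sofic.WW

/-!
# The group `G`, its subgroup `K` and the self-similarity data
-/

open scoped Classical

namespace Helper418

namespace Alg2

variable {R : Type} [Ring R] {x y : Bool → R}

/-- the group generated by the 15 transvections -/
noncomputable def GG (x y : Bool → R) : Subgroup Rˣ := Subgroup.closure (Set.range (gen x y))

theorem tsystem_map {G H : Type} [Group G] [Group H] {ι : Type} [Fintype ι] {p D : ℕ}
    {s : ι → G} (hs : IsTSystem p D s) (f : G →* H) : IsTSystem p D (fun i => f (s i)) where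
  prime := hs.prime
  hD := hs.hD
  pow i := by rw [← map_pow, hs.pow, map_one]
  comm i j := by
    have := (hs.comm i j).map f
    simpa [cm, map_mul, map_inv] using this
  deg i := by
    refine le_trans (Finset.card_le_card ?_) (hs.deg i)
    intro j hj
    simp only [Finset.mem_filter, Finset.mem_univ, true_and] at hj ⊢
    exact fun hc => hj (hc.map f)

theorem tsystem_comap {G H : Type} [Group G] [Group H] {ι : Type} [Fintype ι] {p D : ℕ}
    {s : ι → G} (f : G →* H) (hf : Function.Injective f) (hs : IsTSystem p D (fun i => f (s i))) :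
    IsTSystem p D s where
  prime := hs.prime
  hD := hs.hD
  pow i := by
    apply hf; rw [map_pow, map_one]; exact hs.pow i
  comm i j := by
    have h : Commute (cm (f (s i)) (f (s j))) (f (s i)) := hs.comm i j
    show cm (s i) (s j) * s i = s i * cm (s i) (s j)
    apply hf
    have h' : cm (f (s i)) (f (s j)) * f (s i) = f (s i) * cm (f (s i)) (f (s j)) := h
    simpa [cm, map_mul, map_inv] using h'
  deg i := by
    refine le_trans (Finset.card_le_card ?_) (hs.deg i)
    intro j hj
    simp only [Finset.mem_filter, Finset.mem_univ, true_and] at hj ⊢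
    intro hc
    apply hj
    show s i * s j = s j * s i
    apply hf
    have h' : f (s i) * f (s j) = f (s j) * f (s i) := hc
    simpa using h'

section
variable {p : ℕ} (L : Leav p x y)
include L

theorem tr_mem {a b : List Bool} (h : Inc a b) : tr (XX x a * YY y b) ∈ GG x y :=
  gen_closure L h

/-- generators in the form `tr (X_a Y_b)` -/
theorem rr_form (c d : List Bool) (k : Fin 5) :
    ∃ a b : List Bool, XX x c * rr x y k * YY y d = XX x (c ++ a) * YY y (d ++ b) := by
  fin_cases k
  · exact ⟨[], [], by simp [rr]⟩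
  · exact ⟨[false], [], by simp [rr, XX_append, XX]⟩
  · exact ⟨[true], [], by simp [rr, XX_append, XX]⟩
  · exact ⟨[], [false], by simp [rr, YY_append, YY, mul_assoc]⟩
  · exact ⟨[], [true], by simp [rr, YY_append, YY, mul_assoc]⟩

theorem tr_rr_mem {c d : List Bool} (h : Inc c d) (k : Fin 5) :
    tr (XX x c * rr x y k * YY y d) ∈ GG x y := by
  obtain ⟨a, b, hab⟩ := rr_form L c d k
  rw [hab]
  exact tr_mem L (GenC.inc_append h a b)

theorem rho_tr_rr {u c d : List Bool} (h : Inc c d) (k : Fin 5) :
    L.rho u (tr (XX x c * rr x y k * YY y d)) =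
      tr (XX x (u ++ c) * rr x y k * YY y (u ++ d)) := by
  rw [L.rho_tr u (L.sq_zero h _), XX_append, YY_append]
  congr 1
  noncomm_ring

theorem rho_mem (c : List Bool) {g : Rˣ} (hg : g ∈ GG x y) : L.rho c g ∈ GG x y := by
  have : GG x y ≤ (GG x y).comap (L.rho c) := by
    rw [GG, Subgroup.closure_le]
    rintro _ ⟨i, rfl⟩
    show L.rho c (gen x y i) ∈ GG x y
    have hi : Inc (code i.1) (code (i.1 + 1)) := by
      apply GenC.inc_code
      intro h
      have : ∀ a : Fin 3, a ≠ a + 1 := by decide
      exact this _ h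
    unfold gen
    rw [rho_tr_rr L hi]
    apply tr_rr_mem L
    constructor
    · intro hp
      exact hi.1 ((List.prefix_append_right_inj c).1 hp)
    · intro hp
      exact hi.2 ((List.prefix_append_right_inj c).1 hp)
  exact this hg

theorem ww_mem {a b : List Bool} (h : Inc a b) : ww x y a b ∈ GG x y := by
  unfold ww
  refine Subgroup.mul_mem _ (Subgroup.mul_mem _ (tr_mem L h) ?_) (tr_mem L h)
  have h0 : (XX x b * YY y a) * (XX x b * YY y a) = 0 := by
    have := L.sq_zero h.symm 1
    simpa using this
  rw [← tr_inv h0]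
  exact Subgroup.inv_mem _ (tr_mem L h.symm)

end

/-- the corner embedding restricted to `G` -/
noncomputable def rhoG {p : ℕ} (L : Leav p x y) (c : List Bool) : GG x y →* GG x y :=
  ((L.rho c).comp (GG x y).subtype).codRestrict (GG x y) (fun g => rho_mem L c g.2)

theorem rhoG_coe {p : ℕ} (L : Leav p x y) (c : List Bool) (g : GG x y) :
    ((rhoG L c g : GG x y) : Rˣ) = L.rho c g := rfl

/-- the 15 generators as elements of `G` -/
noncomputable def sG (x y : Bool → R) (i : Fin 3 × Fin 5) : GG x y :=
  ⟨gen x y i, Subgroup.subset_closure ⟨i, rfl⟩⟩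

theorem sG_closure (x y : Bool → R) : Subgroup.closure (Set.range (sG x y)) = ⊤ := by
  rw [eq_top_iff]
  rintro ⟨g, hg⟩ _
  have : (GG x y) ≤ (Subgroup.closure (Set.range (sG x y))).map (GG x y).subtype := by
    rw [MonoidHom.map_closure]
    conv_lhs => rw [GG]
    apply Subgroup.closure_mono
    rintro _ ⟨i, rfl⟩
    exact ⟨sG x y i, ⟨i, rfl⟩, rfl⟩
  obtain ⟨g', hg', e⟩ := this hg
  have : g' = ⟨g, hg⟩ := Subtype.ext e
  rwa [this] at hg'

theorem sG_tsystem (L : Leav 101 x y) : IsTSystem 101 10 (sG x y) :=
  tsystem_comap (GG x y).subtype (Subgroup.subtype_injective _) (gen_tsystem L)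

/-- the signed swap in `G` -/
noncomputable def W {p : ℕ} (L : Leav p x y) {a b : List Bool} (h : Inc a b) : GG x y :=
  ⟨ww x y a b, ww_mem L h⟩

section
variable {p : ℕ} (L : Leav p x y)

theorem W_conj1 {a b : List Bool} (h : Inc a b) (g : GG x y) :
    W L h * rhoG L b g * (W L h)⁻¹ = rhoG L a g := Subtype.ext (ww_conj L h g).1

theorem W_conj2 {a b : List Bool} (h : Inc a b) (g : GG x y) :
    W L h * rhoG L a g * (W L h)⁻¹ = rhoG L b g := Subtype.ext (ww_conj L h g).2

theorem W_comm {a b c : List Bool} (h : Inc a b) (hca : Inc c a) (hcb : Inc c b) (g : GG x y) :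
    Commute (W L h) (rhoG L c g) := Subtype.ext (ww_comm L h hca hcb g).eq

theorem rhoG_comm {a b : List Bool} (h : Inc a b) (g k : GG x y) :
    Commute (rhoG L a g) (rhoG L b k) := Subtype.ext (rho_commute L h g k).eq

theorem rhoG_rhoG (a b : List Bool) (g : GG x y) : rhoG L a (rhoG L b g) = rhoG L (a ++ b) g :=
  Subtype.ext (rho_rho L a b g)

theorem rhoG_inj (a : List Bool) : Function.Injective (rhoG L a) := by
  intro g k h
  have : L.rho a g = L.rho a k := congrArg Subtype.val h
  exact Subtype.ext (rho_injective L a this)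

theorem mem_K (c : List Bool) (v : GG x y) :
    v ∈ Subgroup.closure (Set.range fun i => rhoG L c (sG x y i)) ↔ ∃ g, v = rhoG L c g := by
  have e : (Set.range fun i => rhoG L c (sG x y i)) = (rhoG L c) '' (Set.range (sG x y)) := by
    ext z; simp
  rw [e, ← MonoidHom.map_closure, sG_closure, Subgroup.mem_map]
  constructor
  · rintro ⟨g, _, rfl⟩; exact ⟨g, rfl⟩
  · rintro ⟨g, rfl⟩; exact ⟨g, trivial, rfl⟩

end

theorem conj_mul {G : Type} [Group G] (a b g : G) :
    (a * b) * g * (a * b)⁻¹ = a * (b * g * b⁻¹) * a⁻¹ := by group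

theorem conj_of_commute {G : Type} [Group G] {a g : G} (h : Commute a g) : a * g * a⁻¹ = g := by
  rw [h.eq, mul_inv_cancel_right]

theorem inc_f_t : Inc [false] [true] := by unfold Inc; simp
theorem inc_t_ff : Inc [true] [false, false] := by unfold Inc; simp
theorem inc_f_tf : Inc [false] [true, false] := by unfold Inc; simp
theorem inc_ft_tf : Inc [false, true] [true, false] := by unfold Inc; simp
theorem inc_ff_ft : Inc [false, false] [false, true] := by unfold Inc; simp
theorem inc_ff_tf : Inc [false, false] [true, false] := by unfold Inc; simp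
theorem inc_tt_f : Inc [true, true] [false] := by unfold Inc; simp
theorem inc_tt_tf : Inc [true, true] [true, false] := by unfold Inc; simp

/-- All the algebraic data needed for the main theorem. -/
theorem exists_data (L : Leav 101 x y) :
    ∃ (s k : Fin 3 × Fin 5 → GG x y) (P : Set (GG x y)) (a : GG x y) (Γ : Subgroup (GG x y)),
      IsTSystem 101 10 s ∧ IsTSystem 101 10 k ∧ Subgroup.closure (Set.range s) = ⊤ ∧
      (∀ v ∈ P, ∀ i, v * k i * v⁻¹ ∈ Subgroup.closure (Set.range k)) ∧
      Subgroup.closure P = ⊤ ∧ a ∈ P ∧ Γ ≤ Subgroup.closure (Set.range k) ∧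
      (∀ γ ∈ Γ, ∀ i, Commute γ (a * k i * a⁻¹)) ∧
      ∃ (h : Fin 3 × Fin 5 → GG x y) (t z w : GG x y), (∀ i, h i ∈ Γ) ∧ t ∈ Γ ∧ z ∈ Γ ∧
        (∀ i, t * h i * t⁻¹ ∈ Subgroup.closure (Set.range h)) ∧
        (∀ i, Commute z (t * h i * t⁻¹)) ∧ w ∈ Subgroup.closure (Set.range h) ∧
        ¬ Commute z w := by
  set k : Fin 3 × Fin 5 → GG x y := fun i => rhoG L [false] (sG x y i) with hk
  set P : Set (GG x y) := {v | ∀ i, v * k i * v⁻¹ ∈ Subgroup.closure (Set.range k)} with hP
  have hPmem : ∀ v : GG x y, (∀ g, ∃ g', v * rhoG L [false] g * v⁻¹ = rhoG L [false] g') →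
      v ∈ P := by
    intro v hv i
    obtain ⟨g', hg'⟩ := hv (sG x y i)
    show v * rhoG L [false] (sG x y i) * v⁻¹ ∈ _
    rw [hg']
    exact (mem_K L [false] _).2 ⟨g', rfl⟩
  -- the special elements
  set a : GG x y := W L inc_t_ff * W L inc_f_t with ha
  set b : GG x y := W L inc_f_tf with hb
  set g : GG x y := W L inc_ft_tf with hg
  have ha_conj : ∀ u, a * rhoG L [false] u * a⁻¹ = rhoG L [false, false] u := by
    intro u
    rw [ha, conj_mul, W_conj2, W_conj2]
  have hb_conj : ∀ u, b * rhoG L [false] u * b⁻¹ = rhoG L [true, false] u := by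
    intro u
    rw [hb, W_conj2]
  have hg_conj : ∀ u, g * rhoG L [true, false] u * g⁻¹ = rhoG L [false, true] u := by
    intro u
    rw [hg, W_conj1]
  have hg_ff : ∀ u, g * rhoG L [false, false] u * g⁻¹ = rhoG L [false, false] u := by
    intro u
    exact conj_of_commute (W_comm L _ inc_ff_ft inc_ff_tf u)
  have haP : a ∈ P := by
    apply hPmem
    intro u
    exact ⟨rhoG L [false] u, by rw [ha_conj, rhoG_rhoG]; rfl⟩
  have hgaP : g * a ∈ P := by
    apply hPmem
    intro u
    exact ⟨rhoG L [false] u, by rw [conj_mul, ha_conj, hg_ff, rhoG_rhoG]; rfl⟩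
  have hgbP : g * b ∈ P := by
    apply hPmem
    intro u
    exact ⟨rhoG L [true] u, by rw [conj_mul, hb_conj, hg_conj, rhoG_rhoG]; rfl⟩
  have h1P : ∀ u, rhoG L [true] u ∈ P := by
    intro u
    apply hPmem
    intro v
    exact ⟨v, conj_of_commute (rhoG_comm L inc_f_t.symm u v)⟩
  -- `P` generates
  have hQ : Subgroup.closure P = ⊤ := by
    set Q := Subgroup.closure P with hQdef
    have haQ : a ∈ Q := Subgroup.subset_closure haP
    have hgQ : g ∈ Q := by
      have := Q.mul_mem (Subgroup.subset_closure hgaP) (Q.inv_mem haQ)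
      rwa [mul_inv_cancel_right] at this
    have hbQ : b ∈ Q := by
      have := Q.mul_mem (Q.inv_mem hgQ) (Subgroup.subset_closure hgbP)
      rwa [inv_mul_cancel_left] at this
    have h1Q : ∀ u, rhoG L [true] u ∈ Q := fun u => Subgroup.subset_closure (h1P u)
    -- transvections in the corner `1`
    have m1 : ∀ k : Fin 5, ∀ h : tr (XX x [true, false] * rr x y k * YY y [true, true]) ∈ GG x y,
        (⟨_, h⟩ : GG x y) ∈ Q := by
      intro k h
      have := h1Q ⟨_, tr_rr_mem L inc_f_t k⟩
      convert this using 1
      apply Subtype.ext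
      rw [rhoG_coe, rho_tr_rr L inc_f_t]
      rfl
    have m1' : ∀ k : Fin 5, ∀ h : tr (XX x [true, true] * rr x y k * YY y [true, false]) ∈ GG x y,
        (⟨_, h⟩ : GG x y) ∈ Q := by
      intro k h
      have := h1Q ⟨_, tr_rr_mem L inc_f_t.symm k⟩
      convert this using 1
      apply Subtype.ext
      rw [rhoG_coe, rho_tr_rr L inc_f_t.symm]
      rfl
    have m0 : ∀ k : Fin 5, ∀ h : tr (XX x [false] * rr x y k * YY y [true, true]) ∈ GG x y,
        (⟨_, h⟩ : GG x y) ∈ Q := by
      intro k h
      have := Q.mul_mem (Q.mul_mem hbQ (m1 k (tr_rr_mem L inc_tt_tf.symm k))) (Q.inv_mem hbQ)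
      convert this using 1
      apply Subtype.ext
      exact (ww_tr_left L inc_f_tf inc_tt_f inc_tt_tf (rr x y k)).symm
    have m2 : ∀ k : Fin 5, ∀ h : tr (XX x [true, true] * rr x y k * YY y [false]) ∈ GG x y,
        (⟨_, h⟩ : GG x y) ∈ Q := by
      intro k h
      have := Q.mul_mem (Q.mul_mem hbQ (m1' k (tr_rr_mem L inc_tt_tf k))) (Q.inv_mem hbQ)
      convert this using 1
      apply Subtype.ext
      exact (ww_tr_right L inc_f_tf inc_tt_f inc_tt_tf (rr x y k)).symm
    have m3 : ∀ k : Fin 5, ∀ h : tr (XX x [false] * rr x y k * YY y [true, false]) ∈ GG x y,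
        (⟨_, h⟩ : GG x y) ∈ Q := by
      intro k h
      have h1 := m0 k (tr_rr_mem L inc_tt_f.symm k)
      have h2 := m1' 0 (tr_rr_mem L inc_tt_tf 0)
      have h3 := GenC.cm_mem h1 h2
      convert h3 using 1
      apply Subtype.ext
      have e : (XX x [true, true] * rr x y 0 * YY y [true, false]) *
          (XX x [false] * rr x y k * YY y [true, true]) = 0 := by
        have : YY y [true, false] * XX x [false] = 0 := L.YX_inc inc_f_tf.symm
        calc _ = XX x [true, true] * rr x y 0 * (YY y [true, false] * XX x [false]) *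
              rr x y k * YY y [true, true] := by noncomm_ring
          _ = 0 := by rw [this]; simp
      have e2 : cm (tr (XX x [false] * rr x y k * YY y [true, true]))
          (tr (XX x [true, true] * rr x y 0 * YY y [true, false])) =
          tr (XX x [false] * rr x y k * YY y [true, false]) := by
        rw [cm_tr (L.sq_zero inc_tt_f.symm _) (L.sq_zero inc_tt_tf _) e]
        congr 1
        calc XX x [false] * rr x y k * YY y [true, true] *
              (XX x [true, true] * rr x y 0 * YY y [true, false])
            = XX x [false] * rr x y k * (YY y [true, true] * XX x [true, true]) * rr x y 0 *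
                YY y [true, false] := by noncomm_ring
          _ = XX x [false] * rr x y k * YY y [true, false] := by
              rw [L.YX_same]; simp [rr]
      exact e2.symm
    rw [eq_top_iff, ← sG_closure x y, Subgroup.closure_le]
    rintro _ ⟨⟨i, k⟩, rfl⟩
    show sG x y (i, k) ∈ Q
    fin_cases i
    · exact m3 k _
    · exact m1 k _
    · exact m2 k _
  refine ⟨sG x y, k, P, a, (rhoG L [false, true]).range, sG_tsystem L,
    tsystem_map (sG_tsystem L) _, sG_closure x y, fun v hv => hv, hQ, haP, ?_, ?_, ?_⟩
  · rintro _ ⟨u, rfl⟩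
    exact (mem_K L [false] _).2 ⟨rhoG L [true] u, by rw [rhoG_rhoG]; rfl⟩
  · rintro _ ⟨u, rfl⟩ i
    rw [hk, ha_conj]
    exact rhoG_comm L inc_ff_ft.symm _ _
  · set e0 : GG x y := ⟨_, tr_mem L inc_f_t⟩ with he0
    set f0 : GG x y := ⟨_, tr_mem L inc_f_t.symm⟩ with hf0
    refine ⟨fun i => rhoG L [false, true] (k i), rhoG L [false, true] a,
      rhoG L [false, true] (rhoG L [false, true] e0),
      rhoG L [false, true] (rhoG L [false, true] f0), fun i => ⟨_, rfl⟩, ⟨_, rfl⟩, ⟨_, rfl⟩,
      ?_, ?_, ?_, ?_⟩
    · intro i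
      have h1 : rhoG L [false, true] a * rhoG L [false, true] (k i) *
          (rhoG L [false, true] a)⁻¹ = rhoG L [false, true] (rhoG L [false, false] (sG x y i)) := by
        rw [← map_inv, ← map_mul, ← map_mul, hk, ha_conj]
      rw [h1]
      have h2 : rhoG L [false, false] (sG x y i) ∈ Subgroup.closure (Set.range k) :=
        (mem_K L [false] _).2 ⟨rhoG L [false] (sG x y i), by rw [rhoG_rhoG]; rfl⟩
      have h3 := Subgroup.mem_map_of_mem (rhoG L [false, true]) h2
      rw [MonoidHom.map_closure, ← Set.range_comp] at h3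
      exact h3
    · intro i
      have h1 : rhoG L [false, true] a * rhoG L [false, true] (k i) *
          (rhoG L [false, true] a)⁻¹ = rhoG L [false, true] (rhoG L [false, false] (sG x y i)) := by
        rw [← map_inv, ← map_mul, ← map_mul, hk, ha_conj]
      rw [h1]
      exact (rhoG_comm L inc_ff_ft.symm _ _).map (rhoG L [false, true])
    · have h2 : rhoG L [false, true] f0 ∈ Subgroup.closure (Set.range k) :=
        (mem_K L [false] _).2 ⟨rhoG L [true] f0, by rw [rhoG_rhoG]; rfl⟩
      have h3 := Subgroup.mem_map_of_mem (rhoG L [false, true]) h2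
      rw [MonoidHom.map_closure, ← Set.range_comp] at h3
      exact h3
    · intro hc
      have h1 : e0 * f0 = f0 * e0 := by
        apply rhoG_inj L [false, true]
        apply rhoG_inj L [false, true]
        have := hc.eq
        simpa [map_mul] using this
      have h2 : (tr (XX x [false] * YY y [true]) : Rˣ) * tr (XX x [true] * YY y [false]) =
          tr (XX x [true] * YY y [false]) * tr (XX x [false] * YY y [true]) :=
        congrArg Subtype.val h1
      have s1 : (XX x [false] * YY y [true]) * (XX x [false] * YY y [true]) = 0 := by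
        simpa using L.sq_zero inc_f_t 1
      have s2 : (XX x [true] * YY y [false]) * (XX x [true] * YY y [false]) = 0 := by
        simpa using L.sq_zero inc_f_t.symm 1
      have h3 := congrArg (Units.val) h2
      rw [Units.val_mul, Units.val_mul, tr_val s1, tr_val s2] at h3
      have h4 : XX x [false] * YY y [true] * (XX x [true] * YY y [false]) =
          XX x [true] * YY y [false] * (XX x [false] * YY y [true]) := by
        have : (1 + XX x [false] * YY y [true]) * (1 + XX x [true] * YY y [false]) -
            (1 + XX x [false] * YY y [true] + XX x [true] * YY y [false]) =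
            (1 + XX x [true] * YY y [false]) * (1 + XX x [false] * YY y [true]) -
            (1 + XX x [false] * YY y [true] + XX x [true] * YY y [false]) := by rw [h3]
        calc XX x [false] * YY y [true] * (XX x [true] * YY y [false])
            = (1 + XX x [false] * YY y [true]) * (1 + XX x [true] * YY y [false]) -
            (1 + XX x [false] * YY y [true] + XX x [true] * YY y [false]) := by noncomm_ring
          _ = _ := this
          _ = _ := by noncomm_ring
      have yx1 : YY y [false] * XX x [false] = 1 := L.YX_same _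
      have yx2 : YY y [true] * XX x [true] = 1 := L.YX_same _
      have yx3 : YY y [false] * XX x [true] = 0 := L.YX_inc inc_f_t
      have h5 : YY y [false] * (XX x [false] * YY y [true] * (XX x [true] * YY y [false])) *
          XX x [false] = YY y [false] * (XX x [true] * YY y [false] *
          (XX x [false] * YY y [true])) * XX x [false] := by rw [h4]
      have h6 : YY y [false] * (XX x [false] * YY y [true] * (XX x [true] * YY y [false])) *
          XX x [false] = (YY y [false] * XX x [false]) * (YY y [true] * XX x [true]) *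
          (YY y [false] * XX x [false]) := by noncomm_ring
      have h7 : YY y [false] * (XX x [true] * YY y [false] *
          (XX x [false] * YY y [true])) * XX x [false] = (YY y [false] * XX x [true]) *
          YY y [false] * (XX x [false] * YY y [true]) * XX x [false] := by noncomm_ring
      rw [h6, h7, yx1, yx2, yx3] at h5
      simp at h5
      exact L.nontriv h5
end Alg2

end Helper418
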