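import Pool.Agent.Helper418_Sofic.Defs

/-!
# Soficity (definition of the problem file) and faithful sequences of approximations
-/

open Filter Topology Finset
open scoped Classical

namespace Helper418

/-- normalised Hamming distance on `Sym(n)` -/
noncomputable def hamming {n : ℕ} (σ τ : Equiv.Perm (Fin n)) : ℝ :=
  ((Finset.univ.filter fun i => σ i ≠ τ i).card : ℝ) / n

/-- `G` is sofic: for every finite `A ⊆ G` containing `1` and every `ε > 0` there are `n ≥ 1` and
a map `φ : A → Sym(n)` with `φ 1 = id`, `d(φ(ab), φ(a)φ(b)) < ε` whenever `a, b, ab ∈ A`, and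
`d(φ(a), id) ≥ 1 - ε` for `a ∈ A`, `a ≠ 1`. -/
def IsSofic (G : Type*) [Group G] : Prop :=
  ∀ A : Finset G, ∀ h1 : 1 ∈ A, ∀ ε : ℝ, 0 < ε →
    ∃ n : ℕ, 1 ≤ n ∧ ∃ φ : {a : G // a ∈ A} → Equiv.Perm (Fin n),
      φ ⟨1, h1⟩ = 1 ∧
      (∀ a b : {a : G // a ∈ A}, ∀ hab : (a : G) * b ∈ A,
        hamming (φ ⟨(a : G) * b, hab⟩) (φ a * φ b) < ε) ∧
      ∀ a : {a : G // a ∈ A}, (a : G) ≠ 1 → 1 - ε ≤ hamming (φ a) 1

/-- a countable sofic group has a faithful sequence of approximations -/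
theorem exists_approx {G : Type} [Group G] [Countable G] (hG : IsSofic G) :
    ∃ (m : ℕ → ℕ) (_ : ∀ n, Nonempty (Fin (m n))) (Φ : Approx G (fun n => Fin (m n))),
      ∀ g : G, g ≠ 1 → ∀ᶠ x in ae (fun n => Fin (m n)), Φ.φ x.1 g x.2 ≠ x.2 := by
  obtain ⟨enum, henum⟩ := exists_surjective_nat G
  set S : ℕ → Finset G := fun n => insert 1 ((range (n + 1)).image enum) with hS
  have h1 : ∀ n, (1 : G) ∈ S n := fun n => mem_insert_self _ _
  have hev : ∀ g : G, ∀ᶠ n in atTop, g ∈ S n := by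
    intro g
    obtain ⟨k, hk⟩ := henum g
    filter_upwards [eventually_ge_atTop k] with n hn
    exact mem_insert_of_mem (mem_image.2 ⟨k, mem_range.2 (by omega), hk⟩)
  have hε : ∀ n : ℕ, (0 : ℝ) < 1 / ((n : ℝ) + 1) := fun n => by positivity
  choose m hm φ hφ1 hφm hφf using fun n : ℕ => hG (S n) (h1 n) (1 / ((n : ℝ) + 1)) (hε n)
  have hlim : Tendsto (fun n : ℕ => 1 / ((n : ℝ) + 1)) atTop (𝓝 0) :=
    tendsto_one_div_add_atTop_nhds_zero_nat
  refine ⟨m, fun n => ⟨⟨0, hm n⟩⟩,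
    ⟨fun n g => if h : g ∈ S n then φ n ⟨g, h⟩ else 1, ?_⟩, ?_⟩
  · intro g h
    rw [mem_ae (A := fun n => Fin (m n))
      (P := fun n a => (if h' : g * h ∈ S n then φ n ⟨g * h, h'⟩ else 1) a =
        (if h' : g ∈ S n then φ n ⟨g, h'⟩ else 1) ((if h' : h ∈ S n then φ n ⟨h, h'⟩ else 1) a))]
    refine squeeze_zero' (Eventually.of_forall fun n => dens_nonneg _ n) ?_ hlim
    filter_upwards [hev g, hev h, hev (g * h)] with n hg hh hgh
    have := (hφm n ⟨g, hg⟩ ⟨h, hh⟩ hgh).le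
    refine le_trans (le_of_eq ?_) this
    simp only [dif_pos hg, dif_pos hh, dif_pos hgh, dens, hamming, Fintype.card_fin]
    congr
  · intro g hg1
    rw [mem_ae (A := fun n => Fin (m n))
      (P := fun n a => (if h' : g ∈ S n then φ n ⟨g, h'⟩ else 1) a ≠ a)]
    refine squeeze_zero' (Eventually.of_forall fun n => dens_nonneg _ n) ?_ hlim
    filter_upwards [hev g] with n hg
    have h2 := hφf n ⟨g, hg⟩ hg1
    have hmpos : (0 : ℝ) < m n := by exact_mod_cast hm n
    have key : dens (A := fun n => Fin (m n)) (fun n a =>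
        ¬ (if h' : g ∈ S n then φ n ⟨g, h'⟩ else 1) a ≠ a) n = 1 - hamming (φ n ⟨g, hg⟩) 1 := by
      simp only [dif_pos hg, dens, hamming, Fintype.card_fin]
      rw [eq_sub_iff_add_eq, ← add_div, div_eq_one_iff_eq hmpos.ne']
      have hc := Finset.card_filter_add_card_filter_not (s := (univ : Finset (Fin (m n))))
        (fun a => φ n ⟨g, hg⟩ a ≠ a)
      rw [card_univ, Fintype.card_fin] at hc
      rw [add_comm]
      have hc' : (((univ.filter fun a => φ n ⟨g, hg⟩ a ≠ a).card : ℝ) +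
          ((univ.filter fun a => ¬ φ n ⟨g, hg⟩ a ≠ a).card : ℝ)) = m n := by
        exact_mod_cast hc
      convert hc' using 2
      all_goals try simp only [Equiv.Perm.coe_one, id_eq]
      all_goals try congr
    rw [key]
    linarith

end Helper418
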