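import Pool.Agent.Helper418_Sofic.Main2
import Pool.Agent.Helper418_Sofic.SoficDef

/-!
# The group is countable and not sofic
-/

open Filter Topology Finset
open scoped Classical

namespace Helper418

theorem countable_closure {G : Type} [Group G] (S : Set G) (hS : S.Countable) :
    Countable (Subgroup.closure S) := by
  haveI : Countable S := hS.to_subtype
  haveI : Countable (FreeGroup S) := by
    unfold FreeGroup
    infer_instance
  rw [FreeGroup.closure_eq_range]
  exact (MonoidHom.rangeRestrict_surjective _).countable

instance {R : Type} [Ring R] (x y : Bool → R) : Countable (Alg2.GG x y) :=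
  countable_closure _ (Set.finite_range _).countable

theorem fg_GG {R : Type} [Ring R] (x y : Bool → R) : Group.FG (Alg2.GG x y) := by
  rw [Group.fg_iff]
  exact ⟨Set.range (Alg2.sG x y), Alg2.sG_closure x y, Set.finite_range _⟩

/-- The transvection group over a Leavitt pair of characteristic 101 is not sofic. -/
theorem not_sofic {R : Type} [Ring R] {x y : Bool → R} (L : Leav 101 x y) :
    ¬ IsSofic (Alg2.GG x y) := by
  intro h
  obtain ⟨m, hm, Φ, hΦ⟩ := exists_approx h
  exact no_approx L Φ hΦ

end Helper418
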