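import Pool.Agent.Helper418_Sofic.Defs

/-!
# Sofic actions (definition of the problem file)
-/

open scoped Classical

namespace Helper418

/-- normalised Hamming distance on the permutations of a finite set -/
noncomputable def hamD {A : Type} [Fintype A] (σ τ : Equiv.Perm A) : ℝ :=
  ((Finset.univ.filter fun a => σ a ≠ τ a).card : ℝ) / (Fintype.card A : ℝ)

/-- `φ` is an `(F, E, ε)`-orbit approximation of the action `α` -/
def IsOrbitApprox {G X : Type} [Group G] (α : G →* Equiv.Perm X) {A : Type} [Fintype A]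
    (φ : G → Equiv.Perm A) (F : Finset G) (E : Finset X) (ε : ℝ) : Prop :=
  ∃ (B : Type) (_ : Finite B) (S : Finset A) (π : {s : A // s ∈ S} → {x : X // x ∈ E} → B),
    (1 - ε) * (Fintype.card A : ℝ) < (S.card : ℝ) ∧
    (∀ s, Function.Injective (π s)) ∧
    ∀ (s : {s : A // s ∈ S}) (g : G) (x : {x : X // x ∈ E}), g ∈ F →
      ∀ (hs : φ g s ∈ S) (hx : α g⁻¹ x ∈ E),
        π ⟨φ g s, hs⟩ x = π s ⟨α g⁻¹ x, hx⟩

/-- the action `α` is sofic -/
def SoficAction {G X : Type} [Group G] (α : G →* Equiv.Perm X) : Prop :=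
  ∀ (F : Finset G) (E : Finset X) (ε : ℝ), 0 < ε →
    ∃ (A : Type) (_ : Fintype A) (φ : G → Equiv.Perm A),
      φ 1 = 1 ∧ (∀ g ∈ F, ∀ h ∈ F, hamD (φ (g * h)) (φ g * φ h) < ε) ∧
      IsOrbitApprox α φ F E ε

end Helper418
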