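import Pool.Agent.Helper418_Sofic.Defs

/-!
# Leavitt relations, transvections, and the groups generated by them
-/

open scoped Classical

namespace Helper418

/-- Leavitt relations `y i * x j = δ i j`, `x 0 y 0 + x 1 y 1 = 1`, in a ring of characteristic `p` -/
structure Leav {R : Type} [Ring R] (p : ℕ) (x y : Bool → R) : Prop where
  same : ∀ i, y i * x i = 1
  diff : ∀ i j, i ≠ j → y i * x j = 0
  sum : x false * y false + x true * y true = 1
  char : (p : R) = 0
  nontriv : (1 : R) ≠ 0

section
variable {R : Type} [Ring R] (x y : Bool → R)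

/-- product of the `x`'s along a word -/
def XX : List Bool → R
  | [] => 1
  | b :: w => x b * XX w

/-- product of the `y`'s along the reversed word -/
def YY : List Bool → R
  | [] => 1
  | b :: w => YY w * y b

/-- incomparable words -/
def Inc (a b : List Bool) : Prop := ¬ a <+: b ∧ ¬ b <+: a

/-- the transvection `1 + n`, `n * n = 0` -/
noncomputable def tr (n : R) : Rˣ :=
  if h : n * n = 0 then ⟨1 + n, 1 - n, by rw [mul_sub, add_mul, add_mul]; simp [h],
    by rw [mul_add, sub_mul, sub_mul]; simp [h]⟩ else 1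

variable {x y}

theorem XX_append (a b : List Bool) : XX x (a ++ b) = XX x a * XX x b := by
  induction a with
  | nil => simp [XX]
  | cons c w ih => simp [XX, ih, mul_assoc]

theorem YY_append (a b : List Bool) : YY y (a ++ b) = YY y b * YY y a := by
  induction a with
  | nil => simp [YY]
  | cons c w ih => simp [YY, ih, mul_assoc]

theorem Inc.symm {a b : List Bool} (h : Inc a b) : Inc b a := ⟨h.2, h.1⟩

theorem tr_val {n : R} (h : n * n = 0) : ((tr n : Rˣ) : R) = 1 + n := by
  simp [tr, h]

theorem tr_inv_val {n : R} (h : n * n = 0) : (((tr n)⁻¹ : Rˣ) : R) = 1 - n := by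
  simp [tr, h]

namespace Leav
variable {p : ℕ} (L : Leav p x y)
include L

theorem YX_same (a : List Bool) : YY y a * XX x a = 1 := by
  induction a with
  | nil => simp [XX, YY]
  | cons c w ih =>
    simp only [XX, YY]
    rw [mul_assoc, ← mul_assoc (y c), L.same, one_mul, ih]

theorem YX_inc {a b : List Bool} (h : Inc a b) : YY y a * XX x b = 0 := by
  induction a generalizing b with
  | nil => exact absurd (List.nil_prefix) h.1
  | cons c w ih =>
    cases b with
    | nil => exact absurd (List.nil_prefix) h.2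
    | cons d v =>
      simp only [XX, YY]
      by_cases hcd : c = d
      · subst hcd
        rw [mul_assoc, ← mul_assoc (y c), L.same, one_mul]
        apply ih
        constructor
        · intro hp; exact h.1 (by simpa using hp)
        · intro hp; exact h.2 (by simpa using hp)
      · rw [mul_assoc, ← mul_assoc (y c), L.diff c d hcd, zero_mul, mul_zero]

/-- nilpotency of the matrix units -/
theorem sq_zero {a b : List Bool} (h : Inc a b) (r : R) :
    (XX x a * r * YY y b) * (XX x a * r * YY y b) = 0 := by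
  have h1 : YY y b * XX x a = 0 := L.YX_inc h.symm
  calc (XX x a * r * YY y b) * (XX x a * r * YY y b)
      = XX x a * r * (YY y b * XX x a) * r * YY y b := by noncomm_ring
    _ = 0 := by rw [h1]; simp

end Leav

/-- the corner embedding `g ↦ 1 + x_c (g - 1) y_c` on units -/
noncomputable def Leav.rho {p : ℕ} (L : Leav p x y) (c : List Bool) : Rˣ →* Rˣ where
  toFun g := ⟨1 + XX x c * (g - 1) * YY y c, 1 + XX x c * ((g⁻¹ : Rˣ) - 1) * YY y c, by
      have h := L.YX_same c
      have hg : (g : R) * (g⁻¹ : Rˣ) = 1 := by simp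
      calc (1 + XX x c * ((g : R) - 1) * YY y c) * (1 + XX x c * ((g⁻¹ : Rˣ) - 1) * YY y c)
          = 1 + XX x c * ((g : R) - 1) * YY y c + XX x c * ((g⁻¹ : Rˣ) - 1) * YY y c
            + XX x c * ((g : R) - 1) * (YY y c * XX x c) * ((g⁻¹ : Rˣ) - 1) * YY y c := by
              noncomm_ring
        _ = 1 + XX x c * ((g : R) * (g⁻¹ : Rˣ) - 1) * YY y c := by rw [h]; noncomm_ring
        _ = 1 := by rw [hg]; simp, by
      have h := L.YX_same c
      have hg : ((g⁻¹ : Rˣ) : R) * g = 1 := by simp
      calc (1 + XX x c * ((g⁻¹ : Rˣ) - 1) * YY y c) * (1 + XX x c * ((g : R) - 1) * YY y c)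
          = 1 + XX x c * ((g : R) - 1) * YY y c + XX x c * ((g⁻¹ : Rˣ) - 1) * YY y c
            + XX x c * ((g⁻¹ : Rˣ) - 1) * (YY y c * XX x c) * ((g : R) - 1) * YY y c := by
              noncomm_ring
        _ = 1 + XX x c * (((g⁻¹ : Rˣ) : R) * g - 1) * YY y c := by rw [h]; noncomm_ring
        _ = 1 := by rw [hg]; simp⟩
  map_one' := by ext; simp
  map_mul' := by
    intro g k
    ext
    have h := L.YX_same c
    simp only [Units.val_mul]
    symm
    calc (1 + XX x c * ((g : R) - 1) * YY y c) * (1 + XX x c * ((k : R) - 1) * YY y c)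
        = 1 + XX x c * ((g : R) - 1) * YY y c + XX x c * ((k : R) - 1) * YY y c
            + XX x c * ((g : R) - 1) * (YY y c * XX x c) * ((k : R) - 1) * YY y c := by
              noncomm_ring
      _ = 1 + XX x c * ((g : R) * k - 1) * YY y c := by rw [h]; noncomm_ring

theorem Leav.rho_val {p : ℕ} (L : Leav p x y) (c : List Bool) (g : Rˣ) :
    ((L.rho c g : Rˣ) : R) = 1 + XX x c * (g - 1) * YY y c := rfl

theorem Leav.rho_inv_val {p : ℕ} (L : Leav p x y) (c : List Bool) (g : Rˣ) :
    (((L.rho c g)⁻¹ : Rˣ) : R) = 1 + XX x c * ((g⁻¹ : Rˣ) - 1) * YY y c := rfl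

/-! ## basic facts on transvections -/

theorem tr_inv {n : R} (h : n * n = 0) : (tr n)⁻¹ = tr (-n) := by
  ext
  rw [tr_inv_val h, tr_val (by simpa using h)]
  noncomm_ring

theorem tr_mul {n m : R} (hn : n * n = 0) (hm : m * m = 0) (hnm : n * m = 0) (hmn : m * n = 0) :
    tr n * tr m = tr (n + m) := by
  ext
  have h : (n + m) * (n + m) = 0 := by
    rw [add_mul, mul_add, mul_add, hn, hm, hnm, hmn]; simp
  rw [Units.val_mul, tr_val hn, tr_val hm, tr_val h]
  calc (1 + n) * (1 + m) = 1 + (n + m) + n * m := by noncomm_ring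
    _ = 1 + (n + m) := by rw [hnm, add_zero]

theorem tr_commute {n m : R} (hn : n * n = 0) (hm : m * m = 0) (hnm : n * m = 0)
    (hmn : m * n = 0) : Commute (tr n) (tr m) := by
  show tr n * tr m = tr m * tr n
  rw [tr_mul hn hm hnm hmn, tr_mul hm hn hmn hnm, add_comm]

theorem cm_tr {a b : R} (ha : a * a = 0) (hb : b * b = 0) (hba : b * a = 0) :
    cm (tr a) (tr b) = tr (a * b) := by
  have hab : (a * b) * (a * b) = 0 := by
    calc (a * b) * (a * b) = a * (b * a) * b := by noncomm_ring
      _ = 0 := by rw [hba]; simp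
  ext
  unfold cm
  rw [Units.val_mul, Units.val_mul, Units.val_mul, tr_inv_val ha, tr_inv_val hb, tr_val ha,
    tr_val hb, tr_val hab]
  have e : (1 + a) * (1 + b) * (1 - a) * (1 - b) = 1 + a * b - a * a - b * b - b * a - a * (b * a)
      - a * (b * b) + (b * a) * b + (a * a) * b  + a * (b * a) * b := by noncomm_ring
  rw [e, ha, hb, hba]
  simp

theorem tr_zero : tr (0 : R) = 1 := by
  ext; rw [tr_val (by simp)]; simp

theorem tr_pow {n : R} (h : n * n = 0) (k : ℕ) : (tr n) ^ k = tr ((k : R) * n) := by
  induction k with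
  | zero => simp [tr_zero]
  | succ k ih =>
    have hk : (k : R) * n = n * k := (Nat.cast_commute k n).eq
    have h1 : (k : R) * n * n = 0 := by rw [mul_assoc, h, mul_zero]
    have h2 : n * ((k : R) * n) = 0 := by rw [hk, ← mul_assoc, h, zero_mul]
    have h3 : (k : R) * n * ((k : R) * n) = 0 := by rw [mul_assoc, h2, mul_zero]
    rw [pow_succ, ih, tr_mul h3 h h1 h2]
    congr 1
    push_cast
    noncomm_ring

theorem Leav.rho_tr {p : ℕ} (L : Leav p x y) (c : List Bool) {n : R} (h : n * n = 0) :
    L.rho c (tr n) = tr (XX x c * n * YY y c) := by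
  have h2 : (XX x c * n * YY y c) * (XX x c * n * YY y c) = 0 := by
    calc (XX x c * n * YY y c) * (XX x c * n * YY y c)
        = XX x c * n * (YY y c * XX x c) * n * YY y c := by noncomm_ring
      _ = XX x c * (n * n) * YY y c := by rw [L.YX_same]; noncomm_ring
      _ = 0 := by rw [h]; simp
  ext
  rw [L.rho_val, tr_val h, tr_val h2]
  noncomm_ring

/-! ## the T-system -/

/-- the prefix code `0, 10, 11` -/
def code : Fin 3 → List Bool := ![[false], [true, false], [true, true]]

/-- generators of the Leavitt algebra -/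
def rr (x y : Bool → R) : Fin 5 → R := ![1, x false, x true, y false, y true]

/-- the 15 generating transvections -/
noncomputable def gen (x y : Bool → R) (i : Fin 3 × Fin 5) : Rˣ :=
  tr (XX x (code i.1) * rr x y i.2 * YY y (code (i.1 + 1)))

/-- the signed swap `w` of the words `a`, `b` -/
noncomputable def ww (x y : Bool → R) (a b : List Bool) : Rˣ :=
  tr (XX x a * YY y b) * tr (-(XX x b * YY y a)) * tr (XX x a * YY y b)

end

end Helper418
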