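import Pool.Agent.Helper418_Sofic.BMain

/-!
# Two commuting free sofic actions whose combined action is not sofic
-/

open scoped Classical

namespace Helper418

/-- a sofic action composed with a homomorphism is sofic -/
theorem SoficAction.comp {G H X : Type} [Group G] [Group H] {α : G →* Equiv.Perm X}
    (hα : SoficAction α) (f : H →* G) : SoficAction (α.comp f) := by
  intro F E ε hε
  obtain ⟨A, iA, φ, h1, h2, B, iB, S, π, h3, h4, h5⟩ := hα (F.image f) E ε hε
  refine ⟨A, iA, fun h => φ (f h), by show φ (f 1) = 1; rw [map_one, h1], ?_, B, iB, S, π, h3,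
    h4, ?_⟩
  · intro g hg h hh
    show hamD (φ (f (g * h))) (φ (f g) * φ (f h)) < ε
    rw [map_mul]
    exact h2 _ (Finset.mem_image_of_mem f hg) _ (Finset.mem_image_of_mem f hh)
  · intro s g x hg hs hx
    have e : (f g)⁻¹ = f g⁻¹ := (map_inv f g).symm
    have hx' : α (f g)⁻¹ x ∈ E := by rw [e]; exact hx
    have := h5 s (f g) x (Finset.mem_image_of_mem f hg) hs hx'
    refine this.trans ?_
    congr 1
    apply Subtype.ext
    show α (f g)⁻¹ x = α (f g⁻¹) x
    rw [e]

/-- the diagonal copy of `K` in `G × G` -/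
noncomputable def DK : Subgroup (GB × GB) :=
  KB.map ((MonoidHom.id GB).prod (MonoidHom.id GB))

/-- the set acted on -/
abbrev XB : Type := (GB × GB) ⧸ DK

/-- the first action -/
noncomputable def actL : GB →* Equiv.Perm XB :=
  (MulAction.toPermHom (GB × GB) XB).comp (MonoidHom.inl GB GB)

/-- the second action -/
noncomputable def actR : GB →* Equiv.Perm XB :=
  (MulAction.toPermHom (GB × GB) XB).comp (MonoidHom.inr GB GB)

theorem actL_mk (g : GB) (z : GB × GB) :
    actL g (QuotientGroup.mk z : XB) = QuotientGroup.mk ((g, 1) * z) := rfl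

theorem actR_mk (g : GB) (z : GB × GB) :
    actR g (QuotientGroup.mk z : XB) = QuotientGroup.mk ((1, g) * z) := rfl

theorem act_commute (g h : GB) : Commute (actL g) (actR h) := by
  show actL g * actR h = actR h * actL g
  unfold actL actR
  rw [MonoidHom.comp_apply, MonoidHom.comp_apply, ← map_mul, ← map_mul]
  congr 1
  simp

theorem actL_free (g : GB) (x : XB) (h : actL g x = x) : g = 1 := by
  induction x using QuotientGroup.induction_on with
  | H z =>
    rw [actL_mk, QuotientGroup.eq] at h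
    obtain ⟨k, _, hk⟩ := h
    have h1 : k = (((g, 1) * z)⁻¹ * z).1 := congrArg Prod.fst hk
    have h2 : k = (((g, 1) * z)⁻¹ * z).2 := congrArg Prod.snd hk
    have h3 : (((g, 1) * z)⁻¹ * z).2 = 1 := by simp
    rw [h3] at h2
    rw [h2] at h1
    have h4 : (((g, 1) * z)⁻¹ * z).1 = z.1⁻¹ * g⁻¹ * z.1 := by
      simp [mul_assoc]
    rw [h4] at h1
    have h5 : g⁻¹ = z.1 * (z.1⁻¹ * g⁻¹ * z.1) * z.1⁻¹ := by group
    rw [← h1] at h5
    simpa using h5

theorem actR_free (g : GB) (x : XB) (h : actR g x = x) : g = 1 := by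
  induction x using QuotientGroup.induction_on with
  | H z =>
    rw [actR_mk, QuotientGroup.eq] at h
    obtain ⟨k, _, hk⟩ := h
    have h1 : k = (((1, g) * z)⁻¹ * z).1 := congrArg Prod.fst hk
    have h2 : k = (((1, g) * z)⁻¹ * z).2 := congrArg Prod.snd hk
    have h3 : (((1, g) * z)⁻¹ * z).1 = 1 := by simp
    rw [h3] at h1
    rw [h1] at h2
    have h4 : (((1, g) * z)⁻¹ * z).2 = z.2⁻¹ * g⁻¹ * z.2 := by
      simp [mul_assoc]
    rw [h4] at h2
    have h5 : g⁻¹ = z.2 * (z.2⁻¹ * g⁻¹ * z.2) * z.2⁻¹ := by group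
    rw [← h2] at h5
    simpa using h5

theorem not_sofic_comb : ¬ SoficAction (actL.noncommCoprod actR act_commute) := by
  intro h
  have h1 := h.comp ((MonoidHom.id GB).prod (MonoidHom.id GB))
  set α := (actL.noncommCoprod actR act_commute).comp
    ((MonoidHom.id GB).prod (MonoidHom.id GB)) with hα
  have hα1 : ∀ (g : GB) (z : GB × GB), α g (QuotientGroup.mk z : XB) =
      QuotientGroup.mk ((g, g) * z) := by
    intro g z
    rw [hα]
    show actL g (actR g (QuotientGroup.mk z : XB)) = _
    rw [actR_mk, actL_mk, ← mul_assoc]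
    congr 2
    simp
  have h2 := GB_sofic_action α h1 (QuotientGroup.mk 1 : XB) (by
    intro k hk
    rw [hα1, QuotientGroup.eq]
    refine ⟨k⁻¹, KB.inv_mem hk, ?_⟩
    simp)
  rw [hα1, QuotientGroup.eq] at h2
  obtain ⟨k, hk, hk2⟩ := h2
  have h3 : k = (((uG, uG) * (1 : GB × GB))⁻¹ * 1).1 := congrArg Prod.fst hk2
  have h4 : (((uG, uG) * (1 : GB × GB))⁻¹ * 1).1 = uG⁻¹ := by simp
  rw [h4] at h3
  apply uG_not_mem
  have : k ∈ KB := hk
  rw [h3] at this
  simpa using this

instance : Countable XB :=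
  (QuotientGroup.mk_surjective (s := DK)).countable

theorem actL_sofic : SoficAction actL := free_sofic GB_RF actL actL_free
theorem actR_sofic : SoficAction actR := free_sofic GB_RF actR actR_free

end Helper418
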