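import Pool.Agent.Helper418_Sofic.BDefs
import Pool.Agent.Helper418_Sofic.ActDef

open scoped Classical

namespace Helper418

namespace BConj

theorem lo_ne {i j : Fin 3} (h : i ≠ j) : lo i ≠ lo j := by
  revert i j; decide

theorem up_ne {i j : Fin 3} (h : i ≠ j) : up i ≠ up j := by
  revert i j; decide

theorem up_lo (i j : Fin 3) : up i ≠ lo j := by
  revert i j; decide

theorem succ_ne (i : Fin 3) : i ≠ i + 1 := by
  revert i; decide

theorem r3_zero : r3 0 = 1 := rfl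

theorem cm_mem {a b : (Matrix (Fin 6) (Fin 6) RR)ˣ} (ha : a ∈ Subgroup.closure (Set.range kB))
    (hb : b ∈ Subgroup.closure (Set.range kB)) : cm a b ∈ Subgroup.closure (Set.range kB) := by
  unfold cm
  exact Subgroup.mul_mem _ (Subgroup.mul_mem _ (Subgroup.mul_mem _ ha hb)
    (Subgroup.inv_mem _ ha)) (Subgroup.inv_mem _ hb)

theorem mem_lo_succ (i k : Fin 3) :
    EE (lo i) (lo (i + 1)) (r3 k) ∈ Subgroup.closure (Set.range kB) :=
  Subgroup.subset_closure ⟨Sum.inl (i, k), rfl⟩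

theorem mem_lo_succ2 (i k : Fin 3) :
    EE (lo i) (lo (i + 1 + 1)) (r3 k) ∈ Subgroup.closure (Set.range kB) := by
  have h1 : i ≠ i + 1 + 1 := by revert i; decide
  have h := EE_cm (lo_ne h1) (lo_ne (succ_ne i)) (lo_ne (succ_ne (i + 1))) (r3 0) (r3 k)
  rw [r3_zero, one_mul] at h
  rw [← h, ← r3_zero]
  exact cm_mem (mem_lo_succ i 0) (mem_lo_succ (i + 1) k)

theorem mem_lo {i j : Fin 3} (h : i ≠ j) (k : Fin 3) :
    EE (lo i) (lo j) (r3 k) ∈ Subgroup.closure (Set.range kB) := by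
  have h1 : j = i + 1 ∨ j = i + 1 + 1 := by revert i j; decide
  rcases h1 with rfl | rfl
  · exact mem_lo_succ i k
  · exact mem_lo_succ2 i k

theorem mem_up_zero (i : Fin 3) :
    EE (up i) (lo 0) (r3 0) ∈ Subgroup.closure (Set.range kB) :=
  Subgroup.subset_closure ⟨Sum.inr i, rfl⟩

theorem mem_up_lo (i j k : Fin 3) :
    EE (up i) (lo j) (r3 k) ∈ Subgroup.closure (Set.range kB) := by
  have h1 : ∀ j : Fin 3, 0 ≠ j → EE (up i) (lo j) (r3 k) ∈ Subgroup.closure (Set.range kB) := by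
    intro j hj
    have h := EE_cm (up_lo i j) (up_lo i 0) (lo_ne hj) (r3 0) (r3 k)
    rw [r3_zero, one_mul] at h
    rw [← h, ← r3_zero]
    exact cm_mem (mem_up_zero i) (mem_lo hj k)
  by_cases hj : 0 = j
  · subst hj
    have h2 : (1 : Fin 3) ≠ 0 := by decide
    have h := EE_cm (up_lo i 0) (up_lo i 1) (lo_ne h2) (r3 k) (r3 0)
    rw [r3_zero, mul_one] at h
    rw [← h, ← r3_zero]
    exact cm_mem (h1 1 (by decide)) (mem_lo h2 0)
  · exact h1 j hj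

theorem diag_conj (d d' : Fin 6 → RR) (h : ∀ i, d i * d' i = 1) {i j : Fin 6}
    (r : RR) : Matrix.diagonal d * (1 + Matrix.single i j r) * Matrix.diagonal d' =
      1 + Matrix.single i j (d i * r * d' j) := by
  rw [mul_add, add_mul, mul_one, Matrix.diagonal_mul_diagonal]
  congr 1
  · rw [← Matrix.diagonal_one]
    congr 1
    funext i
    exact h i
  · ext a b
    rw [Matrix.mul_diagonal, Matrix.diagonal_mul]
    by_cases hab : i = a ∧ j = b
    · obtain ⟨rfl, rfl⟩ := hab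
      rw [Matrix.single_apply_same, Matrix.single_apply_same]
    · rw [Matrix.single_apply_of_ne _ _ _ _ _ hab, Matrix.single_apply_of_ne _ _ _ _ _ hab,
        mul_zero, zero_mul]

theorem dd (i : Fin 6) : (![ofG mU, ofG mL, 1, 1, 1, 1] : Fin 6 → RR) i *
    (![ofG mU⁻¹, ofG mL⁻¹, 1, 1, 1, 1] : Fin 6 → RR) i = 1 := by
  fin_cases i <;> simp [ofG, MonoidAlgebra.one_def]

theorem dd' (i : Fin 6) : (![ofG mU⁻¹, ofG mL⁻¹, 1, 1, 1, 1] : Fin 6 → RR) i *
    (![ofG mU, ofG mL, 1, 1, 1, 1] : Fin 6 → RR) i = 1 := by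
  fin_cases i <;> simp [ofG, MonoidAlgebra.one_def]

theorem dB_EE (i j : Fin 6) (hij : i ≠ j) (r : RR) :
    dB * EE i j r * dB⁻¹ = EE i j ((![ofG mU, ofG mL, 1, 1, 1, 1] : Fin 6 → RR) i * r *
      (![ofG mU⁻¹, ofG mL⁻¹, 1, 1, 1, 1] : Fin 6 → RR) j) ∧
    dB⁻¹ * EE i j r * dB = EE i j ((![ofG mU⁻¹, ofG mL⁻¹, 1, 1, 1, 1] : Fin 6 → RR) i * r *
      (![ofG mU, ofG mL, 1, 1, 1, 1] : Fin 6 → RR) j) := by
  constructor
  · apply Units.ext
    rw [Units.val_mul, Units.val_mul, EE_val hij, EE_val hij]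
    exact diag_conj _ _ dd r
  · apply Units.ext
    rw [Units.val_mul, Units.val_mul, EE_val hij, EE_val hij]
    exact diag_conj _ _ dd' r

theorem d_lo (i : Fin 3) : (![ofG mU, ofG mL, 1, 1, 1, 1] : Fin 6 → RR) (lo i) = 1 := by
  fin_cases i <;> rfl

theorem d_lo' (i : Fin 3) : (![ofG mU⁻¹, ofG mL⁻¹, 1, 1, 1, 1] : Fin 6 → RR) (lo i) = 1 := by
  fin_cases i <;> rfl

theorem d_up (i : Fin 3) : ∃ k, (![ofG mU, ofG mL, 1, 1, 1, 1] : Fin 6 → RR) (up i) = r3 k := by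
  fin_cases i
  · exact ⟨1, rfl⟩
  · exact ⟨2, rfl⟩
  · exact ⟨0, rfl⟩

end BConj

/-- TARGET -/
theorem dB_conj (l : (Fin 3 × Fin 3) ⊕ Fin 3) :
    dB * kB l * dB⁻¹ ∈ Subgroup.closure (Set.range kB) := by
  rcases l with ⟨i, k⟩ | i
  · show dB * EE (lo i) (lo (i + 1)) (r3 k) * dB⁻¹ ∈ _
    rw [(BConj.dB_EE _ _ (BConj.lo_ne (BConj.succ_ne i)) _).1, BConj.d_lo, BConj.d_lo', one_mul,
      mul_one]
    exact BConj.mem_lo_succ i k
  · show dB * EE (up i) (lo 0) 1 * dB⁻¹ ∈ _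
    rw [(BConj.dB_EE _ _ (BConj.up_lo i 0) _).1, BConj.d_lo', mul_one, mul_one]
    obtain ⟨k, hk⟩ := BConj.d_up i
    rw [hk]
    exact BConj.mem_up_lo i 0 k

/-- TARGET -/
theorem EE_conj (i j : Fin 3) (hij : i ≠ j) (k : Fin 3) (l : (Fin 3 × Fin 3) ⊕ Fin 3) :
    EE (up i) (up j) (r3 k) * kB l * (EE (up i) (up j) (r3 k))⁻¹ ∈
      Subgroup.closure (Set.range kB) := by
  rcases l with ⟨a, b⟩ | b
  · have hc : Commute (EE (up i) (up j) (r3 k)) (EE (lo a) (lo (a + 1)) (r3 b)) :=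
      EE_commute (BConj.up_ne hij) (BConj.lo_ne (BConj.succ_ne a)) (BConj.up_lo j a)
        (BConj.up_lo i (a + 1)).symm _ _
    show EE (up i) (up j) (r3 k) * EE (lo a) (lo (a + 1)) (r3 b) *
      (EE (up i) (up j) (r3 k))⁻¹ ∈ _
    rw [hc.eq, mul_inv_cancel_right]
    exact BConj.mem_lo_succ a b
  · show EE (up i) (up j) (r3 k) * EE (up b) (lo 0) (r3 0) *
      (EE (up i) (up j) (r3 k))⁻¹ ∈ _
    by_cases hb : j = b
    · subst hb
      have h1 := EE_cm (BConj.up_lo i 0) (BConj.up_ne hij) (BConj.up_lo j 0) (r3 k) (r3 0)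
      have h2 : EE (up i) (up j) (r3 k) * EE (up j) (lo 0) (r3 0) *
          (EE (up i) (up j) (r3 k))⁻¹ =
          cm (EE (up i) (up j) (r3 k)) (EE (up j) (lo 0) (r3 0)) * EE (up j) (lo 0) (r3 0) := by
        unfold cm
        group
      rw [h2, h1, BConj.r3_zero, mul_one]
      exact Subgroup.mul_mem _ (BConj.mem_up_lo i 0 k) (BConj.mem_up_lo j 0 0)
    · have hc : Commute (EE (up i) (up j) (r3 k)) (EE (up b) (lo 0) (r3 0)) :=
        EE_commute (BConj.up_ne hij) (BConj.up_lo b 0) (BConj.up_ne hb)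
          (BConj.up_lo i 0).symm _ _
      rw [hc.eq, mul_inv_cancel_right]
      exact BConj.mem_up_lo b 0 0

/-- TARGET -/
theorem dB_EE (i j : Fin 6) (hij : i ≠ j) (r : RR) :
    dB * EE i j r * dB⁻¹ = EE i j ((![ofG mU, ofG mL, 1, 1, 1, 1] : Fin 6 → RR) i * r *
      (![ofG mU⁻¹, ofG mL⁻¹, 1, 1, 1, 1] : Fin 6 → RR) j) ∧
    dB⁻¹ * EE i j r * dB = EE i j ((![ofG mU⁻¹, ofG mL⁻¹, 1, 1, 1, 1] : Fin 6 → RR) i * r *
      (![ofG mU, ofG mL, 1, 1, 1, 1] : Fin 6 → RR) j) := by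
  exact BConj.dB_EE i j hij r

end Helper418
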