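import Pool.Agent.Helper418_Sofic.Alg

/-!
# Elementary matrices over a ring of characteristic `p`
-/

open scoped Classical

namespace Helper418

/-- the elementary matrix `1 + r e_ij` as a unit -/
noncomputable def EE {R : Type} [Ring R] (i j : Fin 6) (r : R) :
    (Matrix (Fin 6) (Fin 6) R)ˣ := tr (Matrix.single i j r)

variable {R : Type} [Ring R]

theorem single_sq {i j : Fin 6} (h : i ≠ j) (r : R) :
    Matrix.single i j r * Matrix.single i j r = (0 : Matrix (Fin 6) (Fin 6) R) :=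
  Matrix.single_mul_single_of_ne _ _ _ _ h.symm _

theorem EE_val {i j : Fin 6} (h : i ≠ j) (r : R) :
    ((EE i j r : (Matrix (Fin 6) (Fin 6) R)ˣ) : Matrix (Fin 6) (Fin 6) R) =
      1 + Matrix.single i j r := tr_val (single_sq h r)

theorem EE_cm {i j k : Fin 6} (hij : i ≠ j) (hik : i ≠ k) (hkj : k ≠ j) (a b : R) :
    cm (EE i k a) (EE k j b) = EE i j (a * b) := by
  unfold EE
  rw [cm_tr (single_sq hik a) (single_sq hkj b), Matrix.single_mul_single_same]
  exact Matrix.single_mul_single_of_ne _ _ _ _ hij.symm _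

theorem EE_mul {i j : Fin 6} (h : i ≠ j) (a b : R) : EE i j a * EE i j b = EE i j (a + b) := by
  have h0 : ∀ a b : R, Matrix.single i j a * Matrix.single i j b =
      (0 : Matrix (Fin 6) (Fin 6) R) := fun a b => Matrix.single_mul_single_of_ne _ _ _ _ h.symm _
  unfold EE
  rw [tr_mul (h0 _ _) (h0 _ _) (h0 _ _) (h0 _ _), Matrix.single_add]

theorem EE_inv {i j : Fin 6} (h : i ≠ j) (a : R) : (EE i j a)⁻¹ = EE i j (-a) := by
  unfold EE
  rw [tr_inv (single_sq h a)]
  congr 1
  ext x y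
  simp [Matrix.single]
  split_ifs <;> simp

theorem EE_commute {i j k l : Fin 6} (hij : i ≠ j) (hkl : k ≠ l) (hjk : j ≠ k) (hli : l ≠ i)
    (a b : R) : Commute (EE i j a) (EE k l b) := by
  unfold EE
  exact tr_commute (single_sq hij a) (single_sq hkl b)
    (Matrix.single_mul_single_of_ne _ _ _ _ hjk _) (Matrix.single_mul_single_of_ne _ _ _ _ hli _)

/-- the group ring of `SL(2,ℤ)` over `ZMod 127` -/
abbrev RR : Type := MonoidAlgebra (ZMod 127) (Matrix.SpecialLinearGroup (Fin 2) ℤ)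

/-- the upper unipotent generator -/
def mU : Matrix.SpecialLinearGroup (Fin 2) ℤ := ⟨!![1, 1; 0, 1], by decide⟩

/-- the lower unipotent generator -/
def mL : Matrix.SpecialLinearGroup (Fin 2) ℤ := ⟨!![1, 0; 1, 1], by decide⟩

/-- group elements in the group ring -/
noncomputable def ofG (g : Matrix.SpecialLinearGroup (Fin 2) ℤ) : RR :=
  MonoidAlgebra.of (ZMod 127) _ g

/-- coefficients used in the upper left corner -/
noncomputable def r5 : Fin 5 → RR := ![1, ofG mU, ofG mU⁻¹, ofG mL, ofG mL⁻¹]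

/-- coefficients used in the lower right corner -/
noncomputable def r3 : Fin 3 → RR := ![1, ofG mU, ofG mL]

/-- upper left cyclic positions -/
def up (i : Fin 3) : Fin 6 := ![0, 1, 2] i

/-- lower right cyclic positions -/
def lo (i : Fin 3) : Fin 6 := ![3, 4, 5] i

/-- generators of the big group `G` (25 elements) -/
noncomputable def sB : (Fin 3 × Fin 5) ⊕ (Fin 3 × Fin 3) ⊕ Unit → (Matrix (Fin 6) (Fin 6) RR)ˣ
  | Sum.inl i => EE (up i.1) (up (i.1 + 1)) (r5 i.2)
  | Sum.inr (Sum.inl i) => EE (lo i.1) (lo (i.1 + 1)) (r3 i.2)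
  | Sum.inr (Sum.inr _) => EE 0 3 1

/-- generators of the subgroup `K` (12 elements) -/
noncomputable def kB : (Fin 3 × Fin 3) ⊕ Fin 3 → (Matrix (Fin 6) (Fin 6) RR)ˣ
  | Sum.inl i => EE (lo i.1) (lo (i.1 + 1)) (r3 i.2)
  | Sum.inr i => EE (up i) 3 1

/-- the diagonal matrix `diag(U, L, 1, 1, 1, 1)` as a unit -/
noncomputable def dB : (Matrix (Fin 6) (Fin 6) RR)ˣ where
  val := Matrix.diagonal ![ofG mU, ofG mL, 1, 1, 1, 1]
  inv := Matrix.diagonal ![ofG mU⁻¹, ofG mL⁻¹, 1, 1, 1, 1]
  val_inv := by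
    rw [Matrix.diagonal_mul_diagonal, ← Matrix.diagonal_one]
    congr 1
    ext i : 1
    fin_cases i <;> simp [ofG, MonoidAlgebra.one_def]
  inv_val := by
    rw [Matrix.diagonal_mul_diagonal, ← Matrix.diagonal_one]
    congr 1
    ext i : 1
    fin_cases i <;> simp [ofG, MonoidAlgebra.one_def]

end Helper418
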