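import Pool.Agent.Helper418_Sofic.BUp
import Pool.Agent.Helper418_Sofic.BDefs
import Pool.Agent.Helper418_Sofic.ActDef

open scoped Classical

namespace Helper418

/-! GIVEN (proved elsewhere) -/
namespace BDiag

open Matrix

section
variable {R : Type} [Ring R]

theorem W_eq {i j : Fin 6} (hij : i ≠ j) (a b : R) (hab : a * b = -1) (hba : b * a = -1) :
    (1 + Matrix.single i j a) * (1 + Matrix.single j i b) * (1 + Matrix.single i j a) =
      (1 + Matrix.single i j a + Matrix.single j i b + Matrix.single i i (-1) +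
        Matrix.single j j (-1) : Matrix (Fin 6) (Fin 6) R) := by
  have h1 : Matrix.single i j a * Matrix.single j i b = Matrix.single i i (-1 : R) := by
    rw [Matrix.single_mul_single_same, hab]
  have h2 : Matrix.single j i b * Matrix.single i j a = Matrix.single j j (-1 : R) := by
    rw [Matrix.single_mul_single_same, hba]
  have h3 : Matrix.single i j a * Matrix.single i j a = (0 : Matrix (Fin 6) (Fin 6) R) :=
    single_sq hij a
  have h4 : Matrix.single i i (-1 : R) * Matrix.single i j a = Matrix.single i j (-a) := by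
    rw [Matrix.single_mul_single_same]; congr 1; simp
  have h5 : Matrix.single i j (-a) = -Matrix.single i j a := by
    ext x y
    simp [Matrix.single]
    split_ifs <;> simp
  simp only [mul_add, add_mul, one_mul, mul_one, h1, h2, h3, h4, h5]
  abel

theorem H_eq {i j : Fin 6} (hij : i ≠ j) (a a' : R) (h1 : a * a' = 1) (h2 : a' * a = 1) :
    ((1 + Matrix.single i j a) * (1 + Matrix.single j i (-a')) * (1 + Matrix.single i j a)) *
    ((1 + Matrix.single i j (-1)) * (1 + Matrix.single j i 1) * (1 + Matrix.single i j (-1))) =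
      (1 + Matrix.single i i (a - 1) + Matrix.single j j (a' - 1) :
        Matrix (Fin 6) (Fin 6) R) := by
  rw [W_eq hij a (-a') (by rw [mul_neg, h1]) (by rw [neg_mul, h2]),
    W_eq hij (-1) 1 (by simp) (by simp)]
  have z1 : ∀ r s : R, Matrix.single i j r * Matrix.single i j s =
      (0 : Matrix (Fin 6) (Fin 6) R) := fun r s =>
    Matrix.single_mul_single_of_ne _ _ _ _ hij.symm _
  have z2 : ∀ r s : R, Matrix.single j i r * Matrix.single j i s =
      (0 : Matrix (Fin 6) (Fin 6) R) := fun r s =>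
    Matrix.single_mul_single_of_ne _ _ _ _ hij _
  have z3 : ∀ r s : R, Matrix.single i j r * Matrix.single i i s =
      (0 : Matrix (Fin 6) (Fin 6) R) := fun r s =>
    Matrix.single_mul_single_of_ne _ _ _ _ hij.symm _
  have z4 : ∀ r s : R, Matrix.single j i r * Matrix.single j j s =
      (0 : Matrix (Fin 6) (Fin 6) R) := fun r s =>
    Matrix.single_mul_single_of_ne _ _ _ _ hij _
  have z5 : ∀ r s : R, Matrix.single i i r * Matrix.single j i s =
      (0 : Matrix (Fin 6) (Fin 6) R) := fun r s =>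
    Matrix.single_mul_single_of_ne _ _ _ _ hij _
  have z6 : ∀ r s : R, Matrix.single j j r * Matrix.single i j s =
      (0 : Matrix (Fin 6) (Fin 6) R) := fun r s =>
    Matrix.single_mul_single_of_ne _ _ _ _ hij.symm _
  have z7 : ∀ r s : R, Matrix.single i i r * Matrix.single j j s =
      (0 : Matrix (Fin 6) (Fin 6) R) := fun r s =>
    Matrix.single_mul_single_of_ne _ _ _ _ hij _
  have z8 : ∀ r s : R, Matrix.single j j r * Matrix.single i i s =
      (0 : Matrix (Fin 6) (Fin 6) R) := fun r s =>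
    Matrix.single_mul_single_of_ne _ _ _ _ hij.symm _
  have neg : ∀ (k l : Fin 6) (r : R), Matrix.single k l (-r) = -Matrix.single k l r := by
    intro k l r
    ext x y
    simp [Matrix.single]
    split_ifs <;> simp
  have sub : ∀ (k l : Fin 6) (r s : R), Matrix.single k l (r - s) =
      Matrix.single k l r - Matrix.single k l s := by
    intro k l r s
    ext x y
    simp [Matrix.single]
    split_ifs <;> simp
  simp only [mul_add, add_mul, one_mul, mul_one, z1, z2, z3, z4, z5, z6, z7, z8,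
    Matrix.single_mul_single_same, neg, sub, mul_neg, neg_mul, neg_neg]
  abel

end

/-- diagonal matrices in the upper left corner -/
noncomputable def DD (x y z : Matrix.SpecialLinearGroup (Fin 2) ℤ) :
    (Matrix (Fin 6) (Fin 6) RR)ˣ where
  val := Matrix.diagonal ![ofG x, ofG y, ofG z, 1, 1, 1]
  inv := Matrix.diagonal ![ofG x⁻¹, ofG y⁻¹, ofG z⁻¹, 1, 1, 1]
  val_inv := by
    rw [Matrix.diagonal_mul_diagonal, ← Matrix.diagonal_one]
    congr 1
    ext i : 1
    fin_cases i <;> simp [ofG, MonoidAlgebra.one_def]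
  inv_val := by
    rw [Matrix.diagonal_mul_diagonal, ← Matrix.diagonal_one]
    congr 1
    ext i : 1
    fin_cases i <;> simp [ofG, MonoidAlgebra.one_def]

theorem DD_mul (x y z x' y' z' : Matrix.SpecialLinearGroup (Fin 2) ℤ) :
    DD x y z * DD x' y' z' = DD (x * x') (y * y') (z * z') := by
  apply Units.ext
  show Matrix.diagonal _ * Matrix.diagonal _ = Matrix.diagonal _
  rw [Matrix.diagonal_mul_diagonal]
  congr 1
  ext i : 1
  fin_cases i <;> simp [ofG]

theorem DD_one : DD 1 1 1 = 1 := by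
  apply Units.ext
  show Matrix.diagonal _ = 1
  rw [← Matrix.diagonal_one]
  congr 1
  ext i : 1
  fin_cases i <;> simp [ofG, MonoidAlgebra.one_def]

theorem DD_inv (x y z : Matrix.SpecialLinearGroup (Fin 2) ℤ) :
    (DD x y z)⁻¹ = DD x⁻¹ y⁻¹ z⁻¹ := by
  rw [inv_eq_iff_mul_eq_one, DD_mul, mul_inv_cancel, mul_inv_cancel, mul_inv_cancel, DD_one]

theorem ofG_one : ofG 1 = 1 := by simp [ofG, MonoidAlgebra.one_def]

theorem ofG_mul_inv (g : Matrix.SpecialLinearGroup (Fin 2) ℤ) : ofG g * ofG g⁻¹ = 1 := by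
  simp [ofG, MonoidAlgebra.one_def]

theorem ofG_inv_mul (g : Matrix.SpecialLinearGroup (Fin 2) ℤ) : ofG g⁻¹ * ofG g = 1 := by
  simp [ofG, MonoidAlgebra.one_def]

/-- Whitehead: the product of elementary matrices -/
theorem H_mem (g : Matrix.SpecialLinearGroup (Fin 2) ℤ)
    (hg : g ∈ Subgroup.closure ({mU, mL} : Set (Matrix.SpecialLinearGroup (Fin 2) ℤ)))
    (i j : Fin 3) (hij : i ≠ j) (d : (Matrix (Fin 6) (Fin 6) RR)ˣ)
    (hd : (d : Matrix (Fin 6) (Fin 6) RR) = 1 + Matrix.single (up i) (up i) (ofG g - 1) +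
      Matrix.single (up j) (up j) (ofG g⁻¹ - 1)) :
    d ∈ Subgroup.closure (Set.range sB) := by
  have hup : up i ≠ up j :=
    (by decide : ∀ i j : Fin 3, i ≠ j → up i ≠ up j) i j hij
  have h1 := EE_up_mem g hg i j hij
  have h2 := EE_up_mem g⁻¹ (Subgroup.inv_mem _ hg) j i hij.symm
  have h3 := EE_up_mem 1 (Subgroup.one_mem _) i j hij
  have h4 := EE_up_mem 1 (Subgroup.one_mem _) j i hij.symm
  rw [ofG_one] at h3 h4
  have h2' := Subgroup.inv_mem _ h2
  rw [EE_inv hup.symm] at h2'
  have h3' := Subgroup.inv_mem _ h3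
  rw [EE_inv hup] at h3'
  have hprod : d = (EE (up i) (up j) (ofG g) * EE (up j) (up i) (-ofG g⁻¹) *
      EE (up i) (up j) (ofG g)) * (EE (up i) (up j) (-1) * EE (up j) (up i) 1 *
      EE (up i) (up j) (-1)) := by
    apply Units.ext
    rw [hd, ← H_eq hup (ofG g) (ofG g⁻¹) (ofG_mul_inv g) (ofG_inv_mul g)]
    simp only [Units.val_mul]
    rw [EE_val hup, EE_val hup.symm, EE_val hup, EE_val hup.symm]
  rw [hprod]
  exact mul_mem (mul_mem (mul_mem h1 h2') h1) (mul_mem (mul_mem h3' h4) h3')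

theorem mem_U : mU ∈ Subgroup.closure ({mU, mL} : Set (Matrix.SpecialLinearGroup (Fin 2) ℤ)) :=
  Subgroup.subset_closure (Or.inl rfl)

theorem mem_L : mL ∈ Subgroup.closure ({mU, mL} : Set (Matrix.SpecialLinearGroup (Fin 2) ℤ)) :=
  Subgroup.subset_closure (Or.inr rfl)

/-- the Weyl element -/
def ww : Matrix.SpecialLinearGroup (Fin 2) ℤ := mU⁻¹ * mL * mU⁻¹

theorem mem_w : ww ∈ Subgroup.closure ({mU, mL} : Set (Matrix.SpecialLinearGroup (Fin 2) ℤ)) :=
  mul_mem (mul_mem (inv_mem mem_U) mem_L) (inv_mem mem_U)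

theorem ww_conj : mU * mL = mU * ww * mU⁻¹ * ww⁻¹ := by
  rw [eq_mul_inv_iff_mul_eq, eq_mul_inv_iff_mul_eq]
  unfold ww
  have : ∀ a b : Matrix.SpecialLinearGroup (Fin 2) ℤ, a.1 = b.1 → a = b :=
    fun a b h => Subtype.ext h
  apply this
  decide

theorem d1_mem (g : Matrix.SpecialLinearGroup (Fin 2) ℤ)
    (hg : g ∈ Subgroup.closure ({mU, mL} : Set (Matrix.SpecialLinearGroup (Fin 2) ℤ))) :
    DD g g⁻¹ 1 ∈ Subgroup.closure (Set.range sB) := by
  refine H_mem g hg 0 1 (by decide) _ ?_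
  show Matrix.diagonal _ = _
  ext x y
  fin_cases x <;> fin_cases y <;> simp [Matrix.single, up, ofG_one, Matrix.one_apply]

theorem d2_mem (g : Matrix.SpecialLinearGroup (Fin 2) ℤ)
    (hg : g ∈ Subgroup.closure ({mU, mL} : Set (Matrix.SpecialLinearGroup (Fin 2) ℤ))) :
    DD 1 g g⁻¹ ∈ Subgroup.closure (Set.range sB) := by
  refine H_mem g hg 1 2 (by decide) _ ?_
  show Matrix.diagonal _ = _
  ext x y
  fin_cases x <;> fin_cases y <;> simp [Matrix.single, up, ofG_one, Matrix.one_apply]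

theorem cm_mem : DD 1 (mU * mL) 1 ∈ Subgroup.closure (Set.range sB) := by
  have h1 := d2_mem mU mem_U
  have h2 := d1_mem ww⁻¹ (inv_mem mem_w)
  rw [inv_inv] at h2
  have h : DD 1 (mU * mL) 1 = DD 1 mU mU⁻¹ * DD ww⁻¹ ww 1 * (DD 1 mU mU⁻¹)⁻¹ *
      (DD ww⁻¹ ww 1)⁻¹ := by
    rw [DD_inv, DD_inv, DD_mul, DD_mul, DD_mul, ww_conj]
    simp
  rw [h]
  exact mul_mem (mul_mem (mul_mem h1 h2) (inv_mem h1)) (inv_mem h2)

end BDiag

/-- TARGET -/
theorem dB_mem : dB ∈ Subgroup.closure (Set.range sB) := by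
  have h1 := BDiag.d1_mem mU BDiag.mem_U
  have h2 := BDiag.cm_mem
  have h : dB = BDiag.DD mU mU⁻¹ 1 * BDiag.DD 1 (mU * mL) 1 := by
    rw [BDiag.DD_mul]
    apply Units.ext
    show Matrix.diagonal _ = Matrix.diagonal _
    congr 1
    ext i : 1
    fin_cases i <;> simp [BDiag.ofG_one]
  rw [h]
  exact mul_mem h1 h2

end Helper418
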