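/-
SOFIC B8 (helper418's project, MP_1f9cc6_al), by helper777.
-/
import Pool.Agent.Helper418_Sofic.BDefs
import Pool.Agent.Helper418_Sofic.ActDef

open scoped Classical

namespace Helper418

namespace BFree

theorem exists_finite_quot {G : Type} [Group G]
    (hRF : ∀ g : G, g ≠ 1 → ∃ (Q : Type) (_ : Group Q) (_ : Finite Q) (f : G →* Q), f g ≠ 1)
    (Z : Finset G) :
    ∃ (Q : Type) (_ : Group Q) (_ : Finite Q) (q : G →* Q), ∀ z ∈ Z, z ≠ 1 → q z ≠ 1 := by
  induction Z using Finset.induction_on with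
  | empty =>
    refine ⟨Equiv.Perm Empty, inferInstance, inferInstance, 1, ?_⟩
    intro z hz
    simp at hz
  | insert a Z ha ih =>
    obtain ⟨Q, iQ, fQ, q, hq⟩ := ih
    by_cases h1 : a = 1
    · refine ⟨Q, iQ, fQ, q, ?_⟩
      intro z hz hz1
      rcases Finset.mem_insert.mp hz with h | h
      · exact absurd (h.trans h1) hz1
      · exact hq z h hz1
    · obtain ⟨Q', iQ', fQ', f, hf⟩ := hRF a h1
      refine ⟨Q × Q', inferInstance, inferInstance, q.prod f, ?_⟩
      intro z hz hz1 hcon
      rw [MonoidHom.prod_apply, Prod.mk_eq_one] at hcon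
      rcases Finset.mem_insert.mp hz with h | h
      · rw [h] at hcon
        exact hf hcon.2
      · exact hq z h hz1 hcon.1

/-- orbit representatives and the group elements moving them -/
theorem exists_rep {G X : Type} [Group G] (α : G →* Equiv.Perm X)
    (hα : ∀ g x, α g x = x → g = 1) :
    ∃ (rep : X → X) (γ : X → G), (∀ x, α (γ x) (rep x) = x) ∧
      (∀ g x, rep (α g x) = rep x) ∧ (∀ g x, γ (α g x) = g * γ x) := by
  let S : Setoid X :=
    { r := fun x y => ∃ g, α g x = y
      iseqv :=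
        { refl := fun x => ⟨1, by simp⟩
          symm := by
            rintro x y ⟨g, rfl⟩
            refine ⟨g⁻¹, ?_⟩
            rw [← Equiv.Perm.mul_apply, ← map_mul]
            simp
          trans := by
            rintro x y z ⟨g, rfl⟩ ⟨h, rfl⟩
            refine ⟨h * g, ?_⟩
            rw [map_mul, Equiv.Perm.mul_apply] } }
  let rep : X → X := fun x => (Quotient.mk S x).out
  have h1 : ∀ x, ∃ g, α g (rep x) = x := by
    intro x
    have : S.r (rep x) x := Quotient.mk_out (s := S) x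
    exact this
  choose γ hγ using h1
  have hrep : ∀ g x, rep (α g x) = rep x := by
    intro g x
    have : Quotient.mk S (α g x) = Quotient.mk S x := by
      apply Quotient.sound (s := S)
      show ∃ h, α h (α g x) = x
      refine ⟨g⁻¹, ?_⟩
      rw [← Equiv.Perm.mul_apply, ← map_mul]
      simp
    simp only [rep, this]
  refine ⟨rep, γ, hγ, hrep, ?_⟩
  intro g x
  have e1 : α (γ (α g x)) (rep x) = α g x := by
    have := hγ (α g x)
    rwa [hrep] at this
  have e2 : α (g * γ x) (rep x) = α g x := by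
    rw [map_mul, Equiv.Perm.mul_apply, hγ]
  have e3 : α ((g * γ x)⁻¹ * γ (α g x)) (rep x) = rep x := by
    rw [map_mul, Equiv.Perm.mul_apply, e1, ← e2, ← Equiv.Perm.mul_apply, ← map_mul]
    simp
  have e4 := hα _ _ e3
  exact (inv_mul_eq_one.mp e4).symm

end BFree

/-- TARGET -/
theorem free_sofic {G X : Type} [Group G]
    (hRF : ∀ g : G, g ≠ 1 → ∃ (Q : Type) (_ : Group Q) (_ : Finite Q) (f : G →* Q), f g ≠ 1)
    (α : G →* Equiv.Perm X) (hα : ∀ g x, α g x = x → g = 1) : SoficAction α := by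
  intro F E ε hε
  obtain ⟨rep, γ, hγ, hrep, hγm⟩ := BFree.exists_rep α hα
  obtain ⟨Q, iQ, fQ, q, hq⟩ := BFree.exists_finite_quot hRF
    ((E ×ˢ E).image fun p => (γ p.1)⁻¹ * γ p.2)
  let _ : Fintype Q := Fintype.ofFinite Q
  refine ⟨Q, inferInstance, fun g => Equiv.mulLeft (q g), ?_, ?_, ?_⟩
  · ext s; simp
  · intro g _ h _
    have : Equiv.mulLeft (q (g * h)) = Equiv.mulLeft (q g) * Equiv.mulLeft (q h) := by
      ext s; simp
    simp only [this, hamD]
    simpa using hε
  · refine ⟨Q × {c : X // c ∈ E.image rep}, inferInstance, Finset.univ,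
      fun s x => ((s.1)⁻¹ * q (γ x.1), ⟨rep x.1, Finset.mem_image_of_mem rep x.2⟩), ?_, ?_, ?_⟩
    · rw [Finset.card_univ]
      have : (0 : ℝ) < Fintype.card Q := by
        exact_mod_cast Fintype.card_pos
      nlinarith
    · intro s x y hxy
      simp only [Prod.mk.injEq, mul_right_inj, Subtype.mk.injEq] at hxy
      obtain ⟨h1, h2⟩ := hxy
      have h3 : q ((γ x.1)⁻¹ * γ y.1) = 1 := by
        rw [map_mul, map_inv, h1, inv_mul_cancel]
      have h4 : (γ x.1)⁻¹ * γ y.1 = 1 := by
        by_contra hne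
        refine hq _ ?_ hne h3
        exact Finset.mem_image.mpr ⟨(x.1, y.1), Finset.mem_product.mpr ⟨x.2, y.2⟩, rfl⟩
      have h5 : γ x.1 = γ y.1 := inv_mul_eq_one.mp h4
      apply Subtype.ext
      rw [← hγ x.1, ← hγ y.1, h5, h2]
    · intro s g x _ hs hx
      simp only [Prod.mk.injEq, Subtype.mk.injEq]
      refine ⟨?_, (hrep _ _).symm⟩
      rw [hγm, Equiv.coe_mulLeft, mul_inv_rev, map_mul, map_inv, mul_assoc]

end Helper418
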