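import Pool.Agent.Helper418_Sofic.BUp
import Pool.Agent.Helper418_Sofic.BDiag
import Pool.Agent.Helper418_Sofic.BConj
import Pool.Agent.Helper418_Sofic.BDefs
import Pool.Agent.Helper418_Sofic.ActDef

open scoped Classical

namespace Helper418

/-! GIVEN (proved elsewhere) -/
end Helper418

namespace Helper418.BGen

theorem up_ne : ∀ i j : Fin 3, i ≠ j → up i ≠ up j := by decide

theorem ofG_one : ofG 1 = 1 := map_one (MonoidAlgebra.of (ZMod 127) (Matrix.SpecialLinearGroup (Fin 2) ℤ))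

theorem cm_mem {G : Type} [Group G] (H : Subgroup G) {a b : G} (ha : a ∈ H) (hb : b ∈ H) :
    cm a b ∈ H :=
  H.mul_mem (H.mul_mem (H.mul_mem ha hb) (H.inv_mem ha)) (H.inv_mem hb)

theorem r3_eq (k : Fin 3) : ∃ g ∈ Subgroup.closure
    ({mU, mL} : Set (Matrix.SpecialLinearGroup (Fin 2) ℤ)), r3 k = ofG g := by
  fin_cases k
  · exact ⟨1, Subgroup.one_mem _, ofG_one.symm⟩
  · exact ⟨mU, Subgroup.subset_closure (by simp), rfl⟩
  · exact ⟨mL, Subgroup.subset_closure (by simp), rfl⟩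

theorem up_one (i j : Fin 3) (hij : i ≠ j) :
    EE (up i) (up j) (1 : RR) ∈ Subgroup.closure (Set.range sB) := by
  have := EE_up_mem 1 (Subgroup.one_mem _) i j hij
  rwa [ofG_one] at this

theorem up_r3 (i j : Fin 3) (hij : i ≠ j) (k : Fin 3) :
    EE (up i) (up j) (r3 k) ∈ Subgroup.closure (Set.range sB) := by
  obtain ⟨g, hg, e⟩ := r3_eq k
  rw [e]
  exact EE_up_mem g hg i j hij

theorem three : ∀ i a b c : Fin 3, a ≠ b → a ≠ c → b ≠ c → i = a ∨ i = b ∨ i = c := by decide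

/-- From one position to all the other ones. -/
theorem spread (Q : Subgroup (Matrix (Fin 6) (Fin 6) RR)ˣ)
    (h1 : ∀ i j : Fin 3, i ≠ j → EE (up i) (up j) (1 : RR) ∈ Q) (r : RR) (a b c : Fin 3)
    (hab : a ≠ b) (hac : a ≠ c) (hbc : b ≠ c) (h : EE (up a) (up b) r ∈ Q) :
    ∀ i j : Fin 3, i ≠ j → EE (up i) (up j) r ∈ Q := by
  have s1 : ∀ i k j : Fin 3, i ≠ k → k ≠ j → i ≠ j → EE (up i) (up k) r ∈ Q →
      EE (up i) (up j) r ∈ Q := by
    intro i k j hik hkj hij h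
    have := cm_mem Q h (h1 k j hkj)
    rwa [EE_cm (up_ne i j hij) (up_ne i k hik) (up_ne k j hkj), mul_one] at this
  have s2 : ∀ i k j : Fin 3, i ≠ k → k ≠ j → i ≠ j → EE (up k) (up j) r ∈ Q →
      EE (up i) (up j) r ∈ Q := by
    intro i k j hik hkj hij h
    have := cm_mem Q (h1 i k hik) h
    rwa [EE_cm (up_ne i j hij) (up_ne i k hik) (up_ne k j hkj), one_mul] at this
  have hac' : EE (up a) (up c) r ∈ Q := s1 a b c hab hbc hac h
  have hcb : EE (up c) (up b) r ∈ Q := s2 c a b hac.symm hab hbc.symm h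
  have hbc' : EE (up b) (up c) r ∈ Q := s2 b a c hab.symm hac hbc hac'
  have hca : EE (up c) (up a) r ∈ Q := s1 c b a hbc.symm hab.symm hac.symm hcb
  have hba : EE (up b) (up a) r ∈ Q := s1 b c a hbc hac.symm hab.symm hbc'
  intro i j hij
  have hex : ∀ i : Fin 3, i = a ∨ i = b ∨ i = c := fun i => three i a b c hab hac hbc
  rcases hex i with hi | hi | hi <;> rcases hex j with hj | hj | hj <;>
    rw [hi, hj] at hij ⊢
  · exact absurd rfl hij
  · exact h
  · exact hac'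
  · exact hba
  · exact absurd rfl hij
  · exact hbc'
  · exact hca
  · exact hcb
  · exact absurd rfl hij

end Helper418.BGen

namespace Helper418

open BGen

/-- TARGET -/
theorem kB_mem (l : (Fin 3 × Fin 3) ⊕ Fin 3) : kB l ∈ Subgroup.closure (Set.range sB) := by
  rcases l with i | a
  · exact Subgroup.subset_closure ⟨Sum.inr (Sum.inl i), rfl⟩
  · have h0 : EE 0 3 (1 : RR) ∈ Subgroup.closure (Set.range sB) :=
      Subgroup.subset_closure ⟨Sum.inr (Sum.inr ()), rfl⟩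
    have h1 : ∀ a : Fin 3, a ≠ 0 → EE (up a) 3 (1 : RR) ∈ Subgroup.closure (Set.range sB) := by
      intro a ha
      have := cm_mem _ (up_one a 0 ha) h0
      have e : up 0 = 0 := rfl
      have hup : ∀ a : Fin 3, up a ≠ 3 := by decide
      rw [e] at this
      have ha' : up a ≠ 0 := by
        have := up_ne a 0 ha
        rwa [e] at this
      rwa [EE_cm (hup a) ha' (by decide), mul_one] at this
    show EE (up a) 3 (1 : RR) ∈ _
    by_cases ha : a = 0
    · subst ha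
      exact h0
    · exact h1 a ha

/-- TARGET -/
theorem sB_mem_P (i : (Fin 3 × Fin 5) ⊕ (Fin 3 × Fin 3) ⊕ Unit) :
    sB i ∈ Subgroup.closure {v : (Matrix (Fin 6) (Fin 6) RR)ˣ |
      v ∈ Subgroup.closure (Set.range sB) ∧
      ∀ l, v * kB l * v⁻¹ ∈ Subgroup.closure (Set.range kB)} := by
  set Q : Subgroup (Matrix (Fin 6) (Fin 6) RR)ˣ :=
    Subgroup.closure {v : (Matrix (Fin 6) (Fin 6) RR)ˣ |
      v ∈ Subgroup.closure (Set.range sB) ∧
      ∀ l, v * kB l * v⁻¹ ∈ Subgroup.closure (Set.range kB)} with hQ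
  have hd : dB ∈ Q := Subgroup.subset_closure ⟨dB_mem, dB_conj⟩
  have hk : ∀ l, kB l ∈ Q := by
    intro l
    refine Subgroup.subset_closure ⟨kB_mem l, fun m => ?_⟩
    have h1 : ∀ l, kB l ∈ Subgroup.closure (Set.range kB) := fun l =>
      Subgroup.subset_closure ⟨l, rfl⟩
    exact Subgroup.mul_mem _ (Subgroup.mul_mem _ (h1 l) (h1 m)) (Subgroup.inv_mem _ (h1 l))
  have h3 : ∀ i j : Fin 3, i ≠ j → ∀ k, EE (up i) (up j) (r3 k) ∈ Q := by
    intro i j hij k
    exact Subgroup.subset_closure ⟨up_r3 i j hij k, EE_conj i j hij k⟩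
  have h1 : ∀ i j : Fin 3, i ≠ j → EE (up i) (up j) (1 : RR) ∈ Q := fun i j hij => h3 i j hij 0
  have hU : ∀ i j : Fin 3, i ≠ j → EE (up i) (up j) (ofG mU⁻¹) ∈ Q := by
    apply spread Q h1 _ 0 2 1 (by decide) (by decide) (by decide)
    have := (dB_EE 0 2 (by decide) 1).2
    have e : (![ofG mU⁻¹, ofG mL⁻¹, 1, 1, 1, 1] : Fin 6 → RR) 0 * 1 *
      (![ofG mU, ofG mL, 1, 1, 1, 1] : Fin 6 → RR) 2 = ofG mU⁻¹ := by simp
    rw [e] at this
    show EE 0 2 (ofG mU⁻¹) ∈ Q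
    rw [← this]
    exact Q.mul_mem (Q.mul_mem (Q.inv_mem hd) (h1 0 2 (by decide))) hd
  have hL : ∀ i j : Fin 3, i ≠ j → EE (up i) (up j) (ofG mL⁻¹) ∈ Q := by
    apply spread Q h1 _ 1 2 0 (by decide) (by decide) (by decide)
    have := (dB_EE 1 2 (by decide) 1).2
    have e : (![ofG mU⁻¹, ofG mL⁻¹, 1, 1, 1, 1] : Fin 6 → RR) 1 * 1 *
      (![ofG mU, ofG mL, 1, 1, 1, 1] : Fin 6 → RR) 2 = ofG mL⁻¹ := by simp
    rw [e] at this
    show EE 1 2 (ofG mL⁻¹) ∈ Q
    rw [← this]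
    exact Q.mul_mem (Q.mul_mem (Q.inv_mem hd) (h1 1 2 (by decide))) hd
  have hne : ∀ i : Fin 3, i ≠ i + 1 := by decide
  rcases i with ⟨i, k⟩ | i | u
  · show EE (up i) (up (i + 1)) (r5 k) ∈ Q
    fin_cases k
    · exact h1 i (i + 1) (hne i)
    · exact h3 i (i + 1) (hne i) 1
    · exact hU i (i + 1) (hne i)
    · exact h3 i (i + 1) (hne i) 2
    · exact hL i (i + 1) (hne i)
  · exact hk (Sum.inl i)
  · exact hk (Sum.inr 0)

end Helper418
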