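import Pool.Agent.Helper418_Sofic.BDefs
import Pool.Agent.Helper418_Sofic.ActDef

open scoped Classical

namespace Helper418

namespace BLabel

open Filter Topology

theorem dens_compl_le {A : ℕ → Type} [∀ n, Fintype (A n)] [∀ n, Nonempty (A n)]
    (S : ∀ n, Finset (A n)) (n : ℕ) (ε : ℝ)
    (h : (1 - ε) * (Fintype.card (A n) : ℝ) < ((S n).card : ℝ)) :
    dens (fun n a => a ∉ S n) n ≤ ε := by
  unfold dens
  have hc : (0 : ℝ) < Fintype.card (A n) := by exact_mod_cast Fintype.card_pos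
  rw [div_le_iff₀ hc]
  have key : ∀ T : Finset (A n), (∀ a, a ∈ T ↔ a ∉ S n) →
      (T.card : ℝ) ≤ ε * (Fintype.card (A n) : ℝ) := by
    intro T hT
    have h1 : T = (S n)ᶜ := by
      ext a; rw [hT, Finset.mem_compl]
    rw [h1, Finset.card_compl, Nat.cast_sub (Finset.card_le_univ _)]
    nlinarith
  apply key
  intro a
  simp

theorem dens_perm {A : ℕ → Type} [∀ n, Fintype (A n)] (P : ∀ n, A n → Prop)
    (σ : ∀ n, Equiv.Perm (A n)) (n : ℕ) :
    dens (fun n a => P n (σ n a)) n = dens P n := by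
  unfold dens
  congr 2
  apply Finset.card_bij (fun a _ => σ n a)
  · intro a ha
    simpa using ha
  · intro a _ b _ hab
    exact (σ n).injective hab
  · intro b hb
    refine ⟨(σ n).symm b, ?_, by simp⟩
    simpa using hb

/-- a property that holds at all good points (eventually in `n`) holds almost everywhere -/
theorem ae_of_good {A : ℕ → Type} [∀ n, Fintype (A n)] [∀ n, Nonempty (A n)]
    (S : ∀ n, Finset (A n)) (σ : ∀ n, Equiv.Perm (A n)) (ε : ℕ → ℝ) (hε : Tendsto ε atTop (𝓝 0))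
    (h : ∀ n, (1 - ε n) * (Fintype.card (A n) : ℝ) < ((S n).card : ℝ))
    (P : ∀ n, A n → Prop) (hP : ∀ᶠ n in atTop, ∀ a, a ∈ S n → σ n a ∈ S n → P n a) :
    ∀ᶠ x in ae A, P x.1 x.2 := by
  rw [mem_ae]
  have h2 : Tendsto (fun n => ε n + ε n) atTop (𝓝 0) := by
    have := hε.add hε
    rwa [add_zero] at this
  refine squeeze_zero' (Eventually.of_forall fun n => dens_nonneg _ n) ?_ h2
  filter_upwards [hP] with n hn
  refine (dens_mono (Q := fun n a => a ∉ S n ∨ σ n a ∉ S n) ?_).trans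
    ((dens_or_le _ _ n).trans (add_le_add (dens_compl_le S n _ (h n)) ?_))
  · intro a ha
    by_contra hcon
    push Not at hcon
    exact ha (hn a hcon.1 hcon.2)
  · rw [dens_perm (fun n a => a ∉ S n) σ n]
    exact dens_compl_le S n _ (h n)

end BLabel

/-- TARGET -/
theorem label_approx {G X : Type} [Group G] [Countable G] (α : G →* Equiv.Perm X)
    (hα : SoficAction α) (x0 : X) (u : G) (hu : α u x0 ≠ x0) :
    ∃ (A : ℕ → Type) (_ : ∀ n, Fintype (A n)) (_ : ∀ n, Nonempty (A n)) (Φ : Approx G A)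
      (l : ∀ n, A n → ℕ), (∀ k : G, α k x0 = x0 →
        ∀ᶠ x in ae A, l x.1 (Φ.φ x.1 k x.2) = l x.1 x.2) ∧
      ∀ᶠ x in ae A, l x.1 (Φ.φ x.1 u x.2) ≠ l x.1 x.2 := by
  obtain ⟨f, hf⟩ := exists_surjective_nat G
  set F : ℕ → Finset G := fun n => (Finset.range (n + 1)).image f with hF
  have hFmem : ∀ g : G, ∀ᶠ n in Filter.atTop, g ∈ F n := by
    intro g
    obtain ⟨m, rfl⟩ := hf g
    filter_upwards [Filter.eventually_ge_atTop m] with n hn
    exact Finset.mem_image_of_mem f (Finset.mem_range.2 (by omega))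
  set E : Finset X := {x0, α u⁻¹ x0} with hE
  have hx0 : x0 ∈ E := by simp [hE]
  have hx1 : α u⁻¹ x0 ∈ E := by simp [hE]
  set ε : ℕ → ℝ := fun n => 1 / ((n : ℝ) + 1) with hεd
  have hε : ∀ n, 0 < ε n := fun n => by positivity
  have hε0 : Filter.Tendsto ε Filter.atTop (nhds 0) := tendsto_one_div_add_atTop_nhds_zero_nat
  choose A instA φ hφ1 hmul happ using fun n => hα (F n) E (ε n) (hε n)
  choose B hB S π hS hinj hπ using happ
  have hne : ∀ n, Nonempty (A n) := by
    intro n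
    by_contra hcon
    rw [not_nonempty_iff] at hcon
    have h1 := hS n
    have h2 : Fintype.card (A n) = 0 := Fintype.card_eq_zero
    have h3 : (S n).card = 0 := by
      have := Finset.card_le_univ (S n)
      omega
    rw [h2, h3] at h1
    simp at h1
  have hι : ∀ n, ∃ i : B n → ℕ, Function.Injective i := by
    intro n
    have := hB n
    exact Countable.exists_injective_nat (B n)
  choose ι hι using hι
  refine ⟨A, instA, hne, ⟨φ, ?_⟩, fun n a =>
    if h : a ∈ S n then ι n (π n ⟨a, h⟩ ⟨x0, hx0⟩) else 0, ?_, ?_⟩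
  · intro g h
    rw [mem_ae (P := fun n a => φ n (g * h) a = φ n g (φ n h a))]
    refine squeeze_zero' (Filter.Eventually.of_forall fun n => dens_nonneg _ n) ?_ hε0
    filter_upwards [hFmem g, hFmem h] with n hg hh
    have := hmul n g hg h hh
    refine le_trans (le_of_eq ?_) this.le
    unfold dens hamD
    congr 2
    apply congrArg Finset.card
    ext a
    simp only [Finset.mem_filter, Finset.mem_univ, true_and, Equiv.Perm.mul_apply, ne_eq]
  · intro k hk
    have hk' : α k⁻¹ x0 = x0 := by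
      rw [map_inv, Equiv.Perm.inv_eq_iff_eq]
      exact hk.symm
    refine BLabel.ae_of_good S (fun n => φ n k) ε hε0 hS
      (fun n a => (if h : φ n k a ∈ S n then ι n (π n ⟨φ n k a, h⟩ ⟨x0, hx0⟩) else 0) =
        (if h : a ∈ S n then ι n (π n ⟨a, h⟩ ⟨x0, hx0⟩) else 0)) ?_
    filter_upwards [hFmem k] with n hkn a ha hka
    rw [dif_pos ha, dif_pos hka]
    have hx : α k⁻¹ x0 ∈ E := by rw [hk']; exact hx0
    have h1 := hπ n ⟨a, ha⟩ k ⟨x0, hx0⟩ hkn hka hx
    rw [h1]
    congr 2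
    exact Subtype.ext hk'
  · refine BLabel.ae_of_good S (fun n => φ n u) ε hε0 hS
      (fun n a => (if h : φ n u a ∈ S n then ι n (π n ⟨φ n u a, h⟩ ⟨x0, hx0⟩) else 0) ≠
        (if h : a ∈ S n then ι n (π n ⟨a, h⟩ ⟨x0, hx0⟩) else 0)) ?_
    filter_upwards [hFmem u] with n hun a ha hua
    rw [dif_pos ha, dif_pos hua]
    have h1 := hπ n ⟨a, ha⟩ u ⟨x0, hx0⟩ hun hua hx1
    rw [h1]
    intro hcon
    have h2 := hinj n ⟨a, ha⟩ (hι n hcon)
    have h3 : α u⁻¹ x0 = x0 := congrArg Subtype.val h2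
    apply hu
    rw [map_inv, Equiv.Perm.inv_eq_iff_eq] at h3
    exact h3.symm

end Helper418
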