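import Pool.Agent.Helper418_Sofic.BDefs
import Pool.Agent.Helper418_Sofic.ActDef

open scoped Classical

namespace Helper418

namespace BNot

/-- all entries are nonnegative -/
def nonnegM (g : Matrix.SpecialLinearGroup (Fin 2) ℤ) : Prop :=
  ∀ i j, 0 ≤ (g : Matrix (Fin 2) (Fin 2) ℤ) i j

theorem nonneg_one : nonnegM 1 := by
  intro i j
  fin_cases i <;> fin_cases j <;> simp

theorem nonneg_mul {g h : Matrix.SpecialLinearGroup (Fin 2) ℤ} (hg : nonnegM g) (hh : nonnegM h) :
    nonnegM (g * h) := by
  intro i j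
  rw [Matrix.SpecialLinearGroup.coe_mul, Matrix.mul_apply]
  exact Finset.sum_nonneg fun k _ => mul_nonneg (hg i k) (hh k j)

/-- the elements of the group ring supported on nonnegative matrices -/
def NN : Subring RR where
  carrier := {r | ∀ g, ¬ nonnegM g → r.coeff g = 0}
  zero_mem' := by
    intro g _
    rfl
  add_mem' := by
    intro a b ha hb g hg
    rw [MonoidAlgebra.coeff_add, Finsupp.add_apply, ha g hg, hb g hg, add_zero]
  neg_mem' := by
    intro a ha g hg
    rw [MonoidAlgebra.coeff_neg, Finsupp.neg_apply, ha g hg, neg_zero]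
  one_mem' := by
    intro g hg
    by_contra h
    have h1 : g ∈ (1 : RR).coeff.support := Finsupp.mem_support_iff.mpr h
    have h2 := MonoidAlgebra.support_coeff_one_subset h1
    rw [Finset.mem_one] at h2
    rw [h2] at hg
    exact hg nonneg_one
  mul_mem' := by
    intro a b ha hb g hg
    by_contra h
    have h1 : g ∈ (a * b).coeff.support := Finsupp.mem_support_iff.mpr h
    have h2 := MonoidAlgebra.support_coeff_mul_subset a b h1
    obtain ⟨x, hx, y, hy, hxy⟩ := Finset.mem_mul.mp h2
    apply hg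
    rw [← hxy]
    apply nonneg_mul
    · by_contra hn
      exact (Finsupp.mem_support_iff.mp hx) (ha x hn)
    · by_contra hn
      exact (Finsupp.mem_support_iff.mp hy) (hb y hn)

theorem ofG_mem {g : Matrix.SpecialLinearGroup (Fin 2) ℤ} (hg : nonnegM g) : ofG g ∈ NN := by
  intro h hh
  have hne : g ≠ h := fun e => hh (e ▸ hg)
  unfold ofG
  rw [MonoidAlgebra.of_apply, MonoidAlgebra.coeff_single, Finsupp.single_eq_of_ne hne.symm]

theorem ofG_not_mem {g : Matrix.SpecialLinearGroup (Fin 2) ℤ} (hg : ¬ nonnegM g) :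
    ofG g ∉ NN := by
  intro h
  have h1 := h g hg
  unfold ofG at h1
  rw [MonoidAlgebra.of_apply, MonoidAlgebra.coeff_single, Finsupp.single_eq_same] at h1
  exact absurd h1 (by decide)

theorem mul_entries {A B : Matrix (Fin 6) (Fin 6) RR} (hA : ∀ i j, A i j ∈ NN)
    (hB : ∀ i j, B i j ∈ NN) : ∀ i j, (A * B) i j ∈ NN := by
  intro i j
  rw [Matrix.mul_apply]
  exact NN.sum_mem fun k _ => NN.mul_mem (hA i k) (hB k j)

/-- the units with all entries supported on nonnegative matrices, together with the inverse -/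
def SG : Subgroup (Matrix (Fin 6) (Fin 6) RR)ˣ where
  carrier := {g | (∀ i j, (g : Matrix (Fin 6) (Fin 6) RR) i j ∈ NN) ∧
    ∀ i j, ((g⁻¹ : (Matrix (Fin 6) (Fin 6) RR)ˣ) : Matrix (Fin 6) (Fin 6) RR) i j ∈ NN}
  one_mem' := by
    constructor
    · intro i j
      rw [Units.val_one, Matrix.one_apply]
      split_ifs
      · exact NN.one_mem
      · exact NN.zero_mem
    · intro i j
      rw [inv_one, Units.val_one, Matrix.one_apply]
      split_ifs
      · exact NN.one_mem
      · exact NN.zero_mem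
  mul_mem' := by
    intro a b ha hb
    constructor
    · rw [Units.val_mul]
      exact mul_entries ha.1 hb.1
    · rw [mul_inv_rev, Units.val_mul]
      exact mul_entries hb.2 ha.2
  inv_mem' := by
    intro a ha
    refine ⟨ha.2, ?_⟩
    rw [inv_inv]
    exact ha.1

theorem EE_entries {i j : Fin 6} (h : i ≠ j) {r : RR} (hr : r ∈ NN) :
    ∀ k l, ((EE i j r : (Matrix (Fin 6) (Fin 6) RR)ˣ) : Matrix (Fin 6) (Fin 6) RR) k l ∈ NN := by
  intro k l
  rw [EE_val h, Matrix.add_apply, Matrix.one_apply, Matrix.single_apply]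
  apply NN.add_mem
  · split_ifs
    · exact NN.one_mem
    · exact NN.zero_mem
  · split_ifs
    · exact hr
    · exact NN.zero_mem

theorem EE_mem {i j : Fin 6} (h : i ≠ j) {r : RR} (hr : r ∈ NN) : EE i j r ∈ SG := by
  refine ⟨EE_entries h hr, ?_⟩
  rw [EE_inv h]
  exact EE_entries h (NN.neg_mem hr)

theorem r3_mem (k : Fin 3) : r3 k ∈ NN := by
  have hU : nonnegM mU := by
    intro i j
    fin_cases i <;> fin_cases j <;> simp [mU]
  have hL : nonnegM mL := by
    intro i j
    fin_cases i <;> fin_cases j <;> simp [mL]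
  fin_cases k
  · exact NN.one_mem
  · exact ofG_mem hU
  · exact ofG_mem hL

theorem closure_le : Subgroup.closure (Set.range kB) ≤ SG := by
  rw [Subgroup.closure_le]
  rintro _ ⟨a, rfl⟩
  have e1 : ∀ i : Fin 3, lo i ≠ lo (i + 1) := by decide
  have e2 : ∀ i : Fin 3, up i ≠ 3 := by decide
  rcases a with ⟨i, k⟩ | i
  · exact EE_mem (e1 i) (r3_mem k)
  · exact EE_mem (e2 i) NN.one_mem

end BNot

/-- TARGET -/
theorem EE_not_mem : EE 0 3 (ofG mU⁻¹) ∉ Subgroup.closure (Set.range kB) := by
  intro h
  have h1 := (BNot.closure_le h).1 0 3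
  rw [EE_val (by decide), Matrix.add_apply, Matrix.one_apply_ne (by decide),
    Matrix.single_apply_same, zero_add] at h1
  refine BNot.ofG_not_mem ?_ h1
  intro hn
  have h2 := hn 0 1
  rw [Matrix.SpecialLinearGroup.coe_inv, Matrix.adjugate_fin_two] at h2
  simp [mU] at h2

end Helper418
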