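import Pool.Agent.Helper418_Sofic.BDefs
import Pool.Agent.Helper418_Sofic.ActDef

open scoped Classical

namespace Helper418

namespace BRF

abbrev RN (N : ℕ) : Type := MonoidAlgebra (ZMod 127) (Matrix.SpecialLinearGroup (Fin 2) (ZMod N))

noncomputable def redG (N : ℕ) :
    Matrix.SpecialLinearGroup (Fin 2) ℤ →* Matrix.SpecialLinearGroup (Fin 2) (ZMod N) :=
  Matrix.SpecialLinearGroup.map (Int.castRingHom (ZMod N))

noncomputable def redR (N : ℕ) : RR →+* RN N :=
  MonoidAlgebra.mapDomainRingHom (ZMod 127) (redG N)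

noncomputable def redU (N : ℕ) :
    (Matrix (Fin 6) (Fin 6) RR)ˣ →* (Matrix (Fin 6) (Fin 6) (RN N))ˣ :=
  Units.map ((redR N).mapMatrix : Matrix (Fin 6) (Fin 6) RR →+* Matrix (Fin 6) (Fin 6) (RN N))

instance finRN (N : ℕ) [NeZero N] : Finite (RN N) := by
  have : Finite (ZMod 127) := inferInstance
  have : Finite (Matrix.SpecialLinearGroup (Fin 2) (ZMod N)) := by
    have : Function.Injective
        (fun A : Matrix.SpecialLinearGroup (Fin 2) (ZMod N) => (A : Matrix (Fin 2) (Fin 2) (ZMod N))) :=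
      Subtype.val_injective
    exact Finite.of_injective _ this
  have h : Function.Injective (fun x : RN N => (fun m => x.coeff m)) := by
    intro x y hxy
    apply MonoidAlgebra.coeff_injective
    ext m
    exact congrFun hxy m
  exact Finite.of_injective _ h

instance finQ (N : ℕ) [NeZero N] : Finite (Matrix (Fin 6) (Fin 6) (RN N))ˣ := by
  have : Finite (Matrix (Fin 6) (Fin 6) (RN N)) := by
    unfold Matrix
    infer_instance
  exact Finite.of_injective _ Units.val_injective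

/-- entries bounded by `B` are determined by their reduction modulo `2 B + 1` -/
theorem int_eq_of_cast {B : ℕ} {a b : ℤ} (ha : a.natAbs ≤ B) (hb : b.natAbs ≤ B)
    (h : (a : ZMod (2 * B + 1)) = (b : ZMod (2 * B + 1))) : a = b := by
  rw [ZMod.intCast_eq_intCast_iff_dvd_sub] at h
  obtain ⟨c, hc⟩ := h
  have hB : (0 : ℤ) ≤ B := by positivity
  have ha' : |a| ≤ B := by rw [Int.abs_eq_natAbs]; exact_mod_cast ha
  have hb' : |b| ≤ B := by rw [Int.abs_eq_natAbs]; exact_mod_cast hb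
  rw [abs_le] at ha' hb'
  push_cast at hc
  have hc0 : c = 0 := by
    by_contra hne
    rcases lt_or_gt_of_ne hne with h1 | h1
    · nlinarith
    · nlinarith
  rw [hc0] at hc
  linarith

theorem redG_apply (N : ℕ) (A : Matrix.SpecialLinearGroup (Fin 2) ℤ) (i j : Fin 2) :
    (redG N A) i j = ((A i j : ℤ) : ZMod N) := rfl

theorem exists_injOn (S : Finset (Matrix.SpecialLinearGroup (Fin 2) ℤ)) :
    ∃ B : ℕ, Set.InjOn (redG (2 * B + 1)) (S : Set (Matrix.SpecialLinearGroup (Fin 2) ℤ)) := by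
  refine ⟨∑ a ∈ S, ∑ i, ∑ j, (a i j).natAbs, ?_⟩
  set B := ∑ a ∈ S, ∑ i, ∑ j, (a i j).natAbs with hB
  have hle : ∀ a ∈ S, ∀ i j, (a i j).natAbs ≤ B := by
    intro a ha i j
    calc (a i j).natAbs ≤ ∑ j, (a i j).natAbs :=
          Finset.single_le_sum (f := fun j => (a i j).natAbs) (fun _ _ => Nat.zero_le _)
            (Finset.mem_univ j)
      _ ≤ ∑ i, ∑ j, (a i j).natAbs :=
          Finset.single_le_sum (f := fun i => ∑ j, (a i j).natAbs) (fun _ _ => Nat.zero_le _)
            (Finset.mem_univ i)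
      _ ≤ B := Finset.single_le_sum (f := fun a => ∑ i, ∑ j, (a i j).natAbs)
            (fun _ _ => Nat.zero_le _) ha
  intro a ha b hb hab
  ext i j
  refine int_eq_of_cast (hle a ha i j) (hle b hb i j) ?_
  rw [← redG_apply, ← redG_apply, hab]

theorem redR_ne_zero {x : RR} (hx : x ≠ 0) : ∃ B : ℕ, redR (2 * B + 1) x ≠ 0 := by
  obtain ⟨B, hB⟩ := exists_injOn x.coeff.support
  refine ⟨B, fun h0 => hx ?_⟩
  have h1 : Finsupp.mapDomain (redG (2 * B + 1)) x.coeff = 0 := by
    have := congrArg MonoidAlgebra.coeff h0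
    simpa [redR, MonoidAlgebra.mapDomainRingHom_apply, MonoidAlgebra.mapDomain] using this
  have h2 := Finsupp.mapDomain_injOn (M := ZMod 127) _ hB
    (x₁ := x.coeff) (x₂ := 0) (by simp) (by simp) (by simpa using h1)
  apply MonoidAlgebra.coeff_injective
  simpa using h2

end BRF

/-- TARGET -/
theorem units_RF (g : (Matrix (Fin 6) (Fin 6) RR)ˣ) (hg : g ≠ 1) :
    ∃ (Q : Type) (_ : Group Q) (_ : Finite Q) (f : (Matrix (Fin 6) (Fin 6) RR)ˣ →* Q), f g ≠ 1 := by
  have h1 : (g : Matrix (Fin 6) (Fin 6) RR) - 1 ≠ 0 := by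
    intro h
    apply hg
    ext1
    simpa using sub_eq_zero.mp h
  have h2 : ∃ i j, ((g : Matrix (Fin 6) (Fin 6) RR) - 1) i j ≠ 0 := by
    by_contra hcon
    push Not at hcon
    exact h1 (Matrix.ext fun i j => hcon i j)
  obtain ⟨i, j, hij⟩ := h2
  obtain ⟨B, hB⟩ := BRF.redR_ne_zero hij
  refine ⟨(Matrix (Fin 6) (Fin 6) (BRF.RN (2 * B + 1)))ˣ, inferInstance, inferInstance,
    BRF.redU (2 * B + 1), fun h => hB ?_⟩
  have h3 : ((BRF.redR (2 * B + 1)).mapMatrix (g : Matrix (Fin 6) (Fin 6) RR)) = 1 := by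
    have := congrArg Units.val h
    simpa [BRF.redU] using this
  have h4 : ((BRF.redR (2 * B + 1)).mapMatrix ((g : Matrix (Fin 6) (Fin 6) RR) - 1)) = 0 := by
    rw [map_sub, h3, map_one, sub_self]
  have h5 := congrFun (congrFun h4 i) j
  simpa [RingHom.mapMatrix_apply, Matrix.map_apply] using h5

/-- finitely many nontrivial elements are detected by one finite quotient -/
theorem units_RF_finset (S : Finset (Matrix (Fin 6) (Fin 6) RR)ˣ) (hS : ∀ g ∈ S, g ≠ 1) :
    ∃ (Q : Type) (_ : Group Q) (_ : Finite Q) (f : (Matrix (Fin 6) (Fin 6) RR)ˣ →* Q),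
      ∀ g ∈ S, f g ≠ 1 := by
  choose Q hG hF f hf using fun g : S => units_RF g.1 (hS g.1 g.2)
  refine ⟨∀ g : S, Q g, inferInstance, inferInstance, MonoidHom.pi f, fun g hg h => ?_⟩
  exact hf ⟨g, hg⟩ (congrFun h ⟨g, hg⟩)

end Helper418
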