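import Pool.Agent.Helper418_Sofic.BDefs
import Pool.Agent.Helper418_Sofic.ActDef

/-!
# Two T-systems of elementary matrices
-/

namespace Helper418.BTsys

/-- positions of the family `sB` -/
def posB : (Fin 3 × Fin 5) ⊕ (Fin 3 × Fin 3) ⊕ Unit → Fin 6 × Fin 6
  | Sum.inl i => (up i.1, up (i.1 + 1))
  | Sum.inr (Sum.inl i) => (lo i.1, lo (i.1 + 1))
  | Sum.inr (Sum.inr _) => (0, 3)

/-- positions of the family `kB` -/
def posK : (Fin 3 × Fin 3) ⊕ Fin 3 → Fin 6 × Fin 6
  | Sum.inl i => (lo i.1, lo (i.1 + 1))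
  | Sum.inr i => (up i, 3)

set_option maxRecDepth 100000 in
theorem posB_ne : ∀ i, (posB i).1 ≠ (posB i).2 := by decide

set_option maxRecDepth 100000 in
theorem posK_ne : ∀ i, (posK i).1 ≠ (posK i).2 := by decide

set_option maxRecDepth 100000 in
theorem posB_swap : ∀ i j, ¬ ((posB i).2 = (posB j).1 ∧ (posB j).2 = (posB i).1) := by decide

set_option maxRecDepth 100000 in
theorem posK_swap : ∀ i j, ¬ ((posK i).2 = (posK j).1 ∧ (posK j).2 = (posK i).1) := by decide

set_option maxRecDepth 100000 in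
theorem posB_deg : ∀ i, (Finset.univ.filter fun j =>
    (posB i).2 = (posB j).1 ∨ (posB j).2 = (posB i).1).card ≤ 11 := by decide

set_option maxRecDepth 100000 in
theorem posK_deg : ∀ i, (Finset.univ.filter fun j =>
    (posK i).2 = (posK j).1 ∨ (posK j).2 = (posK i).1).card ≤ 11 := by decide

theorem cm_commute {G : Type} [Group G] {a b : G} (h : Commute a b) : cm a b = 1 := by
  unfold cm
  rw [h.eq, mul_assoc b, mul_inv_cancel, mul_one, mul_inv_cancel]

theorem cm_inv {G : Type} [Group G] (a b : G) : cm a b = (cm b a)⁻¹ := by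
  unfold cm
  group

theorem cast_zero : ((127 : ℕ) : RR) = 0 := by
  have h : ((127 : ℕ) : RR) = algebraMap (ZMod 127) RR ((127 : ℕ) : ZMod 127) :=
    (map_natCast _ _).symm
  rw [h, ZMod.natCast_self, map_zero]

theorem EE_pow {i j : Fin 6} (h : i ≠ j) (a : RR) : EE i j a ^ 127 = 1 := by
  unfold EE
  rw [tr_pow (single_sq h a), ← nsmul_eq_mul, ← tr_zero]
  congr 1
  rw [Matrix.smul_single, nsmul_eq_mul, cast_zero, zero_mul, Matrix.single_zero]

open scoped Classical in
/-- The general statement. -/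
theorem tsystem {ι : Type} [Fintype ι] (s : ι → (Matrix (Fin 6) (Fin 6) RR)ˣ)
    (P : ι → Fin 6 × Fin 6) (v : ι → RR) (hs : ∀ i, s i = EE (P i).1 (P i).2 (v i))
    (hne : ∀ i, (P i).1 ≠ (P i).2) (hsw : ∀ i j, ¬ ((P i).2 = (P j).1 ∧ (P j).2 = (P i).1))
    (hdeg : ∀ i, (Finset.univ.filter fun j => (P i).2 = (P j).1 ∨ (P j).2 = (P i).1).card ≤ 11) :
    IsTSystem 127 11 s where
  prime := by norm_num
  hD := by norm_num
  pow i := by rw [hs]; exact EE_pow (hne i) _
  comm i j := by
    by_cases h1 : (P i).2 = (P j).1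
    · have h2 : (P j).2 ≠ (P i).1 := fun h2 => hsw i j ⟨h1, h2⟩
      have e : cm (s i) (s j) = EE (P i).1 (P j).2 (v i * v j) := by
        rw [hs i, hs j, ← h1]
        exact EE_cm h2.symm (hne i) (h1 ▸ hne j) _ _
      rw [e, hs i]
      exact EE_commute h2.symm (hne i) h2 (hne i).symm _ _
    · by_cases h2 : (P j).2 = (P i).1
      · have e : cm (s j) (s i) = EE (P j).1 (P i).2 (v j * v i) := by
          rw [hs i, hs j, h2]
          exact EE_cm (Ne.symm h1) (h2 ▸ hne j) (hne i) _ _
        rw [cm_inv, e, hs i]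
        exact (EE_commute (Ne.symm h1) (hne i) (hne i).symm h1 _ _).inv_left
      · have h3 : Commute (s i) (s j) := by
          rw [hs i, hs j]
          exact EE_commute (hne i) (hne j) h1 h2 _ _
        rw [cm_commute h3]
        exact Commute.one_left _
  deg i := by
    refine le_trans (Finset.card_le_card ?_) (hdeg i)
    intro j hj
    rw [Finset.mem_filter] at hj ⊢
    refine ⟨hj.1, ?_⟩
    by_contra h
    push Not at h
    apply hj.2
    rw [hs i, hs j]
    exact EE_commute (hne i) (hne j) h.1 h.2 _ _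

end Helper418.BTsys

open scoped Classical

namespace Helper418

/-- TARGET -/
theorem sB_tsystem : IsTSystem 127 11 sB := by
  refine BTsys.tsystem sB BTsys.posB (fun i => match i with
    | Sum.inl i => r5 i.2
    | Sum.inr (Sum.inl i) => r3 i.2
    | Sum.inr (Sum.inr _) => 1) ?_ BTsys.posB_ne BTsys.posB_swap (fun i => ?_)
  · rintro (i | i | i) <;> rfl
  · convert BTsys.posB_deg i

/-- TARGET -/
theorem kB_tsystem : IsTSystem 127 11 kB := by
  refine BTsys.tsystem kB BTsys.posK (fun i => match i with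
    | Sum.inl i => r3 i.2
    | Sum.inr _ => 1) ?_ BTsys.posK_ne BTsys.posK_swap (fun i => ?_)
  · rintro (i | i) <;> rfl
  · convert BTsys.posK_deg i

end Helper418

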