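import Pool.Agent.Helper418_Sofic.Main1
import Pool.Agent.Helper418_Sofic.Main3
import Pool.Agent.Helper418_Sofic.BTsys
import Pool.Agent.Helper418_Sofic.BGen
import Pool.Agent.Helper418_Sofic.BNot
import Pool.Agent.Helper418_Sofic.BRF
import Pool.Agent.Helper418_Sofic.BFree
import Pool.Agent.Helper418_Sofic.BLabel

/-!
# A non-sofic action of a finitely generated residually finite group
-/

open Filter Topology Finset
open scoped Classical

namespace Helper418

theorem ae_false {A : ℕ → Type} [∀ n, Fintype (A n)] [∀ n, Nonempty (A n)]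
    (h : ∀ᶠ _x in ae A, False) : False := by
  have h1 : Tendsto (dens (A := A) (fun _ _ => ¬ False)) atTop (𝓝 0) :=
    (mem_ae (P := fun _ _ => False)).1 h
  have h2 : dens (A := A) (fun _ _ => ¬ False) = fun _ => 1 := by
    funext n
    have : (0 : ℝ) < Fintype.card (A n) := by exact_mod_cast Fintype.card_pos
    unfold dens
    have e : (univ.filter fun _ : A n => ¬ False).card = Fintype.card (A n) := by
      simp [card_univ]
    convert div_self this.ne'
    convert e
  rw [h2] at h1
  exact zero_ne_one (tendsto_nhds_unique h1 tendsto_const_nhds)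

/-- In a sofic action of `G`, a point fixed by `K` is fixed by `v⁻¹ K v`. -/
theorem sofic_action_stab {G X : Type} [Group G] [Countable G] (α : G →* Equiv.Perm X)
    (hα : SoficAction α) {ι κ : Type} [Fintype ι] [Fintype κ] [Nonempty ι] [Nonempty κ]
    {p D p' D' : ℕ} {s : ι → G} (hs : IsTSystem p D s)
    (hsc : Subgroup.closure (Set.range s) = ⊤)
    {k : κ → G} (hk : IsTSystem p' D' k) (P : Set G)
    (hPk : ∀ v ∈ P, ∀ i, v * k i * v⁻¹ ∈ Subgroup.closure (Set.range k))
    (hP : Subgroup.closure P = ⊤) (x0 : X) (hx0 : ∀ i, α (k i) x0 = x0)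
    {v : G} (hv : v ∈ P) {u : G} (hu : v * u * v⁻¹ ∈ Subgroup.closure (Set.range k)) :
    α u x0 = x0 := by
  by_contra hne
  obtain ⟨A, iF, iN, Φ, l, hl, hlu⟩ := label_approx α hα x0 u hne
  have hIs := improves_of_tsystem hs Φ
  have hIk := improves_of_tsystem hk Φ
  obtain ⟨f, hf⟩ := exists_finest hIk
  have hinv : AsInv (fun n i => Φ.φ n (k i)) l := fun i => hl (k i) (hx0 i)
  have h1 := conj_inv Φ s hIs hsc k P hPk hP hf hv hinv hu
  apply ae_false (A := A)
  filter_upwards [h1, hlu] with x h1 h2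
  exact h2 h1

/-! ## The group -/

/-- the big group `G`, a subgroup of `GL_6 (F_127[SL(2,ℤ)])` with 25 generators -/
noncomputable def GB : Subgroup (Matrix (Fin 6) (Fin 6) RR)ˣ := Subgroup.closure (Set.range sB)

noncomputable instance : Countable GB := countable_closure _ (Set.finite_range _).countable

/-- the generators in `G` -/
noncomputable def sG' (i : (Fin 3 × Fin 5) ⊕ (Fin 3 × Fin 3) ⊕ Unit) : GB :=
  ⟨sB i, Subgroup.subset_closure ⟨i, rfl⟩⟩

/-- the generators of `K` in `G` -/
noncomputable def kG (l : (Fin 3 × Fin 3) ⊕ Fin 3) : GB := ⟨kB l, kB_mem l⟩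

/-- the subgroup `K` of `G` -/
noncomputable def KB : Subgroup GB := Subgroup.closure (Set.range kG)

theorem closure_lift {H : Type} [Group H] {C : Subgroup H} {ι : Type} (t : ι → C) (z : C) :
    (z : H) ∈ Subgroup.closure (Set.range fun i => (t i : H)) ↔
      z ∈ Subgroup.closure (Set.range t) := by
  have e : (Set.range fun i => (t i : H)) = C.subtype '' (Set.range t) := by
    ext w; simp
  rw [e, ← MonoidHom.map_closure]
  constructor
  · rintro ⟨w, hw, hwz⟩
    have : w = z := Subtype.ext hwz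
    rwa [← this]
  · intro hz
    exact ⟨z, hz, rfl⟩

theorem sG'_closure : Subgroup.closure (Set.range sG') = ⊤ := by
  rw [eq_top_iff]
  rintro z _
  exact (closure_lift sG' z).1 z.2

theorem fg_GB : Group.FG GB := by
  rw [Group.fg_iff]
  exact ⟨Set.range sG', sG'_closure, Set.finite_range _⟩

theorem fg_KB : KB.FG := (Subgroup.fg_iff KB).2 ⟨Set.range kG, rfl, Set.finite_range _⟩

theorem GB_RF (g : GB) (hg : g ≠ 1) :
    ∃ (Q : Type) (_ : Group Q) (_ : Finite Q) (f : GB →* Q), f g ≠ 1 := by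
  obtain ⟨Q, i1, i2, f, hf⟩ := units_RF (g : (Matrix (Fin 6) (Fin 6) RR)ˣ)
    (fun h => hg (Subtype.ext h))
  exact ⟨Q, i1, i2, f.comp GB.subtype, hf⟩

theorem sG'_tsystem : IsTSystem 127 11 sG' :=
  Alg2.tsystem_comap GB.subtype (Subgroup.subtype_injective _) sB_tsystem

theorem kG_tsystem : IsTSystem 127 11 kG :=
  Alg2.tsystem_comap GB.subtype (Subgroup.subtype_injective _) kB_tsystem

/-- elements conjugating `K` into itself -/
def PB : Set GB := {v | ∀ l, v * kG l * v⁻¹ ∈ KB}

theorem PB_closure : Subgroup.closure PB = ⊤ := by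
  rw [eq_top_iff, ← sG'_closure, Subgroup.closure_le]
  rintro _ ⟨i, rfl⟩
  have h := sB_mem_P i
  have h2 : Subgroup.closure {v : (Matrix (Fin 6) (Fin 6) RR)ˣ |
      v ∈ Subgroup.closure (Set.range sB) ∧
      ∀ l, v * kB l * v⁻¹ ∈ Subgroup.closure (Set.range kB)} ≤
      (Subgroup.closure PB).map GB.subtype := by
    rw [Subgroup.closure_le]
    rintro v ⟨hv, hl⟩
    refine ⟨⟨v, hv⟩, Subgroup.subset_closure ?_, rfl⟩
    intro l
    exact (closure_lift kG _).1 (hl l)
  obtain ⟨w, hw, hwz⟩ := h2 h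
  have : w = sG' i := Subtype.ext hwz
  rwa [← this]

/-- the diagonal element -/
noncomputable def dG : GB := ⟨dB, dB_mem⟩

/-- `1 + e_03` -/
noncomputable def eG : GB := ⟨EE 0 3 1, Subgroup.subset_closure ⟨Sum.inr (Sum.inr ()), rfl⟩⟩

/-- the element `1 + U⁻¹ e_03` -/
noncomputable def uG : GB := dG⁻¹ * eG * dG

theorem uG_not_mem : uG ∉ KB := by
  intro h
  have h1 : (uG : (Matrix (Fin 6) (Fin 6) RR)ˣ) = EE 0 3 (ofG mU⁻¹) := by
    have := (dB_EE 0 3 (by decide) 1).2
    show dB⁻¹ * EE 0 3 1 * dB = _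
    rw [this]
    congr 1
    simp
  apply EE_not_mem
  rw [← h1]
  exact (closure_lift kG uG).2 h

theorem eG_mem : eG ∈ KB := by
  have : eG = kG (Sum.inr 0) := rfl
  rw [this]
  exact Subgroup.subset_closure ⟨_, rfl⟩

/-- In every sofic action of `G`, a point fixed by `K` is fixed by `uG ∉ K`. -/
theorem GB_sofic_action {X : Type} (α : GB →* Equiv.Perm X) (hα : SoficAction α) (x0 : X)
    (hx0 : ∀ k ∈ KB, α k x0 = x0) : α uG x0 = x0 := by
  refine sofic_action_stab α hα sG'_tsystem sG'_closure kG_tsystem PB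
    (fun v hv l => hv l) PB_closure x0 (fun i => hx0 _ (Subgroup.subset_closure ⟨i, rfl⟩))
    (v := dG) (fun l => ?_) (u := uG) ?_
  · exact (closure_lift kG _).1 (dB_conj l)
  · have : dG * uG * dG⁻¹ = eG := by unfold uG; group
    rw [this]
    exact eG_mem

end Helper418
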