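import Pool.Agent.Helper418_Sofic.BDefs
import Pool.Agent.Helper418_Sofic.ActDef

open scoped Classical

namespace Helper418

namespace BUp

/-- the subgroup generated by `sB` -/
noncomputable def C : Subgroup (Matrix (Fin 6) (Fin 6) RR)ˣ := Subgroup.closure (Set.range sB)

theorem up_ne {i j : Fin 3} (h : i ≠ j) : up i ≠ up j := by
  have key : ∀ i j : Fin 3, i ≠ j → (![0, 1, 2] : Fin 3 → Fin 6) i ≠ ![0, 1, 2] j := by decide
  exact key i j h

theorem cm_mem {a b : (Matrix (Fin 6) (Fin 6) RR)ˣ} (ha : a ∈ C) (hb : b ∈ C) : cm a b ∈ C :=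
  C.mul_mem (C.mul_mem (C.mul_mem ha hb) (C.inv_mem ha)) (C.inv_mem hb)

/-- the elements `r` with all `EE (up i) (up j) r` in the subgroup -/
def M (r : RR) : Prop := ∀ i j : Fin 3, i ≠ j → EE (up i) (up j) r ∈ C

theorem M_mul {a b : RR} (ha : M a) (hb : M b) : M (a * b) := by
  intro i j hij
  have key : ∀ i j : Fin 3, i ≠ j → ∃ k : Fin 3, i ≠ k ∧ k ≠ j := by decide
  obtain ⟨k, hik, hkj⟩ := key i j hij
  rw [← EE_cm (up_ne hij) (up_ne hik) (up_ne hkj)]
  exact cm_mem (ha i k hik) (hb k j hkj)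

theorem M_r5 (m : Fin 5) : M (r5 m) := by
  have h1 : ∀ (i : Fin 3) (m : Fin 5), EE (up i) (up (i + 1)) (r5 m) ∈ C :=
    fun i m => Subgroup.subset_closure ⟨Sum.inl (i, m), rfl⟩
  intro i j hij
  have key : ∀ i j : Fin 3, i ≠ j → j = i + 1 ∨ (j = i + 1 + 1 ∧ i ≠ i + 1 ∧ i + 1 ≠ i + 1 + 1) := by
    decide
  rcases key i j hij with rfl | ⟨rfl, h2, h3⟩
  · exact h1 i m
  · have h4 := EE_cm (R := RR) (up_ne hij) (up_ne h2) (up_ne h3) (r5 m) (r5 0)
    have h5 : r5 m * r5 0 = r5 m := by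
      rw [show r5 0 = 1 from rfl, mul_one]
    rw [h5] at h4
    rw [← h4]
    exact cm_mem (h1 i m) (h1 (i + 1) 0)

theorem ofG_mul (g h : Matrix.SpecialLinearGroup (Fin 2) ℤ) : ofG (g * h) = ofG g * ofG h := by
  unfold ofG
  rw [map_mul]

theorem ofG_one : ofG 1 = 1 := by
  unfold ofG
  rw [map_one]

end BUp

open BUp in
/-- TARGET -/
theorem EE_up_mem (g : Matrix.SpecialLinearGroup (Fin 2) ℤ)
    (hg : g ∈ Subgroup.closure ({mU, mL} : Set (Matrix.SpecialLinearGroup (Fin 2) ℤ)))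
    (i j : Fin 3) (hij : i ≠ j) :
    EE (up i) (up j) (ofG g) ∈ Subgroup.closure (Set.range sB) := by
  have key : M (ofG g) ∧ M (ofG g⁻¹) := by
    induction hg using Subgroup.closure_induction with
    | mem x hx =>
      rcases hx with hx | hx
      · subst hx
        exact ⟨M_r5 1, M_r5 2⟩
      · have hx' : x = mL := hx
        subst hx'
        exact ⟨M_r5 3, M_r5 4⟩
    | one =>
      rw [inv_one, ofG_one]
      exact ⟨M_r5 0, M_r5 0⟩
    | mul x y _ _ hx hy =>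
      rw [mul_inv_rev, ofG_mul, ofG_mul]
      exact ⟨M_mul hx.1 hy.1, M_mul hy.2 hx.2⟩
    | inv x _ hx =>
      rw [inv_inv]
      exact ⟨hx.2, hx.1⟩
  exact key.1 i j hij

end Helper418
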