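import Pool.Agent.Helper418_Sofic.Alg

open scoped Classical

namespace Helper418

namespace Conc

/-- the digit -/
def dg (i : Bool) : ℕ := if i then 1 else 0

/-- the decimation operators -/
def yO (i : Bool) : Module.End (ZMod 101) (ℕ → ZMod 101) where
  toFun f := fun n => f (2 * n + dg i)
  map_add' _ _ := rfl
  map_smul' _ _ := rfl

/-- the interleaving operators -/
def xO (i : Bool) : Module.End (ZMod 101) (ℕ → ZMod 101) where
  toFun f := fun m => if m % 2 = dg i then f (m / 2) else 0
  map_add' f g := by
    funext m
    simp only [Pi.add_apply]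
    split_ifs <;> simp
  map_smul' c f := by
    funext m
    simp only [Pi.smul_apply, RingHom.id_apply]
    split_ifs <;> simp

theorem yO_apply (i : Bool) (f : ℕ → ZMod 101) (n : ℕ) : yO i f n = f (2 * n + dg i) := rfl

theorem xO_apply (i : Bool) (f : ℕ → ZMod 101) (m : ℕ) :
    xO i f m = if m % 2 = dg i then f (m / 2) else 0 := rfl

theorem dg_lt (i : Bool) : dg i < 2 := by
  cases i <;> simp [dg]

theorem dg_inj {i j : Bool} (h : dg i = dg j) : i = j := by
  cases i <;> cases j <;> simp_all [dg]

end Conc

open Conc in
/-- TARGET -/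
theorem exists_leav : ∃ (x y : Bool → Module.End (ZMod 101) (ℕ → ZMod 101)), Leav 101 x y := by
  refine ⟨xO, yO, ?_, ?_, ?_, ?_, ?_⟩
  · intro i
    apply LinearMap.ext
    intro f
    funext n
    rw [Module.End.mul_apply, yO_apply, xO_apply]
    have := dg_lt i
    rw [if_pos (by omega), show (2 * n + dg i) / 2 = n by omega]
    rfl
  · intro i j hij
    apply LinearMap.ext
    intro f
    funext n
    rw [Module.End.mul_apply, yO_apply, xO_apply]
    have := dg_lt i
    rw [if_neg ?_]
    · rfl
    · intro h
      apply hij
      apply dg_inj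
      omega
  · apply LinearMap.ext
    intro f
    funext n
    rw [LinearMap.add_apply, Pi.add_apply, Module.End.mul_apply, Module.End.mul_apply, xO_apply,
      xO_apply, yO_apply, yO_apply, Module.End.one_apply]
    have h0 : dg false = 0 := rfl
    have h1 : dg true = 1 := rfl
    rw [h0, h1]
    rcases Nat.mod_two_eq_zero_or_one n with h | h
    · rw [if_pos h, if_neg (by omega), add_zero]
      congr 1
      omega
    · rw [if_neg (by omega), if_pos h, zero_add]
      congr 1
      omega
  · apply LinearMap.ext
    intro f
    have h : ((101 : ℕ) : Module.End (ZMod 101) (ℕ → ZMod 101)) =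
        ((101 : ℕ) : ZMod 101) • (1 : Module.End (ZMod 101) (ℕ → ZMod 101)) := by
      rw [← map_natCast (algebraMap (ZMod 101) (Module.End (ZMod 101) (ℕ → ZMod 101))),
        Algebra.algebraMap_eq_smul_one]
    rw [h, ZMod.natCast_self, zero_smul]
  · intro h
    have h1 := congrFun (LinearMap.congr_fun h (fun _ => (1 : ZMod 101))) 0
    rw [Module.End.one_apply, LinearMap.zero_apply] at h1
    have h2 : (1 : ZMod 101) = 0 := h1
    exact absurd h2 (by decide)

end Helper418
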