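import Pool.Agent.Helper418_Sofic.Defs

open Filter Topology Finset
open scoped Classical

namespace Helper418.Erg

section Fin
variable {X : Type} [Fintype X] {ι : Type} [Fintype ι]

theorem card_enter_eq (s : Equiv.Perm X) (W : Finset X) :
    (univ.filter fun x => x ∉ W ∧ s x ∈ W).card =
      (univ.filter fun x => x ∈ W ∧ s x ∉ W).card := by
  have h1 : (univ.filter fun x => s x ∈ W).card = W.card := by
    apply Finset.card_bij (fun x _ => s x)
    · intro a ha
      simpa using ha
    · intro a _ b _ hab
      exact s.injective hab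
    · intro b hb
      exact ⟨s.symm b, by simpa using hb, by simp⟩
  have h2 : (univ.filter fun x => s x ∈ W).card =
      (univ.filter fun x => x ∈ W ∧ s x ∈ W).card +
        (univ.filter fun x => x ∉ W ∧ s x ∈ W).card := by
    rw [← card_union_of_disjoint]
    · congr 1
      ext x
      simp only [mem_filter, mem_univ, true_and, mem_union]
      tauto
    · rw [Finset.disjoint_left]
      intro x hx hx'
      simp only [mem_filter, mem_univ, true_and] at hx hx'
      exact hx'.1 hx.1
  have h3 : W.card =
      (univ.filter fun x => x ∈ W ∧ s x ∈ W).card +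
        (univ.filter fun x => x ∈ W ∧ s x ∉ W).card := by
    rw [← card_union_of_disjoint]
    · congr 1
      ext x
      simp only [mem_filter, mem_univ, true_and, mem_union]
      tauto
    · rw [Finset.disjoint_left]
      intro x hx hx'
      simp only [mem_filter, mem_univ, true_and] at hx hx'
      exact hx'.2 hx.2
  omega

/-- the indicator labelling -/
noncomputable def ind (W : Finset X) : X → ℕ := fun x => if x ∈ W then 1 else 0

theorem inv_ind (σ : ι → Equiv.Perm X) (W : Finset X) : inv σ (ind W) = 2 * bd σ W := by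
  unfold inv bd
  rw [Finset.mul_sum]
  apply Finset.sum_congr rfl
  intro i _
  have h := card_enter_eq (σ i) W
  have e1 : (univ.filter fun x => ind W (σ i x) ≠ ind W x) =
      (univ.filter fun x => x ∉ W ∧ σ i x ∈ W) ∪ (univ.filter fun x => x ∈ W ∧ σ i x ∉ W) := by
    ext x
    rw [mem_union, mem_filter, mem_filter, mem_filter]
    unfold ind
    by_cases h1 : x ∈ W <;> by_cases h2 : σ i x ∈ W <;> simp [h1, h2]
  have e2 : (W.filter fun x => σ i x ∉ W) = (univ.filter fun x => x ∈ W ∧ σ i x ∉ W) := by
    ext x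
    simp only [mem_filter, mem_univ, true_and]
  rw [e1, e2, card_union_of_disjoint, h]
  · ring
  · rw [Finset.disjoint_left]
    intro x hx hx'
    simp only [mem_filter, mem_univ, true_and] at hx hx'
    exact hx.1 hx'.1

theorem bd_glue_le (σ : ι → Equiv.Perm X) (f : X → ℕ) (Wv : ℕ → Finset X)
    (hW : ∀ v, ∀ y ∈ Wv v, f y = v) :
    bd σ (univ.filter fun x => x ∈ Wv (f x)) ≤ ∑ v ∈ univ.image f, bd σ (Wv v) := by
  unfold bd
  rw [Finset.sum_comm]
  apply Finset.sum_le_sum
  intro i _
  refine le_trans (card_le_card (t := (univ.image f).biUnion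
    (fun v => (Wv v).filter fun x => σ i x ∉ Wv v)) ?_) card_biUnion_le
  intro x hx
  simp only [mem_filter, mem_univ, true_and] at hx
  rw [mem_biUnion]
  refine ⟨f x, mem_image_of_mem f (mem_univ x), ?_⟩
  rw [mem_filter]
  refine ⟨hx.1, fun h => hx.2 ?_⟩
  rwa [hW _ _ h]

/-- the number of points with label `v` -/
noncomputable def cv (f : X → ℕ) (v : ℕ) : ℕ := (univ.filter fun y => f y = v).card

theorem sz_eq (f : X → ℕ) (x : X) : sz f x = cv f (f x) := rfl

/-- `W` is a bad subset of the part with label `v` -/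
def BadSet (σ : ι → Equiv.Perm X) (f : X → ℕ) (η ε : ℝ) (v : ℕ) (W : Finset X) : Prop :=
  (∀ y ∈ W, f y = v) ∧ (bd σ W : ℝ) ≤ ε * cv f v ∧ η * cv f v < W.card ∧
    (W.card : ℝ) < (1 - η) * cv f v

/-- choice of a bad subset -/
noncomputable def pick (σ : ι → Equiv.Perm X) (f : X → ℕ) (η ε : ℝ) (v : ℕ) : Finset X :=
  if h : ∃ W, BadSet σ f η ε v W then h.choose else ∅

theorem pick_spec (σ : ι → Equiv.Perm X) (f : X → ℕ) (η ε : ℝ) (v : ℕ)
    (h : ∃ W, BadSet σ f η ε v W) : BadSet σ f η ε v (pick σ f η ε v) := by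
  unfold pick
  rw [dif_pos h]
  exact h.choose_spec

theorem pick_label (σ : ι → Equiv.Perm X) (f : X → ℕ) (η ε : ℝ) (v : ℕ) :
    ∀ y ∈ pick σ f η ε v, f y = v := by
  intro y hy
  by_cases h : ∃ W, BadSet σ f η ε v W
  · exact (pick_spec σ f η ε v h).1 y hy
  · unfold pick at hy
    rw [dif_neg h] at hy
    simp at hy

/-- the bad points -/
def Bad (σ : ι → Equiv.Perm X) (f : X → ℕ) (η ε : ℝ) (x : X) : Prop :=
  ∃ W, BadSet σ f η ε (f x) W

/-- the union of the picked sets -/
noncomputable def glue (σ : ι → Equiv.Perm X) (f : X → ℕ) (η ε : ℝ) : Finset X :=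
  univ.filter fun x => x ∈ pick σ f η ε (f x)

/-- decomposition of the number of bad points -/
theorem card_bad (σ : ι → Equiv.Perm X) (f : X → ℕ) (η ε : ℝ) :
    (univ.filter (Bad σ f η ε)).card =
      ∑ v ∈ univ.image f, if (∃ W, BadSet σ f η ε v W) then cv f v else 0 := by
  rw [Finset.card_eq_sum_card_fiberwise (f := f) (t := univ.image f)
    (fun x _ => by simp)]
  apply Finset.sum_congr rfl
  intro v _
  split_ifs with h
  · unfold cv
    congr 1
    ext x
    simp only [mem_filter, mem_univ, true_and, Bad]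
    constructor
    · exact fun hx => hx.2
    · intro hx
      refine ⟨?_, hx⟩
      rw [hx]
      exact h
  · rw [Finset.card_eq_zero, Finset.filter_eq_empty_iff]
    intro x hx hx'
    rw [mem_filter] at hx
    have hx2 : Bad σ f η ε x := hx.2
    unfold Bad at hx2
    rw [hx'] at hx2
    exact h hx2

theorem bd_glue (σ : ι → Equiv.Perm X) (f : X → ℕ) (η : ℝ) {ε : ℝ} :
    (bd σ (glue σ f η ε) : ℝ) ≤ ε * (univ.filter (Bad σ f η ε)).card := by
  have h1 := bd_glue_le σ f (pick σ f η ε) (pick_label σ f η ε)
  have h2 : ((∑ v ∈ univ.image f, bd σ (pick σ f η ε v) : ℕ) : ℝ) ≤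
      ε * (univ.filter (Bad σ f η ε)).card := by
    rw [card_bad]
    push_cast
    rw [Finset.mul_sum]
    apply Finset.sum_le_sum
    intro v _
    split_ifs with h
    · exact (pick_spec σ f η ε v h).2.1
    · unfold pick
      rw [dif_neg h]
      simp [bd]
  refine le_trans ?_ h2
  exact_mod_cast h1

/-- a function of the label is far from the indicator of the glued set on bad points -/
theorem far (σ : ι → Equiv.Perm X) (f : X → ℕ) {η ε : ℝ} (hη : 0 < η) (H : ℕ → ℕ) :
    η * (univ.filter (Bad σ f η ε)).card ≤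
      (univ.filter fun x => ind (glue σ f η ε) x ≠ H (f x)).card := by
  rw [Finset.card_eq_sum_card_fiberwise (s := (univ.filter fun x =>
    ind (glue σ f η ε) x ≠ H (f x))) (f := f) (t := univ.image f) (fun x _ => by simp), card_bad]
  push_cast
  rw [Finset.mul_sum]
  apply Finset.sum_le_sum
  intro v _
  split_ifs with h
  · obtain ⟨hl, -, hlo, hhi⟩ := pick_spec σ f η ε v h
    by_cases hH : H v = 1
    · -- the complement of the picked set in the part
      have hsub : (univ.filter fun y => f y = v) \ pick σ f η ε v ⊆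
          (univ.filter fun x => ind (glue σ f η ε) x ≠ H (f x)).filter (fun x => f x = v) := by
        intro y hy
        rw [Finset.mem_sdiff, Finset.mem_filter] at hy
        obtain ⟨⟨-, hy1⟩, hy2⟩ := hy
        have hy : f y = v ∧ y ∉ pick σ f η ε v := ⟨hy1, hy2⟩
        rw [mem_filter, mem_filter]
        refine ⟨⟨mem_univ _, ?_⟩, hy.1⟩
        have : y ∉ glue σ f η ε := by
          unfold glue
          simp only [mem_filter, mem_univ, true_and]
          rw [hy.1]
          exact hy.2
        unfold ind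
        rw [if_neg this, hy.1, hH]
        norm_num
      have hc := card_le_card hsub
      have hc2 : (univ.filter fun y => f y = v).card ≤
          ((univ.filter fun y => f y = v) \ pick σ f η ε v).card + (pick σ f η ε v).card :=
        Finset.card_le_card_sdiff_add_card
      have hc2' : (cv f v : ℝ) ≤
          (((univ.filter fun y => f y = v) \ pick σ f η ε v).card : ℝ) +
            (pick σ f η ε v).card := by
        unfold cv
        exact_mod_cast hc2
      have hc' : ((((univ.filter fun y => f y = v) \ pick σ f η ε v).card : ℕ) : ℝ) ≤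
        (((univ.filter fun x => ind (glue σ f η ε) x ≠ H (f x)).filter
          (fun x => f x = v)).card : ℝ) := by exact_mod_cast hc
      nlinarith
    · have hsub : pick σ f η ε v ⊆
          (univ.filter fun x => ind (glue σ f η ε) x ≠ H (f x)).filter (fun x => f x = v) := by
        intro y hy
        rw [mem_filter, mem_filter]
        have hv := hl y hy
        refine ⟨⟨mem_univ _, ?_⟩, hv⟩
        have : y ∈ glue σ f η ε := by
          unfold glue
          simp only [mem_filter, mem_univ, true_and]
          rw [hv]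
          exact hy
        unfold ind
        rw [if_pos this, hv]
        exact fun h => hH h.symm
      have hc := card_le_card hsub
      have hc' : ((pick σ f η ε v).card : ℝ) ≤
        (((univ.filter fun x => ind (glue σ f η ε) x ≠ H (f x)).filter
          (fun x => f x = v)).card : ℝ) := by exact_mod_cast hc
      linarith
  · simp

end Fin

end Helper418.Erg

namespace Helper418

variable {A : ℕ → Type} [∀ n, Fintype (A n)] {ι : Type} [Fintype ι]

/-- TARGET -/
theorem ergodic_parts [∀ n, Nonempty (A n)] {σ : ∀ n, ι → Equiv.Perm (A n)}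
    (hσ : Improves σ) {f : ∀ n, A n → ℕ} (hf : ∀ h, AsInv σ h → Ref f h)
    {η : ℝ} (hη : 0 < η) (hη' : η < 1 / 2) :
    ∃ ε : ℝ, 0 < ε ∧ ∀ᶠ x in ae A, ∀ W : Finset (A x.1), (∀ y ∈ W, f x.1 y = f x.1 x.2) →
      (bd (σ x.1) W : ℝ) ≤ ε * sz (f x.1) x.2 →
      ((W.card : ℝ) ≤ η * sz (f x.1) x.2 ∨ (1 - η) * sz (f x.1) x.2 ≤ W.card) := by
  obtain ⟨C, hC, himp⟩ := hσ
  set ε : ℝ := η / (4 * (C + 1)) with hεdef
  have hε : 0 < ε := by positivity
  have hCε : 2 * C * ε ≤ η / 2 := by
    rw [hεdef]
    rw [show 2 * C * (η / (4 * (C + 1))) = (η / 2) * (C / (C + 1)) by field_simp; ring]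
    have : C / (C + 1) ≤ 1 := by
      rw [div_le_one (by linarith)]
      linarith
    nlinarith
  refine ⟨ε, hε, ?_⟩
  obtain ⟨w', hw', e, he, hdens⟩ := himp (fun n => Erg.ind (Erg.glue (σ n) (f n) η ε))
  obtain ⟨H, hH⟩ := hf w' hw'
  rw [mem_ae (P := fun n a => w' n a = H n (f n a))] at hH
  set U : ∀ n, A n → Prop := fun n a => Erg.Bad (σ n) (f n) η ε a with hU
  -- main inequality
  have key : ∀ n, dens U n ≤ (2 / η) * (e n + dens (fun n a => ¬ (w' n a = H n (f n a))) n) := by
    intro n
    have hpos : (0 : ℝ) < Fintype.card (A n) := by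
      exact_mod_cast Fintype.card_pos
    have hfar := Erg.far (σ n) (f n) (η := η) (ε := ε) hη (H n)
    have h1 : η * dens U n ≤
        dens (fun n a => Erg.ind (Erg.glue (σ n) (f n) η ε) a ≠ H n (f n a)) n := by
      unfold dens
      rw [← mul_div_assoc]
      apply div_le_div_of_nonneg_right _ hpos.le
      refine le_trans (le_of_eq ?_) (hfar.trans (le_of_eq ?_))
      · rw [hU]
      · congr!
    have h2 : dens (fun n a => Erg.ind (Erg.glue (σ n) (f n) η ε) a ≠ H n (f n a)) n ≤
        dens (fun n a => w' n a ≠ Erg.ind (Erg.glue (σ n) (f n) η ε) a) n +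
        dens (fun n a => ¬ (w' n a = H n (f n a))) n := by
      refine le_trans (dens_mono (Q := fun n a =>
        (w' n a ≠ Erg.ind (Erg.glue (σ n) (f n) η ε) a) ∨ ¬ (w' n a = H n (f n a))) ?_)
        (dens_or_le _ _ n)
      intro a ha
      by_contra hcon
      push Not at hcon
      exact ha (hcon.1.symm.trans hcon.2)
    have h3 := hdens n
    have h4 : (inv (σ n) (Erg.ind (Erg.glue (σ n) (f n) η ε)) : ℝ) / Fintype.card (A n) ≤
        2 * ε * dens U n := by
      rw [Erg.inv_ind]
      unfold dens
      rw [← mul_div_assoc]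
      apply div_le_div_of_nonneg_right _ hpos.le
      have := Erg.bd_glue (σ n) (f n) η (ε := ε)
      push_cast
      linarith
    have h5 : C * ((inv (σ n) (Erg.ind (Erg.glue (σ n) (f n) η ε)) : ℝ) / Fintype.card (A n)) ≤
        (η / 2) * dens U n := by
      calc C * ((inv (σ n) (Erg.ind (Erg.glue (σ n) (f n) η ε)) : ℝ) / Fintype.card (A n))
          ≤ C * (2 * ε * dens U n) := mul_le_mul_of_nonneg_left h4 hC
        _ = (2 * C * ε) * dens U n := by ring
        _ ≤ (η / 2) * dens U n := mul_le_mul_of_nonneg_right hCε (dens_nonneg _ _)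
    have h6 : (η / 2) * dens U n ≤ e n + dens (fun n a => ¬ (w' n a = H n (f n a))) n := by
      linarith
    calc dens U n = (2 / η) * ((η / 2) * dens U n) := by field_simp
      _ ≤ _ := mul_le_mul_of_nonneg_left h6 (by positivity)
  have hlim : Tendsto (fun n => (2 / η) * (e n + dens (fun n a => ¬ (w' n a = H n (f n a))) n))
      atTop (𝓝 0) := by
    have := (he.add hH).const_mul (2 / η)
    simpa using this
  have hUlim : Tendsto (dens U) atTop (𝓝 0) :=
    squeeze_zero (fun n => dens_nonneg _ n) key hlim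
  rw [mem_ae (P := fun n a => ∀ W : Finset (A n), (∀ y ∈ W, f n y = f n a) →
      (bd (σ n) W : ℝ) ≤ ε * sz (f n) a →
      ((W.card : ℝ) ≤ η * sz (f n) a ∨ (1 - η) * sz (f n) a ≤ W.card))]
  refine squeeze_zero (fun n => dens_nonneg _ n) (fun n => ?_) hUlim
  apply dens_mono
  intro a ha
  push Not at ha
  obtain ⟨W, hW1, hW2, hW3, hW4⟩ := ha
  exact ⟨W, hW1, hW2, hW3, hW4⟩

end Helper418
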