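import Pool.Agent.Helper418_Sofic.Defs

open Filter Topology Finset
open scoped Classical

namespace Helper418

namespace SzNear

theorem fiberwise_le {X : Type} [Fintype X] (f : X → ℕ) (S T : Finset X) {C : ℝ} (hC : 0 ≤ C)
    (h : ∀ x ∈ S, ((S.filter fun y => f y = f x).card : ℝ) ≤
      C * ((T.filter fun y => f y = f x).card : ℝ)) :
    (S.card : ℝ) ≤ C * (T.card : ℝ) := by
  have h1 : S.card = ∑ i ∈ (univ : Finset X).image f, (S.filter fun y => f y = i).card :=
    card_eq_sum_card_fiberwise (fun x _ => mem_coe.2 (mem_image_of_mem f (mem_univ x)))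
  have h2 : T.card = ∑ i ∈ (univ : Finset X).image f, (T.filter fun y => f y = i).card :=
    card_eq_sum_card_fiberwise (fun x _ => mem_coe.2 (mem_image_of_mem f (mem_univ x)))
  rw [h1, h2]
  push_cast
  rw [mul_sum]
  refine sum_le_sum (fun i _ => ?_)
  rcases (S.filter fun y => f y = i).eq_empty_or_nonempty with he | ⟨x, hx⟩
  · rw [he, card_empty, Nat.cast_zero]
    exact mul_nonneg hC (Nat.cast_nonneg _)
  · rw [mem_filter] at hx
    obtain ⟨hxS, rfl⟩ := hx
    exact h x hxS

end SzNear

/-- TARGET -/
theorem sz_near {X : Type} [Fintype X] (f z : X → ℕ) {η : ℝ} (hη : 0 < η) :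
    ((univ.filter fun x => (1 + η) * (sz z x : ℝ) < sz f x).card : ℝ) ≤
      ((1 + η) / η + 1) * (univ.filter fun x => f x ≠ z x).card := by
  set D : Finset X := univ.filter fun x => f x ≠ z x with hD
  set S : Finset X := univ.filter fun x => (1 + η) * (sz z x : ℝ) < sz f x with hS
  set T : Finset X := univ.filter fun x => f x = z x ∧ (1 + η) * (sz z x : ℝ) < sz f x with hT
  have h1 : S ⊆ T ∪ D := by
    intro x hx
    rw [hS, mem_filter] at hx
    rw [mem_union, hT, hD, mem_filter, mem_filter]
    by_cases h : f x = z x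
    · exact Or.inl ⟨mem_univ _, h, hx.2⟩
    · exact Or.inr ⟨mem_univ _, h⟩
  have h2 : (S.card : ℝ) ≤ T.card + D.card := by
    exact_mod_cast (card_le_card h1).trans (card_union_le T D)
  have h3 : (T.card : ℝ) ≤ ((1 + η) / η) * D.card := by
    refine SzNear.fiberwise_le f T D (by positivity) (fun x hx => ?_)
    rw [hT, mem_filter] at hx
    obtain ⟨-, hx1, hx2⟩ := hx
    have hF : ((T.filter fun y => f y = f x).card : ℝ) ≤ (sz f x : ℝ) := by
      unfold sz
      exact_mod_cast card_le_card (filter_subset_filter _ (subset_univ T))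
    have hsplit : (sz f x : ℝ) ≤ (sz z x : ℝ) + ((D.filter fun y => f y = f x).card : ℝ) := by
      unfold sz
      have : (univ.filter fun y => f y = f x) ⊆
          (univ.filter fun y => z y = z x) ∪ (D.filter fun y => f y = f x) := by
        intro y hy
        rw [mem_filter] at hy
        rw [mem_union, mem_filter, mem_filter, hD, mem_filter]
        by_cases h : f y = z y
        · left
          exact ⟨mem_univ _, by rw [← h, hy.2, hx1]⟩
        · right
          exact ⟨⟨mem_univ _, h⟩, hy.2⟩
      exact_mod_cast (card_le_card this).trans (card_union_le _ _)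
    refine hF.trans ?_
    rw [div_mul_eq_mul_div, le_div_iff₀ hη]
    nlinarith
  calc (S.card : ℝ) ≤ T.card + D.card := h2
    _ ≤ ((1 + η) / η) * D.card + D.card := by linarith
    _ = ((1 + η) / η + 1) * D.card := by ring

/-- TARGET -/
theorem markov_parts {X : Type} [Fintype X] (f : X → ℕ) (E : Finset X) {η : ℝ} (hη : 0 < η) :
    ((univ.filter fun x => η * (sz f x : ℝ) <
        (E.filter fun y => f y = f x).card).card : ℝ) ≤ (1 / η) * E.card := by
  refine SzNear.fiberwise_le f _ E (by positivity) (fun x hx => ?_)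
  rw [mem_filter] at hx
  refine le_trans (b := (sz f x : ℝ)) ?_ ?_
  · unfold sz
    exact_mod_cast card_le_card (filter_subset_filter _ (subset_univ _))
  · rw [div_mul_eq_mul_div, one_mul, le_div_iff₀ hη]
    linarith [hx.2]

end Helper418
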