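import Pool.Agent.Helper418_Sofic.Greedy
import Pool.Agent.Helper418_Sofic.SzNear
import Pool.Agent.Helper418_Sofic.Defs

open Filter Topology Finset
open scoped Classical

namespace Helper418

variable {A : ℕ → Type} [∀ n, Fintype (A n)] {ι : Type} [Fintype ι]

/-! GIVEN (proved elsewhere) -/
namespace Finest

/-- diagonal choice -/
theorem diag (P : ℕ → ℕ → Prop) (h : ∀ m, ∀ᶠ n in atTop, P m n) :
    ∃ k : ℕ → ℕ, Tendsto k atTop atTop ∧ ∀ᶠ n in atTop, P (k n) n := by
  have hk : Tendsto (fun n => Nat.findGreatest (fun m => P m n) n) atTop atTop := by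
    rw [tendsto_atTop]
    intro M
    filter_upwards [h M, eventually_ge_atTop M] with n hn hMn
    exact Nat.le_findGreatest hMn hn
  refine ⟨fun n => Nat.findGreatest (fun m => P m n) n, hk, ?_⟩
  filter_upwards [hk.eventually_ge_atTop 1] with n hn
  have : Nat.findGreatest (fun m => P m n) n ≠ 0 := by omega
  exact Nat.findGreatest_of_ne_zero (P := fun m => P m n) rfl this

/-- `inv / card` is the sum of the densities -/
theorem inv_div (σ : ∀ n, ι → Equiv.Perm (A n)) (f : ∀ n, A n → ℕ) (n : ℕ) :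
    (inv (σ n) (f n) : ℝ) / Fintype.card (A n) =
      ∑ i, dens (fun n a => ¬ (f n (σ n i a) = f n a)) n := by
  unfold inv dens
  push_cast
  rw [Finset.sum_div]

omit [Fintype ι] in
theorem AsInv_iff (σ : ∀ n, ι → Equiv.Perm (A n)) (f : ∀ n, A n → ℕ) :
    AsInv σ f ↔ ∀ i, Tendsto (dens (fun n a => ¬ (f n (σ n i a) = f n a))) atTop (𝓝 0) :=
  Iff.rfl

theorem inv_tendsto {σ : ∀ n, ι → Equiv.Perm (A n)} {f : ∀ n, A n → ℕ} (hf : AsInv σ f) :
    Tendsto (fun n => (inv (σ n) (f n) : ℝ) / Fintype.card (A n)) atTop (𝓝 0) := by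
  have h1 : Tendsto (fun n => ∑ i, dens (fun n a => ¬ (f n (σ n i a) = f n a)) n) atTop
      (𝓝 (∑ _i : ι, (0 : ℝ))) := tendsto_finsetSum _ (fun i _ => (AsInv_iff σ f).1 hf i)
  rw [Finset.sum_const_zero] at h1
  exact h1.congr (fun n => (inv_div σ f n).symm)

theorem AsInv_of_inv {σ : ∀ n, ι → Equiv.Perm (A n)} {f : ∀ n, A n → ℕ}
    (h : Tendsto (fun n => (inv (σ n) (f n) : ℝ) / Fintype.card (A n)) atTop (𝓝 0)) :
    AsInv σ f := by
  rw [AsInv_iff]
  intro i
  refine squeeze_zero (fun n => dens_nonneg _ n) (fun n => ?_) h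
  rw [inv_div]
  exact Finset.single_le_sum (f := fun i => dens (fun n a => ¬ (f n (σ n i a) = f n a)) n)
    (fun i _ => dens_nonneg _ n) (mem_univ i)

/-- from a bound on the cardinality to a bound on the density -/
theorem dens_eq_card (P : ∀ n, A n → Prop) (n : ℕ) (inst : DecidablePred (P n)) :
    ((@Finset.filter _ (P n) inst univ).card : ℝ) / Fintype.card (A n) = dens P n := by
  unfold dens
  congr!

theorem dens_le_of_card (P : ∀ n, A n → Prop) {n : ℕ} {r : ℝ} (inst : DecidablePred (P n))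
    (h : ((@Finset.filter _ (P n) inst univ).card : ℝ) ≤ r) :
    dens P n ≤ r / Fintype.card (A n) := by
  rw [← dens_eq_card P n inst]
  exact div_le_div_of_nonneg_right h (Nat.cast_nonneg _)

end Finest

open Finest in
/-- TARGET -/
theorem exists_finest [∀ n, Nonempty (A n)] {σ : ∀ n, ι → Equiv.Perm (A n)}
    (hσ : Improves σ) : ∃ f : ∀ n, A n → ℕ, Finest σ f := by
  obtain ⟨C, hC0, hC⟩ := hσ
  have hcpos : ∀ j : ℕ, (0 : ℝ) < 1 / ((j : ℝ) + 1) := fun j => by positivity
  choose z hz1 hz2 using fun (j n : ℕ) => greedy (σ n) (hcpos j)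
  choose f' hf' e he hfe using fun j : ℕ => hC (fun n => z j n)
  have hcard : ∀ n, (0 : ℝ) < Fintype.card (A n) := fun n => by
    exact_mod_cast Fintype.card_pos
  -- the distance of `f' j` from `z j`
  have hd : ∀ j n, dens (fun n a => f' j n a ≠ z j n a) n ≤ C / ((j : ℝ) + 1) + e j n := by
    intro j n
    refine (hfe j n).trans ?_
    have h1 : (inv (σ n) (z j n) : ℝ) / Fintype.card (A n) ≤ 1 / ((j : ℝ) + 1) := by
      rw [div_le_iff₀ (hcard n)]
      exact hz1 j n
    have h2 := mul_le_mul_of_nonneg_left h1 hC0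
    have h3 : C * (1 / ((j : ℝ) + 1)) = C / ((j : ℝ) + 1) := by ring
    linarith
  have hr : ∀ j, Tendsto (fun n => (inv (σ n) (f' j n) : ℝ) / Fintype.card (A n)) atTop (𝓝 0) :=
    fun j => inv_tendsto (hf' j)
  obtain ⟨k, hk, hkP⟩ := diag (fun m n => ∀ j ∈ Finset.range (m + 1),
      ((m : ℝ) + 1) * ((inv (σ n) (f' j n) : ℝ) / Fintype.card (A n)) ≤ 1 / ((m : ℝ) + 1)) (by
    intro m
    rw [Filter.eventually_all_finset]
    intro j _
    have h1 : Tendsto (fun n => ((m : ℝ) + 1) *
        ((inv (σ n) (f' j n) : ℝ) / Fintype.card (A n))) atTop (𝓝 0) := by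
      simpa using (hr j).const_mul ((m : ℝ) + 1)
    exact h1.eventually_le_const (hcpos m))
  have hk1 : Tendsto (fun n => 1 / ((k n : ℝ) + 1)) atTop (𝓝 0) :=
    tendsto_one_div_add_atTop_nhds_zero_nat.comp hk
  have hkj : ∀ j, Tendsto (fun n => ((k n : ℝ) + 1) *
      ((inv (σ n) (f' j n) : ℝ) / Fintype.card (A n))) atTop (𝓝 0) := by
    intro j
    refine squeeze_zero' (Eventually.of_forall fun n => by positivity) ?_ hk1
    filter_upwards [hkP, hk.eventually_ge_atTop j] with n hn hjn
    exact hn j (Finset.mem_range.2 (by omega))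
  refine ⟨fun n => z (k n) n, ?_, ?_⟩
  · refine AsInv_of_inv (squeeze_zero (fun n => by positivity) (fun n => ?_) hk1)
    rw [div_le_iff₀ (hcard n)]
    exact hz1 (k n) n
  · intro h hh η hη
    rw [mem_ae (P := fun n a => (sz (z (k n) n) a : ℝ) ≤ (1 + η) * sz (h n) a)]
    set K : ℝ := (1 + η) / η + 1 with hK
    have hKpos : 0 < K := by positivity
    -- the error terms
    have key : ∀ j n, dens (fun n a => ¬ ((sz (z (k n) n) a : ℝ) ≤ (1 + η) * sz (h n) a)) n ≤
        (2 * (((k n : ℝ) + 1) * ((inv (σ n) (f' j n) : ℝ) / Fintype.card (A n))) +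
          2 * ((j : ℝ) + 1) * ((inv (σ n) (h n) : ℝ) / Fintype.card (A n)) + K * e j n) +
          K * (C / ((j : ℝ) + 1)) := by
      intro j n
      have ha : dens (fun n a => sz (f' j n) a < sz (z (k n) n) a) n ≤
          2 * (((k n : ℝ) + 1) * ((inv (σ n) (f' j n) : ℝ) / Fintype.card (A n))) := by
        refine (dens_le_of_card (fun n a => sz (f' j n) a < sz (z (k n) n) a) _
          (hz2 (k n) n (f' j n))).trans (le_of_eq ?_)
        have : ((k n : ℝ) + 1) ≠ 0 := by positivity
        field_simp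
      have hb : dens (fun n a => sz (h n) a < sz (z j n) a) n ≤
          2 * ((j : ℝ) + 1) * ((inv (σ n) (h n) : ℝ) / Fintype.card (A n)) := by
        refine (dens_le_of_card (fun n a => sz (h n) a < sz (z j n) a) _
          (hz2 j n (h n))).trans (le_of_eq ?_)
        have : ((j : ℝ) + 1) ≠ 0 := by positivity
        field_simp
      have hc : dens (fun n a => (1 + η) * (sz (z j n) a : ℝ) < sz (f' j n) a) n ≤
          K * (C / ((j : ℝ) + 1)) + K * e j n := by
        refine (dens_le_of_card (fun n a => (1 + η) * (sz (z j n) a : ℝ) < sz (f' j n) a) _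
          (sz_near (f' j n) (z j n) hη)).trans ?_
        have h1 : K * ((univ.filter fun x => f' j n x ≠ z j n x).card : ℝ) /
            Fintype.card (A n) = K * dens (fun n a => f' j n a ≠ z j n a) n := by
          rw [mul_div_assoc, dens_eq_card (fun n a => f' j n a ≠ z j n a) n _]
        rw [h1]
        have h2 := mul_le_mul_of_nonneg_left (hd j n) hKpos.le
        linarith
      have hsub : dens (fun n a => ¬ ((sz (z (k n) n) a : ℝ) ≤ (1 + η) * sz (h n) a)) n ≤
          dens (fun n a => (sz (f' j n) a < sz (z (k n) n) a ∨ sz (h n) a < sz (z j n) a) ∨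
            (1 + η) * (sz (z j n) a : ℝ) < sz (f' j n) a) n := by
        apply dens_mono
        intro a ha'
        by_contra hcon
        push Not at hcon
        obtain ⟨⟨h1, h2⟩, h3⟩ := hcon
        apply ha'
        have h1' : (sz (z (k n) n) a : ℝ) ≤ sz (f' j n) a := by exact_mod_cast h1
        have h2' : (sz (z j n) a : ℝ) ≤ sz (h n) a := by exact_mod_cast h2
        have h4 := mul_le_mul_of_nonneg_left h2' (by positivity : (0 : ℝ) ≤ 1 + η)
        linarith
      have h5 := dens_or_le (fun n a => sz (f' j n) a < sz (z (k n) n) a ∨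
        sz (h n) a < sz (z j n) a) (fun n a => (1 + η) * (sz (z j n) a : ℝ) < sz (f' j n) a) n
      have h6 := dens_or_le (fun n a => sz (f' j n) a < sz (z (k n) n) a)
        (fun n a => sz (h n) a < sz (z j n) a) n
      linarith
    rw [Metric.tendsto_atTop]
    intro ε hε
    obtain ⟨j, hj⟩ : ∃ j : ℕ, K * (C / ((j : ℝ) + 1)) < ε / 2 := by
      have h1 : Tendsto (fun j : ℕ => K * (C * (1 / ((j : ℝ) + 1)))) atTop (𝓝 (K * (C * 0))) :=
        (tendsto_one_div_add_atTop_nhds_zero_nat.const_mul C).const_mul K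
      rw [mul_zero, mul_zero] at h1
      obtain ⟨j, hj⟩ := (h1.eventually_lt_const (half_pos hε)).exists
      refine ⟨j, ?_⟩
      have : C / ((j : ℝ) + 1) = C * (1 / ((j : ℝ) + 1)) := by ring
      rw [this]
      exact hj
    have hlim : Tendsto (fun n =>
        2 * (((k n : ℝ) + 1) * ((inv (σ n) (f' j n) : ℝ) / Fintype.card (A n))) +
          2 * ((j : ℝ) + 1) * ((inv (σ n) (h n) : ℝ) / Fintype.card (A n)) + K * e j n)
        atTop (𝓝 0) := by
      have := (((hkj j).const_mul 2).add ((inv_tendsto hh).const_mul (2 * ((j : ℝ) + 1)))).add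
        ((he j).const_mul K)
      simpa using this
    obtain ⟨N, hN⟩ := eventually_atTop.1 (hlim.eventually_lt_const (half_pos hε))
    refine ⟨N, fun n hn => ?_⟩
    rw [Real.dist_eq, sub_zero, abs_of_nonneg (dens_nonneg _ n)]
    have := key j n
    have := hN n hn
    linarith

end Helper418
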