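import Pool.Agent.Helper418_Sofic.Alg

open scoped Classical

namespace Helper418.GenT

section
variable {R : Type} [Ring R]

/-- the nilpotent part of a generator -/
def nn (x y : Bool → R) (i : Fin 3 × Fin 5) : R :=
  XX x (code i.1) * rr x y i.2 * YY y (code (i.1 + 1))

theorem inc_code {i j : Fin 3} (h : i ≠ j) : Inc (code i) (code j) := by
  unfold Inc
  fin_cases i <;> fin_cases j <;> first | exact absurd rfl h | (simp [code])

variable {x y : Bool → R} (L : Leav 101 x y)
include L

theorem nn_mul {i j : Fin 3 × Fin 5} (h : j.1 ≠ i.1 + 1) : nn x y i * nn x y j = 0 := by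
  unfold nn
  have h1 : YY y (code (i.1 + 1)) * XX x (code j.1) = 0 := L.YX_inc (inc_code h).symm
  calc XX x (code i.1) * rr x y i.2 * YY y (code (i.1 + 1)) *
        (XX x (code j.1) * rr x y j.2 * YY y (code (j.1 + 1)))
      = XX x (code i.1) * rr x y i.2 * (YY y (code (i.1 + 1)) * XX x (code j.1)) *
        (rr x y j.2 * YY y (code (j.1 + 1))) := by noncomm_ring
    _ = 0 := by rw [h1]; simp

theorem nn_sq (i : Fin 3 × Fin 5) : nn x y i * nn x y i = 0 := by
  apply nn_mul L
  have : ∀ a : Fin 3, a ≠ a + 1 := by decide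
  exact this i.1

omit L in
theorem comm_aux {a b : R} (ha : a * a = 0) (hb : b * b = 0) (hba : b * a = 0) :
    Commute (cm (tr a) (tr b)) (tr a) ∧ Commute (cm (tr a) (tr b)) (tr b) := by
  have h1 : (a * b) * (a * b) = 0 := by
    calc (a * b) * (a * b) = a * (b * a) * b := by noncomm_ring
      _ = 0 := by rw [hba]; simp
  have h2 : (a * b) * a = 0 := by rw [mul_assoc, hba, mul_zero]
  have h3 : a * (a * b) = 0 := by rw [← mul_assoc, ha, zero_mul]
  have h4 : (a * b) * b = 0 := by rw [mul_assoc, hb, mul_zero]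
  have h5 : b * (a * b) = 0 := by rw [← mul_assoc, hba, zero_mul]
  rw [cm_tr ha hb hba]
  exact ⟨tr_commute h1 ha h2 h3, tr_commute h1 hb h4 h5⟩

end

end Helper418.GenT

namespace Helper418

open Helper418.GenT

/-- TARGET -/
theorem gen_tsystem {R : Type} [Ring R] {x y : Bool → R} (L : Leav 101 x y) :
    IsTSystem 101 10 (gen x y) := by
  have hcases : ∀ a b : Fin 3, b = a ∨ (b = a + 1 ∧ a ≠ b + 1) ∨ (a = b + 1 ∧ b ≠ a + 1) := by
    decide
  have hsame : ∀ i j : Fin 3 × Fin 5, j.1 = i.1 → Commute (gen x y i) (gen x y j) := by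
    intro i j hij
    have h1 : ∀ a : Fin 3, a ≠ a + 1 := by decide
    have e1 : nn x y i * nn x y j = 0 := nn_mul L (by rw [hij]; exact h1 _)
    have e2 : nn x y j * nn x y i = 0 := nn_mul L (by rw [hij]; exact h1 _)
    exact tr_commute (nn_sq L i) (nn_sq L j) e1 e2
  refine ⟨by norm_num, by norm_num, ?_, ?_, ?_⟩
  · intro i
    have h1 : (gen x y i) ^ 101 = tr (((101 : ℕ) : R) * nn x y i) := tr_pow (nn_sq L i) 101
    rw [h1, L.char, zero_mul, tr_zero]
  · intro i j
    rcases hcases i.1 j.1 with h | ⟨-, h⟩ | ⟨-, h⟩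
    · have h2 : cm (gen x y i) (gen x y j) = 1 := by
        unfold cm
        rw [(hsame i j h).eq]; group
      rw [h2]
      exact Commute.one_left _
    · exact (comm_aux (nn_sq L i) (nn_sq L j) (nn_mul L h)).1
    · have h3 := (comm_aux (nn_sq L j) (nn_sq L i) (nn_mul L h)).2
      have hinv : cm (gen x y i) (gen x y j) = (cm (gen x y j) (gen x y i))⁻¹ := by
        unfold cm; group
      rw [hinv]
      exact Commute.inv_left h3
  · intro i
    calc (Finset.univ.filter fun j => ¬ Commute (gen x y i) (gen x y j)).card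
        ≤ ((Finset.univ.erase i.1) ×ˢ (Finset.univ : Finset (Fin 5))).card := by
          apply Finset.card_le_card
          intro j hj
          rw [Finset.mem_filter] at hj
          rw [Finset.mem_product, Finset.mem_erase]
          exact ⟨⟨fun h => hj.2 (hsame i j h), Finset.mem_univ _⟩, Finset.mem_univ _⟩
      _ = 10 := by
          rw [Finset.card_product, Finset.card_erase_of_mem (Finset.mem_univ _)]
          simp
      _ ≤ 10 := le_rfl

end Helper418
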