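import Pool.Agent.Helper418_Sofic.Defs

open Filter Topology Finset
open scoped Classical

namespace Helper418

variable {ι : Type} [Fintype ι]

namespace Greedy

/-- relative boundary of `Z` inside `R` -/
noncomputable def b {X : Type} [Fintype X] (σ : ι → Equiv.Perm X) (R Z : Finset X) : ℕ :=
  ∑ i, (univ.filter fun x => x ∈ R ∧ σ i x ∈ R ∧ ¬ (x ∈ Z ↔ σ i x ∈ Z)).card

/-- relative size -/
noncomputable def szR {X : Type} (R : Finset X) (f : X → ℕ) (x : X) : ℕ :=
  (R.filter fun y => f y = f x).card

theorem main {X : Type} [Fintype X] (σ : ι → Equiv.Perm X) {c : ℝ} (hc : 0 < c) (n : ℕ) :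
    ∀ R : Finset X, R.card ≤ n → ∃ z : X → ℕ,
      ((∑ i, (univ.filter fun x => x ∈ R ∧ σ i x ∈ R ∧ z (σ i x) ≠ z x).card : ℕ) : ℝ)
        ≤ c * R.card ∧
      ∀ (m : ℕ) (Q : Finset X), Q ⊆ R → Q.card ≤ m →
        c * ((Q.filter fun x => m < szR R z x).card : ℝ) ≤ b σ R Q := by
  induction n with
  | zero =>
    intro R hR
    have hR0 : R = ∅ := by
      rw [← Finset.card_eq_zero]; omega
    subst hR0
    refine ⟨fun _ => 0, by simp, ?_⟩
    intro m Q hQ _
    have hQ0 : Q = ∅ := Finset.subset_empty.mp hQ
    subst hQ0
    simp
  | succ n ih =>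
    intro R hR
    by_cases hRe : R = ∅
    · subst hRe
      refine ⟨fun _ => 0, by simp, ?_⟩
      intro m Q hQ _
      have hQ0 : Q = ∅ := Finset.subset_empty.mp hQ
      subst hQ0
      simp
    · have hRne : R.Nonempty := Finset.nonempty_iff_ne_empty.mpr hRe
      set S : Finset (Finset X) := R.powerset.filter
        (fun Z => Z.Nonempty ∧ (b σ R Z : ℝ) ≤ c * Z.card) with hS
      have hRS : R ∈ S := by
        rw [hS, Finset.mem_filter]
        refine ⟨Finset.mem_powerset_self R, hRne, ?_⟩
        have : b σ R R = 0 := by
          unfold b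
          apply Finset.sum_eq_zero
          intro i _
          rw [Finset.card_eq_zero, Finset.filter_eq_empty_iff]
          intro x _ h
          exact h.2.2 ⟨fun _ => h.2.1, fun _ => h.1⟩
        rw [this]
        push_cast
        positivity
      obtain ⟨Z, hZS, hZmin⟩ := Finset.exists_min_image S Finset.card ⟨R, hRS⟩
      rw [hS, Finset.mem_filter, Finset.mem_powerset] at hZS
      obtain ⟨hZR, hZne, hZb⟩ := hZS
      have hcard : (R \ Z).card + Z.card = R.card := Finset.card_sdiff_add_card_eq_card hZR
      have hZpos : 0 < Z.card := Finset.card_pos.mpr hZne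
      obtain ⟨z', hz1, hz2⟩ := ih (R \ Z) (by omega)
      have hzZ : ∀ x ∈ Z, (if x ∈ Z then 0 else z' x + 1) = 0 := fun x hx => by simp [hx]
      refine ⟨fun x => if x ∈ Z then 0 else z' x + 1, ?_, ?_⟩
      · have hle : ∀ i, (univ.filter fun x => x ∈ R ∧ σ i x ∈ R ∧
            (if σ i x ∈ Z then 0 else z' (σ i x) + 1) ≠ (if x ∈ Z then 0 else z' x + 1)).card
            ≤ (univ.filter fun x => x ∈ R ∧ σ i x ∈ R ∧ ¬ (x ∈ Z ↔ σ i x ∈ Z)).card +
              (univ.filter fun x => x ∈ R \ Z ∧ σ i x ∈ R \ Z ∧ z' (σ i x) ≠ z' x).card := by
          intro i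
          refine le_trans (Finset.card_le_card ?_) (Finset.card_union_le _ _)
          intro x hx
          simp only [Finset.mem_filter, Finset.mem_union, Finset.mem_univ, true_and,
            Finset.mem_sdiff] at hx ⊢
          obtain ⟨hxR, hsR, hne⟩ := hx
          by_cases hxZ : x ∈ Z <;> by_cases hsZ : σ i x ∈ Z
          · simp [hxZ, hsZ] at hne
          · left; exact ⟨hxR, hsR, fun h => hsZ (h.1 hxZ)⟩
          · left; exact ⟨hxR, hsR, fun h => hxZ (h.2 hsZ)⟩
          · right
            refine ⟨⟨hxR, hxZ⟩, ⟨hsR, hsZ⟩, ?_⟩
            simpa [hxZ, hsZ] using hne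
        have hsum := Finset.sum_le_sum (fun i (_ : i ∈ (univ : Finset ι)) => hle i)
        rw [Finset.sum_add_distrib] at hsum
        have h1 : ((∑ i, (univ.filter fun x => x ∈ R ∧ σ i x ∈ R ∧
            (if σ i x ∈ Z then 0 else z' (σ i x) + 1) ≠ (if x ∈ Z then 0 else z' x + 1)).card : ℕ)
              : ℝ) ≤ (b σ R Z : ℝ) + ((∑ i, (univ.filter fun x => x ∈ R \ Z ∧ σ i x ∈ R \ Z ∧
                z' (σ i x) ≠ z' x).card : ℕ) : ℝ) := by
          have : (b σ R Z : ℝ) = ((∑ i, (univ.filter fun x => x ∈ R ∧ σ i x ∈ R ∧
            ¬ (x ∈ Z ↔ σ i x ∈ Z)).card : ℕ) : ℝ) := rfl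
          rw [this, ← Nat.cast_add]
          exact_mod_cast hsum
        have h2 : (R.card : ℝ) = ((R \ Z).card : ℝ) + (Z.card : ℝ) := by
          rw [← hcard]; push_cast; ring
        rw [h2, mul_add]
        linarith
      · intro m Q hQR hQm
        by_cases hm : m < Z.card
        · by_cases hQe : Q = ∅
          · subst hQe; simp
          · have hQne : Q.Nonempty := Finset.nonempty_iff_ne_empty.mpr hQe
            have hlt : c * (Q.card : ℝ) < b σ R Q := by
              by_contra hcon
              push Not at hcon
              have : Q ∈ S := by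
                rw [hS, Finset.mem_filter, Finset.mem_powerset]
                exact ⟨hQR, hQne, hcon⟩
              have := hZmin Q this
              omega
            refine le_trans ?_ hlt.le
            apply mul_le_mul_of_nonneg_left _ hc.le
            exact_mod_cast Finset.card_le_card (Finset.filter_subset _ _)
        · push Not at hm
          have hkey := hz2 m (Q \ Z) (Finset.sdiff_subset_sdiff hQR (le_refl _))
            (le_trans (Finset.card_le_card Finset.sdiff_subset) hQm)
          have hsub : (Q.filter fun x => m < szR R (fun x => if x ∈ Z then 0 else z' x + 1) x) ⊆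
              ((Q \ Z).filter fun x => m < szR (R \ Z) z' x) := by
            intro x hx
            rw [Finset.mem_filter] at hx ⊢
            obtain ⟨hxQ, hxm⟩ := hx
            have hxZ : x ∉ Z := by
              intro hxZ
              have : szR R (fun x => if x ∈ Z then 0 else z' x + 1) x ≤ Z.card := by
                unfold szR
                apply Finset.card_le_card
                intro y hy
                rw [Finset.mem_filter] at hy
                by_contra hyZ
                simp [hxZ, hyZ] at hy
              omega
            refine ⟨Finset.mem_sdiff.mpr ⟨hxQ, hxZ⟩, lt_of_lt_of_le hxm ?_⟩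
            unfold szR
            apply Finset.card_le_card
            intro y hy
            rw [Finset.mem_filter] at hy ⊢
            obtain ⟨hyR, hy2⟩ := hy
            by_cases hyZ : y ∈ Z
            · simp [hxZ, hyZ] at hy2
            · refine ⟨Finset.mem_sdiff.mpr ⟨hyR, hyZ⟩, ?_⟩
              simpa [hxZ, hyZ] using hy2
          have h1 : c * ((Q.filter fun x => m < szR R (fun x => if x ∈ Z then 0 else z' x + 1)
              x).card : ℝ) ≤ c * (((Q \ Z).filter fun x => m < szR (R \ Z) z' x).card : ℝ) := by
            apply mul_le_mul_of_nonneg_left _ hc.le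
            exact_mod_cast Finset.card_le_card hsub
          refine le_trans h1 (le_trans hkey ?_)
          have h2 : b σ (R \ Z) (Q \ Z) ≤ b σ R Q := by
            unfold b
            apply Finset.sum_le_sum
            intro i _
            apply Finset.card_le_card
            intro x hx
            simp only [Finset.mem_filter, Finset.mem_univ, true_and, Finset.mem_sdiff] at hx ⊢
            obtain ⟨⟨h1, h2⟩, ⟨h3, h4⟩, h5⟩ := hx
            refine ⟨h1, h3, ?_⟩
            intro h6
            apply h5
            constructor
            · intro h7; exact ⟨h6.1 h7.1, h4⟩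
            · intro h7; exact ⟨h6.2 h7.1, h2⟩
          exact_mod_cast h2

end Greedy

/-- TARGET -/
theorem greedy {X : Type} [Fintype X] (σ : ι → Equiv.Perm X) {c : ℝ} (hc : 0 < c) :
    ∃ z : X → ℕ, (inv σ z : ℝ) ≤ c * Fintype.card X ∧
      ∀ h : X → ℕ, ((univ.filter fun x => sz h x < sz z x).card : ℝ) ≤ (2 / c) * inv σ h := by
  obtain ⟨z, hz1, hz2⟩ := Greedy.main σ hc (Finset.univ : Finset X).card Finset.univ (le_refl _)
  refine ⟨z, ?_, ?_⟩
  · have h1 : (inv σ z : ℝ) = ((∑ i, (univ.filter fun x => x ∈ (univ : Finset X) ∧
        σ i x ∈ (univ : Finset X) ∧ z (σ i x) ≠ z x).card : ℕ) : ℝ) := by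
      unfold inv
      congr 1
      apply Finset.sum_congr rfl
      intro i _
      congr 1
      ext x
      simp
    rw [h1]
    exact hz1
  · intro h
    set V : Finset ℕ := univ.image h with hV
    -- fibrewise decomposition
    have hfib : ∀ (P : X → Prop) [DecidablePred P], (univ.filter P).card =
        ∑ v ∈ V, ((univ.filter fun x => h x = v).filter P).card := by
      intro P _
      rw [Finset.card_eq_sum_card_fiberwise (f := h) (t := V)]
      · apply Finset.sum_congr rfl
        intro v _
        congr 1
        ext x
        simp only [Finset.mem_filter, Finset.mem_univ, true_and]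
        tauto
      · intro x _
        simp [hV]
    have hfib2 : ∀ (i : ι) (P : X → Prop) [DecidablePred P], (univ.filter P).card =
        ∑ v ∈ V, ((univ.filter fun x => h (σ i x) = v).filter P).card := by
      intro i P _
      rw [Finset.card_eq_sum_card_fiberwise (f := fun x => h (σ i x)) (t := V)]
      · apply Finset.sum_congr rfl
        intro v _
        congr 1
        ext x
        simp only [Finset.mem_filter, Finset.mem_univ, true_and]
        tauto
      · intro x _
        simp [hV]
    have hA : c * ((univ.filter fun x => sz h x < sz z x).card : ℝ) ≤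
        ((∑ v ∈ V, Greedy.b σ univ (univ.filter fun x => h x = v) : ℕ) : ℝ) := by
      rw [hfib (fun x => sz h x < sz z x)]
      push_cast
      rw [Finset.mul_sum]
      apply Finset.sum_le_sum
      intro v _
      have h3 := hz2 (univ.filter fun x => h x = v).card (univ.filter fun x => h x = v)
        (Finset.subset_univ _) (le_refl _)
      refine le_trans ?_ h3
      apply mul_le_mul_of_nonneg_left _ hc.le
      have : ((univ.filter fun x => h x = v).filter fun x => sz h x < sz z x) ⊆
          ((univ.filter fun x => h x = v).filter fun x =>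
            (univ.filter fun x => h x = v).card < Greedy.szR univ z x) := by
        intro x hx
        simp only [Finset.mem_filter, Finset.mem_univ, true_and] at hx ⊢
        obtain ⟨h4, h5⟩ := hx
        refine ⟨h4, ?_⟩
        unfold sz at h5
        unfold Greedy.szR
        rw [h4] at h5
        convert h5
      exact_mod_cast Finset.card_le_card this
    have hB : (∑ v ∈ V, Greedy.b σ univ (univ.filter fun x => h x = v)) ≤ 2 * inv σ h := by
      unfold Greedy.b inv
      rw [Finset.sum_comm, Finset.mul_sum]
      apply Finset.sum_le_sum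
      intro i _
      have e1 := hfib (fun x => h (σ i x) ≠ h x)
      have e2 := hfib2 i (fun x => h (σ i x) ≠ h x)
      have e3 : 2 * (univ.filter fun x => h (σ i x) ≠ h x).card =
          ∑ v ∈ V, (((univ.filter fun x => h x = v).filter fun x => h (σ i x) ≠ h x).card +
            ((univ.filter fun x => h (σ i x) = v).filter fun x => h (σ i x) ≠ h x).card) := by
        rw [Finset.sum_add_distrib, ← e1, ← e2]
        ring
      rw [e3]
      apply Finset.sum_le_sum
      intro v _
      refine le_trans (Finset.card_le_card ?_) (Finset.card_union_le _ _)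
      intro x hx
      simp only [Finset.mem_filter, Finset.mem_univ, true_and, Finset.mem_union] at hx ⊢
      by_cases h6 : h x = v
      · left
        refine ⟨h6, ?_⟩
        intro h7
        apply hx
        rw [h7, h6]
      · right
        have h7 : h (σ i x) = v := by
          by_contra h8
          exact hx ⟨fun h9 => absurd h9 h6, fun h9 => absurd h9 h8⟩
        refine ⟨h7, ?_⟩
        intro h8
        exact h6 (h8 ▸ h7)
    have hC : c * ((univ.filter fun x => sz h x < sz z x).card : ℝ) ≤ 2 * (inv σ h : ℝ) := by
      refine le_trans hA ?_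
      exact_mod_cast hB
    rw [div_mul_eq_mul_div, le_div_iff₀ hc]
    linarith

end Helper418
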