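import Pool.Agent.Helper418_Sofic.Defs

namespace Helper418

/-- the Markov operator -/
noncomputable def MM {ι : Type} [Fintype ι] (p : ℕ) {X : Type} (σ : ι → Equiv.Perm X)
    (F : X → ℝ) : X → ℝ :=
  fun x => (∑ i, avg p (σ i) F x) / (Fintype.card ι : ℝ)

end Helper418
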