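import Pool.Agent.Helper418_Sofic.TIneq
import Pool.Agent.Helper418_Sofic.MM
import Pool.Agent.Helper418_Sofic.Defs

open Filter Topology Finset
open scoped Classical

namespace Helper418

/-! GIVEN (proved elsewhere) -/


set_option linter.unusedSectionVars false

namespace ILCore

section one
variable {X : Type} [Fintype X] {p : ℕ} {τ : Equiv.Perm X}

theorem avg_inv (hτ : τ ^ p = 1) (F : X → ℝ) (x : X) : avg p τ F (τ x) = avg p τ F x := by
  unfold avg
  congr 1
  have h1 : ∑ j ∈ range (p + 1), F ((τ ^ j) x) = ∑ j ∈ range p, F ((τ ^ (j + 1)) x) + F x := by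
    rw [Finset.sum_range_succ']; simp
  have h2 : ∑ j ∈ range (p + 1), F ((τ ^ j) x) = ∑ j ∈ range p, F ((τ ^ j) x) + F x := by
    rw [Finset.sum_range_succ, hτ]; simp
  have h3 : ∑ j ∈ range p, F ((τ ^ (j + 1)) x) = ∑ j ∈ range p, F ((τ ^ j) x) := by linarith
  rw [← h3]
  apply Finset.sum_congr rfl
  intro j _
  rw [pow_succ]; rfl

theorem avg_inv_pow (hτ : τ ^ p = 1) (F : X → ℝ) (j : ℕ) (x : X) :
    avg p τ F ((τ ^ j) x) = avg p τ F x := by
  induction j with
  | zero => simp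
  | succ j ih =>
    rw [pow_succ']
    show avg p τ F (τ ((τ ^ j) x)) = _
    rw [avg_inv hτ, ih]

theorem inner_avg (hp : 0 < p) (hτ : τ ^ p = 1) (F G : X → ℝ) :
    ∑ x, avg p τ F x * G x = ∑ x, avg p τ F x * avg p τ G x := by
  have hp' : (p : ℝ) ≠ 0 := by positivity
  have h1 : ∑ x, avg p τ F x * avg p τ G x =
      (∑ j ∈ range p, ∑ x, avg p τ F x * G ((τ ^ j) x)) / p := by
    rw [Finset.sum_comm, Finset.sum_div]
    apply Finset.sum_congr rfl
    intro x _
    rw [← Finset.mul_sum]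
    simp only [avg]
    ring
  have h2 : ∀ j, ∑ x, avg p τ F x * G ((τ ^ j) x) = ∑ x, avg p τ F x * G x := by
    intro j
    rw [← Equiv.sum_comp (τ ^ j) (fun x => avg p τ F x * G x)]
    apply Finset.sum_congr rfl
    intro x _
    rw [avg_inv_pow hτ]
  rw [h1, Finset.sum_congr rfl (fun j _ => h2 j), Finset.sum_const, Finset.card_range,
    nsmul_eq_mul]
  field_simp

theorem sum_avg (hp : 0 < p) (F : X → ℝ) : ∑ x, avg p τ F x = ∑ x, F x := by
  have hp' : (p : ℝ) ≠ 0 := by positivity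
  simp only [avg]
  rw [← Finset.sum_div, Finset.sum_comm]
  have h2 : ∀ j ∈ range p, ∑ x, F ((τ ^ j) x) = ∑ x, F x := fun j _ =>
    Equiv.sum_comp (τ ^ j) F
  rw [Finset.sum_congr rfl h2, Finset.sum_const, Finset.card_range, nsmul_eq_mul]
  field_simp

theorem inner_lap (hp : 0 < p) (hτ : τ ^ p = 1) (F G : X → ℝ) :
    ∑ x, lap p τ F x * G x = ∑ x, lap p τ F x * lap p τ G x := by
  have h1 := inner_avg hp hτ F G
  have h2 := inner_avg hp hτ G F
  have e1 : ∑ x, lap p τ F x * G x = ∑ x, F x * G x - ∑ x, avg p τ F x * G x := by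
    rw [← Finset.sum_sub_distrib]
    apply Finset.sum_congr rfl
    intro x _
    simp only [lap]; ring
  have e2 : ∑ x, lap p τ F x * lap p τ G x = ∑ x, F x * G x - ∑ x, avg p τ F x * G x
      - ∑ x, avg p τ G x * F x + ∑ x, avg p τ G x * avg p τ F x := by
    rw [← Finset.sum_sub_distrib, ← Finset.sum_sub_distrib, ← Finset.sum_add_distrib]
    apply Finset.sum_congr rfl
    intro x _
    simp only [lap]; ring
  rw [e1, e2, h2]
  ring

theorem norm_lap_le (hp : 0 < p) (hτ : τ ^ p = 1) (F : X → ℝ) :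
    ∑ x, lap p τ F x ^ 2 ≤ ∑ x, F x ^ 2 := by
  have h1 := inner_avg hp hτ F F
  have e2 : ∑ x, lap p τ F x ^ 2 = ∑ x, F x ^ 2 - 2 * ∑ x, avg p τ F x * F x
      + ∑ x, avg p τ F x * avg p τ F x := by
    rw [Finset.mul_sum, ← Finset.sum_sub_distrib, ← Finset.sum_add_distrib]
    apply Finset.sum_congr rfl
    intro x _
    simp only [lap]; ring
  have h3 : 0 ≤ ∑ x, avg p τ F x * avg p τ F x :=
    Finset.sum_nonneg fun x _ => mul_self_nonneg _
  rw [e2, h1]
  linarith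

theorem lap_sub_mul (F G : X → ℝ) (c : ℝ) (x : X) :
    lap p τ (fun x => F x - c * G x) x = lap p τ F x - c * lap p τ G x := by
  simp only [lap, avg]
  rw [Finset.sum_sub_distrib, ← Finset.mul_sum]
  ring

theorem avg_nonneg (F : X → ℝ) (h : ∀ x, 0 ≤ F x) (x : X) : 0 ≤ avg p τ F x :=
  div_nonneg (Finset.sum_nonneg fun _ _ => h _) (Nat.cast_nonneg _)

theorem avg_le_one (hp : 0 < p) (F : X → ℝ) (h : ∀ x, F x ≤ 1) (x : X) : avg p τ F x ≤ 1 := by
  unfold avg
  rw [div_le_one (by positivity)]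
  calc ∑ j ∈ range p, F ((τ ^ j) x) ≤ ∑ j ∈ range p, (1 : ℝ) :=
        Finset.sum_le_sum fun _ _ => h _
    _ = p := by simp

/-- `‖F - F ∘ τ‖² ≤ 4 ‖lap F‖²` -/
theorem diff_le (hτ : τ ^ p = 1) (F : X → ℝ) :
    ∑ x, (F x - F (τ x)) ^ 2 ≤ 4 * ∑ x, lap p τ F x ^ 2 := by
  have h1 : ∀ x, (F x - F (τ x)) ^ 2 ≤ 2 * lap p τ F x ^ 2 + 2 * lap p τ F (τ x) ^ 2 := by
    intro x
    have e : F x - F (τ x) = lap p τ F x - lap p τ F (τ x) := by
      simp only [lap]
      rw [avg_inv hτ]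
      ring
    rw [e]
    nlinarith [sq_nonneg (lap p τ F x + lap p τ F (τ x))]
  have h2 : ∑ x, lap p τ F (τ x) ^ 2 = ∑ x, lap p τ F x ^ 2 :=
    Equiv.sum_comp τ (fun x => lap p τ F x ^ 2)
  calc ∑ x, (F x - F (τ x)) ^ 2 ≤ ∑ x, (2 * lap p τ F x ^ 2 + 2 * lap p τ F (τ x) ^ 2) :=
        Finset.sum_le_sum fun x _ => h1 x
    _ = 4 * ∑ x, lap p τ F x ^ 2 := by
        rw [Finset.sum_add_distrib, ← Finset.mul_sum, ← Finset.mul_sum, h2]
        ring

theorem telescope_abs (F : X → ℝ) (j : ℕ) :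
    ∑ x, |F x - F ((τ ^ j) x)| ≤ j * ∑ x, |F x - F (τ x)| := by
  induction j with
  | zero => simp
  | succ j ih =>
    have h1 : ∀ x, |F x - F ((τ ^ (j + 1)) x)| ≤
        |F x - F ((τ ^ j) x)| + |F ((τ ^ j) x) - F (τ ((τ ^ j) x))| := by
      intro x
      have : (τ ^ (j + 1)) x = τ ((τ ^ j) x) := by rw [pow_succ']; rfl
      rw [this]
      exact abs_sub_le _ _ _
    have h2 : ∑ x, |F ((τ ^ j) x) - F (τ ((τ ^ j) x))| = ∑ x, |F x - F (τ x)| :=
      Equiv.sum_comp (τ ^ j) (fun x => |F x - F (τ x)|)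
    calc ∑ x, |F x - F ((τ ^ (j + 1)) x)| ≤
        ∑ x, (|F x - F ((τ ^ j) x)| + |F ((τ ^ j) x) - F (τ ((τ ^ j) x))|) :=
          Finset.sum_le_sum fun x _ => h1 x
      _ = ∑ x, |F x - F ((τ ^ j) x)| + ∑ x, |F x - F (τ x)| := by
          rw [Finset.sum_add_distrib, h2]
      _ ≤ j * ∑ x, |F x - F (τ x)| + ∑ x, |F x - F (τ x)| := by linarith
      _ = ((j + 1 : ℕ) : ℝ) * ∑ x, |F x - F (τ x)| := by push_cast; ring

/-- for indicator functions the squared norm of `lap F` is at most `2 p` times the boundary -/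
theorem lap_indicator (hp : 0 < p) (Y : Finset X) (F : X → ℝ)
    (hF : ∀ x, F x = if x ∈ Y then 1 else 0) :
    ∑ x, lap p τ F x ^ 2 ≤ 2 * p * ((Y.filter fun x => τ x ∉ Y).card : ℝ) := by
  have hp' : (0 : ℝ) < p := by positivity
  have h01 : ∀ x, F x = 0 ∨ F x = 1 := by
    intro x; rw [hF]; split_ifs <;> simp
  have hsq : ∀ x y, (F x - F y) ^ 2 = |F x - F y| := by
    intro x y
    rcases h01 x with h | h <;> rcases h01 y with h' | h' <;> rw [h, h'] <;> norm_num
  -- pointwise bound of lap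
  have h1 : ∀ x, lap p τ F x ^ 2 ≤ (∑ j ∈ range p, |F x - F ((τ ^ j) x)|) / p := by
    intro x
    have e : lap p τ F x = (∑ j ∈ range p, (F x - F ((τ ^ j) x))) / p := by
      simp only [lap, avg]
      rw [Finset.sum_sub_distrib, Finset.sum_const, Finset.card_range, nsmul_eq_mul]
      field_simp
    rw [e, div_pow]
    have h2 := sq_sum_le_card_mul_sum_sq (s := range p) (f := fun j => F x - F ((τ ^ j) x))
    rw [Finset.card_range] at h2
    rw [div_le_div_iff₀ (by positivity) hp']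
    have h3 : ∑ j ∈ range p, (F x - F ((τ ^ j) x)) ^ 2 = ∑ j ∈ range p, |F x - F ((τ ^ j) x)| :=
      Finset.sum_congr rfl fun j _ => hsq _ _
    rw [h3] at h2
    nlinarith
  have h2 : ∑ x, |F x - F (τ x)| = 2 * ((Y.filter fun x => τ x ∉ Y).card : ℝ) := by
    have e1 : ∀ x, |F x - F (τ x)| = 2 * (if x ∈ Y ∧ τ x ∉ Y then (1 : ℝ) else 0)
        - (F x - F (τ x)) := by
      intro x
      rw [hF, hF]
      by_cases ha : x ∈ Y <;> by_cases hb : τ x ∈ Y <;> simp [ha, hb] <;> norm_num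
    rw [Finset.sum_congr rfl (fun x _ => e1 x), Finset.sum_sub_distrib, ← Finset.mul_sum,
      Finset.sum_sub_distrib, Equiv.sum_comp τ F, sub_self, sub_zero]
    congr 1
    rw [← Finset.sum_filter, Finset.sum_const, nsmul_eq_mul, mul_one]
    congr 2
    ext x
    simp
  calc ∑ x, lap p τ F x ^ 2 ≤ ∑ x, (∑ j ∈ range p, |F x - F ((τ ^ j) x)|) / p :=
        Finset.sum_le_sum fun x _ => h1 x
    _ = (∑ j ∈ range p, ∑ x, |F x - F ((τ ^ j) x)|) / p := by
        rw [← Finset.sum_div, Finset.sum_comm]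
    _ ≤ (∑ j ∈ range p, (p : ℝ) * ∑ x, |F x - F (τ x)|) / p := by
        apply div_le_div_of_nonneg_right _ hp'.le
        apply Finset.sum_le_sum
        intro j hj
        refine (telescope_abs F j).trans ?_
        apply mul_le_mul_of_nonneg_right _ (Finset.sum_nonneg fun x _ => abs_nonneg _)
        exact_mod_cast (Finset.mem_range.mp hj).le
    _ = p * ∑ x, |F x - F (τ x)| := by
        rw [Finset.sum_const, Finset.card_range, nsmul_eq_mul]
        field_simp
    _ = 2 * p * ((Y.filter fun x => τ x ∉ Y).card : ℝ) := by rw [h2]; ring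

end one

section many
variable {X : Type} [Fintype X] {ι : Type} [Fintype ι] {p : ℕ} {σ : ι → Equiv.Perm X}

/-- the energy -/
noncomputable def En (p : ℕ) (σ : ι → Equiv.Perm X) (F : X → ℝ) : ℝ :=
  ∑ i, ∑ x, lap p (σ i) F x ^ 2

/-- the Laplacian -/
noncomputable def Dl (p : ℕ) (σ : ι → Equiv.Perm X) (F : X → ℝ) (x : X) : ℝ :=
  ∑ i, lap p (σ i) F x

theorem En_nonneg (F : X → ℝ) : 0 ≤ En p σ F :=
  Finset.sum_nonneg fun _ _ => Finset.sum_nonneg fun _ _ => sq_nonneg _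

theorem En_le (hp : 0 < p) (hσ : ∀ i, σ i ^ p = 1) (F : X → ℝ) :
    En p σ F ≤ Fintype.card ι * ∑ x, F x ^ 2 := by
  calc En p σ F ≤ ∑ _i : ι, ∑ x, F x ^ 2 := Finset.sum_le_sum fun i _ => norm_lap_le hp (hσ i) F
    _ = Fintype.card ι * ∑ x, F x ^ 2 := by simp

theorem Dl_sq_le (F : X → ℝ) : ∑ x, Dl p σ F x ^ 2 ≤ Fintype.card ι * En p σ F := by
  unfold Dl En
  rw [Finset.sum_comm, Finset.mul_sum]
  apply Finset.sum_le_sum
  intro x _
  exact sq_sum_le_card_mul_sum_sq (s := Finset.univ) (f := fun i => lap p (σ i) F x)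

theorem En_sub (hp : 0 < p) (hσ : ∀ i, σ i ^ p = 1) (F H : X → ℝ) (c : ℝ) :
    En p σ (fun x => F x - c * H x) =
      En p σ F - 2 * c * ∑ x, Dl p σ F x * H x + c ^ 2 * En p σ H := by
  have h1 : ∑ x, Dl p σ F x * H x = ∑ i, ∑ x, lap p (σ i) F x * lap p (σ i) H x := by
    have : ∑ x, Dl p σ F x * H x = ∑ i, ∑ x, lap p (σ i) F x * H x := by
      rw [Finset.sum_comm]
      apply Finset.sum_congr rfl
      intro x _
      rw [Dl, Finset.sum_mul]
    rw [this]
    exact Finset.sum_congr rfl fun i _ => inner_lap hp (hσ i) F H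
  rw [h1]
  unfold En
  rw [Finset.mul_sum, Finset.mul_sum, ← Finset.sum_sub_distrib, ← Finset.sum_add_distrib]
  apply Finset.sum_congr rfl
  intro i _
  rw [Finset.mul_sum, Finset.mul_sum, ← Finset.sum_sub_distrib, ← Finset.sum_add_distrib]
  apply Finset.sum_congr rfl
  intro x _
  rw [lap_sub_mul]
  ring

theorem MM_eq [Nonempty ι] (F : X → ℝ) :
    MM p σ F = fun x => F x - (1 / (Fintype.card ι : ℝ)) * Dl p σ F x := by
  have hN : (Fintype.card ι : ℝ) ≠ 0 := by
    have : 0 < Fintype.card ι := Fintype.card_pos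
    positivity
  funext x
  simp only [MM, Dl, lap]
  rw [Finset.sum_sub_distrib, Finset.sum_const, Finset.card_univ, nsmul_eq_mul]
  field_simp
  ring

theorem En_MM [Nonempty ι] (hp : 0 < p) (hσ : ∀ i, σ i ^ p = 1) (F : X → ℝ) :
    En p σ (MM p σ F) ≤ En p σ F - (1 / (Fintype.card ι : ℝ)) * ∑ x, Dl p σ F x ^ 2 := by
  have hN : (0 : ℝ) < (Fintype.card ι : ℝ) := by
    have : 0 < Fintype.card ι := Fintype.card_pos
    positivity
  rw [MM_eq, En_sub hp hσ]
  have h1 : ∑ x, Dl p σ F x * Dl p σ F x = ∑ x, Dl p σ F x ^ 2 :=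
    Finset.sum_congr rfl fun x _ => (sq _).symm
  rw [h1]
  have h2 := En_le hp hσ (Dl p σ F)
  have h3 : (1 / (Fintype.card ι : ℝ)) ^ 2 * En p σ (Dl p σ F) ≤
      (1 / (Fintype.card ι : ℝ)) * ∑ x, Dl p σ F x ^ 2 := by
    calc (1 / (Fintype.card ι : ℝ)) ^ 2 * En p σ (Dl p σ F) ≤
        (1 / (Fintype.card ι : ℝ)) ^ 2 * (Fintype.card ι * ∑ x, Dl p σ F x ^ 2) :=
          mul_le_mul_of_nonneg_left h2 (by positivity)
      _ = (1 / (Fintype.card ι : ℝ)) * ∑ x, Dl p σ F x ^ 2 := by field_simp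
  linarith

theorem MM_diff [Nonempty ι] (F : X → ℝ) :
    ∑ x, (MM p σ F x - F x) ^ 2 ≤ En p σ F / Fintype.card ι := by
  have hN : (0 : ℝ) < (Fintype.card ι : ℝ) := by
    have : 0 < Fintype.card ι := Fintype.card_pos
    positivity
  have h1 : ∑ x, (MM p σ F x - F x) ^ 2 =
      (1 / (Fintype.card ι : ℝ)) ^ 2 * ∑ x, Dl p σ F x ^ 2 := by
    rw [Finset.mul_sum]
    apply Finset.sum_congr rfl
    intro x _
    rw [MM_eq]
    ring
  rw [h1]
  calc (1 / (Fintype.card ι : ℝ)) ^ 2 * ∑ x, Dl p σ F x ^ 2 ≤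
      (1 / (Fintype.card ι : ℝ)) ^ 2 * (Fintype.card ι * En p σ F) :=
        mul_le_mul_of_nonneg_left (Dl_sq_le F) (by positivity)
    _ = En p σ F / Fintype.card ι := by field_simp

theorem MM_nonneg (F : X → ℝ) (h : ∀ x, 0 ≤ F x) (x : X) : 0 ≤ MM p σ F x :=
  div_nonneg (Finset.sum_nonneg fun _ _ => avg_nonneg F h x) (Nat.cast_nonneg _)

theorem MM_le_one [Nonempty ι] (hp : 0 < p) (F : X → ℝ) (h : ∀ x, F x ≤ 1) (x : X) :
    MM p σ F x ≤ 1 := by
  have hN : (0 : ℝ) < (Fintype.card ι : ℝ) := by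
    have : 0 < Fintype.card ι := Fintype.card_pos
    positivity
  unfold MM
  rw [div_le_one hN]
  calc ∑ i, avg p (σ i) F x ≤ ∑ _i : ι, (1 : ℝ) :=
        Finset.sum_le_sum fun i _ => avg_le_one hp F h x
    _ = Fintype.card ι := by simp

theorem MM_sum [Nonempty ι] (hp : 0 < p) (F : X → ℝ) : ∑ x, MM p σ F x = ∑ x, F x := by
  have hN : (0 : ℝ) < (Fintype.card ι : ℝ) := by
    have : 0 < Fintype.card ι := Fintype.card_pos
    positivity
  unfold MM
  rw [← Finset.sum_div, Finset.sum_comm]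
  rw [Finset.sum_congr rfl (fun i _ => sum_avg (τ := σ i) hp F), Finset.sum_const,
    Finset.card_univ, nsmul_eq_mul]
  field_simp

theorem iter_props [Nonempty ι] (hp : 0 < p) (F : X → ℝ) (h0 : ∀ x, 0 ≤ F x)
    (h1 : ∀ x, F x ≤ 1) (k : ℕ) : (∀ x, 0 ≤ ((MM p σ)^[k] F) x) ∧
      (∀ x, ((MM p σ)^[k] F) x ≤ 1) ∧ ∑ x, ((MM p σ)^[k] F) x = ∑ x, F x := by
  induction k with
  | zero => exact ⟨h0, h1, rfl⟩
  | succ k ih =>
    rw [Function.iterate_succ_apply']
    exact ⟨MM_nonneg _ ih.1, MM_le_one hp _ ih.2.1, (MM_sum hp _).trans ih.2.2⟩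

/-- decay of the energy -/
theorem En_iter [Nonempty ι] (hp : 0 < p) (hσ : ∀ i, σ i ^ p = 1) (F : X → ℝ)
    (h0 : ∀ x, 0 ≤ F x) (h1 : ∀ x, F x ≤ 1) (B : Finset X) (κ b : ℝ) (hκ : 0 < κ) (hκ1 : κ ≤ 1)
    (hb : ∀ k : ℕ, ∑ x ∈ B, ((MM p σ)^[k] F) x ≤ b)
    (hT : ∀ f : X → ℝ, κ * En p σ f - (Fintype.card ι : ℝ) ^ 2 * ∑ x ∈ B, f x ^ 2 ≤
      ∑ x, Dl p σ f x ^ 2) (k : ℕ) :
    En p σ ((MM p σ)^[k] F) ≤ (1 - κ / Fintype.card ι) ^ k * En p σ F +
      (Fintype.card ι : ℝ) ^ 2 / κ * b := by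
  have hN : (0 : ℝ) < (Fintype.card ι : ℝ) := by
    have : 0 < Fintype.card ι := Fintype.card_pos
    positivity
  have hN1 : (1 : ℝ) ≤ (Fintype.card ι : ℝ) := by
    have : 0 < Fintype.card ι := Fintype.card_pos
    exact_mod_cast this
  have hb0 : 0 ≤ b := (Finset.sum_nonneg fun x _ => h0 x).trans (hb 0)
  have hq : 0 ≤ 1 - κ / Fintype.card ι := by
    rw [sub_nonneg, div_le_one hN]; linarith
  induction k with
  | zero =>
    simp only [Function.iterate_zero, id_eq, pow_zero, one_mul]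
    have : 0 ≤ (Fintype.card ι : ℝ) ^ 2 / κ * b := by positivity
    linarith
  | succ k ih =>
    rw [Function.iterate_succ_apply']
    set G := (MM p σ)^[k] F with hG
    obtain ⟨g0, g1, -⟩ := iter_props (σ := σ) hp F h0 h1 k
    have e1 := En_MM hp hσ G
    have e2 := hT G
    have e3 : ∑ x ∈ B, G x ^ 2 ≤ b := by
      refine le_trans ?_ (hb k)
      apply Finset.sum_le_sum
      intro x _
      have := g0 x
      have := g1 x
      rw [← hG] at *
      nlinarith
    have e4 : (1 / (Fintype.card ι : ℝ)) * (κ * En p σ G - (Fintype.card ι : ℝ) ^ 2 * b) ≤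
        (1 / (Fintype.card ι : ℝ)) * ∑ x, Dl p σ G x ^ 2 := by
      apply mul_le_mul_of_nonneg_left _ (by positivity)
      have : (Fintype.card ι : ℝ) ^ 2 * ∑ x ∈ B, G x ^ 2 ≤ (Fintype.card ι : ℝ) ^ 2 * b :=
        mul_le_mul_of_nonneg_left e3 (by positivity)
      linarith
    have e5 : (1 / (Fintype.card ι : ℝ)) * (κ * En p σ G - (Fintype.card ι : ℝ) ^ 2 * b) =
        κ / Fintype.card ι * En p σ G - Fintype.card ι * b := by field_simp
    calc En p σ (MM p σ G) ≤ (1 - κ / Fintype.card ι) * En p σ G + Fintype.card ι * b := by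
          linarith
      _ ≤ (1 - κ / Fintype.card ι) * ((1 - κ / Fintype.card ι) ^ k * En p σ F +
          (Fintype.card ι : ℝ) ^ 2 / κ * b) + Fintype.card ι * b := by
          have := mul_le_mul_of_nonneg_left ih hq
          linarith
      _ = (1 - κ / Fintype.card ι) ^ (k + 1) * En p σ F +
          (Fintype.card ι : ℝ) ^ 2 / κ * b := by
          have e6 : (1 - κ / Fintype.card ι) * ((Fintype.card ι : ℝ) ^ 2 / κ * b) +
              Fintype.card ι * b = (Fintype.card ι : ℝ) ^ 2 / κ * b := by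
            field_simp
            ring
          rw [pow_succ]
          linear_combination e6

/-- distance of the iterates -/
theorem iter_dist [Nonempty ι] (F : X → ℝ) (k : ℕ) (ρ : ℝ) (hρ : 0 < ρ) (hρ1 : ρ < 1) :
    ∑ x, (((MM p σ)^[k] F) x - F x) ^ 2 ≤
      1 / (1 - ρ) * ∑ j ∈ range k, (En p σ ((MM p σ)^[j] F) / Fintype.card ι) / ρ ^ j := by
  have hN : (0 : ℝ) < (Fintype.card ι : ℝ) := by
    have : 0 < Fintype.card ι := Fintype.card_pos
    positivity
  have h1ρ : 0 < 1 - ρ := by linarith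
  rcases Nat.eq_zero_or_pos k with rfl | hk
  · simp
  have hgeom : ∑ j ∈ range k, ρ ^ j ≤ 1 / (1 - ρ) := by
    rw [geom_sum_eq hρ1.ne, le_div_iff₀ h1ρ]
    have : (ρ ^ k - 1) / (ρ - 1) * (1 - ρ) = 1 - ρ ^ k := by
      have : ρ - 1 ≠ 0 := by linarith
      field_simp
      ring
    rw [this]
    have := pow_pos hρ k
    linarith
  have hgpos : 0 < ∑ j ∈ range k, ρ ^ j :=
    Finset.sum_pos (fun j _ => pow_pos hρ j) (Finset.nonempty_range_iff.mpr hk.ne')
  have hpt : ∀ x, (((MM p σ)^[k] F) x - F x) ^ 2 ≤ 1 / (1 - ρ) *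
      ∑ j ∈ range k, (((MM p σ)^[j + 1] F) x - ((MM p σ)^[j] F) x) ^ 2 / ρ ^ j := by
    intro x
    have e : ((MM p σ)^[k] F) x - F x =
        ∑ j ∈ range k, (((MM p σ)^[j + 1] F) x - ((MM p σ)^[j] F) x) := by
      rw [Finset.sum_range_sub (fun j => ((MM p σ)^[j] F) x)]
      rfl
    have h := Finset.sq_sum_div_le_sum_sq_div (range k)
      (fun j => ((MM p σ)^[j + 1] F) x - ((MM p σ)^[j] F) x) (g := fun j => ρ ^ j)
      (fun j _ => pow_pos hρ j)
    rw [← e, div_le_iff₀ hgpos] at h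
    refine h.trans ?_
    rw [mul_comm]
    apply mul_le_mul_of_nonneg_right hgeom
    exact Finset.sum_nonneg fun j _ => div_nonneg (sq_nonneg _) (pow_pos hρ j).le
  calc ∑ x, (((MM p σ)^[k] F) x - F x) ^ 2 ≤ ∑ x, 1 / (1 - ρ) *
        ∑ j ∈ range k, (((MM p σ)^[j + 1] F) x - ((MM p σ)^[j] F) x) ^ 2 / ρ ^ j :=
          Finset.sum_le_sum fun x _ => hpt x
    _ = 1 / (1 - ρ) * ∑ j ∈ range k,
        (∑ x, (((MM p σ)^[j + 1] F) x - ((MM p σ)^[j] F) x) ^ 2) / ρ ^ j := by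
          rw [← Finset.mul_sum, Finset.sum_comm]
          congr 1
          apply Finset.sum_congr rfl
          intro j _
          rw [Finset.sum_div]
    _ ≤ 1 / (1 - ρ) * ∑ j ∈ range k, (En p σ ((MM p σ)^[j] F) / Fintype.card ι) / ρ ^ j := by
          apply mul_le_mul_of_nonneg_left _ (by positivity)
          apply Finset.sum_le_sum
          intro j _
          apply div_le_div_of_nonneg_right _ (pow_pos hρ j).le
          rw [Function.iterate_succ_apply']
          exact MM_diff _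

/-- the boundary of an upper level set -/
theorem bd_level (hσ : ∀ i, σ i ^ p = 1) (F : X → ℝ) (θ τ : ℝ) (hτ : 0 < τ) :
    ((bd σ (univ.filter fun x => θ < F x) : ℕ) : ℝ) ≤
      Fintype.card ι * ((univ.filter fun x => θ < F x ∧ F x ≤ θ + τ).card : ℝ) +
        4 * En p σ F / τ ^ 2 := by
  unfold bd
  rw [Nat.cast_sum]
  have h1 : ∀ i, ((((univ.filter fun x => θ < F x).filter fun x =>
      σ i x ∉ (univ.filter fun x => θ < F x)).card : ℕ) : ℝ) ≤
      ((univ.filter fun x => θ < F x ∧ F x ≤ θ + τ).card : ℝ) +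
        (4 * ∑ x, lap p (σ i) F x ^ 2) / τ ^ 2 := by
    intro i
    have h2 : ((univ.filter fun x => θ < F x).filter fun x =>
      σ i x ∉ (univ.filter fun x => θ < F x)) ⊆ (univ.filter fun x => θ < F x ∧ F x ≤ θ + τ) ∪
        (univ.filter fun x => τ ^ 2 ≤ (F x - F (σ i x)) ^ 2) := by
      intro x hx
      simp only [Finset.mem_filter, Finset.mem_univ, true_and, not_lt, Finset.mem_union] at hx ⊢
      by_cases h : F x ≤ θ + τ
      · exact Or.inl ⟨hx.1, h⟩
      · right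
        push Not at h
        have : τ ≤ F x - F (σ i x) := by linarith [hx.2]
        nlinarith
    have h3 : ((univ.filter fun x => τ ^ 2 ≤ (F x - F (σ i x)) ^ 2).card : ℝ) ≤
        (4 * ∑ x, lap p (σ i) F x ^ 2) / τ ^ 2 := by
      rw [le_div_iff₀ (by positivity)]
      refine le_trans ?_ (diff_le (hσ i) F)
      calc ((univ.filter fun x => τ ^ 2 ≤ (F x - F (σ i x)) ^ 2).card : ℝ) * τ ^ 2 =
          ∑ x ∈ univ.filter fun x => τ ^ 2 ≤ (F x - F (σ i x)) ^ 2, τ ^ 2 := by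
            rw [Finset.sum_const, nsmul_eq_mul]
        _ ≤ ∑ x ∈ univ.filter fun x => τ ^ 2 ≤ (F x - F (σ i x)) ^ 2, (F x - F (σ i x)) ^ 2 :=
            Finset.sum_le_sum fun x hx => (Finset.mem_filter.mp hx).2
        _ ≤ ∑ x, (F x - F (σ i x)) ^ 2 :=
            Finset.sum_le_sum_of_subset_of_nonneg (Finset.subset_univ _)
              fun x _ _ => sq_nonneg _
    have h4 := (Finset.card_le_card h2).trans (Finset.card_union_le _ _)
    have h5 : ((((univ.filter fun x => θ < F x).filter fun x =>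
      σ i x ∉ (univ.filter fun x => θ < F x)).card : ℕ) : ℝ) ≤
      ((univ.filter fun x => θ < F x ∧ F x ≤ θ + τ).card : ℝ) +
      ((univ.filter fun x => τ ^ 2 ≤ (F x - F (σ i x)) ^ 2).card : ℝ) := by exact_mod_cast h4
    linarith
  refine (Finset.sum_le_sum fun i _ => h1 i).trans ?_
  rw [Finset.sum_add_distrib, Finset.sum_const, Finset.card_univ, nsmul_eq_mul,
    ← Finset.sum_div, ← Finset.mul_sum]
  exact le_rfl

/-- a good threshold -/
theorem threshold (F : X → ℝ) (hF : ∀ x, 0 ≤ F x) (J : ℕ) (hJ : 0 < J) :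
    ∃ θ : ℝ, 1 / 2 < θ ∧ θ ≤ 3 / 4 ∧
      ((univ.filter fun x => θ < F x ∧ F x ≤ θ + 1 / (4 * ((J : ℝ) + 1))).card : ℝ) ≤
        2 * (∑ x, F x) / J := by
  set τ : ℝ := 1 / (4 * ((J : ℝ) + 1)) with hτ
  have hτ0 : 0 < τ := by positivity
  have hJ0 : (0 : ℝ) < J := by exact_mod_cast hJ
  let G : ℕ → ℝ := fun j => ((univ.filter fun x => 1 / 2 + ((j : ℝ) + 1) * τ < F x).card : ℝ)
  have hG : ∀ j : ℕ, ((univ.filter fun x => 1 / 2 + ((j : ℝ) + 1) * τ < F x ∧
      F x ≤ 1 / 2 + ((j : ℝ) + 1) * τ + τ).card : ℝ) = G j - G (j + 1) := by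
    intro j
    have h1 := Finset.card_filter_add_card_filter_not
      (s := univ.filter fun x => 1 / 2 + ((j : ℝ) + 1) * τ < F x)
      (fun x => F x ≤ 1 / 2 + ((j : ℝ) + 1) * τ + τ)
    rw [Finset.filter_filter, Finset.filter_filter] at h1
    have h2 : (univ.filter fun x => 1 / 2 + ((j : ℝ) + 1) * τ < F x ∧
        ¬ F x ≤ 1 / 2 + ((j : ℝ) + 1) * τ + τ) =
        univ.filter fun x => 1 / 2 + (((j + 1 : ℕ) : ℝ) + 1) * τ < F x := by
      ext x
      simp only [Finset.mem_filter, Finset.mem_univ, true_and, not_le]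
      push_cast
      constructor
      · rintro ⟨_, h⟩; linarith
      · intro h; constructor <;> linarith
    rw [h2] at h1
    have h3 : ((univ.filter fun x => 1 / 2 + ((j : ℝ) + 1) * τ < F x ∧
      F x ≤ 1 / 2 + ((j : ℝ) + 1) * τ + τ).card : ℝ) + G (j + 1) = G j := by
      show _ + ((univ.filter fun x => 1 / 2 + (((j + 1 : ℕ) : ℝ) + 1) * τ < F x).card : ℝ) =
        ((univ.filter fun x => 1 / 2 + ((j : ℝ) + 1) * τ < F x).card : ℝ)
      exact_mod_cast h1
    linarith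
  have hG0 : G 0 ≤ 2 * ∑ x, F x := by
    have h1 : G 0 * (1 / 2) ≤ ∑ x, F x := by
      calc G 0 * (1 / 2) = ∑ x ∈ univ.filter fun x => 1 / 2 + (((0 : ℕ) : ℝ) + 1) * τ < F x,
            (1 / 2 : ℝ) := by rw [Finset.sum_const, nsmul_eq_mul]
        _ ≤ ∑ x ∈ univ.filter fun x => 1 / 2 + (((0 : ℕ) : ℝ) + 1) * τ < F x, F x := by
            apply Finset.sum_le_sum
            intro x hx
            have := (Finset.mem_filter.mp hx).2
            push_cast at this
            linarith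
        _ ≤ ∑ x, F x :=
            Finset.sum_le_sum_of_subset_of_nonneg (Finset.subset_univ _) fun x _ _ => hF x
    linarith
  have hex : ∃ j ∈ range J, G j - G (j + 1) ≤ 2 * (∑ x, F x) / J := by
    by_contra hcon
    push Not at hcon
    have h1 : ∑ j ∈ range J, (2 * (∑ x, F x) / J) < ∑ j ∈ range J, (G j - G (j + 1)) :=
      Finset.sum_lt_sum_of_nonempty (Finset.nonempty_range_iff.mpr hJ.ne') hcon
    rw [Finset.sum_const, Finset.card_range, nsmul_eq_mul, Finset.sum_range_sub'] at h1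
    have h2 : (J : ℝ) * (2 * (∑ x, F x) / J) = 2 * ∑ x, F x := by field_simp
    have h3 : 0 ≤ G J := Nat.cast_nonneg _
    rw [h2] at h1
    linarith
  obtain ⟨j, hj, hle⟩ := hex
  refine ⟨1 / 2 + ((j : ℝ) + 1) * τ, ?_, ?_, ?_⟩
  · have : 0 < ((j : ℝ) + 1) * τ := by positivity
    linarith
  · have h1 : (j : ℝ) + 1 ≤ J := by exact_mod_cast Finset.mem_range.mp hj
    have h2 : ((j : ℝ) + 1) * τ ≤ ((J : ℝ) + 1) * τ :=
      mul_le_mul_of_nonneg_right (by linarith) hτ0.le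
    have h3 : ((J : ℝ) + 1) * τ = 1 / 4 := by rw [hτ]; field_simp
    linarith
  · rw [hG]; exact hle

end many

end ILCore

set_option maxHeartbeats 4000000

open ILCore in
/-- TARGET -/
theorem il_core {ι : Type} [Fintype ι] [Nonempty ι] {p D : ℕ} (hp : p.Prime) (hD : D ^ 2 < p)
    {nc : ι → ι → Prop} (hsymm : ∀ i j, nc i j → nc j i) (hirr : ∀ i, ¬ nc i i)
    (hdeg : ∀ i, (univ.filter fun j => nc i j).card ≤ D) :
    ∃ C : ℝ, 0 < C ∧ ∀ δ : ℝ, 0 < δ → ∃ β : ℝ, 0 < β ∧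
      ∀ (X : Type) [Fintype X] (σ : ι → Equiv.Perm X) (B : Finset X), IsTAct p nc σ B →
      ∀ Y : Finset X,
        (∀ k : ℕ, ∑ x ∈ B, ((MM p σ)^[k] (fun x => if x ∈ Y then 1 else 0)) x ≤ β * Y.card) →
        ∃ k : ℕ, ∃ θ : ℝ, 1 / 2 < θ ∧
          ((bd σ (univ.filter fun x =>
              θ < ((MM p σ)^[k] (fun x => if x ∈ Y then 1 else 0)) x) : ℕ) : ℝ) ≤ δ * Y.card ∧
          ((Y.filter fun x =>
              ((MM p σ)^[k] (fun x => if x ∈ Y then 1 else 0)) x ≤ θ).card : ℝ) ≤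
            C * bd σ Y + δ * Y.card := by
  have hp0 : 0 < p := hp.pos
  have hpR : (0 : ℝ) < p := by exact_mod_cast hp0
  set N : ℝ := (Fintype.card ι : ℝ) with hNdef
  have hN1 : 1 ≤ N := by
    have : 0 < Fintype.card ι := Fintype.card_pos
    rw [hNdef]; exact_mod_cast this
  have hN0 : 0 < N := by linarith
  set κ : ℝ := 1 - D / Real.sqrt p with hκdef
  have hsq : (0 : ℝ) < Real.sqrt p := Real.sqrt_pos.mpr hpR
  have hκ0 : 0 < κ := by
    rw [hκdef, sub_pos, div_lt_one hsq]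
    apply Real.lt_sqrt_of_sq_lt
    exact_mod_cast hD
  have hκ1 : κ ≤ 1 := by
    rw [hκdef]
    have : (0 : ℝ) ≤ D / Real.sqrt p := by positivity
    linarith
  set q : ℝ := 1 - κ / N with hqdef
  set ρ : ℝ := 1 - κ / (2 * N) with hρdef
  have hκN : κ / N ≤ 1 := by rw [div_le_one hN0]; linarith
  have hκN0 : 0 < κ / N := by positivity
  have hq0 : 0 ≤ q := by rw [hqdef]; linarith
  have hq1 : q < 1 := by rw [hqdef]; linarith
  have hκN2 : κ / (2 * N) = κ / N / 2 := by field_simp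
  have hρ0 : 0 < ρ := by rw [hρdef, hκN2]; linarith
  have hρ1 : ρ < 1 := by rw [hρdef, hκN2]; linarith
  have hqρ : q ≤ ρ ^ 2 := by
    rw [hqdef, hρdef, hκN2]
    nlinarith [sq_nonneg (κ / N)]
  have h1ρ : 0 < 1 - ρ := by linarith
  set S : ℝ := 1 / (1 - ρ) with hSdef
  have hS0 : 0 < S := by positivity
  refine ⟨16 * S ^ 2 / N * (2 * p), by positivity, fun δ hδ => ?_⟩
  -- choice of `J`, `k`
  obtain ⟨J, hJ⟩ := exists_nat_ge (4 * N / δ)
  have hJ0' : (0 : ℝ) < J := lt_of_lt_of_le (by positivity) hJ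
  have hJ0 : 0 < J := by exact_mod_cast hJ0'
  set τ : ℝ := 1 / (4 * ((J : ℝ) + 1)) with hτdef
  have hτ0 : 0 < τ := by positivity
  obtain ⟨k, hk⟩ := exists_pow_lt_of_lt_one
    (show 0 < δ / 4 * (τ ^ 2 / (4 * N)) by positivity) hq1
  set R : ℝ := ∑ j ∈ range k, (N ^ 2 / κ / N) / ρ ^ j with hRdef
  have hR0 : 0 ≤ R := Finset.sum_nonneg fun j _ => by positivity
  set β : ℝ := min (δ / 4 * (τ ^ 2 / 4) / (N ^ 2 / κ)) (δ / (16 * S * (R + 1))) with hβdef
  have hβ0 : 0 < β := lt_min (by positivity) (by positivity)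
  have hβ1 : β * (N ^ 2 / κ) ≤ δ / 4 * (τ ^ 2 / 4) := by
    have : β ≤ δ / 4 * (τ ^ 2 / 4) / (N ^ 2 / κ) := min_le_left _ _
    rwa [le_div_iff₀ (by positivity)] at this
  have hβ2 : β * (16 * S * R) ≤ δ := by
    have : β ≤ δ / (16 * S * (R + 1)) := min_le_right _ _
    rw [le_div_iff₀ (by positivity)] at this
    have h2 : β * (16 * S * R) ≤ β * (16 * S * (R + 1)) := by
      apply mul_le_mul_of_nonneg_left _ hβ0.le
      apply mul_le_mul_of_nonneg_left _ (by positivity)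
      linarith
    linarith
  refine ⟨β, hβ0, ?_⟩
  intro X _ σ B hact Y hB
  set F : X → ℝ := fun x => if x ∈ Y then 1 else 0 with hFdef
  have hF0 : ∀ x, 0 ≤ F x := by intro x; simp only [hFdef]; split_ifs <;> norm_num
  have hF1 : ∀ x, F x ≤ 1 := by intro x; simp only [hFdef]; split_ifs <;> norm_num
  have hFsum : ∑ x, F x = Y.card := by
    simp only [hFdef]
    rw [← Finset.sum_filter, Finset.sum_const, nsmul_eq_mul, mul_one]
    congr 2
    ext x; simp
  have hFsq : ∑ x, F x ^ 2 = Y.card := by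
    rw [← hFsum]
    apply Finset.sum_congr rfl
    intro x _
    simp only [hFdef]; split_ifs <;> norm_num
  have hσ := hact.pow
  have hT : ∀ f : X → ℝ, κ * En p σ f - N ^ 2 * ∑ x ∈ B, f x ^ 2 ≤ ∑ x, Dl p σ f x ^ 2 :=
    fun f => T_ineq hp hsymm hirr hdeg hact f
  have hEn : ∀ m : ℕ, En p σ ((MM p σ)^[m] F) ≤ q ^ m * En p σ F + N ^ 2 / κ * (β * Y.card) :=
    fun m => En_iter hp0 hσ F hF0 hF1 B κ (β * Y.card) hκ0 hκ1 hB hT m
  obtain ⟨g0, -, gsum⟩ := iter_props (σ := σ) hp0 F hF0 hF1 k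
  obtain ⟨θ, hθ1, hθ2, hθ3⟩ := threshold ((MM p σ)^[k] F) g0 J hJ0
  rw [gsum, hFsum, ← hτdef] at hθ3
  have hEF1 : En p σ F ≤ N * Y.card := by
    have := En_le hp0 hσ F
    rwa [hFsq] at this
  have hEF2 : En p σ F ≤ 2 * p * bd σ Y := by
    unfold En bd
    rw [Nat.cast_sum, Finset.mul_sum]
    exact Finset.sum_le_sum fun i _ => lap_indicator hp0 Y F (fun x => rfl)
  have hY0 : (0 : ℝ) ≤ Y.card := Nat.cast_nonneg _
  refine ⟨k, θ, hθ1, ?_, ?_⟩
  · have h1 := bd_level hσ ((MM p σ)^[k] F) θ τ hτ0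
    refine h1.trans ?_
    rw [← hNdef]
    have h2 : N * ((univ.filter fun x => θ < ((MM p σ)^[k] F) x ∧
        ((MM p σ)^[k] F) x ≤ θ + τ).card : ℝ) ≤ δ / 2 * Y.card := by
      calc N * ((univ.filter fun x => θ < ((MM p σ)^[k] F) x ∧
          ((MM p σ)^[k] F) x ≤ θ + τ).card : ℝ) ≤ N * (2 * Y.card / J) :=
            mul_le_mul_of_nonneg_left hθ3 hN0.le
        _ = (2 * N / J) * Y.card := by ring
        _ ≤ δ / 2 * Y.card := by
            apply mul_le_mul_of_nonneg_right _ hY0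
            rw [div_le_iff₀ hδ] at hJ
            rw [div_le_div_iff₀ hJ0' (by norm_num)]
            linarith
    have h3 : 4 * En p σ ((MM p σ)^[k] F) / τ ^ 2 ≤ δ / 2 * Y.card := by
      rw [div_le_iff₀ (by positivity)]
      have h4 : q ^ k * En p σ F ≤ δ / 4 * (τ ^ 2 / 4) * Y.card := by
        calc q ^ k * En p σ F ≤ (δ / 4 * (τ ^ 2 / (4 * N))) * (N * Y.card) :=
              mul_le_mul hk.le hEF1 (En_nonneg F) (by positivity)
          _ = δ / 4 * (τ ^ 2 / 4) * Y.card := by field_simp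
      have h5 : N ^ 2 / κ * (β * Y.card) ≤ δ / 4 * (τ ^ 2 / 4) * Y.card := by
        calc N ^ 2 / κ * (β * Y.card) = (β * (N ^ 2 / κ)) * Y.card := by ring
          _ ≤ δ / 4 * (τ ^ 2 / 4) * Y.card := mul_le_mul_of_nonneg_right hβ1 hY0
      have h6 := hEn k
      calc 4 * En p σ ((MM p σ)^[k] F) ≤
          4 * (δ / 4 * (τ ^ 2 / 4) * Y.card + δ / 4 * (τ ^ 2 / 4) * Y.card) := by linarith
        _ = δ / 2 * Y.card * τ ^ 2 := by ring
    linarith
  · -- the points of `Y` below the threshold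
    have h1 : ((Y.filter fun x => ((MM p σ)^[k] F) x ≤ θ).card : ℝ) ≤
        16 * ∑ x, (((MM p σ)^[k] F) x - F x) ^ 2 := by
      have h2 : ((Y.filter fun x => ((MM p σ)^[k] F) x ≤ θ).card : ℝ) * (1 / 16) ≤
          ∑ x, (((MM p σ)^[k] F) x - F x) ^ 2 := by
        calc ((Y.filter fun x => ((MM p σ)^[k] F) x ≤ θ).card : ℝ) * (1 / 16) =
            ∑ x ∈ Y.filter fun x => ((MM p σ)^[k] F) x ≤ θ, (1 / 16 : ℝ) := by
              rw [Finset.sum_const, nsmul_eq_mul]
          _ ≤ ∑ x ∈ Y.filter fun x => ((MM p σ)^[k] F) x ≤ θ,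
              (((MM p σ)^[k] F) x - F x) ^ 2 := by
              apply Finset.sum_le_sum
              intro x hx
              obtain ⟨hx1, hx2⟩ := Finset.mem_filter.mp hx
              have e : F x = 1 := by simp only [hFdef]; rw [if_pos hx1]
              rw [e]
              nlinarith
          _ ≤ ∑ x, (((MM p σ)^[k] F) x - F x) ^ 2 :=
              Finset.sum_le_sum_of_subset_of_nonneg (Finset.subset_univ _)
                fun x _ _ => sq_nonneg _
      linarith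
    have h2 := iter_dist (p := p) (σ := σ) F k ρ hρ0 hρ1
    rw [← hNdef, ← hSdef] at h2
    have h3 : ∑ j ∈ range k, (En p σ ((MM p σ)^[j] F) / N) / ρ ^ j ≤
        S * (En p σ F / N) + R * (β * Y.card) := by
      calc ∑ j ∈ range k, (En p σ ((MM p σ)^[j] F) / N) / ρ ^ j ≤
          ∑ j ∈ range k, (ρ ^ j * (En p σ F / N) + (N ^ 2 / κ / N) / ρ ^ j * (β * Y.card)) := by
            apply Finset.sum_le_sum
            intro j _
            have hρj : 0 < ρ ^ j := pow_pos hρ0 j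
            rw [div_le_iff₀ hρj, div_le_iff₀ hN0]
            have h4 := hEn j
            have h5 : q ^ j ≤ ρ ^ j * ρ ^ j := by
              rw [← mul_pow, ← sq]
              exact pow_le_pow_left₀ hq0 hqρ j
            have h6 : q ^ j * En p σ F ≤ ρ ^ j * ρ ^ j * En p σ F :=
              mul_le_mul_of_nonneg_right h5 (En_nonneg F)
            have e : (ρ ^ j * (En p σ F / N) + (N ^ 2 / κ / N) / ρ ^ j * (β * Y.card)) *
                ρ ^ j * N = ρ ^ j * ρ ^ j * En p σ F + N ^ 2 / κ * (β * Y.card) := by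
              field_simp
            rw [e]
            linarith
        _ = (∑ j ∈ range k, ρ ^ j) * (En p σ F / N) + R * (β * Y.card) := by
            rw [Finset.sum_add_distrib, ← Finset.sum_mul, ← Finset.sum_mul]
        _ ≤ S * (En p σ F / N) + R * (β * Y.card) := by
            have hgeom : ∑ j ∈ range k, ρ ^ j ≤ S := by
              rw [hSdef, geom_sum_eq hρ1.ne, le_div_iff₀ h1ρ]
              have : (ρ ^ k - 1) / (ρ - 1) * (1 - ρ) = 1 - ρ ^ k := by
                have : ρ - 1 ≠ 0 := by linarith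
                field_simp
                ring
              rw [this]
              have := pow_pos hρ0 k
              linarith
            have : 0 ≤ En p σ F / N := div_nonneg (En_nonneg F) hN0.le
            have := mul_le_mul_of_nonneg_right hgeom this
            linarith
    have h4 : S * (∑ j ∈ range k, (En p σ ((MM p σ)^[j] F) / N) / ρ ^ j) ≤
        S * (S * (En p σ F / N) + R * (β * Y.card)) := mul_le_mul_of_nonneg_left h3 hS0.le
    have h5 : 16 * (S * (S * (En p σ F / N))) ≤ 16 * S ^ 2 / N * (2 * p) * bd σ Y := by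
      calc 16 * (S * (S * (En p σ F / N))) = 16 * S ^ 2 / N * En p σ F := by ring
        _ ≤ 16 * S ^ 2 / N * (2 * p * bd σ Y) :=
            mul_le_mul_of_nonneg_left hEF2 (by positivity)
        _ = 16 * S ^ 2 / N * (2 * p) * bd σ Y := by ring
    have h6 : 16 * (S * (R * (β * Y.card))) ≤ δ * Y.card := by
      calc 16 * (S * (R * (β * Y.card))) = (β * (16 * S * R)) * Y.card := by ring
        _ ≤ δ * Y.card := mul_le_mul_of_nonneg_right hβ2 hY0
    calc ((Y.filter fun x => ((MM p σ)^[k] F) x ≤ θ).card : ℝ) ≤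
        16 * ∑ x, (((MM p σ)^[k] F) x - F x) ^ 2 := h1
      _ ≤ 16 * (S * (S * (En p σ F / N) + R * (β * Y.card))) := by
          have := h2.trans h4
          linarith
      _ = 16 * (S * (S * (En p σ F / N))) + 16 * (S * (R * (β * Y.card))) := by ring
      _ ≤ 16 * S ^ 2 / N * (2 * p) * bd σ Y + δ * Y.card := by linarith

end Helper418
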