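import Pool.Agent.Helper418_Sofic.ILCore
import Pool.Agent.Helper418_Sofic.Defs

open Filter Topology Finset
open scoped Classical

namespace Helper418

/-! GIVEN (proved elsewhere) -/

namespace ILGraph

theorem bd_dec {X : Type} [Fintype X] {ι : Type} [Fintype ι] [DecidableEq X]
    (σ : ι → Equiv.Perm X) (W : Finset X) :
    bd σ W = ∑ i, (W.filter fun x => σ i x ∉ W).card := by
  unfold bd
  refine Finset.sum_congr rfl fun i _ => ?_
  congr!

theorem core' {ι : Type} [Fintype ι] [Nonempty ι] {p D : ℕ} (hp : p.Prime) (hD : D ^ 2 < p)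
    {nc : ι → ι → Prop} (hsymm : ∀ i j, nc i j → nc j i) (hirr : ∀ i, ¬ nc i i)
    (hdeg : ∀ i, (univ.filter fun j => nc i j).card ≤ D) :
    ∃ C : ℝ, 0 < C ∧ ∀ δ : ℝ, 0 < δ → ∃ β : ℝ, 0 < β ∧
      ∀ (X : Type) [Fintype X] (σ : ι → Equiv.Perm X) (B : Finset X), IsTAct p nc σ B →
      ∀ (Y : Finset X) (F : X → ℝ), (∀ x ∈ Y, F x = 1) → (∀ x, x ∉ Y → F x = 0) →
        (∀ k : ℕ, ∑ x ∈ B, ((MM p σ)^[k] F) x ≤ β * Y.card) →
        ∃ k : ℕ, ∃ θ : ℝ, 1 / 2 < θ ∧ ∃ T : Finset X, (∀ x, x ∈ T ↔ θ < ((MM p σ)^[k] F) x) ∧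
          ((bd σ T : ℕ) : ℝ) ≤ δ * Y.card ∧
          ∃ N : Finset X, (∀ x, x ∈ N ↔ x ∈ Y ∧ ((MM p σ)^[k] F) x ≤ θ) ∧
          (N.card : ℝ) ≤ C * bd σ Y + δ * Y.card := by
  obtain ⟨C, hC, h⟩ := il_core hp hD hsymm hirr hdeg
  refine ⟨C, hC, fun δ hδ => ?_⟩
  obtain ⟨β, hβ, h⟩ := h δ hδ
  refine ⟨β, hβ, ?_⟩
  intro X _ σ B hB Y F h1 h0 hk
  have hF : F = fun x => if x ∈ Y then 1 else 0 := by
    funext x
    by_cases hx : x ∈ Y
    · rw [if_pos hx, h1 x hx]
    · rw [if_neg hx, h0 x hx]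
  subst hF
  obtain ⟨k, θ, hθ, hb, hN⟩ := h X σ B hB Y hk
  exact ⟨k, θ, hθ, _, fun x => by rw [mem_filter]; simp, hb, _, fun x => by rw [mem_filter], hN⟩

/-- nonnegative with row and column sums one -/
def DS {V : Type} [Fintype V] (F : V × V → ℝ) : Prop :=
  (∀ x, 0 ≤ F x) ∧ (∀ a, ∑ b, F (a, b) = 1) ∧ ∀ b, ∑ a, F (a, b) = 1

/-- diagonal action -/
def dg {V : Type} (σ : Equiv.Perm V) : Equiv.Perm (V × V) := Equiv.prodCongr σ σ

theorem dg_apply {V : Type} (σ : Equiv.Perm V) (x : V × V) : dg σ x = (σ x.1, σ x.2) := rfl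

theorem dg_pow {V : Type} (σ : Equiv.Perm V) (j : ℕ) (x : V × V) :
    (dg σ ^ j) x = ((σ ^ j) x.1, (σ ^ j) x.2) := by
  induction j with
  | zero => rfl
  | succ j ih =>
    rw [pow_succ', pow_succ', Equiv.Perm.mul_apply, ih, dg_apply]
    rfl

theorem dg_cm {V : Type} (σ τ : Equiv.Perm V) (x : V × V) :
    cm (dg σ) (dg τ) x = (cm σ τ x.1, cm σ τ x.2) := rfl

theorem ds_avg {V : Type} [Fintype V] {p : ℕ} (hp : 0 < p) (σ : Equiv.Perm V) {F : V × V → ℝ}
    (h : DS F) : DS (avg p (dg σ) F) := by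
  obtain ⟨h0, h1, h2⟩ := h
  have hp' : (0 : ℝ) < p := by exact_mod_cast hp
  refine ⟨fun x => ?_, fun a => ?_, fun b => ?_⟩
  · unfold avg
    exact div_nonneg (Finset.sum_nonneg fun j _ => h0 _) hp'.le
  · unfold avg
    rw [← Finset.sum_div, Finset.sum_comm]
    have : ∀ j ∈ range p, ∑ b : V, F ((dg σ ^ j) (a, b)) = 1 := by
      intro j _
      simp only [dg_pow]
      rw [← h1 ((σ ^ j) a)]
      exact Equiv.sum_comp (σ ^ j) (fun b => F ((σ ^ j) a, b))
    rw [Finset.sum_congr rfl this]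
    simp only [sum_const, card_range, nsmul_eq_mul, mul_one]
    exact div_self hp'.ne'
  · unfold avg
    rw [← Finset.sum_div, Finset.sum_comm]
    have : ∀ j ∈ range p, ∑ a : V, F ((dg σ ^ j) (a, b)) = 1 := by
      intro j _
      simp only [dg_pow]
      rw [← h2 ((σ ^ j) b)]
      exact Equiv.sum_comp (σ ^ j) (fun a => F (a, (σ ^ j) b))
    rw [Finset.sum_congr rfl this]
    simp only [sum_const, card_range, nsmul_eq_mul, mul_one]
    exact div_self hp'.ne'

theorem ds_MM {V ι : Type} [Fintype V] [Fintype ι] [Nonempty ι] {p : ℕ} (hp : 0 < p)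
    (σ : ι → Equiv.Perm V) {F : V × V → ℝ} (h : DS F) : DS (MM p (fun i => dg (σ i)) F) := by
  have hι : (0 : ℝ) < Fintype.card ι := by exact_mod_cast Fintype.card_pos
  have hi := fun i => ds_avg hp (σ i) h
  refine ⟨fun x => ?_, fun a => ?_, fun b => ?_⟩
  · unfold MM
    exact div_nonneg (Finset.sum_nonneg fun i _ => (hi i).1 _) hι.le
  · unfold MM
    rw [← Finset.sum_div, Finset.sum_comm, Finset.sum_congr rfl (fun i _ => (hi i).2.1 a)]
    simp only [sum_const, card_univ, nsmul_eq_mul, mul_one]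
    exact div_self hι.ne'
  · unfold MM
    rw [← Finset.sum_div, Finset.sum_comm, Finset.sum_congr rfl (fun i _ => (hi i).2.2 b)]
    simp only [sum_const, card_univ, nsmul_eq_mul, mul_one]
    exact div_self hι.ne'

theorem ds_iter {V ι : Type} [Fintype V] [Fintype ι] [Nonempty ι] {p : ℕ} (hp : 0 < p)
    (σ : ι → Equiv.Perm V) {F : V × V → ℝ} (h : DS F) (k : ℕ) :
    DS ((MM p (fun i => dg (σ i)))^[k] F) := by
  induction k with
  | zero => exact h
  | succ k ih =>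
    rw [Function.iterate_succ_apply']
    exact ds_MM hp σ ih

/-- the bad set of the product -/
noncomputable def bad {V : Type} [Fintype V] (B : Finset V) : Finset (V × V) :=
  univ.filter fun x => x.1 ∈ B ∨ x.2 ∈ B

theorem tact {V ι : Type} [Fintype V] [Fintype ι] {p : ℕ} {nc : ι → ι → Prop}
    {σ : ι → Equiv.Perm V} {B : Finset V} (h : IsTAct p nc σ B) :
    IsTAct p nc (fun i => dg (σ i)) (bad B) := by
  have hmem : ∀ (Y : Finset V), (∀ x, x ∉ B → x ∈ Y) →
      ∀ x : V × V, x ∉ bad B → x ∈ Y ×ˢ Y := by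
    intro Y hY x hx
    unfold bad at hx
    rw [mem_filter] at hx
    push Not at hx
    have := hx (mem_univ _)
    rw [mem_product]
    exact ⟨hY _ this.1, hY _ this.2⟩
  refine ⟨fun i => ?_, fun i j hij hn => ?_, fun i j hn => ?_⟩
  · ext x
    · rw [dg_pow, h.pow i]; rfl
    · rw [dg_pow, h.pow i]; rfl
  · obtain ⟨Y, h1, h2, h3, h4⟩ := h.comm i j hij hn
    refine ⟨Y ×ˢ Y, hmem Y h1, fun x hx => ?_, fun x hx => ?_, fun x hx => ?_⟩
    · rw [mem_product] at hx ⊢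
      exact ⟨h2 _ hx.1, h2 _ hx.2⟩
    · rw [mem_product] at hx ⊢
      exact ⟨h3 _ hx.1, h3 _ hx.2⟩
    · rw [mem_product] at hx
      simp only [dg_apply]
      rw [h4 _ hx.1, h4 _ hx.2]
  · obtain ⟨Y, h1, h2, h3, h4, h5⟩ := h.heis i j hn
    refine ⟨Y ×ˢ Y, hmem Y h1, fun x hx => ?_, fun x hx => ?_, fun x hx => ?_, fun x hx => ?_⟩
    · rw [mem_product] at hx ⊢
      exact ⟨h2 _ hx.1, h2 _ hx.2⟩
    · rw [mem_product] at hx ⊢
      exact ⟨h3 _ hx.1, h3 _ hx.2⟩
    · rw [mem_product] at hx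
      simp only [dg_apply, dg_cm]
      rw [h4 _ hx.1, h4 _ hx.2]
    · rw [mem_product] at hx
      simp only [dg_apply, dg_cm]
      rw [h5 _ hx.1, h5 _ hx.2]

theorem sum_bad {V : Type} [Fintype V] (B : Finset V) {F : V × V → ℝ} (h : DS F) :
    ∑ x ∈ bad B, F x ≤ 2 * B.card := by
  obtain ⟨h0, h1, h2⟩ := h
  have e1 : ∑ x ∈ (B ×ˢ (univ : Finset V)), F x = B.card := by
    rw [Finset.sum_product, Finset.sum_congr rfl (fun a _ => h1 a)]
    simp
  have e2 : ∑ x ∈ ((univ : Finset V) ×ˢ B), F x = B.card := by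
    rw [Finset.sum_product_right, Finset.sum_congr rfl (fun a _ => h2 a)]
    simp
  have hsub : ∑ x ∈ bad B, F x ≤
      ∑ x ∈ ((B ×ˢ (univ : Finset V)) ∪ ((univ : Finset V) ×ˢ B)), F x := by
    apply Finset.sum_le_sum_of_subset_of_nonneg
    · intro x hx
      unfold bad at hx
      rw [mem_filter] at hx
      rw [mem_union, mem_product, mem_product]
      rcases hx.2 with h | h
      · exact Or.inl ⟨h, mem_univ _⟩
      · exact Or.inr ⟨mem_univ _, h⟩
    · intro x _ _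
      exact h0 x
  have e3 := Finset.sum_union_inter (f := F) (s₁ := B ×ˢ (univ : Finset V))
    (s₂ := (univ : Finset V) ×ˢ B)
  have e4 : 0 ≤ ∑ x ∈ ((B ×ˢ (univ : Finset V)) ∩ ((univ : Finset V) ×ˢ B)), F x :=
    Finset.sum_nonneg fun x _ => h0 x
  rw [e1, e2] at e3
  linarith

end ILGraph

/-- TARGET -/
theorem il_graph {ι : Type} [Fintype ι] [Nonempty ι] {p D : ℕ} (hp : p.Prime)
    (hD : D ^ 2 < p)
    {nc : ι → ι → Prop} (hsymm : ∀ i j, nc i j → nc j i) (hirr : ∀ i, ¬ nc i i)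
    (hdeg : ∀ i, (univ.filter fun j => nc i j).card ≤ D) :
    ∃ C : ℝ, 0 < C ∧ ∀ δ : ℝ, 0 < δ → ∃ β : ℝ, 0 < β ∧
      ∀ (V : Type) [Fintype V] (σ : ι → Equiv.Perm V) (B : Finset V), IsTAct p nc σ B →
      (B.card : ℝ) ≤ β * Fintype.card V → ∀ θ : Equiv.Perm V, ∃ T : Finset (V × V),
        (∀ a b b', (a, b) ∈ T → (a, b') ∈ T → b = b') ∧
        (∀ a a' b, (a, b) ∈ T → (a', b) ∈ T → a = a') ∧
        ((∑ i, (T.filter fun x => (σ i x.1, σ i x.2) ∉ T).card : ℕ) : ℝ) ≤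
          δ * Fintype.card V ∧
        ((univ.filter fun a => (a, θ a) ∉ T).card : ℝ) ≤
          C * ((∑ i, (univ.filter fun a => θ (σ i a) ≠ σ i (θ a)).card : ℕ) : ℝ)
            + δ * Fintype.card V := by
  obtain ⟨C, hC, h⟩ := ILGraph.core' hp hD hsymm hirr hdeg
  refine ⟨C, hC, fun δ hδ => ?_⟩
  obtain ⟨β, hβ, h⟩ := h δ hδ
  refine ⟨β / 2, by positivity, ?_⟩
  intro V _ σ B hB hcard θ
  -- the graph
  obtain ⟨Y, hY⟩ : ∃ Y : Finset (V × V), ∀ x, x ∈ Y ↔ θ x.1 = x.2 :=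
    ⟨univ.filter fun x => θ x.1 = x.2, fun x => by simp⟩
  obtain ⟨F, hF1, hF0⟩ : ∃ F : V × V → ℝ, (∀ x ∈ Y, F x = 1) ∧ (∀ x, x ∉ Y → F x = 0) :=
    ⟨fun x => if x ∈ Y then 1 else 0, fun x hx => if_pos hx, fun x hx => if_neg hx⟩
  have hinj : Function.Injective (fun a : V => (a, θ a)) := fun a b hab => (Prod.ext_iff.1 hab).1
  have hYmap : Y = univ.map ⟨fun a : V => (a, θ a), hinj⟩ := by
    ext x
    rw [hY]
    simp only [Finset.mem_map, mem_univ, true_and, Function.Embedding.coeFn_mk]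
    constructor
    · intro hx
      exact ⟨x.1, Prod.ext rfl hx⟩
    · rintro ⟨a, rfl⟩
      rfl
  have hYcard : Y.card = Fintype.card V := by
    rw [hYmap, card_map, card_univ]
  have hDS : ILGraph.DS F := by
    refine ⟨fun x => ?_, fun a => ?_, fun b => ?_⟩
    · by_cases hx : x ∈ Y
      · rw [hF1 x hx]; norm_num
      · rw [hF0 x hx]
    · rw [Finset.sum_eq_single (θ a)]
      · exact hF1 _ ((hY _).2 rfl)
      · intro b _ hb
        exact hF0 _ (fun hx => hb ((hY _).1 hx).symm)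
      · intro hcon
        exact absurd (mem_univ _) hcon
    · rw [Finset.sum_eq_single (θ.symm b)]
      · exact hF1 _ ((hY _).2 (θ.apply_symm_apply b))
      · intro a _ ha
        refine hF0 _ (fun hx => ha ?_)
        have : θ a = b := (hY _).1 hx
        rw [← this, θ.symm_apply_apply]
      · intro hcon
        exact absurd (mem_univ _) hcon
  have hp0 : 0 < p := hp.pos
  have hit := fun k => ILGraph.ds_iter hp0 σ hDS k
  obtain ⟨k, θ', hθ', T, hT, hbd, N, hN, hNc⟩ := h (V × V) (fun i => ILGraph.dg (σ i))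
    (ILGraph.bad B) (ILGraph.tact hB) Y F hF1 hF0 (by
      intro k
      refine (ILGraph.sum_bad B (hit k)).trans ?_
      rw [hYcard]
      linarith)
  obtain ⟨h0, h1, h2⟩ := hit k
  rw [hYcard] at hbd hNc
  refine ⟨T, ?_, ?_, ?_, ?_⟩
  · intro a b b' hb hb'
    by_contra hne
    rw [hT] at hb hb'
    have h3 : ∑ x ∈ ({b, b'} : Finset V), ((MM p (fun i => ILGraph.dg (σ i)))^[k] F) (a, x) ≤
        ∑ x : V, ((MM p (fun i => ILGraph.dg (σ i)))^[k] F) (a, x) :=
      Finset.sum_le_sum_of_subset_of_nonneg (subset_univ _) (fun x _ _ => h0 _)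
    rw [Finset.sum_pair hne, h1 a] at h3
    linarith
  · intro a a' b ha ha'
    by_contra hne
    rw [hT] at ha ha'
    have h3 : ∑ x ∈ ({a, a'} : Finset V), ((MM p (fun i => ILGraph.dg (σ i)))^[k] F) (x, b) ≤
        ∑ x : V, ((MM p (fun i => ILGraph.dg (σ i)))^[k] F) (x, b) :=
      Finset.sum_le_sum_of_subset_of_nonneg (subset_univ _) (fun x _ _ => h0 _)
    rw [Finset.sum_pair hne, h2 b] at h3
    linarith
  · have e : (∑ i, (T.filter fun x => (σ i x.1, σ i x.2) ∉ T).card : ℕ) =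
        bd (fun i => ILGraph.dg (σ i)) T := by
      rw [ILGraph.bd_dec]
      rfl
    rw [e]
    exact hbd
  · have e1 : (univ.filter fun a => (a, θ a) ∉ T).card = N.card := by
      rw [← card_map ⟨fun a : V => (a, θ a), hinj⟩]
      congr 1
      ext x
      rw [hN, hY]
      simp only [Finset.mem_map, mem_filter, mem_univ, true_and, Function.Embedding.coeFn_mk]
      constructor
      · rintro ⟨a, ha, rfl⟩
        refine ⟨rfl, ?_⟩
        rw [hT] at ha
        exact not_lt.1 ha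
      · rintro ⟨h3, h4⟩
        refine ⟨x.1, ?_, Prod.ext rfl h3⟩
        rw [hT, h3]
        exact not_lt.2 h4
    have e2 : bd (fun i => ILGraph.dg (σ i)) Y =
        (∑ i, (univ.filter fun a => θ (σ i a) ≠ σ i (θ a)).card : ℕ) := by
      rw [ILGraph.bd_dec]
      refine Finset.sum_congr rfl fun i _ => ?_
      rw [← card_map ⟨fun a : V => (a, θ a), hinj⟩]
      congr 1
      ext x
      simp only [Finset.mem_map, mem_filter, mem_univ, true_and, Function.Embedding.coeFn_mk]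
      constructor
      · rintro ⟨h3, h4⟩
        rw [hY] at h3 h4
        refine ⟨x.1, ?_, Prod.ext rfl h3⟩
        rw [h3]
        exact h4
      · rintro ⟨a, ha, rfl⟩
        rw [hY, hY]
        exact ⟨rfl, ha⟩
    rw [e1, ← e2]
    exact hNc

end Helper418
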