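import Pool.Agent.Helper418_Sofic.ILCore
import Pool.Agent.Helper418_Sofic.Defs

open Filter Topology Finset
open scoped Classical

namespace Helper418

/-! GIVEN (proved elsewhere) -/

end Helper418

namespace Helper418.ILPart

open Helper418

/-- the action on the first coordinate -/
def ext {X I : Type} (τ : Equiv.Perm X) : Equiv.Perm (X × I) := τ.prodCongr (Equiv.refl I)

theorem ext_apply {X I : Type} (τ : Equiv.Perm X) (x : X) (a : I) :
    ext (I := I) τ (x, a) = (τ x, a) := rfl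

theorem ext_inv_apply {X I : Type} (τ : Equiv.Perm X) (x : X) (a : I) :
    (ext (I := I) τ)⁻¹ (x, a) = (τ⁻¹ x, a) := rfl

theorem ext_pow_apply {X I : Type} (τ : Equiv.Perm X) (j : ℕ) (x : X) (a : I) :
    ((ext (I := I) τ) ^ j) (x, a) = ((τ ^ j) x, a) := by
  induction j generalizing x with
  | zero => rfl
  | succ j ih => rw [pow_succ, pow_succ, Equiv.Perm.mul_apply, Equiv.Perm.mul_apply, ext_apply, ih]

theorem ext_cm_apply {X I : Type} (τ ρ : Equiv.Perm X) (x : X) (a : I) :
    (cm (ext (I := I) τ) (ext ρ)) (x, a) = (cm τ ρ x, a) := rfl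

theorem ext_isTAct {ι : Type} [Fintype ι] {p : ℕ} {nc : ι → ι → Prop} {X I : Type} [Fintype X]
    [Fintype I] {σ : ι → Equiv.Perm X} {B : Finset X} (h : IsTAct p nc σ B) :
    IsTAct p nc (fun i => ext (I := I) (σ i)) (B ×ˢ (univ : Finset I)) := by
  refine ⟨fun i => ?_, fun i j hij hnc => ?_, fun i j hnc => ?_⟩
  · refine Equiv.ext fun q => ?_
    obtain ⟨x, a⟩ := q
    rw [ext_pow_apply, h.pow i]
    rfl
  · obtain ⟨Y, h1, h2, h3, h4⟩ := h.comm i j hij hnc
    refine ⟨Y ×ˢ univ, ?_, ?_, ?_, ?_⟩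
    · rintro ⟨x, a⟩ hx
      simp only [mem_product, mem_univ, and_true] at hx ⊢
      exact h1 x hx
    · rintro ⟨x, a⟩ hx
      simp only [mem_product, mem_univ, and_true, ext_apply] at hx ⊢
      exact h2 x hx
    · rintro ⟨x, a⟩ hx
      simp only [mem_product, mem_univ, and_true, ext_apply] at hx ⊢
      exact h3 x hx
    · rintro ⟨x, a⟩ hx
      simp only [mem_product, mem_univ, and_true, ext_apply] at hx ⊢
      rw [h4 x hx]
  · obtain ⟨Y, h1, h2, h3, h4, h5⟩ := h.heis i j hnc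
    refine ⟨Y ×ˢ univ, ?_, ?_, ?_, ?_, ?_⟩
    · rintro ⟨x, a⟩ hx
      simp only [mem_product, mem_univ, and_true] at hx ⊢
      exact h1 x hx
    · rintro ⟨x, a⟩ hx
      simp only [mem_product, mem_univ, and_true, ext_apply] at hx ⊢
      exact h2 x hx
    · rintro ⟨x, a⟩ hx
      simp only [mem_product, mem_univ, and_true, ext_apply] at hx ⊢
      exact h3 x hx
    · rintro ⟨x, a⟩ hx
      simp only [mem_product, mem_univ, and_true, ext_apply, ext_cm_apply] at hx ⊢
      rw [h4 x hx]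
    · rintro ⟨x, a⟩ hx
      simp only [mem_product, mem_univ, and_true, ext_apply, ext_cm_apply] at hx ⊢
      rw [h5 x hx]

/-- the indicator function of a finite set -/
noncomputable def ind {X : Type} (Y : Finset X) : X → ℝ := fun x => if x ∈ Y then 1 else 0

theorem MM_nonneg {ι : Type} [Fintype ι] {p : ℕ} {X : Type} {σ : ι → Equiv.Perm X}
    {F : X → ℝ} (hF : ∀ x, 0 ≤ F x) (x : X) : 0 ≤ MM p σ F x := by
  unfold MM avg
  have : ∀ i ∈ (univ : Finset ι), 0 ≤ (∑ j ∈ range p, F ((σ i ^ j) x)) / (p : ℝ) := fun i _ =>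
    div_nonneg (sum_nonneg fun j _ => hF _) (Nat.cast_nonneg _)
  exact div_nonneg (sum_nonneg this) (Nat.cast_nonneg _)

theorem MM_iter_nonneg {ι : Type} [Fintype ι] {p : ℕ} {X : Type} {σ : ι → Equiv.Perm X}
    {F : X → ℝ} (hF : ∀ x, 0 ≤ F x) (k : ℕ) (x : X) : 0 ≤ (MM p σ)^[k] F x := by
  induction k generalizing x with
  | zero => exact hF x
  | succ k ih =>
    rw [Function.iterate_succ_apply']
    exact MM_nonneg ih x

theorem MM_ext_sum {ι : Type} [Fintype ι] [Nonempty ι] {p : ℕ} (hp : p ≠ 0) {X I : Type}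
    [Fintype I] {σ : ι → Equiv.Perm X} {F : X × I → ℝ} (hF : ∀ x, ∑ a, F (x, a) = 1) (x : X) :
    ∑ a, MM p (fun i => ext (I := I) (σ i)) F (x, a) = 1 := by
  have hp' : (p : ℝ) ≠ 0 := Nat.cast_ne_zero.2 hp
  have hc : (Fintype.card ι : ℝ) ≠ 0 := Nat.cast_ne_zero.2 Fintype.card_ne_zero
  unfold MM avg
  rw [← sum_div, sum_comm]
  have : ∀ i ∈ (univ : Finset ι),
      ∑ a, (∑ j ∈ range p, F ((ext (I := I) (σ i) ^ j) (x, a))) / (p : ℝ) = 1 := by
    intro i _
    rw [← sum_div, sum_comm]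
    have h2 : ∀ j ∈ range p, ∑ a, F ((ext (I := I) (σ i) ^ j) (x, a)) = 1 := by
      intro j _
      simp only [ext_pow_apply]
      exact hF _
    rw [sum_congr rfl h2]
    simp [hp']
  rw [sum_congr rfl this]
  simp [hc]

theorem MM_ext_iter_sum {ι : Type} [Fintype ι] [Nonempty ι] {p : ℕ} (hp : p ≠ 0) {X I : Type}
    [Fintype I] {σ : ι → Equiv.Perm X} {F : X × I → ℝ} (hF : ∀ x, ∑ a, F (x, a) = 1) (k : ℕ)
    (x : X) : ∑ a, (MM p (fun i => ext (I := I) (σ i)))^[k] F (x, a) = 1 := by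
  induction k generalizing x with
  | zero => exact hF x
  | succ k ih =>
    rw [Function.iterate_succ']
    exact MM_ext_sum hp ih x

/-- a permutation moves as many points out of a set as into it -/
theorem card_out_eq {X : Type} [Fintype X] (τ : Equiv.Perm X) (W : Finset X) :
    (univ.filter fun q => q ∉ W ∧ τ q ∈ W).card = (W.filter fun q => τ q ∉ W).card := by
  have h1 := card_filter_add_card_filter_not (s := W) (fun q => τ q ∈ W)
  have h2 := card_filter_add_card_filter_not (s := univ.filter fun q => τ q ∈ W)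
    (fun q => q ∈ W)
  have h3 : (univ.filter fun q => τ q ∈ W).card = W.card := by
    refine card_bij (fun q _ => τ q) ?_ ?_ ?_
    · intro q hq; simpa using hq
    · intro a _ b _ hab; exact τ.injective hab
    · intro b hb; exact ⟨τ.symm b, by simpa using hb, by simp⟩
  have h4 : (univ.filter fun q => τ q ∈ W).filter (fun q => q ∈ W) =
      W.filter (fun q => τ q ∈ W) := by
    ext q; simp [and_comm]
  have h5 : (univ.filter fun q => τ q ∈ W).filter (fun q => ¬ q ∈ W) =
      univ.filter fun q => q ∉ W ∧ τ q ∈ W := by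
    ext q; simp [and_comm]
  rw [h4, h5, h3] at h2
  omega

end Helper418.ILPart

namespace Helper418

open ILPart

/-- TARGET -/
theorem il_partition {ι : Type} [Fintype ι] [Nonempty ι] {p D : ℕ} (hp : p.Prime)
    (hD : D ^ 2 < p)
    {nc : ι → ι → Prop} (hsymm : ∀ i j, nc i j → nc j i) (hirr : ∀ i, ¬ nc i i)
    (hdeg : ∀ i, (univ.filter fun j => nc i j).card ≤ D) :
    ∃ C : ℝ, 0 < C ∧ ∀ δ : ℝ, 0 < δ → ∃ β : ℝ, 0 < β ∧
      ∀ (X : Type) [Fintype X] (σ : ι → Equiv.Perm X) (B : Finset X), IsTAct p nc σ B →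
      (B.card : ℝ) ≤ β * Fintype.card X → ∀ f : X → ℕ, ∃ f' : X → ℕ,
        (inv σ f' : ℝ) ≤ δ * Fintype.card X ∧
        ((univ.filter fun x => f' x ≠ f x).card : ℝ) ≤ C * inv σ f + δ * Fintype.card X := by
  obtain ⟨C, hC, hcore⟩ := il_core hp hD hsymm hirr hdeg
  refine ⟨C, hC, fun δ hδ => ?_⟩
  obtain ⟨β, hβ, hmain⟩ := hcore (δ / 2) (by positivity)
  refine ⟨β, hβ, fun X _ σ B hact hB f => ?_⟩
  -- the finite set of labels
  set M : ℕ := univ.sup f with hM
  have hfM : ∀ x, f x < M + 1 := fun x => Nat.lt_succ_of_le (le_sup (f := f) (mem_univ x))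
  set g : X → Fin (M + 1) := fun x => ⟨f x, hfM x⟩ with hg
  have hgval : ∀ x, (g x : ℕ) = f x := fun x => rfl
  set σ' : ι → Equiv.Perm (X × Fin (M + 1)) := fun i => ext (σ i) with hσ'
  set Y : Finset (X × Fin (M + 1)) := univ.filter fun q => q.2 = g q.1 with hY
  have hYmem : ∀ x a, (x, a) ∈ Y ↔ a = g x := by
    intro x a; simp [hY]
  have hYcard : Y.card = Fintype.card X := by
    rw [← card_univ]
    refine (card_bij (fun x _ => (x, g x)) ?_ ?_ ?_).symm
    · intro x _; exact (hYmem x (g x)).2 rfl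
    · intro a _ b _ hab; exact (Prod.mk.injEq _ _ _ _ ▸ hab).1
    · rintro ⟨x, a⟩ hq; exact ⟨x, mem_univ _, by rw [(hYmem x a).1 hq]⟩
  set F₀ : X × Fin (M + 1) → ℝ := ind Y with hF₀
  have hF₀nn : ∀ x, 0 ≤ F₀ x := fun x => by simp only [hF₀, ind]; split_ifs <;> norm_num
  have hF₀sum : ∀ x, ∑ a, F₀ (x, a) = 1 := by
    intro x
    simp only [hF₀, ind, hYmem]
    simp
  have hsum : ∀ k x, ∑ a, (MM p σ')^[k] F₀ (x, a) = 1 := fun k x =>
    MM_ext_iter_sum hp.ne_zero hF₀sum k x
  have hnn : ∀ k x, 0 ≤ (MM p σ')^[k] F₀ x := fun k x => MM_iter_nonneg hF₀nn k x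
  have hact' : IsTAct p nc σ' (B ×ˢ (univ : Finset (Fin (M + 1)))) := ext_isTAct hact
  obtain ⟨k, θ, hθ, h1, h2⟩ := hmain (X × Fin (M + 1)) σ' (B ×ˢ univ) hact' Y (by
    intro k
    show ∑ x ∈ B ×ˢ (univ : Finset (Fin (M + 1))), (MM p σ')^[k] F₀ x ≤ _
    rw [sum_product]
    have : ∀ x ∈ B, ∑ a, (MM p σ')^[k] F₀ (x, a) = 1 := fun x _ => hsum k x
    rw [sum_congr rfl this, hYcard]
    simpa using hB)
  set Fk : X × Fin (M + 1) → ℝ := (MM p σ')^[k] F₀ with hFk
  set Y' : Finset (X × Fin (M + 1)) := univ.filter fun q => θ < Fk q with hY'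
  have hY'mem : ∀ q, q ∈ Y' ↔ θ < Fk q := by intro q; simp [hY']
  -- at most one label for each point
  have huniq : ∀ x a b, (x, a) ∈ Y' → (x, b) ∈ Y' → a = b := by
    intro x a b ha hb
    by_contra hab
    rw [hY'mem] at ha hb
    have h3 : ∑ c ∈ ({a, b} : Finset (Fin (M + 1))), Fk (x, c) ≤ ∑ c, Fk (x, c) :=
      sum_le_sum_of_subset_of_nonneg (subset_univ _) fun c _ _ => hnn k _
    rw [sum_pair hab, hsum k x] at h3
    linarith
  -- the new labelling
  set f' : X → ℕ := fun x => if h : ∃ a, (x, a) ∈ Y' then ((h.choose : Fin (M + 1)) : ℕ)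
    else M + 1 with hf'
  have hf'1 : ∀ x a, (x, a) ∈ Y' → f' x = a := by
    intro x a hxa
    have h : ∃ a, (x, a) ∈ Y' := ⟨a, hxa⟩
    simp only [hf', dif_pos h]
    rw [huniq x _ _ h.choose_spec hxa]
  have hf'2 : ∀ x, (¬ ∃ a, (x, a) ∈ Y') → f' x = M + 1 := by
    intro x h
    simp only [hf', dif_neg h]
  refine ⟨f', ?_, ?_⟩
  · have h3 : inv σ f' ≤ 2 * bd σ' Y' := by
      unfold inv bd
      rw [mul_sum]
      refine sum_le_sum fun i _ => ?_
      have h4 : (univ.filter fun x => f' (σ i x) ≠ f' x) ⊆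
          (Y'.filter fun q => σ' i q ∉ Y').image Prod.fst ∪
          (univ.filter fun q => q ∉ Y' ∧ σ' i q ∈ Y').image Prod.fst := by
        intro x hx
        rw [mem_filter] at hx
        replace hx := hx.2
        rw [mem_union, mem_image, mem_image]
        by_cases h : ∃ a, (x, a) ∈ Y'
        · obtain ⟨a, ha⟩ := h
          left
          refine ⟨(x, a), ?_, rfl⟩
          rw [mem_filter]
          refine ⟨ha, fun h5 => hx ?_⟩
          rw [hf'1 x a ha, hf'1 (σ i x) a h5]
        · right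
          by_cases h' : ∃ a, (σ i x, a) ∈ Y'
          · obtain ⟨a, ha⟩ := h'
            refine ⟨(x, a), ?_, rfl⟩
            rw [mem_filter]
            exact ⟨mem_univ _, fun h6 => h ⟨a, h6⟩, ha⟩
          · exact absurd (by rw [hf'2 x h, hf'2 _ h']) hx
      have key : (univ.filter fun x => f' (σ i x) ≠ f' x).card ≤
          2 * (Y'.filter fun q => σ' i q ∉ Y').card := by
        calc (univ.filter fun x => f' (σ i x) ≠ f' x).card
          ≤ _ := card_le_card h4
        _ ≤ _ := card_union_le _ _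
        _ ≤ (Y'.filter fun q => σ' i q ∉ Y').card +
            (univ.filter fun q => q ∉ Y' ∧ σ' i q ∈ Y').card :=
          add_le_add card_image_le card_image_le
        _ = _ := by
          have h7 : (univ.filter fun q => q ∉ Y' ∧ σ' i q ∈ Y').card =
              (Y'.filter fun q => σ' i q ∉ Y').card := by
            convert card_out_eq (σ' i) Y'
          rw [h7]; ring
      refine le_of_le_of_eq key ?_
      congr!
    have h4 : (inv σ f' : ℝ) ≤ 2 * (bd σ' Y' : ℝ) := by exact_mod_cast h3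
    rw [hYcard] at h1
    have h5 : (bd σ' Y' : ℝ) ≤ δ / 2 * Fintype.card X := h1
    linarith
  · have h3 : (univ.filter fun x => f' x ≠ f x).card ≤
        (Y.filter fun q => Fk q ≤ θ).card := by
      refine card_le_card_of_injOn (fun x => (x, g x)) ?_ ?_
      · intro x hx
        simp only [coe_filter, mem_univ, true_and, Set.mem_ofPred_eq] at hx
        simp only [coe_filter, Set.mem_ofPred_eq]
        refine ⟨(hYmem x _).2 rfl, ?_⟩
        by_contra hcon
        exact hx (hf'1 x (g x) ((hY'mem _).2 (not_le.1 hcon)))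
      · intro a _ b _ hab
        exact (Prod.mk.injEq _ _ _ _ ▸ hab).1
    have h4 : bd σ' Y ≤ inv σ f := by
      unfold inv bd
      refine sum_le_sum fun i _ => ?_
      refine card_le_card_of_injOn Prod.fst ?_ ?_
      · rintro ⟨x, a⟩ hq
        simp only [coe_filter, Set.mem_ofPred_eq] at hq
        simp only [coe_filter, mem_univ, true_and, Set.mem_ofPred_eq]
        intro h5
        apply hq.2
        rw [hYmem] at hq
        show (σ i x, a) ∈ Y
        rw [hYmem, hq.1]
        exact Fin.ext h5.symm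
      · rintro ⟨x, a⟩ hq ⟨y, b⟩ hq' hxy
        simp only [coe_filter, Set.mem_ofPred_eq] at hq hq'
        simp only at hxy
        subst hxy
        rw [(hYmem x a).1 hq.1, (hYmem x b).1 hq'.1]
    have h3' : ((univ.filter fun x => f' x ≠ f x).card : ℝ) ≤
        ((Y.filter fun q => Fk q ≤ θ).card : ℝ) := by exact_mod_cast h3
    have h4' : (bd σ' Y : ℝ) ≤ (inv σ f : ℝ) := by exact_mod_cast h4
    rw [hYcard] at h2
    have h5 : ((Y.filter fun q => Fk q ≤ θ).card : ℝ) ≤
        C * bd σ' Y + δ / 2 * Fintype.card X := h2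
    have h6 : C * (bd σ' Y : ℝ) ≤ C * inv σ f := mul_le_mul_of_nonneg_left h4' hC.le
    have h7 : 0 ≤ δ / 2 * Fintype.card X := by positivity
    linarith

end Helper418
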