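import Pool.Agent.Helper418_Sofic.Defs

open Filter Topology Finset
open scoped Classical Pointwise

namespace Helper418.TLocal

section grp

variable {G : Type} [Group G]

/-- The finite product set. -/
def S3 (x y z : G) : Set G :=
  (Subgroup.zpowers x : Set G) * (Subgroup.zpowers y : Set G) * (Subgroup.zpowers z : Set G)

theorem mem_S3 {x y z g : G} : g ∈ S3 x y z ↔ ∃ a b c : ℤ, g = x ^ a * y ^ b * z ^ c := by
  unfold S3
  constructor
  · intro hg
    obtain ⟨u, hu, w, hw, rfl⟩ := Set.mem_mul.mp hg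
    obtain ⟨u1, hu1, u2, hu2, rfl⟩ := Set.mem_mul.mp hu
    obtain ⟨a, rfl⟩ := Subgroup.mem_zpowers_iff.mp hu1
    obtain ⟨b, rfl⟩ := Subgroup.mem_zpowers_iff.mp hu2
    obtain ⟨c, rfl⟩ := Subgroup.mem_zpowers_iff.mp hw
    exact ⟨a, b, c, rfl⟩
  · rintro ⟨a, b, c, rfl⟩
    exact Set.mul_mem_mul (Set.mul_mem_mul (Subgroup.zpow_mem_zpowers x a)
      (Subgroup.zpow_mem_zpowers y b)) (Subgroup.zpow_mem_zpowers z c)

theorem zpowers_finite {x : G} {p : ℕ} (hp : 0 < p) (hx : x ^ p = 1) :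
    (Subgroup.zpowers x : Set G).Finite := by
  rw [finite_zpowers]
  exact isOfFinOrder_iff_pow_eq_one.mpr ⟨p, hp, hx⟩

theorem left_mul {x y z : G} (hzx : Commute z x) (hzy : Commute z y) (t : G) (ht : t = y ∨ t = y⁻¹)
    (e : G) (hez : e ∈ Subgroup.zpowers z) (hsc : SemiconjBy t x (e * x))
    {g : G} (hg : g ∈ S3 x y z) : t * g ∈ S3 x y z := by
  rw [mem_S3] at hg ⊢
  obtain ⟨a, b, c, rfl⟩ := hg
  obtain ⟨k, rfl⟩ := Subgroup.mem_zpowers_iff.mp hez
  have h1 : SemiconjBy t (x ^ a) ((z ^ k * x) ^ a) := hsc.zpow_right a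
  have h2 : (z ^ k * x) ^ a = (z ^ k) ^ a * x ^ a := (hzx.zpow_left k).mul_zpow a
  have h3 : t * x ^ a = (z ^ k) ^ a * x ^ a * t := by
    rw [← h2]; exact h1
  obtain ⟨ε, hε⟩ : ∃ ε : ℤ, t = y ^ ε := by
    rcases ht with h | h
    · exact ⟨1, by rw [h, zpow_one]⟩
    · exact ⟨-1, by rw [h, zpow_neg_one]⟩
  refine ⟨a, ε + b, k * a + c, ?_⟩
  have h4 : Commute ((z ^ k) ^ a) (x ^ a) := ((hzx.zpow_left k).zpow_left a).zpow_right a
  have h5 : Commute ((z ^ k) ^ a) (y ^ ε * y ^ b) :=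
    (((hzy.zpow_left k).zpow_left a).zpow_right ε).mul_right
      (((hzy.zpow_left k).zpow_left a).zpow_right b)
  calc t * (x ^ a * y ^ b * z ^ c) = (t * x ^ a) * (y ^ b * z ^ c) := by group
    _ = (z ^ k) ^ a * x ^ a * t * (y ^ b * z ^ c) := by rw [h3]
    _ = x ^ a * (z ^ k) ^ a * t * (y ^ b * z ^ c) := by rw [h4.eq]
    _ = x ^ a * ((z ^ k) ^ a * (y ^ ε * y ^ b)) * z ^ c := by rw [hε]; group
    _ = x ^ a * ((y ^ ε * y ^ b) * (z ^ k) ^ a) * z ^ c := by rw [h5.eq]
    _ = x ^ a * y ^ (ε + b) * z ^ (k * a + c) := by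
      rw [zpow_add, zpow_add, zpow_mul]; group

theorem closure_subset {x y z : G} (hzx : Commute z x) (hzy : Commute z y)
    (hxy : x * y = z * y * x) :
    (Subgroup.closure {x, y} : Set G) ⊆ S3 x y z := by
  have hyx : y * x = z⁻¹ * x * y := by
    have : z⁻¹ * (x * y) = y * x := by rw [hxy]; group
    rw [← this]; group
  have hyx' : y⁻¹ * x = z * x * y⁻¹ := by
    have h1 : z * (y * x) = x * y := by rw [hxy]; group
    have h2 : Commute z (y⁻¹) := hzy.inv_right
    have h3 : y⁻¹ * (x * y) * y⁻¹ = y⁻¹ * (z * (y * x)) * y⁻¹ := by rw [h1]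
    have h4 : y⁻¹ * (z * (y * x)) * y⁻¹ = (y⁻¹ * z) * y * x * y⁻¹ := by group
    rw [h4, ← h2.eq] at h3
    have h5 : z * y⁻¹ * y * x * y⁻¹ = z * x * y⁻¹ := by group
    rw [h5] at h3
    rw [← h3]; group
  have hs1 : SemiconjBy y x (z⁻¹ * x) := hyx
  have hs2 : SemiconjBy y⁻¹ x (z * x) := hyx'
  intro g hg
  replace hg : g ∈ Subgroup.closure ({x, y} : Set G) := hg
  induction hg using Subgroup.closure_induction_left with
  | one =>
    rw [mem_S3]; exact ⟨0, 0, 0, by simp⟩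
  | mul_left t ht g hg ih =>
    have ihg : g ∈ S3 x y z := ih
    rcases ht with h | h
    · subst h
      rw [mem_S3] at ihg ⊢
      obtain ⟨a, b, c, rfl⟩ := ihg
      exact ⟨1 + a, b, c, by rw [zpow_add, zpow_one]; group⟩
    · have h' : t = y := h
      subst h'
      exact left_mul hzx hzy t (Or.inl rfl) z⁻¹ (Subgroup.inv_mem _ (Subgroup.mem_zpowers z)) hs1 ihg
  | inv_mul_cancel t ht g hg ih =>
    have ihg : g ∈ S3 x y z := ih
    rcases ht with h | h
    · subst h
      rw [mem_S3] at ihg ⊢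
      obtain ⟨a, b, c, rfl⟩ := ihg
      exact ⟨-1 + a, b, c, by rw [zpow_add, zpow_neg_one]; group⟩
    · have h' : t = y := h
      subst h'
      exact left_mul hzx hzy t⁻¹ (Or.inr rfl) z (Subgroup.mem_zpowers z) hs2 ihg

theorem closure_finite {x y : G} {p : ℕ} (hp : 0 < p) (hx : x ^ p = 1) (hy : y ^ p = 1)
    (h1 : Commute (cm x y) x) (h2 : Commute (cm y x) y) :
    (Subgroup.closure {x, y} : Set G).Finite := by
  have hinv : cm y x = (cm x y)⁻¹ := by unfold cm; group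
  have hzy : Commute (cm x y) y := by
    rw [hinv] at h2
    exact Commute.inv_left_iff.mp h2
  have hxy : x * y = cm x y * y * x := by unfold cm; group
  have hz : (cm x y) ^ p = 1 := by
    have h3 : (x * y * x⁻¹) ^ p = 1 := by
      rw [conj_pow, hy]; group
    have h4 : x * y * x⁻¹ = cm x y * y := by unfold cm; group
    rw [h4, hzy.mul_pow, hy, mul_one] at h3
    exact h3
  refine Set.Finite.subset ?_ (closure_subset h1 hzy hxy)
  unfold S3
  exact ((zpowers_finite hp hx).mul (zpowers_finite hp hy)).mul (zpowers_finite hp hz)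

end grp

section act

variable {G : Type} [Group G] {A : Type} (φ : G → Equiv.Perm A) (V : Finset A)

/-- The set on which the subgroup acts honestly inside `V`. -/
def VH (H : Subgroup G) : Set A :=
  {a | a ∈ V ∧ (∀ g ∈ H, ∀ h ∈ H, φ (g * h) a = φ g (φ h a)) ∧ ∀ h ∈ H, φ h a ∈ V}

variable {φ V}

theorem VH_smul {H : Subgroup G} {a : A} (ha : a ∈ VH φ V H) {k : G} (hk : k ∈ H) :
    φ k a ∈ VH φ V H := by
  refine ⟨ha.2.2 k hk, ?_, ?_⟩
  · intro g hg h hh
    rw [← ha.2.1 (g * h) (H.mul_mem hg hh) k hk, mul_assoc,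
      ha.2.1 g hg (h * k) (H.mul_mem hh hk), ha.2.1 h hh k hk]
  · intro h hh
    rw [← ha.2.1 h hh k hk]
    exact ha.2.2 _ (H.mul_mem hh hk)

theorem VH_one {H : Subgroup G} {a : A} (ha : a ∈ VH φ V H) : φ 1 a = a := by
  have h1 := ha.2.1 1 H.one_mem 1 H.one_mem
  rw [one_mul] at h1
  exact ((φ 1).injective h1).symm

theorem VH_mono {H K : Subgroup G} (hHK : H ≤ K) : VH φ V K ⊆ VH φ V H := by
  intro a ha
  exact ⟨ha.1, fun g hg h hh => ha.2.1 g (hHK hg) h (hHK hh), fun h hh => ha.2.2 h (hHK hh)⟩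

theorem VH_inv {H : Subgroup G} {a : A} (ha : a ∈ VH φ V H) {k : G} (hk : k ∈ H) :
    φ k (φ k⁻¹ a) = a := by
  rw [← ha.2.1 k hk k⁻¹ (H.inv_mem hk), mul_inv_cancel, VH_one ha]

theorem VH_inv' {H : Subgroup G} {a : A} (ha : a ∈ VH φ V H) {k : G} (hk : k ∈ H) :
    φ k⁻¹ (φ k a) = a := by
  rw [← ha.2.1 k⁻¹ (H.inv_mem hk) k hk, inv_mul_cancel, VH_one ha]

variable (φ V)

/-- `φ k` on the honest set of the cyclic group of `k`. -/
noncomputable def sgFun (k : G) (x : {a // a ∈ V}) : {a // a ∈ V} :=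
  if h : x.1 ∈ VH φ V (Subgroup.zpowers k) then
    ⟨φ k x.1, (VH_smul h (Subgroup.mem_zpowers k)).1⟩ else x

/-- `φ k⁻¹` on the honest set of the cyclic group of `k`. -/
noncomputable def sgInv (k : G) (x : {a // a ∈ V}) : {a // a ∈ V} :=
  if h : x.1 ∈ VH φ V (Subgroup.zpowers k) then
    ⟨φ k⁻¹ x.1, (VH_smul h (Subgroup.inv_mem _ (Subgroup.mem_zpowers k))).1⟩ else x

variable {φ V}

theorem sgFun_pos {k : G} {x : {a // a ∈ V}} (h : x.1 ∈ VH φ V (Subgroup.zpowers k)) :
    (sgFun φ V k x).1 = φ k x.1 := by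
  unfold sgFun; rw [dif_pos h]

theorem sgFun_neg {k : G} {x : {a // a ∈ V}} (h : x.1 ∉ VH φ V (Subgroup.zpowers k)) :
    sgFun φ V k x = x := by
  unfold sgFun; rw [dif_neg h]

theorem sgInv_pos {k : G} {x : {a // a ∈ V}} (h : x.1 ∈ VH φ V (Subgroup.zpowers k)) :
    (sgInv φ V k x).1 = φ k⁻¹ x.1 := by
  unfold sgInv; rw [dif_pos h]

theorem sgInv_neg {k : G} {x : {a // a ∈ V}} (h : x.1 ∉ VH φ V (Subgroup.zpowers k)) :
    sgInv φ V k x = x := by
  unfold sgInv; rw [dif_neg h]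

variable (φ V)

/-- The permutation of `V` given by `φ k` on the honest set of the cyclic group of `k`. -/
noncomputable def sg (k : G) : Equiv.Perm {a // a ∈ V} where
  toFun := sgFun φ V k
  invFun := sgInv φ V k
  left_inv x := by
    by_cases h : x.1 ∈ VH φ V (Subgroup.zpowers k)
    · have h2 : (sgFun φ V k x).1 ∈ VH φ V (Subgroup.zpowers k) := by
        rw [sgFun_pos h]; exact VH_smul h (Subgroup.mem_zpowers k)
      apply Subtype.ext
      rw [sgInv_pos h2, sgFun_pos h]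
      exact VH_inv' h (Subgroup.mem_zpowers k)
    · rw [sgFun_neg h, sgInv_neg h]
  right_inv x := by
    by_cases h : x.1 ∈ VH φ V (Subgroup.zpowers k)
    · have h2 : (sgInv φ V k x).1 ∈ VH φ V (Subgroup.zpowers k) := by
        rw [sgInv_pos h]; exact VH_smul h (Subgroup.inv_mem _ (Subgroup.mem_zpowers k))
      apply Subtype.ext
      rw [sgFun_pos h2, sgInv_pos h]
      exact VH_inv h (Subgroup.mem_zpowers k)
    · rw [sgInv_neg h, sgFun_neg h]

variable {φ V}

theorem sg_apply {k : G} {x : {a // a ∈ V}} (h : x.1 ∈ VH φ V (Subgroup.zpowers k)) :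
    (sg φ V k x).1 = φ k x.1 := sgFun_pos h

theorem sg_apply_not {k : G} {x : {a // a ∈ V}} (h : x.1 ∉ VH φ V (Subgroup.zpowers k)) :
    sg φ V k x = x := sgFun_neg h

theorem sg_inv_apply {k : G} {x : {a // a ∈ V}} (h : x.1 ∈ VH φ V (Subgroup.zpowers k)) :
    ((sg φ V k)⁻¹ x).1 = φ k⁻¹ x.1 := sgInv_pos h

theorem sg_pow_apply {k : G} (n : ℕ) {x : {a // a ∈ V}}
    (h : x.1 ∈ VH φ V (Subgroup.zpowers k)) :
    (((sg φ V k) ^ n) x).1 = φ (k ^ n) x.1 := by
  induction n with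
  | zero => rw [pow_zero, pow_zero, VH_one h]; rfl
  | succ n ih =>
    rw [pow_succ', Equiv.Perm.mul_apply]
    have h2 : (((sg φ V k) ^ n) x).1 ∈ VH φ V (Subgroup.zpowers k) := by
      rw [ih]; exact VH_smul h (Subgroup.npow_mem_zpowers k n)
    rw [sg_apply h2, ih, pow_succ', h.2.1 k (Subgroup.mem_zpowers k) (k ^ n)
      (Subgroup.npow_mem_zpowers k n)]

theorem sg_pow {k : G} {p : ℕ} (hk : k ^ p = 1) : (sg φ V k) ^ p = 1 := by
  ext x
  by_cases h : x.1 ∈ VH φ V (Subgroup.zpowers k)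
  · rw [sg_pow_apply p h, hk, VH_one h]; rfl
  · have h2 : ∀ n : ℕ, ((sg φ V k) ^ n) x = x := by
      intro n
      induction n with
      | zero => rfl
      | succ n ih => rw [pow_succ, Equiv.Perm.mul_apply, sg_apply_not h, ih]
    rw [h2]; rfl

end act

end Helper418.TLocal

namespace Helper418

open Helper418.TLocal

/-- TARGET -/
theorem tact_local {G : Type} [Group G] {ι : Type} [Fintype ι] {p D : ℕ} {s : ι → G}
    (hs : IsTSystem p D s) :
    ∃ F : Finset G, (∀ g ∈ F, g ∈ Subgroup.closure (Set.range s)) ∧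
      ∀ (A : Type) [Fintype A] (φ : G → Equiv.Perm A) (V E : Finset A),
      (∀ a ∈ V, a ∉ E → (∀ g ∈ F, ∀ h ∈ F, φ (g * h) a = φ g (φ h a)) ∧
        ∀ h ∈ F, φ h a ∈ V) →
      ∃ σ : ι → Equiv.Perm {a // a ∈ V},
        IsTAct p (fun i j => ¬ Commute (s i) (s j)) σ (univ.filter fun a => a.1 ∈ E) ∧
        ∀ i, ∀ a : {a // a ∈ V}, a.1 ∉ E → (σ i a).1 = φ (s i) a.1 := by
  have hfin : ∀ i j, (Subgroup.closure {s i, s j} : Set G).Finite := fun i j =>
    closure_finite hs.prime.pos (hs.pow i) (hs.pow j) (hs.comm i j) (hs.comm j i)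
  refine ⟨univ.biUnion fun ij : ι × ι => (hfin ij.1 ij.2).toFinset, ?_, ?_⟩
  · intro g hg
    rw [mem_biUnion] at hg
    obtain ⟨ij, -, hg⟩ := hg
    rw [Set.Finite.mem_toFinset] at hg
    refine Subgroup.closure_mono ?_ hg
    rintro x (rfl | rfl)
    · exact ⟨_, rfl⟩
    · exact ⟨_, rfl⟩
  · intro A _ φ V E hyp
    have hgood : ∀ i j, ∀ a ∈ V, a ∉ E → a ∈ VH φ V (Subgroup.closure {s i, s j}) := by
      intro i j a ha haE
      obtain ⟨h1, h2⟩ := hyp a ha haE
      have hm : ∀ g ∈ Subgroup.closure {s i, s j},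
          g ∈ univ.biUnion fun ij : ι × ι => (hfin ij.1 ij.2).toFinset := by
        intro g hg
        rw [mem_biUnion]
        exact ⟨(i, j), mem_univ _, (Set.Finite.mem_toFinset _).mpr hg⟩
      exact ⟨ha, fun g hg h hh => h1 g (hm g hg) h (hm h hh), fun h hh => h2 h (hm h hh)⟩
    have hzi : ∀ i j, Subgroup.zpowers (s i) ≤ Subgroup.closure {s i, s j} := by
      intro i j
      rw [Subgroup.zpowers_le]
      exact Subgroup.subset_closure (by simp)
    have hzj : ∀ i j, Subgroup.zpowers (s j) ≤ Subgroup.closure {s i, s j} := by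
      intro i j
      rw [Subgroup.zpowers_le]
      exact Subgroup.subset_closure (by simp)
    have hmi : ∀ i j, s i ∈ Subgroup.closure {s i, s j} := fun i j =>
      Subgroup.subset_closure (by simp)
    have hmj : ∀ i j, s j ∈ Subgroup.closure {s i, s j} := fun i j =>
      Subgroup.subset_closure (by simp)
    -- values on the honest set
    have hvi : ∀ i j, ∀ x : {a // a ∈ V}, x.1 ∈ VH φ V (Subgroup.closure {s i, s j}) →
        (sg φ V (s i) x).1 = φ (s i) x.1 := fun i j x hx => sg_apply (VH_mono (hzi i j) hx)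
    have hvj : ∀ i j, ∀ x : {a // a ∈ V}, x.1 ∈ VH φ V (Subgroup.closure {s i, s j}) →
        (sg φ V (s j) x).1 = φ (s j) x.1 := fun i j x hx => sg_apply (VH_mono (hzj i j) hx)
    have hwi : ∀ i j, ∀ x : {a // a ∈ V}, x.1 ∈ VH φ V (Subgroup.closure {s i, s j}) →
        ((sg φ V (s i))⁻¹ x).1 = φ (s i)⁻¹ x.1 := fun i j x hx =>
      sg_inv_apply (VH_mono (hzi i j) hx)
    have hwj : ∀ i j, ∀ x : {a // a ∈ V}, x.1 ∈ VH φ V (Subgroup.closure {s i, s j}) →
        ((sg φ V (s j))⁻¹ x).1 = φ (s j)⁻¹ x.1 := fun i j x hx =>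
      sg_inv_apply (VH_mono (hzj i j) hx)
    -- the commutator
    have hcm : ∀ i j, ∀ x : {a // a ∈ V}, x.1 ∈ VH φ V (Subgroup.closure {s i, s j}) →
        (cm (sg φ V (s i)) (sg φ V (s j)) x).1 = φ (cm (s i) (s j)) x.1 := by
      intro i j x hx
      set K := Subgroup.closure {s i, s j} with hK
      show ((sg φ V (s i)) ((sg φ V (s j)) ((sg φ V (s i))⁻¹ ((sg φ V (s j))⁻¹ x)))).1 = _
      have e1 := hwj i j x hx
      have m1 : ((sg φ V (s j))⁻¹ x).1 ∈ VH φ V K := by
        rw [e1]; exact VH_smul hx (K.inv_mem (hmj i j))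
      have e2 := hwi i j _ m1
      have m2 : ((sg φ V (s i))⁻¹ ((sg φ V (s j))⁻¹ x)).1 ∈ VH φ V K := by
        rw [e2]; exact VH_smul m1 (K.inv_mem (hmi i j))
      have e3 := hvj i j _ m2
      have m3 : ((sg φ V (s j)) ((sg φ V (s i))⁻¹ ((sg φ V (s j))⁻¹ x))).1 ∈ VH φ V K := by
        rw [e3]; exact VH_smul m2 (hmj i j)
      have e4 := hvi i j _ m3
      rw [e4, e3, e2, e1]
      have hi := hmi i j
      have hj := hmj i j
      have hii := K.inv_mem hi
      have hji := K.inv_mem hj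
      unfold cm
      rw [hx.2.1 (s i * s j * (s i)⁻¹) (K.mul_mem (K.mul_mem hi hj) hii) (s j)⁻¹ hji,
        (VH_smul hx hji).2.1 (s i * s j) (K.mul_mem hi hj) (s i)⁻¹ hii,
        (VH_smul (VH_smul hx hji) hii).2.1 (s i) hi (s j) hj]
    refine ⟨fun i => sg φ V (s i), ⟨fun i => sg_pow (hs.pow i), ?_, ?_⟩, ?_⟩
    · intro i j _ hcomm
      rw [not_not] at hcomm
      set K := Subgroup.closure {s i, s j} with hK
      refine ⟨univ.filter fun x => x.1 ∈ VH φ V K, ?_, ?_, ?_, ?_⟩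
      · intro x hx
        rw [mem_filter] at hx ⊢
        refine ⟨mem_univ _, hgood i j x.1 x.2 ?_⟩
        intro hE; exact hx ⟨mem_univ _, hE⟩
      · intro x hx
        rw [mem_filter] at hx ⊢
        refine ⟨mem_univ _, ?_⟩
        rw [hvi i j x hx.2]
        exact VH_smul hx.2 (hmi i j)
      · intro x hx
        rw [mem_filter] at hx ⊢
        refine ⟨mem_univ _, ?_⟩
        rw [hvj i j x hx.2]
        exact VH_smul hx.2 (hmj i j)
      · intro x hx
        rw [mem_filter] at hx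
        have hx := hx.2
        have m1 : (sg φ V (s j) x).1 ∈ VH φ V K := by
          rw [hvj i j x hx]; exact VH_smul hx (hmj i j)
        have m2 : (sg φ V (s i) x).1 ∈ VH φ V K := by
          rw [hvi i j x hx]; exact VH_smul hx (hmi i j)
        apply Subtype.ext
        rw [hvi i j _ m1, hvj i j _ hx, hvj i j _ m2, hvi i j _ hx,
          ← hx.2.1 (s i) (hmi i j) (s j) (hmj i j), ← hx.2.1 (s j) (hmj i j) (s i) (hmi i j),
          hcomm.eq]
    · intro i j _
      set K := Subgroup.closure {s i, s j} with hK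
      have hc : cm (s i) (s j) ∈ K := by
        unfold cm
        exact K.mul_mem (K.mul_mem (K.mul_mem (hmi i j) (hmj i j)) (K.inv_mem (hmi i j)))
          (K.inv_mem (hmj i j))
      refine ⟨univ.filter fun x => x.1 ∈ VH φ V K, ?_, ?_, ?_, ?_, ?_⟩
      · intro x hx
        rw [mem_filter] at hx ⊢
        refine ⟨mem_univ _, hgood i j x.1 x.2 ?_⟩
        intro hE; exact hx ⟨mem_univ _, hE⟩
      · intro x hx
        rw [mem_filter] at hx ⊢
        refine ⟨mem_univ _, ?_⟩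
        rw [hvi i j x hx.2]
        exact VH_smul hx.2 (hmi i j)
      · intro x hx
        rw [mem_filter] at hx ⊢
        refine ⟨mem_univ _, ?_⟩
        rw [hvj i j x hx.2]
        exact VH_smul hx.2 (hmj i j)
      · intro x hx
        rw [mem_filter] at hx
        have hx := hx.2
        have m1 : (cm (sg φ V (s i)) (sg φ V (s j)) x).1 ∈ VH φ V K := by
          rw [hcm i j x hx]; exact VH_smul hx hc
        have m2 : (sg φ V (s i) x).1 ∈ VH φ V K := by
          rw [hvi i j x hx]; exact VH_smul hx (hmi i j)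
        apply Subtype.ext
        rw [hvi i j _ m1, hcm i j _ hx, hcm i j _ m2, hvi i j _ hx,
          ← hx.2.1 (s i) (hmi i j) _ hc, ← hx.2.1 _ hc (s i) (hmi i j), (hs.comm i j).eq]
      · intro x hx
        rw [mem_filter] at hx
        have hx := hx.2
        have m1 : (cm (sg φ V (s i)) (sg φ V (s j)) x).1 ∈ VH φ V K := by
          rw [hcm i j x hx]; exact VH_smul hx hc
        have m2 : (sg φ V (s j) x).1 ∈ VH φ V K := by
          rw [hvj i j x hx]; exact VH_smul hx (hmj i j)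
        have hzj : Commute (cm (s i) (s j)) (s j) := by
          have h2 := hs.comm j i
          have hinv : cm (s j) (s i) = (cm (s i) (s j))⁻¹ := by unfold cm; group
          rw [hinv] at h2
          exact Commute.inv_left_iff.mp h2
        apply Subtype.ext
        rw [hvj i j _ m1, hcm i j _ hx, hcm i j _ m2, hvj i j _ hx,
          ← hx.2.1 (s j) (hmj i j) _ hc, ← hx.2.1 _ hc (s j) (hmj i j), hzj.eq]
    · intro i a haE
      exact hvi i i a (hgood i i a.1 a.2 haE)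

end Helper418
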