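import Pool.Agent.Helper418_Sofic.ILPart
import Pool.Agent.Helper418_Sofic.TLocal
import Pool.Agent.Helper418_Sofic.Defs

open Filter Topology Finset
open scoped Classical

namespace Helper418

/-! GIVEN (proved elsewhere) -/
namespace ImprT

/-- comparison of the two counts, first direction -/
theorem inv_le_left {A ι : Type} [Fintype A] [Fintype ι] (φ : ι → Equiv.Perm A) (E : Finset A)
    (σ : ι → Equiv.Perm {a // a ∈ (univ : Finset A)})
    (h : ∀ i, ∀ a : {a // a ∈ (univ : Finset A)}, a.1 ∉ E → (σ i a).1 = φ i a.1) (f : A → ℕ) :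
    inv σ (fun a => f a.1) ≤ inv φ f + Fintype.card ι * E.card := by
  unfold inv
  rw [← card_univ (α := ι), ← smul_eq_mul, ← sum_const, ← sum_add_distrib]
  refine sum_le_sum fun i _ => ?_
  refine le_trans ?_ (card_union_le _ _)
  refine card_le_card_of_injOn Subtype.val ?_ (Subtype.val_injective.injOn)
  intro x hx
  rw [mem_coe, mem_filter] at hx
  rw [mem_coe, mem_union, mem_filter]
  by_cases hE : x.1 ∈ E
  · exact Or.inr hE
  · left
    refine ⟨mem_univ _, ?_⟩
    rw [← h i x hE]
    exact hx.2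

/-- comparison of the two counts, second direction -/
theorem inv_le_right {A ι : Type} [Fintype A] [Fintype ι] (φ : ι → Equiv.Perm A) (E : Finset A)
    (σ : ι → Equiv.Perm {a // a ∈ (univ : Finset A)})
    (h : ∀ i, ∀ a : {a // a ∈ (univ : Finset A)}, a.1 ∉ E → (σ i a).1 = φ i a.1) (f : A → ℕ) :
    inv φ f ≤ inv σ (fun a => f a.1) + Fintype.card ι * E.card := by
  unfold inv
  rw [← card_univ (α := ι), ← smul_eq_mul, ← sum_const, ← sum_add_distrib]
  refine sum_le_sum fun i _ => ?_
  have h1 : (univ.filter fun a => f (φ i a) ≠ f a) ⊆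
      ((univ.filter fun x : {a // a ∈ (univ : Finset A)} => f (σ i x).1 ≠ f x.1).image
        Subtype.val) ∪ E := by
    intro a ha
    rw [mem_filter] at ha
    rw [mem_union]
    by_cases hE : a ∈ E
    · exact Or.inr hE
    · left
      rw [mem_image]
      refine ⟨⟨a, mem_univ a⟩, ?_, rfl⟩
      rw [mem_filter]
      refine ⟨mem_univ _, ?_⟩
      rw [h i ⟨a, mem_univ a⟩ hE]
      exact ha.2
  refine (card_le_card h1).trans ((card_union_le _ _).trans ?_)
  exact Nat.add_le_add_right card_image_le _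

theorem card_bad_le {A : Type} [Fintype A] (E : Finset A) :
    (univ.filter fun a : {a // a ∈ (univ : Finset A)} => a.1 ∈ E).card ≤ E.card := by
  refine card_le_card_of_injOn Subtype.val ?_ (Subtype.val_injective.injOn)
  intro x hx
  rw [mem_coe, mem_filter] at hx
  exact hx.2

theorem card_ne_le {A : Type} [Fintype A] (f f' : A → ℕ) :
    (univ.filter fun a => f' a ≠ f a).card ≤
      (univ.filter fun x : {a // a ∈ (univ : Finset A)} => f' x.1 ≠ f x.1).card := by
  refine card_le_card_of_injOn (fun a => ⟨a, mem_univ a⟩) ?_ ?_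
  · intro a ha
    rw [mem_coe, mem_filter] at ha
    rw [mem_coe, mem_filter]
    exact ⟨mem_univ _, ha.2⟩
  · intro a _ b _ hab
    simpa using hab

theorem inv_const {X ι : Type} [Fintype X] [Fintype ι] (σ : ι → Equiv.Perm X) :
    inv σ (fun _ => 0) = 0 := by
  unfold inv
  simp

theorem one_le_inv {X ι : Type} [Fintype X] [Fintype ι] (σ : ι → Equiv.Perm X) (f : X → ℕ)
    (i : ι) : (univ.filter fun x => f (σ i x) ≠ f x).card ≤ inv σ f := by
  unfold inv
  exact single_le_sum (f := fun i => (univ.filter fun x => f (σ i x) ≠ f x).card)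
    (fun _ _ => Nat.zero_le _) (mem_univ i)

end ImprT

variable {A : ℕ → Type} [∀ n, Fintype (A n)] {ι : Type} [Fintype ι]

/-- TARGET -/
theorem improves_of_tsystem [∀ n, Nonempty (A n)] [Nonempty ι] {G : Type} [Group G] {p D : ℕ}
    {s : ι → G} (hs : IsTSystem p D s) (Φ : Approx G A) :
    Improves (fun n i => Φ.φ n (s i)) := by
  obtain ⟨F, -, hF⟩ := tact_local hs
  obtain ⟨C, hC0, hC⟩ := il_partition (ι := ι) hs.prime hs.hD
    (nc := fun i j => ¬ Commute (s i) (s j)) (fun i j h h' => h h'.symm)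
    (fun i h => h (Commute.refl _)) (fun i => by convert hs.deg i)
  -- the bad sets
  set bad : ∀ n, A n → Prop := fun n a =>
    ¬ ∀ g ∈ F, ∀ h ∈ F, Φ.φ n (g * h) a = Φ.φ n g (Φ.φ n h a) with hbad
  set E : ∀ n, Finset (A n) := fun n => univ.filter (bad n) with hE
  set d : ℕ → ℝ := dens bad with hd
  have hd0 : Tendsto d atTop (𝓝 0) := by
    have h1 : ∀ᶠ x in ae A, ∀ g ∈ F, ∀ h ∈ F,
        Φ.φ x.1 (g * h) x.2 = Φ.φ x.1 g (Φ.φ x.1 h x.2) := by
      rw [eventually_all_finset]
      intro g _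
      rw [eventually_all_finset]
      intro h _
      exact Φ.mul g h
    exact (mem_ae (P := fun n a => ∀ g ∈ F, ∀ h ∈ F,
        Φ.φ n (g * h) a = Φ.φ n g (Φ.φ n h a))).1 h1
  have hdn : ∀ n, 0 ≤ d n := fun n => dens_nonneg _ n
  have hcard : ∀ n, (0 : ℝ) < Fintype.card (A n) := fun n => by
    exact_mod_cast Fintype.card_pos
  have hEd : ∀ n, ((E n).card : ℝ) = d n * Fintype.card (A n) := by
    intro n
    simp only [hd, dens, hE]
    rw [div_mul_cancel₀ _ (hcard n).ne']
    congr!
  set N : ℝ := ((Fintype.card ι : ℕ) : ℝ) with hN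
  have hN0 : 0 ≤ N := Nat.cast_nonneg _
  -- the property
  set P : ℕ → ℝ → Prop := fun n δ => ∀ f : A n → ℕ, ∃ f' : A n → ℕ,
    (inv (fun i => Φ.φ n (s i)) f' : ℝ) ≤ (δ + N * d n) * Fintype.card (A n) ∧
    ((univ.filter fun a => f' a ≠ f a).card : ℝ) ≤
      C * inv (fun i => Φ.φ n (s i)) f + (δ + C * N * d n) * Fintype.card (A n) with hP
  have hPmono : ∀ n δ δ', δ ≤ δ' → P n δ → P n δ' := by
    intro n δ δ' hδ h f
    obtain ⟨f', h1, h2⟩ := h f
    refine ⟨f', h1.trans ?_, h2.trans ?_⟩
    · exact mul_le_mul_of_nonneg_right (by linarith) (hcard n).le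
    · have := mul_le_mul_of_nonneg_right
        (show δ + C * N * d n ≤ δ' + C * N * d n by linarith) (hcard n).le
      linarith
  have hP1 : ∀ n, P n 1 := by
    intro n f
    refine ⟨fun _ => 0, ?_, ?_⟩
    · rw [ImprT.inv_const]
      have := hdn n
      have := hcard n
      rw [Nat.cast_zero]
      positivity
    · have h1 : ((univ.filter fun a => (0 : ℕ) ≠ f a).card : ℝ) ≤ Fintype.card (A n) := by
        exact_mod_cast card_le_univ _
      have h2 := hdn n
      have h3 := hcard n
      have h4 : (0 : ℝ) ≤ C * inv (fun i => Φ.φ n (s i)) f := by positivity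
      have h5 : 0 ≤ C * N * d n * Fintype.card (A n) := by positivity
      have h6 : (1 + C * N * d n) * Fintype.card (A n) =
        Fintype.card (A n) + C * N * d n * Fintype.card (A n) := by ring
      rw [h6]
      linarith
  have hPev : ∀ δ : ℝ, 0 < δ → ∀ᶠ n in atTop, P n δ := by
    intro δ hδ
    obtain ⟨β, hβ, hβC⟩ := hC δ hδ
    filter_upwards [hd0.eventually (gt_mem_nhds hβ)] with n hn
    intro f
    obtain ⟨σ, hσ1, hσ2⟩ := hF (A n) (Φ.φ n) univ (E n) (by
      intro a _ ha
      have h1 : ¬ bad n a := by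
        intro h2
        exact ha (mem_filter.2 ⟨mem_univ _, h2⟩)
      refine ⟨?_, fun _ _ => mem_univ _⟩
      simpa only [hbad, not_not] using h1)
    have hcX : Fintype.card {a // a ∈ (univ : Finset (A n))} = Fintype.card (A n) :=
      Fintype.card_congr (Equiv.subtypeUnivEquiv fun a => mem_univ a)
    obtain ⟨f1, h1, h2⟩ := hβC _ σ _ hσ1 (by
      rw [hcX]
      have h3 : ((univ.filter fun a : {a // a ∈ (univ : Finset (A n))} => a.1 ∈ E n).card : ℝ) ≤
          ((E n).card : ℝ) := by exact_mod_cast ImprT.card_bad_le (E n)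
      refine h3.trans ?_
      rw [hEd n]
      exact mul_le_mul_of_nonneg_right hn.le (hcard n).le) (fun x => f x.1)
    rw [hcX] at h1 h2
    set f' : A n → ℕ := fun a => f1 ⟨a, mem_univ a⟩ with hf'
    have hf1 : f1 = fun x => f' x.1 := rfl
    refine ⟨f', ?_, ?_⟩
    · have h3 : (inv (fun i => Φ.φ n (s i)) f' : ℝ) ≤
          inv σ (fun x => f' x.1) + N * (E n).card := by
        rw [hN]
        exact_mod_cast ImprT.inv_le_right (fun i => Φ.φ n (s i)) (E n) σ hσ2 f'
      rw [← hf1, hEd n] at h3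
      have h4 : (δ + N * d n) * Fintype.card (A n) =
        δ * Fintype.card (A n) + N * (d n * Fintype.card (A n)) := by ring
      rw [h4]
      linarith
    · have h3 : (inv σ (fun x => f x.1) : ℝ) ≤
          inv (fun i => Φ.φ n (s i)) f + N * (E n).card := by
        rw [hN]
        exact_mod_cast ImprT.inv_le_left (fun i => Φ.φ n (s i)) (E n) σ hσ2 f
      rw [hEd n] at h3
      have h4 : ((univ.filter fun a => f' a ≠ f a).card : ℝ) ≤
          ((univ.filter fun x : {a // a ∈ (univ : Finset (A n))} => f' x.1 ≠ f x.1).card : ℝ) := by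
        exact_mod_cast ImprT.card_ne_le f f'
      have h5 : ((univ.filter fun x : {a // a ∈ (univ : Finset (A n))} =>
          f' x.1 ≠ f x.1).card : ℝ) ≤ C * inv σ (fun x => f x.1) + δ * Fintype.card (A n) := h2
      have h6 := mul_le_mul_of_nonneg_left h3 hC0.le
      have h7 : (δ + C * N * d n) * Fintype.card (A n) =
        δ * Fintype.card (A n) + C * (N * (d n * Fintype.card (A n))) := by ring
      rw [h7]
      rw [mul_add] at h6
      linarith
  -- diagonal choice
  set Q : ℕ → Set ℝ := fun n => {δ | 0 ≤ δ ∧ P n δ} with hQ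
  have hQb : ∀ n, BddBelow (Q n) := fun n => ⟨0, fun x hx => hx.1⟩
  have hQn : ∀ n, (Q n).Nonempty := fun n => ⟨1, zero_le_one, hP1 n⟩
  set δ : ℕ → ℝ := fun n => sInf (Q n) + 1 / ((n : ℝ) + 1) with hδ
  have hinf0 : ∀ n, 0 ≤ sInf (Q n) := fun n => Real.sInf_nonneg fun x hx => hx.1
  have hδ0 : ∀ n, 0 ≤ δ n := fun n => add_nonneg (hinf0 n) (by positivity)
  have hPδ : ∀ n, P n (δ n) := by
    intro n
    have h1 : sInf (Q n) < δ n := by
      have : (0 : ℝ) < 1 / ((n : ℝ) + 1) := by positivity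
      simp only [hδ]
      linarith
    obtain ⟨x, hx, hxn⟩ := exists_lt_of_csInf_lt (hQn n) h1
    exact hPmono n x _ hxn.le hx.2
  have hδt : Tendsto δ atTop (𝓝 0) := by
    have h1 : Tendsto (fun n => sInf (Q n)) atTop (𝓝 0) := by
      rw [tendsto_order]
      refine ⟨fun a ha => Eventually.of_forall fun n => ha.trans_le (hinf0 n), fun a ha => ?_⟩
      filter_upwards [hPev (a / 2) (by linarith)] with n hn
      have : sInf (Q n) ≤ a / 2 := csInf_le (hQb n) ⟨by linarith, hn⟩
      linarith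
    have h2 := h1.add (tendsto_one_div_add_atTop_nhds_zero_nat (𝕜 := ℝ))
    rwa [add_zero] at h2
  refine ⟨C, hC0.le, fun f => ?_⟩
  choose f' h1 h2 using fun n => hPδ n (f n)
  refine ⟨f', fun i => ?_, fun n => δ n + C * N * d n, ?_, fun n => ?_⟩
  · rw [mem_ae (P := fun n a => f' n (Φ.φ n (s i) a) = f' n a)]
    have ht : Tendsto (fun n => δ n + N * d n) atTop (𝓝 0) := by
      have := hδt.add (hd0.const_mul N)
      rwa [mul_zero, add_zero] at this
    refine squeeze_zero (fun n => dens_nonneg _ n) (fun n => ?_) ht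
    unfold dens
    rw [div_le_iff₀ (hcard n)]
    refine le_trans ?_ (h1 n)
    rw [Nat.cast_le]
    convert ImprT.one_le_inv (fun i => Φ.φ n (s i)) (f' n) i
  · have := hδt.add (hd0.const_mul (C * N))
    rwa [mul_zero, add_zero] at this
  · unfold dens
    rw [div_le_iff₀ (hcard n), add_mul]
    have h3 : C * ((inv (fun i => Φ.φ n (s i)) (f n) : ℝ) / Fintype.card (A n)) *
        Fintype.card (A n) = C * inv (fun i => Φ.φ n (s i)) (f n) := by
      rw [mul_assoc, div_mul_cancel₀ _ (hcard n).ne']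
    rw [h3]
    refine le_trans (le_of_eq ?_) (h2 n)
    rw [Nat.cast_inj]
    congr!

end Helper418
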