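import Pool.Agent.Helper418_Sofic.ILGraph
import Pool.Agent.Helper418_Sofic.Defs

open Filter Topology Finset
open scoped Classical

namespace Helper418

/-! GIVEN (proved elsewhere) -/
namespace KunThom

variable {V : Type} [Fintype V] {ι : Type} [Fintype ι]

/-- Hamming distance of permutations -/
noncomputable def dis (θ θ' : Equiv.Perm V) : ℝ := ((univ.filter fun a => θ a ≠ θ' a).card : ℝ)

/-- defect of commutation with `σ` -/
noncomputable def dfc (σ : ι → Equiv.Perm V) (θ : Equiv.Perm V) : ℝ :=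
  ((∑ i, (univ.filter fun a => θ (σ i a) ≠ σ i (θ a)).card : ℕ) : ℝ)

lemma dis_self (a : Equiv.Perm V) : dis a a = 0 := by simp [dis]

lemma dis_comm (a b : Equiv.Perm V) : dis a b = dis b a := by
  unfold dis
  congr 2
  ext x
  simp only [mem_filter, mem_univ, true_and]
  exact ne_comm

lemma dis_tri (a b c : Equiv.Perm V) : dis a c ≤ dis a b + dis b c := by
  unfold dis
  have : (univ.filter fun x => a x ≠ c x) ⊆
      (univ.filter fun x => a x ≠ b x) ∪ (univ.filter fun x => b x ≠ c x) := by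
    intro x
    simp only [mem_filter, mem_univ, true_and, mem_union]
    intro h
    by_contra hc
    push Not at hc
    exact h (hc.1.trans hc.2)
  exact_mod_cast (card_le_card this).trans (card_union_le _ _)

lemma dis_mul_left (g a b : Equiv.Perm V) : dis (g * a) (g * b) = dis a b := by
  unfold dis; simp

lemma dis_mul_right (g a b : Equiv.Perm V) : dis (a * g) (b * g) = dis a b := by
  unfold dis
  rw [Nat.cast_inj]
  apply Finset.card_equiv g
  intro i
  rw [mem_filter, mem_filter]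
  simp only [mem_univ, true_and, Equiv.Perm.mul_apply]

lemma dfc_eq (σ : ι → Equiv.Perm V) (θ : Equiv.Perm V) :
    dfc σ θ = ∑ i, dis (θ * σ i) (σ i * θ) := by
  unfold dfc dis
  push_cast
  rfl

lemma dfc_one (σ : ι → Equiv.Perm V) : dfc σ (1 : Equiv.Perm V) = 0 := by
  rw [dfc_eq]
  simp [dis_self]

lemma dfc_mul (σ : ι → Equiv.Perm V) (g θ : Equiv.Perm V) : dfc σ (g * θ) ≤ dfc σ g + dfc σ θ := by
  rw [dfc_eq, dfc_eq, dfc_eq, ← Finset.sum_add_distrib]
  apply Finset.sum_le_sum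
  intro i _
  have h1 := dis_tri (g * θ * σ i) (g * σ i * θ) (σ i * (g * θ))
  have h2 : dis (g * θ * σ i) (g * σ i * θ) = dis (θ * σ i) (σ i * θ) := by
    rw [mul_assoc, mul_assoc, dis_mul_left]
  have h3 : dis (g * σ i * θ) (σ i * (g * θ)) = dis (g * σ i) (σ i * g) := by
    rw [← mul_assoc, dis_mul_right]
  rw [h2, h3] at h1
  linarith

lemma card_agree (a b : Equiv.Perm V) :
    ((univ.filter fun x => a x = b x).card : ℝ) = Fintype.card V - dis a b := by
  unfold dis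
  have := Finset.card_filter_add_card_filter_not (s := (univ : Finset V)) (fun x => a x = b x)
  rw [eq_sub_iff_add_eq]
  exact_mod_cast this

lemma bd_agree (σ : ι → Equiv.Perm V) (a b : Equiv.Perm V) :
    (bd σ (univ.filter fun x => a x = b x) : ℝ) ≤ dfc σ a + dfc σ b := by
  unfold bd dfc
  rw [← Nat.cast_add, Nat.cast_le, ← Finset.sum_add_distrib]
  apply Finset.sum_le_sum
  intro i _
  refine le_trans (card_le_card ?_) (card_union_le _ _)
  intro x
  simp only [mem_filter, mem_univ, true_and, mem_union]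
  rintro ⟨h1, h2⟩
  by_contra hc
  push Not at hc
  apply h2
  rw [hc.1, hc.2, h1]

/-- A matching extends to a permutation. -/
lemma extend (T : Finset (V × V)) (h1 : ∀ a b b', (a, b) ∈ T → (a, b') ∈ T → b = b')
    (h2 : ∀ a a' b, (a, b) ∈ T → (a', b) ∈ T → a = a') :
    ∃ θ : Equiv.Perm V, ∀ a b, (a, b) ∈ T → θ a = b := by
  let f : V → V := fun a => if h : ∃ b, (a, b) ∈ T then h.choose else a
  have hf : ∀ a b, (a, b) ∈ T → f a = b := by
    intro a b hab
    have h : ∃ b, (a, b) ∈ T := ⟨b, hab⟩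
    have e : f a = h.choose := dif_pos h
    rw [e]
    exact h1 a _ _ h.choose_spec hab
  let s : Finset V := univ.filter fun a => ∃ b, (a, b) ∈ T
  have hinj : Set.InjOn f (s : Set V) := by
    intro x hx y hy hxy
    simp only [s, coe_filter, mem_univ, true_and, Set.mem_ofPred_eq] at hx hy
    obtain ⟨b, hb⟩ := hx
    obtain ⟨c, hc⟩ := hy
    rw [hf x b hb, hf y c hc] at hxy
    subst hxy
    exact h2 _ _ _ hb hc
  obtain ⟨g, hg⟩ := Finset.exists_equiv_extend_of_card_eq (α := V) (β := V) (t := univ) (by simp)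
    (s := s) (f := f) (subset_univ _) hinj
  refine ⟨g.trans (Equiv.subtypeUnivEquiv (fun x => mem_univ x)), ?_⟩
  intro a b hab
  have := hg a (by simp only [s, mem_filter, mem_univ, true_and]; exact ⟨b, hab⟩)
  rw [← hf a b hab, ← this]
  rfl

/-- step (ii): repair of an almost automorphism -/
lemma repair (σ : ι → Equiv.Perm V) (T : Finset (V × V))
    (h1 : ∀ a b b', (a, b) ∈ T → (a, b') ∈ T → b = b')
    (h2 : ∀ a a' b, (a, b) ∈ T → (a', b) ∈ T → a = a') (θ1 : Equiv.Perm V) (δ ρ : ℝ)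
    (h3 : ((∑ i, (T.filter fun x => (σ i x.1, σ i x.2) ∉ T).card : ℕ) : ℝ) ≤ δ)
    (h4 : ((univ.filter fun a => (a, θ1 a) ∉ T).card : ℝ) ≤ ρ) :
    ∃ (W : Finset V) (θ2 : Equiv.Perm V), (bd σ W : ℝ) ≤ δ ∧ (Fintype.card V - ρ ≤ (W.card : ℝ)) ∧
      dfc σ θ2 ≤ δ + Fintype.card ι * (Fintype.card V - W.card) ∧ dis θ1 θ2 ≤ ρ := by
  obtain ⟨θ2, hθ⟩ := extend T h1 h2
  let W : Finset V := univ.filter fun a => (a, θ2 a) ∈ T
  have hW : ∀ a, a ∈ W ↔ (a, θ2 a) ∈ T := by intro a; simp [W]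
  refine ⟨W, θ2, ?_, ?_, ?_, ?_⟩
  · refine le_trans ?_ h3
    unfold bd
    rw [Nat.cast_le]
    apply Finset.sum_le_sum
    intro i _
    apply Finset.card_le_card_of_injOn (fun a => (a, θ2 a))
    · intro a ha
      simp only [coe_filter, Set.mem_ofPred_eq, hW] at ha ⊢
      refine ⟨ha.1, fun h => ha.2 ?_⟩
      rwa [hθ _ _ h]
    · intro a _ b _ hab
      exact congrArg Prod.fst hab
  · have hs : (univ.filter fun a => (a, θ1 a) ∈ T) ⊆ W := by
      intro a
      simp only [mem_filter, mem_univ, true_and, hW]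
      intro h
      rwa [hθ _ _ h]
    have := Finset.card_filter_add_card_filter_not (s := (univ : Finset V)) (fun x => (x, θ1 x) ∈ T)
    have h5 := card_le_card hs
    have h6 : (Fintype.card V : ℝ) ≤ W.card + ((univ.filter fun a => (a, θ1 a) ∉ T).card : ℝ) := by
      rw [← Nat.cast_add, Nat.cast_le, ← Finset.card_univ, ← this]
      omega
    linarith
  · have hsum : (∑ i : ι, (univ.filter fun a => θ2 (σ i a) ≠ σ i (θ2 a)).card) ≤
        (∑ i : ι, ((T.filter fun x => (σ i x.1, σ i x.2) ∉ T).card + (univ \ W).card)) := by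
      apply Finset.sum_le_sum
      intro i _
      have hsub : (univ.filter fun a => θ2 (σ i a) ≠ σ i (θ2 a)) ⊆
          (W.filter fun a => (σ i a, σ i (θ2 a)) ∉ T) ∪ (univ \ W) := by
        intro a
        simp only [mem_filter, mem_univ, true_and, mem_union]
        intro h
        by_contra hc
        push Not at hc
        exact h (hθ _ _ (hc.1 (by simpa using hc.2)))
      refine le_trans (card_le_card hsub) (le_trans (card_union_le _ _) ?_)
      apply Nat.add_le_add_right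
      apply Finset.card_le_card_of_injOn (fun a => (a, θ2 a))
      · intro a ha
        simp only [coe_filter, Set.mem_ofPred_eq, hW] at ha ⊢
        exact ha
      · intro a _ b _ hab
        exact congrArg Prod.fst hab
    have h5 : dfc σ θ2 ≤ ((∑ i, (T.filter fun x => (σ i x.1, σ i x.2) ∉ T).card : ℕ) : ℝ) +
        Fintype.card ι * ((univ \ W).card : ℝ) := by
      unfold dfc
      rw [Finset.sum_add_distrib, Finset.sum_const, Finset.card_univ, smul_eq_mul] at hsum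
      exact_mod_cast hsum
    have h6 : ((univ \ W).card : ℝ) = Fintype.card V - W.card := by
      rw [eq_sub_iff_add_eq]
      have := Finset.card_sdiff_add_card_eq_card (subset_univ W)
      rw [Finset.card_univ] at this
      exact_mod_cast this
    rw [h6] at h5
    linarith
  · refine le_trans ?_ h4
    unfold dis
    rw [Nat.cast_le]
    apply card_le_card
    intro a
    simp only [mem_filter, mem_univ, true_and]
    intro h h'
    exact h (hθ _ _ h').symm

end KunThom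

/-- TARGET -/
theorem kun_thom_finite {ι : Type} [Fintype ι] [Nonempty ι] {p D : ℕ} (hp : p.Prime)
    (hD : D ^ 2 < p) {nc : ι → ι → Prop} (hsymm : ∀ i j, nc i j → nc j i)
    (hirr : ∀ i, ¬ nc i i) (hdeg : ∀ i, (univ.filter fun j => nc i j).card ≤ D)
    (e : ℝ → ℝ) (he : ∀ η, 0 < η → 0 < e η) :
    ∃ ηB : ℝ, 0 < ηB ∧ ηB < 1 / 2 ∧ ∃ β : ℝ, 0 < β ∧
      ∀ (V : Type) [Fintype V] [Nonempty V] (σ : ι → Equiv.Perm V) (B : Finset V),
      IsTAct p nc σ B → (B.card : ℝ) ≤ β * Fintype.card V →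
      (∀ W : Finset V, (bd σ W : ℝ) ≤ e (1 / 10) * Fintype.card V →
        ((W.card : ℝ) ≤ (1 / 10) * Fintype.card V ∨
          (1 - 1 / 10) * Fintype.card V ≤ (W.card : ℝ))) →
      (∀ W : Finset V, (bd σ W : ℝ) ≤ e ηB * Fintype.card V →
        ((W.card : ℝ) ≤ ηB * Fintype.card V ∨
          (1 - ηB) * Fintype.card V ≤ (W.card : ℝ))) →
      ∀ (Γ : Type) [Group Γ] (F : Finset Γ) (g : Γ → Equiv.Perm V),
      (∀ γ ∈ F, ∀ i, ((univ.filter fun a => g γ (σ i a) ≠ σ i (g γ a)).card : ℝ) ≤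
        β * Fintype.card V) →
      (∀ γ ∈ F, ∀ γ' ∈ F, γ * γ' ∈ F →
        ((univ.filter fun a => g (γ * γ') a ≠ g γ (g γ' a)).card : ℝ) ≤
        β * Fintype.card V) →
      (∀ γ ∈ F, ∀ γ' ∈ F, γ ≠ γ' →
        ((univ.filter fun a => g γ a = g γ' a).card : ℝ) ≤ (1 / 4) * Fintype.card V) →
      ∃ (Q : Type) (_ : Fintype Q) (ψ : Γ → Equiv.Perm Q),
        (∀ γ ∈ F, ∀ γ' ∈ F, γ * γ' ∈ F → ψ (γ * γ') = ψ γ * ψ γ') ∧
        (∀ γ ∈ F, ∀ γ' ∈ F, ψ γ = ψ γ' → γ = γ') := by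
  obtain ⟨C, hC, hil⟩ := il_graph hp hD hsymm hirr hdeg
  have hN : (0 : ℝ) < Fintype.card ι := by exact_mod_cast Fintype.card_pos
  set N : ℝ := (Fintype.card ι : ℝ) with hNdef
  -- constants
  obtain ⟨δ', hδ'0, hδ'1, hδ'2⟩ : ∃ δ' : ℝ, 0 < δ' ∧ 2 * δ' ≤ e (1 / 10) ∧ C * δ' ≤ 1 / 100 := by
    refine ⟨min (e (1 / 10) / 2) (1 / (100 * C)), lt_min (by have := he (1/10) (by norm_num); linarith)
      (by positivity), ?_, ?_⟩
    · have := min_le_left (e (1 / 10) / 2) (1 / (100 * C))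
      linarith
    · have := min_le_right (e (1 / 10) / 2) (1 / (100 * C))
      calc C * min (e (1 / 10) / 2) (1 / (100 * C)) ≤ C * (1 / (100 * C)) :=
            mul_le_mul_of_nonneg_left this hC.le
        _ = 1 / 100 := by field_simp
  obtain ⟨ηB, hη0, hη1, hη2⟩ : ∃ ηB : ℝ, 0 < ηB ∧ ηB ≤ 1 / 4 ∧ N * ηB ≤ δ' / 2 := by
    refine ⟨min (1 / 4) (δ' / (2 * N)), lt_min (by norm_num) (by positivity), min_le_left _ _, ?_⟩
    calc N * min (1 / 4) (δ' / (2 * N)) ≤ N * (δ' / (2 * N)) :=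
          mul_le_mul_of_nonneg_left (min_le_right _ _) hN.le
      _ = δ' / 2 := by field_simp
  obtain ⟨δ, hδ0, hδ1, hδ2, hδ3⟩ : ∃ δ : ℝ, 0 < δ ∧ δ ≤ δ' / 2 ∧ δ ≤ e ηB ∧ δ ≤ 1 / 100 := by
    refine ⟨min (δ' / 2) (min (e ηB) (1 / 100)), lt_min (by positivity) (lt_min (he _ hη0) (by norm_num)),
      min_le_left _ _, (min_le_right _ _).trans (min_le_left _ _), (min_le_right _ _).trans (min_le_right _ _)⟩
  obtain ⟨β0, hβ0, hil⟩ := hil δ hδ0
  obtain ⟨β, hβ1, hβ2, hβ3, hβ4⟩ : ∃ β : ℝ, 0 < β ∧ β ≤ β0 ∧ C * (N * β) ≤ 1 / 100 ∧ β ≤ 1 / 100 := by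
    refine ⟨min β0 (min (1 / (100 * C * N)) (1 / 100)), lt_min hβ0 (lt_min (by positivity) (by norm_num)),
      min_le_left _ _, ?_, (min_le_right _ _).trans (min_le_right _ _)⟩
    have h := (min_le_right β0 (min (1 / (100 * C * N)) (1 / 100))).trans (min_le_left _ _)
    calc C * (N * min β0 (min (1 / (100 * C * N)) (1 / 100))) ≤ C * (N * (1 / (100 * C * N))) := by
          apply mul_le_mul_of_nonneg_left _ hC.le
          exact mul_le_mul_of_nonneg_left h hN.le
      _ = 1 / 100 := by field_simp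
  refine ⟨ηB, hη0, by linarith, β, hβ1, ?_⟩
  intro V _ _ σ B hT hB hex1 hex2 Γ _ F g hg1 hg2 hg3
  have hn : (0 : ℝ) < Fintype.card V := by exact_mod_cast Fintype.card_pos
  set n : ℝ := (Fintype.card V : ℝ) with hndef
  -- step (ii)
  have step : ∀ γ ∈ F, ∀ θ : Equiv.Perm V, KunThom.dfc σ θ ≤ δ' * n → ∃ θ2 : Equiv.Perm V,
      KunThom.dfc σ θ2 ≤ δ' * n ∧ KunThom.dis (g γ * θ) θ2 ≤ (3 / 100) * n := by
    intro γ hγ θ hθ
    obtain ⟨T, t1, t2, t3, t4⟩ := hil V σ B hT (hB.trans (mul_le_mul_of_nonneg_right hβ2 hn.le)) (g γ * θ)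
    have hd : KunThom.dfc σ (g γ * θ) ≤ (δ' + N * β) * n := by
      have h1 := KunThom.dfc_mul σ (g γ) θ
      have h2 : KunThom.dfc σ (g γ) ≤ N * (β * n) := by
        unfold KunThom.dfc
        rw [Nat.cast_sum]
        refine (Finset.sum_le_card_nsmul _ _ (β * n) (fun i _ => hg1 γ hγ i)).trans ?_
        rw [nsmul_eq_mul, Finset.card_univ]
      nlinarith
    have hρ : C * ((∑ i, (univ.filter fun a => (g γ * θ) (σ i a) ≠ σ i ((g γ * θ) a)).card : ℕ) : ℝ)
            + δ * Fintype.card V ≤ (3 / 100) * n := by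
      have h1 : C * KunThom.dfc σ (g γ * θ) ≤ C * ((δ' + N * β) * n) := mul_le_mul_of_nonneg_left hd hC.le
      have h2 : C * ((δ' + N * β) * n) ≤ (2 / 100) * n := by
        have : C * ((δ' + N * β) * n) = (C * δ' + C * (N * β)) * n := by ring
        rw [this]
        apply mul_le_mul_of_nonneg_right _ hn.le
        linarith
      have h3 : δ * n ≤ (1 / 100) * n := mul_le_mul_of_nonneg_right hδ3 hn.le
      unfold KunThom.dfc at h1
      linarith
    obtain ⟨W, θ2, w1, w2, w3, w4⟩ := KunThom.repair σ T t1 t2 (g γ * θ) _ _ t3 (t4.trans hρ)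
    refine ⟨θ2, ?_, w4⟩
    have hW : (1 - ηB) * n ≤ W.card := by
      rcases hex2 W (w1.trans (mul_le_mul_of_nonneg_right hδ2 hn.le)) with h | h
      · exfalso
        have : ηB * n ≤ (1 / 4) * n := mul_le_mul_of_nonneg_right hη1 hn.le
        linarith
      · exact h
    have h5 : N * (n - W.card) ≤ N * (ηB * n) := mul_le_mul_of_nonneg_left (by linarith) hN.le
    have h6 : N * (ηB * n) ≤ δ' / 2 * n := by
      rw [← mul_assoc]
      exact mul_le_mul_of_nonneg_right hη2 hn.le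
    have h7 : δ * n ≤ δ' / 2 * n := mul_le_mul_of_nonneg_right hδ1 hn.le
    linarith
  -- step (i)
  have dich : ∀ θ θ' : Equiv.Perm V, KunThom.dfc σ θ ≤ δ' * n → KunThom.dfc σ θ' ≤ δ' * n →
      KunThom.dis θ θ' < (9 / 10) * n → KunThom.dis θ θ' ≤ (1 / 10) * n := by
    intro θ θ' h h' hlt
    have h1 := KunThom.bd_agree σ θ θ'
    have h2 := KunThom.card_agree θ θ'
    rcases hex1 (univ.filter fun x => θ x = θ' x) (by
      have : 2 * δ' * n ≤ e (1 / 10) * n := mul_le_mul_of_nonneg_right hδ'1 hn.le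
      linarith) with h3 | h3
    · exfalso
      rw [h2] at h3
      linarith
    · rw [h2] at h3
      linarith
  let A : Type := {θ : Equiv.Perm V // KunThom.dfc σ θ ≤ δ' * n}
  let S : Setoid A :=
    { r := fun θ θ' => KunThom.dis θ.1 θ'.1 ≤ (1 / 10) * n
      iseqv := ⟨fun θ => by rw [KunThom.dis_self]; positivity,
        fun {a b} h => by rw [KunThom.dis_comm]; exact h,
        fun {a b c} h h' => dich _ _ a.2 c.2 (by
          have := KunThom.dis_tri a.1 b.1 c.1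
          linarith)⟩ }
  have hS : ∀ a b : A, (Quotient.mk S a = Quotient.mk S b) ↔ KunThom.dis a.1 b.1 ≤ (1 / 10) * n := by
    intro a b
    exact Quotient.eq
  choose! st st1 st2 using step
  let stA : (γ : Γ) → γ ∈ F → A → A := fun γ hγ a => ⟨st γ a.1, st1 γ hγ a.1 a.2⟩
  have hst : ∀ γ (hγ : γ ∈ F) (a : A), KunThom.dis (g γ * a.1) (stA γ hγ a).1 ≤ (3 / 100) * n :=
    fun γ hγ a => st2 γ hγ a.1 a.2
  let Q : Type := Quotient S
  have wd : ∀ γ (hγ : γ ∈ F) (a b : A), S.r a b → S.r (stA γ hγ a) (stA γ hγ b) := by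
    intro γ hγ a b hab
    have hab' : KunThom.dis a.1 b.1 ≤ (1 / 10) * n := hab
    apply dich _ _ (stA γ hγ a).2 (stA γ hγ b).2
    have h1 := KunThom.dis_tri (stA γ hγ a).1 (g γ * a.1) (stA γ hγ b).1
    have h2 := KunThom.dis_tri (g γ * a.1) (g γ * b.1) (stA γ hγ b).1
    rw [KunThom.dis_mul_left] at h2
    have c1 := KunThom.dis_comm (stA γ hγ a).1 (g γ * a.1)
    have h3 := hst γ hγ a
    have h4 := hst γ hγ b
    linarith
  let ψ0 : (γ : Γ) → γ ∈ F → Q → Q := fun γ hγ =>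
    Quotient.map (stA γ hγ) (fun a b hab => wd γ hγ a b hab)
  have ψ0mk : ∀ γ (hγ : γ ∈ F) (a : A), ψ0 γ hγ (Quotient.mk S a) = Quotient.mk S (stA γ hγ a) :=
    fun γ hγ a => rfl
  have inj : ∀ γ (hγ : γ ∈ F), Function.Injective (ψ0 γ hγ) := by
    intro γ hγ x y
    induction x using Quotient.inductionOn with | _ a => ?_
    induction y using Quotient.inductionOn with | _ b => ?_
    intro h
    rw [ψ0mk γ hγ a, ψ0mk γ hγ b, hS] at h
    rw [hS]
    apply dich _ _ a.2 b.2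
    have h1 := KunThom.dis_tri (g γ * a.1) (stA γ hγ a).1 (g γ * b.1)
    have h2 := KunThom.dis_tri (stA γ hγ a).1 (stA γ hγ b).1 (g γ * b.1)
    rw [KunThom.dis_mul_left] at h1
    have c1 := KunThom.dis_comm (stA γ hγ b).1 (g γ * b.1)
    have h3 := hst γ hγ a
    have h4 := hst γ hγ b
    linarith
  have hfin : Finite Q := Quotient.finite _
  let ψ : Γ → Equiv.Perm Q := fun γ => if hγ : γ ∈ F then
    Equiv.ofBijective (ψ0 γ hγ) (Finite.injective_iff_bijective.mp (inj γ hγ)) else 1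
  have hψ : ∀ γ (hγ : γ ∈ F) (x : Q), ψ γ x = ψ0 γ hγ x := by
    intro γ hγ x
    have : ψ γ = Equiv.ofBijective (ψ0 γ hγ) (Finite.injective_iff_bijective.mp (inj γ hγ)) :=
      dif_pos hγ
    rw [this]
    rfl
  refine ⟨Q, Fintype.ofFinite Q, ψ, ?_, ?_⟩
  · intro γ hγ γ' hγ' hγγ
    ext x
    rw [Equiv.Perm.mul_apply, hψ _ hγγ, hψ _ hγ', hψ _ hγ]
    induction x using Quotient.inductionOn with | _ a => ?_
    rw [ψ0mk _ hγγ a, ψ0mk γ' hγ' a, ψ0mk γ hγ, hS]
    apply dich _ _ (stA _ hγγ a).2 (stA γ hγ _).2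
    have h1 := hst γ hγ (stA γ' hγ' a)
    have h2 := hst γ' hγ' a
    have h3 := hst _ hγγ a
    have h4 : KunThom.dis (g (γ * γ')) (g γ * g γ') ≤ β * n := hg2 γ hγ γ' hγ' hγγ
    have h5 : β * n ≤ (1 / 100) * n := mul_le_mul_of_nonneg_right hβ4 hn.le
    have t1 := KunThom.dis_tri (stA _ hγγ a).1 (g (γ * γ') * a.1) (stA γ hγ (stA γ' hγ' a)).1
    have t2 := KunThom.dis_tri (g (γ * γ') * a.1) (g γ * g γ' * a.1) (stA γ hγ (stA γ' hγ' a)).1
    have t3 := KunThom.dis_tri (g γ * g γ' * a.1) (g γ * (stA γ' hγ' a).1) (stA γ hγ (stA γ' hγ' a)).1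
    have c1 := KunThom.dis_comm (stA _ hγγ a).1 (g (γ * γ') * a.1)
    have c2 : KunThom.dis (g (γ * γ') * a.1) (g γ * g γ' * a.1) = KunThom.dis (g (γ * γ')) (g γ * g γ') :=
      KunThom.dis_mul_right _ _ _
    have c3 : KunThom.dis (g γ * g γ' * a.1) (g γ * (stA γ' hγ' a).1) =
        KunThom.dis (g γ' * a.1) (stA γ' hγ' a).1 := by
      rw [mul_assoc, KunThom.dis_mul_left]
    linarith
  · intro γ hγ γ' hγ' hEq
    by_contra hne
    let o : A := ⟨1, by rw [KunThom.dfc_one]; positivity⟩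
    have h0 : ψ γ (Quotient.mk S o) = ψ γ' (Quotient.mk S o) := by rw [hEq]
    rw [hψ _ hγ, hψ _ hγ', ψ0mk γ hγ o, ψ0mk γ' hγ' o, hS] at h0
    have h1 := hst γ hγ o
    have h2 := hst γ' hγ' o
    have e1 : o.1 = 1 := rfl
    rw [e1, mul_one] at h1 h2
    have h3 := hg3 γ hγ γ' hγ' hne
    rw [KunThom.card_agree] at h3
    have t1 := KunThom.dis_tri (g γ) (stA γ hγ o).1 (g γ')
    have t2 := KunThom.dis_tri (stA γ hγ o).1 (stA γ' hγ' o).1 (g γ')
    have c1 := KunThom.dis_comm (stA γ' hγ' o).1 (g γ')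
    linarith

end Helper418
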