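import Pool.Agent.Helper418_Sofic.ImprT
import Pool.Agent.Helper418_Sofic.Erg
import Pool.Agent.Helper418_Sofic.KunThom
import Pool.Agent.Helper418_Sofic.SzNear
import Pool.Agent.Helper418_Sofic.Defs

open Filter Topology Finset
open scoped Classical

namespace Helper418

/-! GIVEN (proved elsewhere) -/
variable {A : ℕ → Type} [∀ n, Fintype (A n)] {ι : Type} [Fintype ι]

/-! GIVEN (proved elsewhere) -/
namespace Lef

theorem ae_neBot (A : ℕ → Type) [∀ n, Fintype (A n)] [∀ n, Nonempty (A n)] :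
    (ae A).NeBot := by
  refine ⟨fun h => ?_⟩
  have h1 : (∅ : Set (Σ n, A n)) ∈ ae A := by rw [h]; exact Filter.mem_bot
  have h2 : Tendsto (dens (fun n (a : A n) => (⟨n, a⟩ : Σ n, A n) ∉ (∅ : Set (Σ n, A n))))
      atTop (𝓝 0) := h1
  have h3 : dens (fun n (a : A n) => (⟨n, a⟩ : Σ n, A n) ∉ (∅ : Set (Σ n, A n))) =
      fun _ => (1 : ℝ) := by
    funext n
    have h4 : (Fintype.card (A n) : ℝ) ≠ 0 := by
      exact_mod_cast Fintype.card_ne_zero
    simp [dens]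
  rw [h3] at h2
  have := tendsto_nhds_unique h2 tendsto_const_nhds
  norm_num at this

/-- permutations preserve null events -/
theorem ae_perm {A : ℕ → Type} [∀ n, Fintype (A n)] {P : ∀ n, A n → Prop}
    (h : ∀ᶠ x in ae A, P x.1 x.2) (τ : ∀ n, Equiv.Perm (A n)) :
    ∀ᶠ x in ae A, P x.1 (τ x.1 x.2) := by
  have h' := mem_ae.1 h
  refine (mem_ae (P := fun n a => P n (τ n a))).2 ?_
  have : dens (fun n a => ¬ P n (τ n a)) = dens (fun n a => ¬ P n a) := by
    funext n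
    unfold dens
    congr 2
    refine Finset.card_bij (fun a _ => τ n a) ?_ ?_ ?_
    · intro a ha; simpa using ha
    · intro a _ b _ hab; exact (τ n).injective hab
    · intro b hb
      exact ⟨(τ n).symm b, by simpa using hb, by simp⟩
  rw [this]
  exact h'

/-- an a.e. event occurs on most of almost every part -/
theorem ae_parts {A : ℕ → Type} [∀ n, Fintype (A n)] {P : ∀ n, A n → Prop}
    (h : ∀ᶠ x in ae A, P x.1 x.2) (f : ∀ n, A n → ℕ) {η : ℝ} (hη : 0 < η) :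
    ∀ᶠ x in ae A, (((univ.filter fun y => ¬ P x.1 y).filter fun y => f x.1 y = f x.1 x.2).card
      : ℝ) ≤ η * sz (f x.1) x.2 := by
  have h' := mem_ae.1 h
  refine (mem_ae (P := fun n a =>
    (((univ.filter fun y => ¬ P n y).filter fun y => f n y = f n a).card
      : ℝ) ≤ η * sz (f n) a)).2 ?_
  have h2 : Tendsto (fun n => (1 / η) * dens (fun n a => ¬ P n a) n) atTop (𝓝 0) := by
    have := h'.const_mul (1 / η)
    rwa [mul_zero] at this
  refine squeeze_zero (fun n => dens_nonneg _ n) (fun n => ?_) h2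
  have := markov_parts (f n) (univ.filter fun y => ¬ P n y) hη
  unfold dens
  rw [← mul_div_assoc]
  apply div_le_div_of_nonneg_right _ (Nat.cast_nonneg _)
  refine le_trans (le_of_eq ?_) (this.trans (le_of_eq ?_))
  · refine congrArg _ (congrArg _ (Finset.ext fun a => ?_))
    simp only [Finset.mem_filter, Finset.mem_univ, true_and, not_le]
  · refine congrArg _ (congrArg _ (congrArg _ (Finset.ext fun a => ?_)))
    simp only [Finset.mem_filter, Finset.mem_univ, true_and]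

/-- extension of a partial permutation -/
theorem exists_ext {X : Type} [Fintype X] (φ : Equiv.Perm X) (V : Finset X) :
    ∃ g : Equiv.Perm {a // a ∈ V}, ∀ a : {a // a ∈ V}, φ a.1 ∈ V → (g a).1 = φ a.1 := by
  let p : {a // a ∈ V} → Prop := fun a => φ a.1 ∈ V
  let q : {a // a ∈ V} → Prop := fun a => φ.symm a.1 ∈ V
  let e : {a // p a} ≃ {a // q a} :=
    { toFun := fun a => ⟨⟨φ a.1.1, a.2⟩, by show φ.symm (φ a.1.1) ∈ V; simp⟩
      invFun := fun a => ⟨⟨φ.symm a.1.1, a.2⟩, by show φ (φ.symm a.1.1) ∈ V; simp⟩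
      left_inv := fun a => by ext; simp
      right_inv := fun a => by ext; simp }
  refine ⟨e.extendSubtype, fun a ha => ?_⟩
  rw [Equiv.extendSubtype_apply_of_mem e a ha]
  rfl

section
variable {A : ℕ → Type} [∀ n, Fintype (A n)] {G : Type} [Group G] (Φ : Approx G A)

theorem ae_one : ∀ᶠ x in ae A, Φ.φ x.1 1 x.2 = x.2 := by
  filter_upwards [Φ.mul 1 1] with x hx
  rw [mul_one] at hx
  exact ((Φ.φ x.1 1).injective hx).symm

theorem ae_closure {ι : Type} {s : ι → G} {f : ∀ n, A n → ℕ}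
    (hfs : ∀ i, ∀ᶠ x in ae A, f x.1 (Φ.φ x.1 (s i) x.2) = f x.1 x.2) {h : G}
    (hh : h ∈ Subgroup.closure (Set.range s)) :
    ∀ᶠ x in ae A, f x.1 (Φ.φ x.1 h x.2) = f x.1 x.2 := by
  induction hh using Subgroup.closure_induction with
  | mem y hy =>
    obtain ⟨i, rfl⟩ := hy
    exact hfs i
  | one =>
    filter_upwards [ae_one Φ] with x hx
    rw [hx]
  | mul g k _ _ hg hk =>
    have hg' := ae_perm (P := fun n a => f n (Φ.φ n g a) = f n a) hg (fun n => Φ.φ n k)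
    filter_upwards [Φ.mul g k, hg', hk] with x h1 h2 h3
    rw [h1, h2, h3]
  | inv g _ hg =>
    have hg' := ae_perm (P := fun n a => f n (Φ.φ n g a) = f n a) hg (fun n => Φ.φ n g⁻¹)
    filter_upwards [Φ.mul g g⁻¹, hg', ae_one Φ] with x h1 h2 h3
    rw [mul_inv_cancel, h3] at h1
    rw [← h2, ← h1]

theorem ae_comm {g h : G} (hc : Commute g h) :
    ∀ᶠ x in ae A, Φ.φ x.1 g (Φ.φ x.1 h x.2) = Φ.φ x.1 h (Φ.φ x.1 g x.2) := by
  filter_upwards [Φ.mul g h, Φ.mul h g] with x h1 h2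
  rw [← h1, ← h2, hc.eq]

theorem ae_sep {g h : G} (hfree : ∀ᶠ x in ae A, Φ.φ x.1 (g⁻¹ * h) x.2 ≠ x.2) :
    ∀ᶠ x in ae A, Φ.φ x.1 g x.2 ≠ Φ.φ x.1 h x.2 := by
  filter_upwards [Φ.mul g (g⁻¹ * h), hfree] with x h1 h2 h3
  rw [mul_inv_cancel_left] at h1
  rw [h1] at h3
  exact h2 ((Φ.φ x.1 g).injective h3).symm

end

/-- the finite verification on a single part -/
theorem on_part {G : Type} [Group G] {ι : Type} [Fintype ι]
    {X : Type} [Fintype X] (φ : G → Equiv.Perm X) (V E : Finset X) (s : ι → G)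
    (F : Finset G)
    (hFV : ∀ a ∈ V, a ∉ E → ∀ γ ∈ F, φ γ a ∈ V)
    (hmul : ∀ a ∈ V, a ∉ E → ∀ γ ∈ F, ∀ γ' ∈ F, φ (γ * γ') a = φ γ (φ γ' a))
    (hcomm : ∀ a ∈ V, a ∉ E → ∀ γ ∈ F, ∀ i, φ γ (φ (s i) a) = φ (s i) (φ γ a))
    (hsep : ∀ a ∈ V, a ∉ E → ∀ γ ∈ F, ∀ γ' ∈ F, γ ≠ γ' → φ γ a ≠ φ γ' a)
    (σ : ι → Equiv.Perm {a // a ∈ V})
    (hσ : ∀ i, ∀ a : {a // a ∈ V}, a.1 ∉ E → (σ i a).1 = φ (s i) a.1)
    (g : G → Equiv.Perm {a // a ∈ V})
    (hg : ∀ γ, ∀ a : {a // a ∈ V}, φ γ a.1 ∈ V → (g γ a).1 = φ γ a.1) :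
    (∀ γ ∈ F, ∀ i, (univ.filter fun a => g γ (σ i a) ≠ σ i (g γ a)).card ≤
        3 * (univ.filter fun a : {a // a ∈ V} => a.1 ∈ E).card) ∧
      (∀ γ ∈ F, ∀ γ' ∈ F, γ * γ' ∈ F →
        (univ.filter fun a => g (γ * γ') a ≠ g γ (g γ' a)).card ≤
        2 * (univ.filter fun a : {a // a ∈ V} => a.1 ∈ E).card) ∧
      (∀ γ ∈ F, ∀ γ' ∈ F, γ ≠ γ' →
        (univ.filter fun a => g γ a = g γ' a).card ≤
          (univ.filter fun a : {a // a ∈ V} => a.1 ∈ E).card) := by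
  have hpre : ∀ τ : Equiv.Perm {a // a ∈ V},
      (univ.filter fun a : {a // a ∈ V} => (τ a).1 ∈ E).card =
        (univ.filter fun a : {a // a ∈ V} => a.1 ∈ E).card := by
    intro τ
    refine Finset.card_bij (fun a _ => τ a) ?_ ?_ ?_
    · intro a ha; simpa using ha
    · intro a _ b _ hab; exact τ.injective hab
    · intro b hb
      exact ⟨τ.symm b, by simpa using hb, by simp⟩
  refine ⟨?_, ?_, ?_⟩
  · intro γ hγ i
    have hsub : (univ.filter fun a => g γ (σ i a) ≠ σ i (g γ a)) ⊆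
        (univ.filter fun a : {a // a ∈ V} => a.1 ∈ E) ∪
        (univ.filter fun a : {a // a ∈ V} => (σ i a).1 ∈ E) ∪
        (univ.filter fun a : {a // a ∈ V} => (g γ a).1 ∈ E) := by
      intro a ha
      simp only [Finset.mem_filter, Finset.mem_univ, true_and, Finset.mem_union] at ha ⊢
      by_contra hcon
      push Not at hcon
      obtain ⟨⟨h1, h2⟩, h3⟩ := hcon
      apply ha
      apply Subtype.ext
      rw [hg γ (σ i a) (hFV _ (σ i a).2 h2 γ hγ), hσ i a h1, hσ i (g γ a) h3,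
        hg γ a (hFV _ a.2 h1 γ hγ)]
      exact hcomm _ a.2 h1 γ hγ i
    refine (Finset.card_le_card hsub).trans ?_
    refine (Finset.card_union_le _ _).trans ?_
    have := Finset.card_union_le (univ.filter fun a : {a // a ∈ V} => a.1 ∈ E)
      (univ.filter fun a : {a // a ∈ V} => (σ i a).1 ∈ E)
    rw [hpre (σ i)] at this
    rw [hpre (g γ)]
    omega
  · intro γ hγ γ' hγ' hγγ'
    have hsub : (univ.filter fun a => g (γ * γ') a ≠ g γ (g γ' a)) ⊆
        (univ.filter fun a : {a // a ∈ V} => a.1 ∈ E) ∪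
        (univ.filter fun a : {a // a ∈ V} => (g γ' a).1 ∈ E) := by
      intro a ha
      simp only [Finset.mem_filter, Finset.mem_univ, true_and, Finset.mem_union] at ha ⊢
      by_contra hcon
      push Not at hcon
      obtain ⟨h1, h3⟩ := hcon
      apply ha
      apply Subtype.ext
      rw [hg (γ * γ') a (hFV _ a.2 h1 _ hγγ'), hg γ (g γ' a) (hFV _ (g γ' a).2 h3 γ hγ),
        hg γ' a (hFV _ a.2 h1 γ' hγ')]
      exact hmul _ a.2 h1 γ hγ γ' hγ'
    refine (Finset.card_le_card hsub).trans ?_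
    refine (Finset.card_union_le _ _).trans ?_
    rw [hpre (g γ')]
    omega
  · intro γ hγ γ' hγ' hne
    apply Finset.card_le_card
    intro a ha
    simp only [Finset.mem_filter, Finset.mem_univ, true_and] at ha ⊢
    by_contra h1
    have h2 := congrArg Subtype.val ha
    rw [hg γ a (hFV _ a.2 h1 γ hγ), hg γ' a (hFV _ a.2 h1 γ' hγ')] at h2
    exact hsep _ a.2 h1 γ hγ γ' hγ' hne h2

/-- transfer of the boundary -/
theorem bd_transfer {ι : Type} [Fintype ι] {X : Type} [Fintype X] (τ : ι → Equiv.Perm X)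
    (V E : Finset X) (σ : ι → Equiv.Perm {a // a ∈ V})
    (hσ : ∀ i, ∀ a : {a // a ∈ V}, a.1 ∉ E → (σ i a).1 = τ i a.1)
    (W : Finset {a // a ∈ V}) :
    bd τ (W.map (Function.Embedding.subtype _)) ≤ bd σ W +
      Fintype.card ι * (univ.filter fun a : {a // a ∈ V} => a.1 ∈ E).card := by
  unfold bd
  have : ∀ i ∈ (univ : Finset ι), ((W.map (Function.Embedding.subtype _)).filter fun x =>
      τ i x ∉ W.map (Function.Embedding.subtype _)).card ≤
      (W.filter fun x => σ i x ∉ W).card +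
        (univ.filter fun a : {a // a ∈ V} => a.1 ∈ E).card := by
    intro i _
    have hsub : ((W.map (Function.Embedding.subtype _)).filter fun x =>
      τ i x ∉ W.map (Function.Embedding.subtype _)) ⊆
      ((W.filter fun x => σ i x ∉ W) ∪
        (univ.filter fun a : {a // a ∈ V} => a.1 ∈ E)).map (Function.Embedding.subtype _) := by
      intro x hx
      rw [Finset.mem_filter] at hx
      obtain ⟨hx1, hx2⟩ := hx
      rw [Finset.mem_map] at hx1
      obtain ⟨a, ha, rfl⟩ := hx1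
      rw [Finset.mem_map]
      refine ⟨a, ?_, rfl⟩
      rw [Finset.mem_union]
      by_cases haE : a.1 ∈ E
      · right; simpa using haE
      · left
        rw [Finset.mem_filter]
        refine ⟨ha, fun hW => hx2 ?_⟩
        rw [Finset.mem_map]
        exact ⟨σ i a, hW, hσ i a haE⟩
    refine (Finset.card_le_card hsub).trans ?_
    rw [Finset.card_map]
    exact Finset.card_union_le _ _
  refine (Finset.sum_le_sum this).trans ?_
  rw [Finset.sum_add_distrib, Finset.sum_const, Finset.card_univ, smul_eq_mul]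
  refine le_of_eq (congrArg₂ _ (Finset.sum_congr rfl fun i _ => ?_) rfl)
  refine congrArg _ (Finset.ext fun a => ?_)
  simp only [Finset.mem_filter]

end Lef

/-- TARGET -/
theorem lef_of_ergodic [∀ n, Nonempty (A n)] [Nonempty ι] {G : Type} [Group G] (Φ : Approx G A)
    {p D : ℕ} {s : ι → G} (hs : IsTSystem p D s) {f : ∀ n, A n → ℕ}
    (hf : ∀ h, AsInv (fun n i => Φ.φ n (s i)) h → Ref f h)
    (hfs : AsInv (fun n i => Φ.φ n (s i)) f) (Γ : Subgroup G)
    (hΓ : ∀ γ ∈ Γ, ∀ i, Commute γ (s i))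
    (hΓf : ∀ γ ∈ Γ, ∀ᶠ x in ae A, f x.1 (Φ.φ x.1 γ x.2) = f x.1 x.2)
    (hfree : ∀ γ ∈ Γ, γ ≠ 1 → ∀ᶠ x in ae A, Φ.φ x.1 γ x.2 ≠ x.2)
    (F : Finset G) (hF : ∀ γ ∈ F, γ ∈ Γ) :
    ∃ (Q : Type) (_ : Fintype Q) (ψ : G → Equiv.Perm Q),
      (∀ γ ∈ F, ∀ γ' ∈ F, γ * γ' ∈ F → ψ (γ * γ') = ψ γ * ψ γ') ∧
      (∀ γ ∈ F, ∀ γ' ∈ F, ψ γ = ψ γ' → γ = γ') := by
  have hσ : Improves (fun n i => Φ.φ n (s i)) := improves_of_tsystem hs Φ
  have herg := fun η (hη : 0 < η) (hη' : η < 1 / 2) => ergodic_parts hσ hf hη hη'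
  choose! ε hεpos hεerg using herg
  let e : ℝ → ℝ := fun η => if 0 < η ∧ η < 1 / 2 then ε η / 2 else 1
  have he : ∀ η, 0 < η → 0 < e η := by
    intro η hη
    by_cases h2 : η < 1 / 2
    · have : e η = ε η / 2 := if_pos ⟨hη, h2⟩
      rw [this]
      exact half_pos (hεpos η hη h2)
    · have : e η = 1 := if_neg (fun h => h2 h.2)
      rw [this]
      exact one_pos
  have he2 : ∀ η, 0 < η → η < 1 / 2 → 2 * e η = ε η := by
    intro η hη h2
    have : e η = ε η / 2 := if_pos ⟨hη, h2⟩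
    rw [this]; ring
  obtain ⟨ηB, hηB0, hηB, β, hβ, hkt⟩ := kun_thom_finite (ι := ι) (p := p) (D := D) hs.prime hs.hD
    (nc := fun i j => ¬ Commute (s i) (s j)) (fun i j h h' => h h'.symm)
    (fun i h => h (Commute.refl _)) (fun i => by convert hs.deg i) e he
  obtain ⟨F0, hF0, htact⟩ := tact_local hs
  -- the good event
  let P : ∀ n, A n → Prop := fun n a =>
    (∀ g ∈ F0, ∀ h ∈ F0, Φ.φ n (g * h) a = Φ.φ n g (Φ.φ n h a)) ∧
    (∀ h ∈ F0, f n (Φ.φ n h a) = f n a) ∧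
    (∀ γ ∈ F, f n (Φ.φ n γ a) = f n a) ∧
    (∀ γ ∈ F, ∀ γ' ∈ F, Φ.φ n (γ * γ') a = Φ.φ n γ (Φ.φ n γ' a)) ∧
    (∀ γ ∈ F, ∀ i, Φ.φ n γ (Φ.φ n (s i) a) = Φ.φ n (s i) (Φ.φ n γ a)) ∧
    (∀ γ ∈ F, ∀ γ' ∈ F, γ ≠ γ' → Φ.φ n γ a ≠ Φ.φ n γ' a)
  have hP : ∀ᶠ x in ae A, P x.1 x.2 := by
    have h1 : ∀ᶠ x in ae A, ∀ g ∈ F0, ∀ h ∈ F0,
        Φ.φ x.1 (g * h) x.2 = Φ.φ x.1 g (Φ.φ x.1 h x.2) := by
      rw [Filter.eventually_all_finset]
      intro g _
      rw [Filter.eventually_all_finset]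
      intro h _
      exact Φ.mul g h
    have h2 : ∀ᶠ x in ae A, ∀ h ∈ F0, f x.1 (Φ.φ x.1 h x.2) = f x.1 x.2 := by
      rw [Filter.eventually_all_finset]
      intro h hh
      exact Lef.ae_closure Φ hfs (hF0 h hh)
    have h3 : ∀ᶠ x in ae A, ∀ γ ∈ F, f x.1 (Φ.φ x.1 γ x.2) = f x.1 x.2 := by
      rw [Filter.eventually_all_finset]
      intro γ hγ
      exact hΓf γ (hF γ hγ)
    have h4 : ∀ᶠ x in ae A, ∀ γ ∈ F, ∀ γ' ∈ F,
        Φ.φ x.1 (γ * γ') x.2 = Φ.φ x.1 γ (Φ.φ x.1 γ' x.2) := by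
      rw [Filter.eventually_all_finset]
      intro g _
      rw [Filter.eventually_all_finset]
      intro h _
      exact Φ.mul g h
    have h5 : ∀ᶠ x in ae A, ∀ γ ∈ F, ∀ i,
        Φ.φ x.1 γ (Φ.φ x.1 (s i) x.2) = Φ.φ x.1 (s i) (Φ.φ x.1 γ x.2) := by
      rw [Filter.eventually_all_finset]
      intro γ hγ
      rw [Filter.eventually_all]
      intro i
      exact Lef.ae_comm Φ (hΓ γ (hF γ hγ) i)
    have h6 : ∀ᶠ x in ae A, ∀ γ ∈ F, ∀ γ' ∈ F, γ ≠ γ' →
        Φ.φ x.1 γ x.2 ≠ Φ.φ x.1 γ' x.2 := by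
      rw [Filter.eventually_all_finset]
      intro γ hγ
      rw [Filter.eventually_all_finset]
      intro γ' hγ'
      by_cases hne : γ = γ'
      · exact Filter.Eventually.of_forall fun x h => absurd hne h
      · have hδ : γ⁻¹ * γ' ∈ Γ := Γ.mul_mem (Γ.inv_mem (hF γ hγ)) (hF γ' hγ')
        have hδ1 : γ⁻¹ * γ' ≠ 1 := fun h => hne (inv_mul_eq_one.1 h)
        filter_upwards [Lef.ae_sep Φ (hfree _ hδ hδ1)] with x hx _
        exact hx
    filter_upwards [h1, h2, h3, h4, h5, h6] with x k1 k2 k3 k4 k5 k6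
    exact ⟨k1, k2, k3, k4, k5, k6⟩
  -- constants
  have hN : (0 : ℝ) < (Fintype.card ι : ℝ) + 1 := by positivity
  have he10 : 0 < e (1 / 10) := he _ (by norm_num)
  have heB : 0 < e ηB := he _ hηB0
  let β' : ℝ := min (β / 3) (min (e (1 / 10) / ((Fintype.card ι : ℝ) + 1))
    (min (e ηB / ((Fintype.card ι : ℝ) + 1)) (1 / 4)))
  have hβ' : 0 < β' := by
    refine lt_min (by positivity) (lt_min (by positivity) (lt_min (by positivity) (by norm_num)))
  have hb1 : 3 * β' ≤ β := by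
    have : β' ≤ β / 3 := min_le_left _ _
    linarith
  have hb2 : (Fintype.card ι : ℝ) * β' ≤ e (1 / 10) := by
    have h1 : β' ≤ e (1 / 10) / ((Fintype.card ι : ℝ) + 1) :=
      (min_le_right _ _).trans (min_le_left _ _)
    rw [le_div_iff₀ hN] at h1
    nlinarith
  have hb3 : (Fintype.card ι : ℝ) * β' ≤ e ηB := by
    have h1 : β' ≤ e ηB / ((Fintype.card ι : ℝ) + 1) :=
      (min_le_right _ _).trans ((min_le_right _ _).trans (min_le_left _ _))
    rw [le_div_iff₀ hN] at h1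
    nlinarith
  have hb4 : β' ≤ 1 / 4 :=
    (min_le_right _ _).trans ((min_le_right _ _).trans (min_le_right _ _))
  have := Lef.ae_neBot A
  obtain ⟨x, hxP, hx10, hxB⟩ := ((Lef.ae_parts hP f hβ').and
    ((hεerg (1 / 10) (by norm_num) (by norm_num)).and (hεerg ηB hηB0 hηB))).exists
  -- the part
  set n := x.1 with hn
  let V : Finset (A n) := univ.filter fun y => f n y = f n x.2
  let E : Finset (A n) := univ.filter fun y => ¬ P n y
  have hmemV : ∀ a, a ∈ V ↔ f n a = f n x.2 := by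
    intro a
    show a ∈ univ.filter (fun y => f n y = f n x.2) ↔ _
    simp
  have hmemE : ∀ a, a ∉ E ↔ P n a := by
    intro a
    show a ∉ univ.filter (fun y => ¬ P n y) ↔ _
    simp
  have hVcard : V.card = sz (f n) x.2 := rfl
  have hcardV : Fintype.card {a // a ∈ V} = V.card := Fintype.card_coe V
  have : Nonempty {a // a ∈ V} := ⟨⟨x.2, (hmemV _).2 rfl⟩⟩
  have hbad : ((univ.filter fun a : {a // a ∈ V} => a.1 ∈ E).card : ℝ) ≤
      β' * Fintype.card {a // a ∈ V} := by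
    rw [hcardV, hVcard]
    refine le_trans ?_ hxP
    refine Nat.cast_le.2 ?_
    rw [← Finset.card_map (Function.Embedding.subtype (fun a => a ∈ V))]
    apply Finset.card_le_card
    intro a ha
    rw [Finset.mem_map] at ha
    obtain ⟨b, hb, rfl⟩ := ha
    simp only [Finset.mem_filter, Finset.mem_univ, true_and] at hb ⊢
    exact ⟨fun h => (hmemE _).2 h hb, (hmemV _).1 b.2⟩
  obtain ⟨σ, hσact, hσeq⟩ := htact (A n) (Φ.φ n) V E (by
    intro a haV haE
    have hPa := (hmemE a).1 haE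
    refine ⟨hPa.1, fun h hh => ?_⟩
    rw [hmemV, hPa.2.1 h hh]
    exact (hmemV a).1 haV)
  choose g hg using fun γ => Lef.exists_ext (Φ.φ n γ) V
  obtain ⟨hc1, hc2, hc3⟩ := Lef.on_part (Φ.φ n) V E s F
    (fun a haV haE γ hγ => by
      rw [hmemV, ((hmemE a).1 haE).2.2.1 γ hγ]
      exact (hmemV a).1 haV)
    (fun a haV haE => ((hmemE a).1 haE).2.2.2.1)
    (fun a haV haE => ((hmemE a).1 haE).2.2.2.2.1)
    (fun a haV haE => ((hmemE a).1 haE).2.2.2.2.2) σ hσeq g hg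
  have hVnn : (0 : ℝ) ≤ Fintype.card {a // a ∈ V} := Nat.cast_nonneg _
  -- ergodicity
  have hergo : ∀ η, 0 < η → η < 1 / 2 → (Fintype.card ι : ℝ) * β' ≤ e η →
      (∀ W : Finset (A n), (∀ y ∈ W, f n y = f n x.2) →
      (bd (fun i => Φ.φ n (s i)) W : ℝ) ≤ ε η * sz (f n) x.2 →
      ((W.card : ℝ) ≤ η * sz (f n) x.2 ∨ (1 - η) * sz (f n) x.2 ≤ W.card)) →
      ∀ W : Finset {a // a ∈ V}, (bd σ W : ℝ) ≤ e η * Fintype.card {a // a ∈ V} →
        ((W.card : ℝ) ≤ η * Fintype.card {a // a ∈ V} ∨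
          (1 - η) * Fintype.card {a // a ∈ V} ≤ (W.card : ℝ)) := by
    intro η hη0 hη hbη hx W hW
    have hbt := Lef.bd_transfer (fun i => Φ.φ n (s i)) V E σ hσeq W
    have hbt' : (bd (fun i => Φ.φ n (s i)) (W.map (Function.Embedding.subtype _)) : ℝ) ≤
      (bd σ W : ℝ) + (Fintype.card ι : ℝ) *
        ((univ.filter fun a : {a // a ∈ V} => a.1 ∈ E).card : ℝ) := by
      exact_mod_cast hbt
    have := hx (W.map (Function.Embedding.subtype _)) (by
      intro y hy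
      rw [Finset.mem_map] at hy
      obtain ⟨b, _, rfl⟩ := hy
      exact (hmemV _).1 b.2) (by
      refine hbt'.trans ?_
      rw [← he2 η hη0 hη, ← hVcard, ← hcardV]
      have h1 : (Fintype.card ι : ℝ) *
        ((univ.filter fun a : {a // a ∈ V} => a.1 ∈ E).card : ℝ) ≤
          (Fintype.card ι : ℝ) * (β' * Fintype.card {a // a ∈ V}) :=
        mul_le_mul_of_nonneg_left hbad (Nat.cast_nonneg _)
      have h2 : (Fintype.card ι : ℝ) * (β' * Fintype.card {a // a ∈ V}) ≤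
          e η * Fintype.card {a // a ∈ V} := by
        rw [← mul_assoc]
        exact mul_le_mul_of_nonneg_right hbη hVnn
      linarith)
    rw [Finset.card_map, ← hVcard, ← hcardV] at this
    exact this
  have hfin : ∀ m : ℕ, (m : ℝ) * β' ≤ β → ∀ k : ℕ,
      k ≤ m * (univ.filter fun a : {a // a ∈ V} => a.1 ∈ E).card →
      (k : ℝ) ≤ β * Fintype.card {a // a ∈ V} := by
    intro m hm k hk
    have h1 : (k : ℝ) ≤ (m : ℝ) * ((univ.filter fun a : {a // a ∈ V} => a.1 ∈ E).card : ℝ) := by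
      exact_mod_cast hk
    have h2 : (m : ℝ) * ((univ.filter fun a : {a // a ∈ V} => a.1 ∈ E).card : ℝ) ≤
        (m : ℝ) * (β' * Fintype.card {a // a ∈ V}) :=
      mul_le_mul_of_nonneg_left hbad (Nat.cast_nonneg _)
    have h3 : (m : ℝ) * (β' * Fintype.card {a // a ∈ V}) ≤ β * Fintype.card {a // a ∈ V} := by
      rw [← mul_assoc]
      exact mul_le_mul_of_nonneg_right hm hVnn
    linarith
  exact hkt {a // a ∈ V} σ _ hσact
    (hfin 1 (by push_cast; linarith) _ (by rw [one_mul]))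
    (hergo (1 / 10) (by norm_num) (by norm_num) hb2 hx10)
    (hergo ηB hηB0 hηB hb3 hxB) G F g
    (fun γ hγ i => hfin 3 (by push_cast; linarith) _ (by convert hc1 γ hγ i))
    (fun γ hγ γ' hγ' h => hfin 2 (by push_cast; linarith) _ (by convert hc2 γ hγ γ' hγ' h))
    (fun γ hγ γ' hγ' h => by
      have h1 := hc3 γ hγ γ' hγ' h
      have h2 : ((univ.filter fun a => g γ a = g γ' a).card : ℝ) ≤
        ((univ.filter fun a : {a // a ∈ V} => a.1 ∈ E).card : ℝ) := by exact_mod_cast h1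
      have h3 := h2.trans (hbad.trans (mul_le_mul_of_nonneg_right hb4 hVnn))
      refine le_trans (le_of_eq ?_) h3
      refine congrArg _ (congrArg _ (Finset.ext fun a => ?_))
      simp only [Finset.mem_filter])

end Helper418
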