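import Pool.Agent.Helper418_Sofic.RefLemmas
import Pool.Agent.Helper418_Sofic.Defs

open Filter Topology Finset
open scoped Classical

namespace Helper418

variable {A : ℕ → Type} [∀ n, Fintype (A n)] {ι : Type} [Fintype ι]

/-! GIVEN (proved elsewhere) -/
namespace Level

/-- upper density at most `ρ` -/
def Sm (P : ∀ n, A n → Prop) (ρ : ℝ) : Prop :=
  ∀ ε : ℝ, 0 < ε → ∀ᶠ n in atTop, dens P n ≤ ρ + ε

omit [Fintype ι] in
theorem Sm.mono {P Q : ∀ n, A n → Prop} {ρ : ℝ} (h : Sm Q ρ) (hPQ : ∀ n a, P n a → Q n a) :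
    Sm P ρ :=
  fun ε hε => (h ε hε).mono fun n hn => (dens_mono (hPQ n)).trans hn

theorem Sm.or {P Q : ∀ n, A n → Prop} {ρ ρ' : ℝ} (h : Sm P ρ) (h' : Sm Q ρ') :
    Sm (fun n a => P n a ∨ Q n a) (ρ + ρ') := by
  intro ε hε
  filter_upwards [h (ε/2) (by positivity), h' (ε/2) (by positivity)] with n h1 h2
  have := dens_or_le P Q n
  linarith

theorem Sm.le {P : ∀ n, A n → Prop} {ρ ρ' : ℝ} (h : Sm P ρ) (h' : ρ ≤ ρ') : Sm P ρ' :=
  fun ε hε => (h ε hε).mono fun n hn => hn.trans (by linarith)

theorem Sm_of_ae {P : ∀ n, A n → Prop} (h : ∀ᶠ x in ae A, P x.1 x.2) :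
    Sm (fun n a => ¬ P n a) 0 := by
  intro ε hε
  have := ((mem_ae (P := P)).1 h).eventually_lt_const hε
  filter_upwards [this] with n hn
  linarith

theorem dens_perm (P : ∀ n, A n → Prop) (π : ∀ n, Equiv.Perm (A n)) (n : ℕ) :
    dens (fun n a => P n (π n a)) n = dens P n := by
  unfold dens
  congr 2
  apply Finset.card_bij (fun a _ => π n a)
  · intro a ha
    simpa using ha
  · intro a _ b _ hab
    exact (π n).injective hab
  · intro b hb
    refine ⟨(π n).symm b, ?_, by simp⟩
    simpa using hb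

theorem Sm.perm {P : ∀ n, A n → Prop} {ρ : ℝ} (h : Sm P ρ) (π : ∀ n, Equiv.Perm (A n)) :
    Sm (fun n a => P n (π n a)) ρ :=
  fun ε hε => (h ε hε).mono fun n hn => by rw [dens_perm]; exact hn

variable {G : Type} [Group G]

theorem phi_one (Φ : Approx G A) : ∀ᶠ x in ae A, Φ.φ x.1 1 x.2 = x.2 := by
  filter_upwards [Φ.mul 1 1] with x hx
  rw [mul_one] at hx
  exact ((Φ.φ x.1 1).injective hx).symm

theorem closure_sm (Φ : Approx G A) (P : Set G) {a : G} (ha : a ∈ Subgroup.closure P) :
    ∃ L : ℕ, ∀ (W : ∀ n, A n → ℕ) (ρ : ℝ), 0 ≤ ρ →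
      (∀ v ∈ P, Sm (fun n x => W n (Φ.φ n v x) ≠ W n x) ρ) →
      Sm (fun n x => W n (Φ.φ n a x) ≠ W n x) (L * ρ) := by
  induction ha using Subgroup.closure_induction with
  | mem x hx =>
    refine ⟨1, fun W ρ _ h => ?_⟩
    rw [Nat.cast_one, one_mul]
    exact h x hx
  | one =>
    refine ⟨0, fun W ρ _ _ => ?_⟩
    rw [Nat.cast_zero, zero_mul]
    refine (Sm_of_ae (P := fun n x => Φ.φ n 1 x = x) (phi_one Φ)).mono ?_
    intro n x hx he
    rw [he] at hx
    exact hx rfl
  | mul a b _ _ iha ihb =>
    obtain ⟨La, hLa⟩ := iha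
    obtain ⟨Lb, hLb⟩ := ihb
    refine ⟨La + Lb, fun W ρ hρ h => ?_⟩
    have h1 := (hLa W ρ hρ h).perm (fun n => Φ.φ n b)
    have h2 := hLb W ρ hρ h
    have h3 := Sm_of_ae (P := fun n x => Φ.φ n (a * b) x = Φ.φ n a (Φ.φ n b x)) (Φ.mul a b)
    have h4 := ((h1.or h2).or h3)
    refine (h4.mono ?_).le (by push_cast; linarith)
    intro n x hx
    by_contra hcon
    push Not at hcon
    obtain ⟨⟨c1, c2⟩, c3⟩ := hcon
    apply hx
    rw [c3, c1, c2]
  | inv a _ iha =>
    obtain ⟨La, hLa⟩ := iha
    refine ⟨La, fun W ρ hρ h => ?_⟩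
    have h1 := (hLa W ρ hρ h).perm (fun n => Φ.φ n a⁻¹)
    have h3 := Sm_of_ae (P := fun n x => Φ.φ n (a * a⁻¹) x = Φ.φ n a (Φ.φ n a⁻¹ x)) (Φ.mul a a⁻¹)
    have h5 := Sm_of_ae (P := fun n x => Φ.φ n 1 x = x) (phi_one Φ)
    have h4 := ((h1.or h3).or h5)
    refine (h4.mono ?_).le (by linarith)
    intro n x hx
    by_contra hcon
    push Not at hcon
    obtain ⟨⟨c1, c2⟩, c3⟩ := hcon
    apply hx
    rw [mul_inv_cancel, c3] at c2
    rw [← c2] at c1
    exact c1.symm

/-- the combinatorial step -/
theorem comb {X : Type} [Fintype X] (g : X → ℕ) (W : X → Prop) (H : ℕ → ℕ)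
    (h : ∀ a, 2 * (univ.filter fun b => g b = g a ∧ W b).card ≤ (univ.filter fun b => g b = g a).card) :
    (univ.filter fun x => W x).card ≤
      (univ.filter fun x => (if W x then 1 else 0) ≠ H (g x)).card := by
  rw [card_eq_sum_card_fiberwise (f := g) (s := univ.filter fun x => W x) (t := univ.image g)
    (fun x _ => by simp)]
  rw [card_eq_sum_card_fiberwise (f := g) (s := univ.filter fun x => (if W x then 1 else 0) ≠ H (g x))
    (t := univ.image g) (fun x _ => by simp)]
  refine sum_le_sum fun q hq => ?_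
  rw [mem_image] at hq
  obtain ⟨a, -, rfl⟩ := hq
  have ha := h a
  rw [filter_filter, filter_filter]
  by_cases h1 : H (g a) = 1
  · have e1 : (univ.filter fun x => (if W x then 1 else 0) ≠ H (g x) ∧ g x = g a) =
        (univ.filter fun b => g b = g a) \ (univ.filter fun b => g b = g a ∧ W b) := by
      ext x
      simp only [mem_filter, mem_univ, true_and, Finset.mem_sdiff, not_and]
      constructor
      · rintro ⟨h2, h3⟩
        refine ⟨h3, fun _ h4 => ?_⟩
        rw [h3, h1, if_pos h4] at h2
        exact h2 rfl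
      · rintro ⟨h2, h3⟩
        refine ⟨?_, h2⟩
        rw [h2, h1, if_neg (h3 h2)]
        norm_num
    have e2 : (univ.filter fun x => W x ∧ g x = g a) = univ.filter fun b => g b = g a ∧ W b := by
      ext x
      simp only [mem_filter, mem_univ, true_and]
      exact and_comm
    rw [e1, e2]
    have hsub : (univ.filter fun b => g b = g a ∧ W b) ⊆ (univ.filter fun b => g b = g a) := by
      intro x hx
      simp only [mem_filter, mem_univ, true_and] at hx ⊢
      exact hx.1
    have := card_sdiff_add_card_eq_card hsub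
    omega
  · apply card_le_card
    intro x hx
    simp only [mem_filter, mem_univ, true_and] at hx ⊢
    refine ⟨?_, hx.2⟩
    rw [hx.2, if_pos hx.1]
    exact fun h2 => h1 h2.symm

/-- equal numbers of points that enter and leave a set -/
theorem dens_leave (W : ∀ n, A n → Prop) (π : ∀ n, Equiv.Perm (A n)) (n : ℕ) :
    dens (fun n x => ¬ W n x ∧ W n (π n x)) n = dens (fun n x => W n x ∧ ¬ W n (π n x)) n := by
  have h1 := dens_perm W π n
  unfold dens at h1 ⊢
  by_cases hc : (Fintype.card (A n) : ℝ) = 0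
  · rw [hc, div_zero, div_zero]
  have h2 : ((univ.filter fun a => W n (π n a)).card : ℝ) = (univ.filter (W n)).card := by
    field_simp at h1
    exact h1
  have h2' : (univ.filter fun a => W n (π n a)).card = (univ.filter (W n)).card := by
    exact_mod_cast h2
  congr 2
  have e1 : (univ.filter fun a => W n (π n a)).card =
      (univ.filter fun x => ¬ W n x ∧ W n (π n x)).card +
      (univ.filter fun x => W n x ∧ W n (π n x)).card := by
    rw [← card_union_of_disjoint]
    · congr 1
      ext x
      simp only [mem_filter, mem_univ, true_and, mem_union]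
      tauto
    · rw [disjoint_filter]
      intro x _ hx hx'
      exact hx.1 hx'.1
  have e2 : (univ.filter (W n)).card =
      (univ.filter fun x => W n x ∧ ¬ W n (π n x)).card +
      (univ.filter fun x => W n x ∧ W n (π n x)).card := by
    rw [← card_union_of_disjoint]
    · congr 1
      ext x
      simp only [mem_filter, mem_univ, true_and, mem_union]
      tauto
    · rw [disjoint_filter]
      intro x _ hx hx'
      exact hx.2 hx'.2
  have e3 : (univ.filter fun x => ¬ W n x ∧ W n (π n x)).card =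
      (univ.filter fun x => W n x ∧ ¬ W n (π n x)).card := by omega
  convert e3

end Level

/-- TARGET -/
theorem level_lemma [∀ n, Nonempty (A n)] {G : Type} [Group G] (Φ : Approx G A) (s : ι → G)
    (hI : Improves (fun n i => Φ.φ n (s i))) {g : ∀ n, A n → ℕ}
    (hg : Finest (fun n i => Φ.φ n (s i)) g) (P : Set G)
    (hP : ∀ i, s i ∈ Subgroup.closure P)
    (hgP : ∀ v ∈ P, ∀ᶠ x in ae A, g x.1 (Φ.φ x.1 v x.2) = g x.1 x.2)
    (T : ∀ n, A n → ℝ) (hT0 : ∀ n a, 0 < T n a)
    (M : ℕ → ℕ → ℝ) (hM0 : ∀ n i, 0 < M n i)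
    (hmed : ∀ n a, 2 * (univ.filter fun b => g n b = g n a ∧ M n (g n a) < T n b).card ≤
      sz (g n) a)
    (hT : ∀ v ∈ P, ∀ η : ℝ, 0 < η → ∀ᶠ x in ae A,
      T x.1 x.2 ≤ (1 + η) * T x.1 (Φ.φ x.1 v x.2)) :
    ∀ l : ℝ, 1 < l → ∀ᶠ x in ae A, T x.1 x.2 ≤ l * M x.1 (g x.1 x.2) := by
  intro l hl
  obtain ⟨C, hC, hI⟩ := hI
  choose L hL using fun i => Level.closure_sm Φ P (hP i)
  -- the main estimate
  have main : ∀ J : ℕ, 0 < J → Level.Sm (fun n x => ¬ T n x ≤ l * M n (g n x))
      (C * ((∑ i, (L i : ℝ)) * (2 / J))) := by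
    intro J hJ
    have hJ' : (0 : ℝ) < J := by exact_mod_cast hJ
    obtain ⟨η, hη, hηJ⟩ : ∃ η : ℝ, 0 < η ∧ (1 + η) ^ J ≤ l := by
      have hc : ContinuousAt (fun η : ℝ => (1 + η) ^ J) 0 := by fun_prop
      have h1 : ∀ᶠ η in 𝓝 (0 : ℝ), (1 + η) ^ J < l := by
        apply hc.eventually_lt_const
        simpa using hl
      have h2 : ∀ᶠ η in 𝓝[>] (0 : ℝ), (1 + η) ^ J < l := h1.filter_mono nhdsWithin_le_nhds
      obtain ⟨η, h3, h4⟩ := (h2.and self_mem_nhdsWithin).exists
      exact ⟨η, h4, h3.le⟩
    set U : ℕ → ∀ n, A n → Prop := fun j n x => (1 + η) ^ j * M n (g n x) < T n x with hU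
    have hUmono : ∀ j n x, U (j + 1) n x → U j n x := by
      intro j n x h
      simp only [hU] at h ⊢
      refine lt_of_le_of_lt ?_ h
      apply mul_le_mul_of_nonneg_right _ (hM0 _ _).le
      exact pow_le_pow_right₀ (by linarith) (Nat.le_succ j)
    have hUanti : ∀ j k n x, j ≤ k → U k n x → U j n x := by
      intro j k n x hjk
      induction hjk with
      | refl => exact id
      | step _ ih => exact fun h => ih (hUmono _ _ _ h)
    -- pigeonhole
    have hpig : ∀ n, ∃ j, j < J ∧ dens (U j) n - dens (U (j + 1)) n ≤ 1 / J := by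
      intro n
      by_contra hcon
      push Not at hcon
      have h1 : ∑ j ∈ range J, (dens (U j) n - dens (U (j + 1)) n) =
          dens (U 0) n - dens (U J) n := sum_range_sub' _ _
      have h2 : ∑ j ∈ range J, (1 / J : ℝ) < ∑ j ∈ range J, (dens (U j) n - dens (U (j + 1)) n) := by
        apply sum_lt_sum_of_nonempty
        · rw [nonempty_range_iff]; omega
        · intro j hj
          exact hcon j (mem_range.1 hj)
      rw [sum_const, card_range, nsmul_eq_mul, h1] at h2
      have h3 : (J : ℝ) * (1 / J) = 1 := by field_simp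
      rw [h3] at h2
      have h4 := dens_le_one (U 0) n
      have h5 := dens_nonneg (U J) n
      linarith
    choose j hjJ hj using hpig
    set W : ∀ n, A n → Prop := fun n x => U (j n) n x with hW
    -- points that leave W
    have hleave : ∀ v ∈ P, Level.Sm (fun n x => W n x ∧ ¬ W n (Φ.φ n v x)) (1 / J) := by
      intro v hv
      have h1 := Level.Sm_of_ae (P := fun n x => g n (Φ.φ n v x) = g n x) (hgP v hv)
      have h2 := Level.Sm_of_ae (P := fun n x => T n x ≤ (1 + η) * T n (Φ.φ n v x)) (hT v hv η hη)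
      have h3 : Level.Sm (fun n x => U (j n) n x ∧ ¬ U (j n + 1) n x) (1 / J) := by
        intro ε hε
        refine Eventually.of_forall fun n => ?_
        have h4 : dens (fun n x => U (j n) n x ∧ ¬ U (j n + 1) n x) n =
            dens (U (j n)) n - dens (U (j n + 1)) n := by
          unfold dens
          rw [← sub_div]
          congr 1
          have e : (univ.filter (U (j n) n)).card =
              (univ.filter fun x => U (j n) n x ∧ ¬ U (j n + 1) n x).card +
              (univ.filter (U (j n + 1) n)).card := by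
            rw [← card_union_of_disjoint]
            · congr 1
              ext x
              simp only [mem_filter, mem_univ, true_and, mem_union]
              have := hUmono (j n) n x
              tauto
            · rw [disjoint_filter]
              intro x _ hx hx'
              exact hx.2 hx'
          rw [e]
          push_cast
          ring
        rw [h4]
        have := hj n
        linarith
      have h5 := (h3.or (h1.or h2))
      refine (h5.mono ?_).le (by linarith)
      rintro n x ⟨hx1, hx2⟩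
      by_contra hcon
      push Not at hcon
      obtain ⟨c1, c2, c3⟩ := hcon
      have c4 := c1 hx1
      simp only [hW, hU, not_lt] at c4 hx2
      rw [c2] at hx2
      rw [pow_succ] at c4
      have c5 : (1 + η) * T n (Φ.φ n v x) ≤ (1 + η) * ((1 + η) ^ j n * M n (g n x)) :=
        mul_le_mul_of_nonneg_left hx2 (by linarith)
      have c6 : (1 + η) * ((1 + η) ^ j n * M n (g n x)) = (1 + η) ^ j n * (1 + η) * M n (g n x) := by
        ring
      linarith
    set w : ∀ n, A n → ℕ := fun n x => if W n x then 1 else 0 with hw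
    have hchange : ∀ v ∈ P, Level.Sm (fun n x => w n (Φ.φ n v x) ≠ w n x) (2 / J) := by
      intro v hv
      have h1 := hleave v hv
      have h2 : Level.Sm (fun n x => ¬ W n x ∧ W n (Φ.φ n v x)) (1 / J) := by
        intro ε hε
        refine (h1 ε hε).mono fun n hn => ?_
        rw [Level.dens_leave W (fun n => Φ.φ n v) n]
        exact hn
      refine ((h1.or h2).mono ?_).le (le_of_eq (by ring))
      intro n x hx
      simp only [hw] at hx
      by_cases h3 : W n x <;> by_cases h4 : W n (Φ.φ n v x)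
      · rw [if_pos h3, if_pos h4] at hx; exact absurd rfl hx
      · exact Or.inl ⟨h3, h4⟩
      · exact Or.inr ⟨h3, h4⟩
      · rw [if_neg h3, if_neg h4] at hx; exact absurd rfl hx
    have hsi : ∀ i, Level.Sm (fun n x => w n (Φ.φ n (s i) x) ≠ w n x) (L i * (2 / J)) :=
      fun i => hL i w (2 / J) (by positivity) hchange
    obtain ⟨w', hw'inv, e, he, hw'⟩ := hI w
    obtain ⟨H, hH⟩ := hg.ref hw'inv
    have hH' := Level.Sm_of_ae (P := fun n x => w' n x = H n (g n x)) hH
    have hinv : ∀ n, (inv (fun i => Φ.φ n (s i)) (w n) : ℝ) / Fintype.card (A n) =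
        ∑ i, dens (fun n x => w n (Φ.φ n (s i) x) ≠ w n x) n := by
      intro n
      unfold inv dens
      rw [Nat.cast_sum, sum_div]
      refine sum_congr rfl fun i _ => ?_
      congr!
    have hww' : Level.Sm (fun n x => w' n x ≠ w n x) (C * ((∑ i, (L i : ℝ)) * (2 / J))) := by
      intro ε hε
      have hδ : 0 < ε / 2 / ((C + 1) * (Fintype.card ι + 1)) := by positivity
      have h1 : ∀ᶠ n in atTop, ∀ i ∈ (univ : Finset ι),
          dens (fun n x => w n (Φ.φ n (s i) x) ≠ w n x) n ≤
            L i * (2 / J) + ε / 2 / ((C + 1) * (Fintype.card ι + 1)) := by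
        rw [eventually_all_finset]
        exact fun i _ => hsi i _ hδ
      have h2 := he.eventually_lt_const (show (0 : ℝ) < ε / 2 by positivity)
      filter_upwards [h1, h2] with n hn1 hn2
      have h3 := hw' n
      rw [hinv n] at h3
      have h4 : ∑ i, dens (fun n x => w n (Φ.φ n (s i) x) ≠ w n x) n ≤
          ∑ i, (L i * (2 / J) + ε / 2 / ((C + 1) * (Fintype.card ι + 1))) :=
        sum_le_sum hn1
      rw [sum_add_distrib, ← sum_mul, sum_const, card_univ, nsmul_eq_mul] at h4
      have h5 : C * ((Fintype.card ι : ℝ) * (ε / 2 / ((C + 1) * (Fintype.card ι + 1)))) ≤ ε / 2 := by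
        have h6 : C * ((Fintype.card ι : ℝ) * (ε / 2 / ((C + 1) * (Fintype.card ι + 1)))) =
            (ε / 2) * ((C / (C + 1)) * ((Fintype.card ι : ℝ) / (Fintype.card ι + 1))) := by
          field_simp
        rw [h6]
        have h7 : C / (C + 1) ≤ 1 := by
          rw [div_le_one (by linarith)]; linarith
        have h8 : (Fintype.card ι : ℝ) / (Fintype.card ι + 1) ≤ 1 := by
          rw [div_le_one (by positivity)]; linarith
        have h9 : 0 ≤ C / (C + 1) := by positivity
        have h10 : 0 ≤ (Fintype.card ι : ℝ) / (Fintype.card ι + 1) := by positivity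
        have h11 : (C / (C + 1)) * ((Fintype.card ι : ℝ) / (Fintype.card ι + 1)) ≤ 1 :=
          mul_le_one₀ h7 h10 h8
        nlinarith
      have h12 := mul_le_mul_of_nonneg_left h4 hC
      rw [mul_add] at h12
      linarith
    have hfin : Level.Sm (fun n x => w n x ≠ H n (g n x)) (C * ((∑ i, (L i : ℝ)) * (2 / J))) := by
      refine ((hww'.or hH').mono ?_).le (by linarith)
      intro n x hx
      by_contra hcon
      push Not at hcon
      apply hx
      rw [← hcon.1, hcon.2]
    intro ε hε
    filter_upwards [hfin ε hε] with n hn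
    refine le_trans ?_ hn
    have h1 : dens (fun n x => ¬ T n x ≤ l * M n (g n x)) n ≤ dens W n := by
      apply dens_mono
      intro x hx
      apply hUanti (j n) J n x (hjJ n).le
      simp only [hU]
      rw [not_le] at hx
      refine lt_of_le_of_lt ?_ hx
      exact mul_le_mul_of_nonneg_right hηJ (hM0 _ _).le
    refine h1.trans ?_
    have h2 := Level.comb (g n) (W n) (H n) ?_
    · unfold dens
      apply div_le_div_of_nonneg_right _ (Nat.cast_nonneg _)
      exact_mod_cast h2
    · intro a
      have h3 := hmed n a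
      unfold sz at h3
      refine le_trans ?_ h3
      apply Nat.mul_le_mul_left
      apply card_le_card
      intro b hb
      simp only [mem_filter, mem_univ, true_and] at hb ⊢
      refine ⟨hb.1, ?_⟩
      have h4 := hUanti 0 (j n) n b (Nat.zero_le _) hb.2
      simp only [hU, pow_zero, one_mul] at h4
      rw [← hb.1]
      exact h4
  -- conclusion
  rw [mem_ae (P := fun n x => T n x ≤ l * M n (g n x))]
  rw [tendsto_order]
  refine ⟨fun a ha => Eventually.of_forall fun n => lt_of_lt_of_le ha (dens_nonneg _ _), ?_⟩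
  intro δ hδ
  obtain ⟨J, hJ⟩ := exists_nat_gt (C * ((∑ i, (L i : ℝ)) * 2) / (δ / 2))
  have hJ0 : (0 : ℝ) < ((J + 1 : ℕ) : ℝ) := by positivity
  have h1 : C * ((∑ i, (L i : ℝ)) * (2 / ((J + 1 : ℕ) : ℝ))) ≤ δ / 2 := by
    have h2 : C * ((∑ i, (L i : ℝ)) * (2 / ((J + 1 : ℕ) : ℝ))) =
        (C * ((∑ i, (L i : ℝ)) * 2)) / ((J + 1 : ℕ) : ℝ) := by ring
    rw [h2, div_le_iff₀ hJ0]
    rw [div_lt_iff₀ (by positivity)] at hJ
    push_cast
    nlinarith
  filter_upwards [main (J + 1) (Nat.succ_pos J) (δ / 4) (by positivity)] with n hn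
  linarith

end Helper418
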