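import Pool.Agent.Helper418_Sofic.SzNear
import Pool.Agent.Helper418_Sofic.Defs

open Filter Topology Finset
open scoped Classical

namespace Helper418

variable {A : ℕ → Type} [∀ n, Fintype (A n)] {ι : Type} [Fintype ι]

/-! GIVEN (proved elsewhere) -/
namespace RefLemmas

theorem sz_pos {X : Type} [Fintype X] (f : X → ℕ) (x : X) : 0 < sz f x :=
  Finset.card_pos.mpr ⟨x, by simp⟩

/-- majority labels are unique -/
theorem major_unique {X : Type} [Fintype X] (f g : X → ℕ) (i v w : ℕ)
    (hv : (univ.filter fun y => f y = i).card < 2 * (univ.filter fun y => f y = i ∧ g y = v).card)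
    (hw : (univ.filter fun y => f y = i).card < 2 * (univ.filter fun y => f y = i ∧ g y = w).card) :
    v = w := by
  by_contra hne
  have hdisj : Disjoint (univ.filter fun y => f y = i ∧ g y = v)
      (univ.filter fun y => f y = i ∧ g y = w) := by
    rw [Finset.disjoint_left]
    intro y hy hy'
    simp only [mem_filter, mem_univ, true_and] at hy hy'
    exact hne (hy.2.symm.trans hy'.2)
  have hsub : (univ.filter fun y => f y = i ∧ g y = v) ∪ (univ.filter fun y => f y = i ∧ g y = w)
      ⊆ (univ.filter fun y => f y = i) := by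
    intro y hy
    simp only [mem_union, mem_filter, mem_univ, true_and] at hy ⊢
    rcases hy with hy | hy <;> exact hy.1
  have := card_le_card hsub
  rw [card_union_of_disjoint hdisj] at this
  omega

/-- the majority function -/
theorem exists_major {X : Type} [Fintype X] (f g : X → ℕ) :
    ∃ H : ℕ → ℕ, ∀ x, sz f x < 2 * (univ.filter fun y => f y = f x ∧ g y = g x).card →
      g x = H (f x) := by
  refine ⟨fun i => if h : ∃ v, (univ.filter fun y => f y = i).card <
      2 * (univ.filter fun y => f y = i ∧ g y = v).card then h.choose else 0, fun x hx => ?_⟩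
  have hex : ∃ v, (univ.filter fun y => f y = f x).card <
      2 * (univ.filter fun y => f y = f x ∧ g y = v).card := ⟨g x, hx⟩
  show g x = if h : ∃ v, (univ.filter fun y => f y = f x).card <
      2 * (univ.filter fun y => f y = f x ∧ g y = v).card then h.choose else 0
  rw [dif_pos hex]
  exact major_unique f g (f x) (g x) hex.choose hx hex.choose_spec

theorem ref_of_major {f g : ∀ n, A n → ℕ}
    (h : ∀ᶠ x in ae A, sz (f x.1) x.2 <
      2 * (univ.filter fun y => f x.1 y = f x.1 x.2 ∧ g x.1 y = g x.1 x.2).card) :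
    Ref f g := by
  choose H hH using fun n => exists_major (f n) (g n)
  exact ⟨H, h.mono fun x hx => hH x.1 x.2 hx⟩

end RefLemmas

open RefLemmas

/-- TARGET -/
theorem Finest.ref {σ : ∀ n, ι → Equiv.Perm (A n)} {f h : ∀ n, A n → ℕ}
    (hf : Finest σ f) (hh : AsInv σ h) : Ref f h := by
  have hu : AsInv σ (fun n a => Nat.pair (f n a) (h n a)) := by
    intro i
    filter_upwards [hf.1 i, hh i] with x hx1 hx2
    rw [hx1, hx2]
  have hfin := hf.2 _ hu (1 / 2) (by norm_num)
  apply ref_of_major
  filter_upwards [hfin] with x hx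
  have hpos : 0 < sz (f x.1) x.2 := sz_pos _ _
  have heq : sz (fun a => Nat.pair (f x.1 a) (h x.1 a)) x.2 =
      (univ.filter fun y => f x.1 y = f x.1 x.2 ∧ h x.1 y = h x.1 x.2).card := by
    unfold sz
    congr 1
    ext y
    simp only [mem_filter, mem_univ, true_and, Nat.pair_eq_pair]
  rw [heq] at hx
  have hpos' : (0 : ℝ) < (sz (f x.1) x.2 : ℝ) := by exact_mod_cast hpos
  have : (sz (f x.1) x.2 : ℝ) <
      2 * ((univ.filter fun y => f x.1 y = f x.1 x.2 ∧ h x.1 y = h x.1 x.2).card : ℝ) := by
    linarith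
  exact_mod_cast this

/-- TARGET -/
theorem ref_symm {f g : ∀ n, A n → ℕ} (hfg : Ref f g)
    (hsz : ∀ η : ℝ, 0 < η → ∀ᶠ x in ae A,
      (sz (g x.1) x.2 : ℝ) ≤ (1 + η) * sz (f x.1) x.2) : Ref g f := by
  obtain ⟨H, hH⟩ := hfg
  -- the exceptional set
  set E : ∀ n, Finset (A n) := fun n => univ.filter fun a => ¬ g n a = H n (f n a) with hE
  have hEt : Tendsto (dens (fun n a => ¬ g n a = H n (f n a))) atTop (𝓝 0) := hH
  have hmk : ∀ᶠ x in ae A, (((E x.1).filter fun y => f x.1 y = f x.1 x.2).card : ℝ) ≤
      (1 / 10) * (sz (f x.1) x.2 : ℝ) := by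
    refine (mem_ae (P := fun n a => (((E n).filter fun y => f n y = f n a).card : ℝ) ≤
      (1 / 10) * (sz (f n) a : ℝ))).mpr ?_
    have h10 := hEt.const_mul (10 : ℝ)
    rw [mul_zero] at h10
    refine squeeze_zero (fun n => dens_nonneg _ n) (fun n => ?_) h10
    have hm := markov_parts (f n) (E n) (η := 1 / 10) (by norm_num)
    unfold dens
    rw [← mul_div_assoc]
    apply div_le_div_of_nonneg_right _ (Nat.cast_nonneg _)
    refine le_trans (Nat.cast_le.mpr (card_le_card (t := univ.filter fun x =>
      (1 / 10) * (sz (f n) x : ℝ) < ((E n).filter fun y => f n y = f n x).card) ?_))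
      (hm.trans ?_)
    · intro a ha
      simp only [mem_filter, mem_univ, true_and, not_le] at ha ⊢
      exact ha
    · have h2 : ((E n).card : ℝ) ≤ ((univ.filter ((fun n a => ¬ g n a = H n (f n a)) n)).card : ℝ) := by
        refine Nat.cast_le.mpr (card_le_card ?_)
        intro a ha
        simp only [hE, mem_filter, mem_univ, true_and] at ha ⊢
        exact ha
      calc (1 / (1 / 10)) * ((E n).card : ℝ) = 10 * ((E n).card : ℝ) := by norm_num
        _ ≤ 10 * ((univ.filter ((fun n a => ¬ g n a = H n (f n a)) n)).card : ℝ) := by linarith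
        _ ≤ _ := by
          apply le_of_eq
          congr 3
          congr!
  apply ref_of_major
  filter_upwards [hH, hmk, hsz (1 / 10) (by norm_num)] with x hx hmx hsx
  have hpos : (0 : ℝ) < (sz (f x.1) x.2 : ℝ) := by exact_mod_cast sz_pos (f x.1) x.2
  -- covering of the part of `f`
  have hcov : (univ.filter fun y => f x.1 y = f x.1 x.2) ⊆
      ((E x.1).filter fun y => f x.1 y = f x.1 x.2) ∪
      (univ.filter fun y => g x.1 y = g x.1 x.2 ∧ f x.1 y = f x.1 x.2) := by
    intro y hy
    simp only [mem_filter, mem_univ, true_and, mem_union] at hy ⊢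
    by_cases hyE : y ∈ E x.1
    · exact Or.inl ⟨hyE, hy⟩
    · right
      have : g x.1 y = H x.1 (f x.1 y) := by
        by_contra hc
        exact hyE (by simp only [hE, mem_filter, mem_univ, true_and]; exact hc)
      exact ⟨by rw [this, hy, hx], hy⟩
  have hcard : sz (f x.1) x.2 ≤ ((E x.1).filter fun y => f x.1 y = f x.1 x.2).card +
      (univ.filter fun y => g x.1 y = g x.1 x.2 ∧ f x.1 y = f x.1 x.2).card :=
    (card_le_card hcov).trans (card_union_le _ _)
  have hcard' : (sz (f x.1) x.2 : ℝ) ≤ (((E x.1).filter fun y => f x.1 y = f x.1 x.2).card : ℝ) +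
      ((univ.filter fun y => g x.1 y = g x.1 x.2 ∧ f x.1 y = f x.1 x.2).card : ℝ) := by
    exact_mod_cast hcard
  have hfinal : (sz (g x.1) x.2 : ℝ) <
      2 * ((univ.filter fun y => g x.1 y = g x.1 x.2 ∧ f x.1 y = f x.1 x.2).card : ℝ) := by
    linarith
  exact_mod_cast hfinal

end Helper418
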