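import Pool.Agent.Helper418_Sofic.Size
import Pool.Agent.Helper418_Sofic.RefLemmas

/-!
# Consequences of the size theorem
-/

open Filter Topology Finset
open scoped Classical

namespace Helper418

variable {A : ℕ → Type} [∀ n, Fintype (A n)] {ι κ : Type} [Fintype ι] [Fintype κ]
variable {G : Type} [Group G]

theorem asinv_closure (Φ : Approx G A) {k : κ → G} {f : ∀ n, A n → ℕ}
    (hf : AsInv (fun n i => Φ.φ n (k i)) f) {v : G}
    (hv : v ∈ Subgroup.closure (Set.range k)) :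
    ∀ᶠ x in ae A, f x.1 (Φ.φ x.1 v x.2) = f x.1 x.2 := by
  induction hv using Subgroup.closure_induction with
  | mem x hx =>
    obtain ⟨i, rfl⟩ := hx
    exact hf i
  | one =>
    filter_upwards [Size.one_act Φ] with x hx
    rw [hx]
  | mul a b _ _ ha hb =>
    have ha' := Size.transport (fun n => Φ.φ n b) (P := fun n y => f n (Φ.φ n a y) = f n y) ha
    filter_upwards [Φ.mul a b, ha', hb] with x h1 h2 h3
    rw [h1, h2, h3]
  | inv a _ ha =>
    have ha' := Size.transport (fun n => Φ.φ n a⁻¹) (P := fun n y => f n (Φ.φ n a y) = f n y) ha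
    filter_upwards [Size.inv_act Φ a, ha'] with x h1 h2
    rw [h1] at h2
    exact h2.symm

theorem sz_comp {X : Type} [Fintype X] (f : X → ℕ) (τ : Equiv.Perm X) (x : X) :
    sz (fun a => f (τ a)) x = sz f (τ x) := by
  unfold sz
  apply card_bij (fun a _ => τ a)
  · intro a ha
    simpa using ha
  · intro a _ b _ h
    exact τ.injective h
  · intro b hb
    exact ⟨τ.symm b, by simpa using hb, by simp⟩

/-- `f ∘ φ v` is asymptotically invariant under `k` if `v k v⁻¹ ≤ K` -/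
theorem asinv_comp (Φ : Approx G A) {k : κ → G} {f : ∀ n, A n → ℕ}
    (hf : AsInv (fun n i => Φ.φ n (k i)) f) {v : G}
    (hv : ∀ i, v * k i * v⁻¹ ∈ Subgroup.closure (Set.range k)) :
    AsInv (fun n i => Φ.φ n (k i)) (fun n a => f n (Φ.φ n v a)) := by
  intro i
  have h1 := Φ.mul v (k i)
  have h2 := Φ.mul (v * k i * v⁻¹) v
  have h3 := Size.transport (fun n => Φ.φ n v)
    (P := fun n y => f n (Φ.φ n (v * k i * v⁻¹) y) = f n y) (asinv_closure Φ hf (hv i))
  filter_upwards [h1, h2, h3] with x h1 h2 h3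
  rw [inv_mul_cancel_right] at h2
  show f x.1 (Φ.φ x.1 v (Φ.φ x.1 (k i) x.2)) = f x.1 (Φ.φ x.1 v x.2)
  rw [← h1, h2, h3]

theorem conj_main [∀ n, Nonempty (A n)] (Φ : Approx G A) (s : ι → G)
    (hI : Improves (fun n i => Φ.φ n (s i))) (hs : Subgroup.closure (Set.range s) = ⊤)
    (k : κ → G) (P : Set G)
    (hPk : ∀ v ∈ P, ∀ i, v * k i * v⁻¹ ∈ Subgroup.closure (Set.range k))
    (hP : Subgroup.closure P = ⊤) {f : ∀ n, A n → ℕ}
    (hf : Finest (fun n i => Φ.φ n (k i)) f) {v : G} (hv : v ∈ P) :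
    Ref (fun n a => f n (Φ.φ n v a)) f := by
  have hsz : ∀ v ∈ P, ∀ η : ℝ, 0 < η → ∀ᶠ x in ae A,
      (sz (f x.1) x.2 : ℝ) ≤ (1 + η) * sz (f x.1) (Φ.φ x.1 v x.2) := by
    intro v hv η hη
    have h := hf.2 _ (asinv_comp Φ hf.1 (hPk v hv)) η hη
    filter_upwards [h] with x hx
    rwa [sz_comp] at hx
  have hsz' := size_thm Φ s hI P hP f hsz hs v hv
  have h1 : Ref f (fun n a => f n (Φ.φ n v a)) := Finest.ref hf (asinv_comp Φ hf.1 (hPk v hv))
  refine ref_symm h1 ?_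
  intro η hη
  filter_upwards [hsz' η hη] with x hx
  rwa [sz_comp]

/-- every labelling invariant under `v K v⁻¹` is a function of the finest labelling of `K` -/
theorem conj_ref [∀ n, Nonempty (A n)] (Φ : Approx G A) (s : ι → G)
    (hI : Improves (fun n i => Φ.φ n (s i))) (hs : Subgroup.closure (Set.range s) = ⊤)
    (k : κ → G) (P : Set G)
    (hPk : ∀ v ∈ P, ∀ i, v * k i * v⁻¹ ∈ Subgroup.closure (Set.range k))
    (hP : Subgroup.closure P = ⊤) {f : ∀ n, A n → ℕ}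
    (hf : Finest (fun n i => Φ.φ n (k i)) f) {v : G} (hv : v ∈ P)
    {h : ∀ n, A n → ℕ} (hh : AsInv (fun n i => Φ.φ n (v * k i * v⁻¹)) h) : Ref f h := by
  -- `h ∘ φ v` is invariant under `K`
  have h1 : AsInv (fun n i => Φ.φ n (k i)) (fun n a => h n (Φ.φ n v a)) := by
    intro i
    have e1 := Φ.mul v (k i)
    have e2 := Φ.mul (v * k i * v⁻¹) v
    have e3 := Size.transport (fun n => Φ.φ n v)
      (P := fun n y => h n (Φ.φ n (v * k i * v⁻¹) y) = h n y) (hh i)
    filter_upwards [e1, e2, e3] with x e1 e2 e3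
    rw [inv_mul_cancel_right] at e2
    show h x.1 (Φ.φ x.1 v (Φ.φ x.1 (k i) x.2)) = h x.1 (Φ.φ x.1 v x.2)
    rw [← e1, e2, e3]
  obtain ⟨H, hH⟩ := Finest.ref hf h1
  obtain ⟨H', hH'⟩ := conj_main Φ s hI hs k P hPk hP hf hv
  refine ⟨fun n i => H n (H' n i), ?_⟩
  have t1 := Size.transport (fun n => Φ.φ n v⁻¹)
      (P := fun n y => h n (Φ.φ n v y) = H n (f n y)) hH
  have t2 := Size.transport (fun n => Φ.φ n v⁻¹)
      (P := fun n y => f n y = H' n (f n (Φ.φ n v y))) hH'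
  filter_upwards [t1, t2, Size.inv_act Φ v] with x t1 t2 t3
  rw [t3] at t1 t2
  rw [t1, t2]

/-- every labelling invariant under `K` is invariant under `v⁻¹ K v` -/
theorem conj_inv [∀ n, Nonempty (A n)] (Φ : Approx G A) (s : ι → G)
    (hI : Improves (fun n i => Φ.φ n (s i))) (hs : Subgroup.closure (Set.range s) = ⊤)
    (k : κ → G) (P : Set G)
    (hPk : ∀ v ∈ P, ∀ i, v * k i * v⁻¹ ∈ Subgroup.closure (Set.range k))
    (hP : Subgroup.closure P = ⊤) {f : ∀ n, A n → ℕ}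
    (hf : Finest (fun n i => Φ.φ n (k i)) f) {v : G} (hv : v ∈ P)
    {h : ∀ n, A n → ℕ} (hh : AsInv (fun n i => Φ.φ n (k i)) h) {u : G}
    (hu : v * u * v⁻¹ ∈ Subgroup.closure (Set.range k)) :
    ∀ᶠ x in ae A, h x.1 (Φ.φ x.1 u x.2) = h x.1 x.2 := by
  obtain ⟨H, hH⟩ := Finest.ref hf hh
  obtain ⟨H', hH'⟩ := conj_main Φ s hI hs k P hPk hP hf hv
  have e1 := Φ.mul v u
  have e2 := Φ.mul (v * u * v⁻¹) v
  have e3 := Size.transport (fun n => Φ.φ n v)
      (P := fun n y => f n (Φ.φ n (v * u * v⁻¹) y) = f n y) (asinv_closure Φ hf.1 hu)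
  have t1 := Size.transport (fun n => Φ.φ n u) (P := fun n y => h n y = H n (f n y)) hH
  have t2 := Size.transport (fun n => Φ.φ n u)
      (P := fun n y => f n y = H' n (f n (Φ.φ n v y))) hH'
  filter_upwards [e1, e2, e3, t1, t2, hH, hH'] with x e1 e2 e3 t1 t2 hH hH'
  rw [inv_mul_cancel_right] at e2
  rw [t1, t2, ← e1, e2, e3, hH, ← hH']

end Helper418
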