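import Pool.Agent.Helper418_Sofic.Defs

open Filter Topology Finset
open scoped Classical

namespace Helper418

namespace NotLef

/-- one multiplication rule -/
def Good {G : Type} [Group G] (F : Finset G) {P : Type} [Group P] (ψ : G → P) : Prop :=
  ∀ γ ∈ F, ∀ γ' ∈ F, γ * γ' ∈ F → ψ (γ * γ') = ψ γ * ψ γ'

theorem Good.mono {G : Type} [Group G] {F F' : Finset G} {P : Type} [Group P] {ψ : G → P}
    (h : Good F ψ) (hF : F' ⊆ F) : Good F' ψ :=
  fun γ hγ γ' hγ' hm => h γ (hF hγ) γ' (hF hγ') (hF hm)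

theorem Good.one {G : Type} [Group G] {F : Finset G} {P : Type} [Group P] {ψ : G → P}
    (h : Good F ψ) (h1 : (1 : G) ∈ F) : ψ 1 = 1 := by
  have := h 1 h1 1 h1 (by rwa [mul_one])
  rw [mul_one] at this
  exact (left_eq_mul.1 this)

theorem Good.inv {G : Type} [Group G] {F : Finset G} {P : Type} [Group P] {ψ : G → P}
    (h : Good F ψ) (h1 : (1 : G) ∈ F) {x : G} (hx : x ∈ F) (hx' : x⁻¹ ∈ F) :
    ψ x⁻¹ = (ψ x)⁻¹ := by
  have := h x hx x⁻¹ hx' (by rwa [mul_inv_cancel])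
  rw [mul_inv_cancel, h.one h1] at this
  exact (inv_eq_of_mul_eq_one_right this.symm).symm

theorem exists_F {G : Type} [Group G] (Γ : Subgroup G) {κ : Type} (h : κ → G)
    (hh : ∀ i, h i ∈ Γ) (x : G) (hx : x ∈ Subgroup.closure (Set.range h)) :
    ∃ F : Finset G, (∀ γ ∈ F, γ ∈ Γ) ∧ ∀ (P : Type) [Group P] (ψ : G → P), Good F ψ →
      ψ x ∈ Subgroup.closure (Set.range fun i => ψ (h i)) := by
  have hle : Subgroup.closure (Set.range h) ≤ Γ := by
    rw [Subgroup.closure_le]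
    rintro _ ⟨i, rfl⟩
    exact hh i
  induction hx using Subgroup.closure_induction with
  | mem x hx =>
    obtain ⟨i, rfl⟩ := hx
    refine ⟨∅, by simp, ?_⟩
    intro P _ ψ _
    exact Subgroup.subset_closure ⟨i, rfl⟩
  | one =>
    refine ⟨{1}, ?_, ?_⟩
    · intro γ hγ
      rw [mem_singleton] at hγ
      rw [hγ]
      exact Γ.one_mem
    · intro P _ ψ hψ
      rw [hψ.one (mem_singleton_self _)]
      exact Subgroup.one_mem _
  | mul a b ha hb iha ihb =>
    obtain ⟨Fa, ha1, ha2⟩ := iha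
    obtain ⟨Fb, hb1, hb2⟩ := ihb
    refine ⟨Fa ∪ Fb ∪ {a, b, a * b}, ?_, ?_⟩
    · intro γ hγ
      simp only [mem_union, mem_insert, mem_singleton] at hγ
      rcases hγ with (h1 | h1) | rfl | rfl | rfl
      · exact ha1 γ h1
      · exact hb1 γ h1
      · exact hle ha
      · exact hle hb
      · exact Γ.mul_mem (hle ha) (hle hb)
    · intro P _ ψ hψ
      rw [hψ a (by simp) b (by simp) (by simp)]
      refine Subgroup.mul_mem _ (ha2 P ψ (hψ.mono ?_)) (hb2 P ψ (hψ.mono ?_))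
      · intro γ hγ
        simp [hγ]
      · intro γ hγ
        simp [hγ]
  | inv a ha iha =>
    obtain ⟨Fa, ha1, ha2⟩ := iha
    refine ⟨Fa ∪ {a, a⁻¹, 1}, ?_, ?_⟩
    · intro γ hγ
      simp only [mem_union, mem_insert, mem_singleton] at hγ
      rcases hγ with h1 | rfl | rfl | rfl
      · exact ha1 γ h1
      · exact hle ha
      · exact Γ.inv_mem (hle ha)
      · exact Γ.one_mem
    · intro P _ ψ hψ
      rw [hψ.inv (by simp) (x := a) (by simp) (by simp)]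
      refine Subgroup.inv_mem _ (ha2 P ψ (hψ.mono ?_))
      intro γ hγ
      simp [hγ]

theorem conj_closure {P : Type} [Group P] [Finite P] {κ : Type} (g : κ → P) (T Z y : P)
    (h1 : ∀ i, T * g i * T⁻¹ ∈ Subgroup.closure (Set.range g))
    (h2 : ∀ i, Z * (T * g i * T⁻¹) = (T * g i * T⁻¹) * Z)
    (hy : y ∈ Subgroup.closure (Set.range g)) : Z * y = y * Z := by
  set H := Subgroup.closure (Set.range g) with hH
  have hmap : H.map (MulAut.conj T).toMonoidHom ≤ H := by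
    rw [hH, MonoidHom.map_closure, Subgroup.closure_le]
    rintro _ ⟨_, ⟨i, rfl⟩, rfl⟩
    exact h1 i
  have hcard : Nat.card (H.map (MulAut.conj T).toMonoidHom) = Nat.card H :=
    Nat.card_congr (H.equivMapOfInjective _ (MulAut.conj T).injective).symm.toEquiv
  have heq : H.map (MulAut.conj T).toMonoidHom = H :=
    Subgroup.eq_of_le_of_card_ge hmap hcard.ge
  have hcent : H.map (MulAut.conj T).toMonoidHom ≤ Subgroup.centralizer {Z} := by
    rw [hH, MonoidHom.map_closure, Subgroup.closure_le]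
    rintro _ ⟨_, ⟨i, rfl⟩, rfl⟩
    rw [SetLike.mem_coe, Subgroup.mem_centralizer_singleton_iff]
    exact (h2 i).symm
  rw [heq] at hcent
  have := hcent hy
  rw [Subgroup.mem_centralizer_singleton_iff] at this
  exact this.symm

end NotLef

/-- TARGET -/
theorem not_lef {G : Type} [Group G] (Γ : Subgroup G) {κ : Type} [Fintype κ] (h : κ → G)
    (hh : ∀ i, h i ∈ Γ) (t z y : G) (ht : t ∈ Γ) (hz : z ∈ Γ)
    (h1 : ∀ i, t * h i * t⁻¹ ∈ Subgroup.closure (Set.range h))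
    (h2 : ∀ i, Commute z (t * h i * t⁻¹)) (hy : y ∈ Subgroup.closure (Set.range h))
    (h3 : ¬ Commute z y)
    (H : ∀ F : Finset G, (∀ γ ∈ F, γ ∈ Γ) → ∃ (Q : Type) (_ : Fintype Q) (ψ : G → Equiv.Perm Q),
      (∀ γ ∈ F, ∀ γ' ∈ F, γ * γ' ∈ F → ψ (γ * γ') = ψ γ * ψ γ') ∧
      (∀ γ ∈ F, ∀ γ' ∈ F, ψ γ = ψ γ' → γ = γ')) : False := by
  have hle : Subgroup.closure (Set.range h) ≤ Γ := by
    rw [Subgroup.closure_le]
    rintro _ ⟨i, rfl⟩
    exact hh i
  have hyΓ : y ∈ Γ := hle hy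
  choose FF hFF1 hFF2 using fun i => NotLef.exists_F Γ h hh _ (h1 i)
  obtain ⟨Fy, hFy1, hFy2⟩ := NotLef.exists_F Γ h hh y hy
  set F : Finset G := (univ.biUnion FF) ∪ Fy ∪
    (univ.biUnion fun i => {h i, t * h i, t * h i * t⁻¹, z * (t * h i * t⁻¹),
      (t * h i * t⁻¹) * z}) ∪ {t, t⁻¹, 1, z, y, z * y, y * z} with hF
  have hFΓ : ∀ γ ∈ F, γ ∈ Γ := by
    intro γ hγ
    simp only [hF, mem_union, mem_biUnion, mem_univ, true_and, mem_insert, mem_singleton] at hγ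
    have htΓ : ∀ i, t * h i ∈ Γ := fun i => Γ.mul_mem ht (hh i)
    have httΓ : ∀ i, t * h i * t⁻¹ ∈ Γ := fun i => Γ.mul_mem (htΓ i) (Γ.inv_mem ht)
    rcases hγ with (((⟨i, hi⟩ | hγ) | ⟨i, hi⟩) | hγ)
    · exact hFF1 i γ hi
    · exact hFy1 γ hγ
    · rcases hi with rfl | rfl | rfl | rfl | rfl
      · exact hh i
      · exact htΓ i
      · exact httΓ i
      · exact Γ.mul_mem hz (httΓ i)
      · exact Γ.mul_mem (httΓ i) hz
    · rcases hγ with rfl | rfl | rfl | rfl | rfl | rfl | rfl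
      · exact ht
      · exact Γ.inv_mem ht
      · exact Γ.one_mem
      · exact hz
      · exact hyΓ
      · exact Γ.mul_mem hz hyΓ
      · exact Γ.mul_mem hyΓ hz
  obtain ⟨Q, _, ψ, hψ, hinj⟩ := H F hFΓ
  have hgood : NotLef.Good F ψ := hψ
  have m1 : (1 : G) ∈ F := by simp [hF]
  have mt : t ∈ F := by simp [hF]
  have mt' : t⁻¹ ∈ F := by simp [hF]
  have mz : z ∈ F := by simp [hF]
  have my : y ∈ F := by simp [hF]
  have mzy : z * y ∈ F := by simp [hF]
  have myz : y * z ∈ F := by simp [hF]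
  have mi : ∀ i, h i ∈ F ∧ t * h i ∈ F ∧ t * h i * t⁻¹ ∈ F ∧ z * (t * h i * t⁻¹) ∈ F ∧
      (t * h i * t⁻¹) * z ∈ F := by
    intro i
    have key : ∀ γ ∈ ({h i, t * h i, t * h i * t⁻¹, z * (t * h i * t⁻¹),
      (t * h i * t⁻¹) * z} : Finset G), γ ∈ F := by
      intro γ hγ
      rw [hF, mem_union, mem_union]
      left; right
      exact mem_biUnion.2 ⟨i, mem_univ _, hγ⟩
    refine ⟨key _ (by simp), key _ (by simp), key _ (by simp), key _ (by simp), key _ (by simp)⟩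
  have hT : ψ t⁻¹ = (ψ t)⁻¹ := hgood.inv m1 mt mt'
  have hconj : ∀ i, ψ (t * h i * t⁻¹) = ψ t * ψ (h i) * (ψ t)⁻¹ := by
    intro i
    rw [hψ _ (mi i).2.1 _ mt' (mi i).2.2.1, hψ _ mt _ (mi i).1 (mi i).2.1, hT]
  have hcl : ∀ i, ψ t * ψ (h i) * (ψ t)⁻¹ ∈ Subgroup.closure (Set.range fun i => ψ (h i)) := by
    intro i
    rw [← hconj]
    apply hFF2 i
    apply hgood.mono
    intro γ hγ
    rw [hF, mem_union, mem_union, mem_union]
    left; left; left
    exact mem_biUnion.2 ⟨i, mem_univ _, hγ⟩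
  have hcomm : ∀ i, ψ z * (ψ t * ψ (h i) * (ψ t)⁻¹) = (ψ t * ψ (h i) * (ψ t)⁻¹) * ψ z := by
    intro i
    rw [← hconj, ← hψ _ mz _ (mi i).2.2.1 (mi i).2.2.2.1, ← hψ _ (mi i).2.2.1 _ mz (mi i).2.2.2.2,
      (h2 i).eq]
  have hyc : ψ y ∈ Subgroup.closure (Set.range fun i => ψ (h i)) := by
    apply hFy2
    apply hgood.mono
    intro γ hγ
    rw [hF, mem_union, mem_union, mem_union]
    left; left; right
    exact hγ
  have hfin := NotLef.conj_closure (fun i => ψ (h i)) (ψ t) (ψ z) (ψ y) hcl hcomm hyc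
  rw [← hψ _ mz _ my mzy, ← hψ _ my _ mz myz] at hfin
  exact h3 (hinj _ mzy _ myz hfin)

end Helper418
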