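import Pool.Agent.Helper418_Sofic.Main1
import Pool.Agent.Helper418_Sofic.Lef
import Pool.Agent.Helper418_Sofic.NotLef
import Pool.Agent.Helper418_Sofic.Alg2
import Pool.Agent.Helper418_Sofic.Conc

/-!
# The group `GG x y` has no faithful sequence of finite approximations
-/

open Filter Topology Finset
open scoped Classical

namespace Helper418

theorem no_approx {R : Type} [Ring R] {x y : Bool → R} (L : Leav 101 x y)
    {A : ℕ → Type} [∀ n, Fintype (A n)] [∀ n, Nonempty (A n)]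
    (Φ : Approx (Alg2.GG x y) A)
    (hfree : ∀ g : Alg2.GG x y, g ≠ 1 → ∀ᶠ z in ae A, Φ.φ z.1 g z.2 ≠ z.2) : False := by
  obtain ⟨s, k, P, a, Γ, hs, hk, hsgen, hPk, hP, haP, hΓK, hΓc, h, t, z, w, hh, ht, hz, h1, h2,
    hw, h3⟩ := Alg2.exists_data L
  have hIs := improves_of_tsystem hs Φ
  have hIk := improves_of_tsystem hk Φ
  obtain ⟨f, hf⟩ := exists_finest hIk
  have hs' : IsTSystem 101 10 (fun i => a * k i * a⁻¹) := by
    have := Alg2.tsystem_map hk (MulAut.conj a).toMonoidHom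
    simpa using this
  have hf' : ∀ u, AsInv (fun n i => Φ.φ n (a * k i * a⁻¹)) u → Ref f u := fun u hu =>
    conj_ref Φ s hIs hsgen k P hPk hP hf haP hu
  have hfs : AsInv (fun n i => Φ.φ n (a * k i * a⁻¹)) f := fun i =>
    asinv_closure Φ hf.1 (hPk a haP i)
  refine not_lef Γ h hh t z w ht hz h1 h2 hw h3 ?_
  intro F hF
  exact lef_of_ergodic Φ hs' hf' hfs Γ hΓc
    (fun γ hγ => asinv_closure Φ hf.1 (hΓK hγ)) (fun γ _ hne => hfree γ hne) F hF

end Helper418
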