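import Pool.Agent.Helper418_Sofic.Defs

open Filter Topology Finset
open scoped Classical

namespace Helper418

namespace PairComm

variable {X : Type} [Fintype X] {p : ℕ}

omit [Fintype X] in
theorem sum_shift (σ : Equiv.Perm X) (hσ : σ ^ p = 1) (g : X → ℝ) (x : X) :
    ∑ j ∈ range p, g ((σ ^ (j + 1)) x) = ∑ j ∈ range p, g ((σ ^ j) x) := by
  have h1 := Finset.sum_range_succ (fun j => g ((σ ^ j) x)) p
  have h2 := Finset.sum_range_succ' (fun j => g ((σ ^ j) x)) p
  rw [hσ] at h1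
  rw [pow_zero] at h2
  linarith

omit [Fintype X] in
theorem avg_apply (σ : Equiv.Perm X) (hσ : σ ^ p = 1) (g : X → ℝ) (x : X) :
    avg p σ g (σ x) = avg p σ g x := by
  unfold avg
  rw [← sum_shift σ hσ g x]
  congr 1

omit [Fintype X] in
theorem avg_pow (σ : Equiv.Perm X) (hσ : σ ^ p = 1) (g : X → ℝ) (j : ℕ) (x : X) :
    avg p σ g ((σ ^ j) x) = avg p σ g x := by
  induction j with
  | zero => simp
  | succ j ih =>
    rw [pow_succ', Equiv.Perm.mul_apply, avg_apply σ hσ, ih]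

omit [Fintype X] in
theorem avg_avg (hp : p.Prime) (σ : Equiv.Perm X) (hσ : σ ^ p = 1) (g : X → ℝ) :
    avg p σ (avg p σ g) = avg p σ g := by
  funext x
  have hp0 : (p : ℝ) ≠ 0 := by exact_mod_cast hp.pos.ne'
  have h1 : avg p σ (avg p σ g) x = (∑ j ∈ range p, avg p σ g ((σ ^ j) x)) / p := rfl
  rw [h1, Finset.sum_congr rfl (fun j _ => avg_pow σ hσ g j x), Finset.sum_const, card_range,
    nsmul_eq_mul]
  field_simp

omit [Fintype X] in
theorem avg_comm (σ τ : Equiv.Perm X) (h : Commute σ τ) (g : X → ℝ) :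
    avg p σ (avg p τ g) = avg p τ (avg p σ g) := by
  funext x
  simp only [avg]
  rw [← Finset.sum_div, ← Finset.sum_div, Finset.sum_comm]
  congr 2
  refine Finset.sum_congr rfl (fun j _ => Finset.sum_congr rfl (fun k _ => ?_))
  rw [← Equiv.Perm.mul_apply, ← Equiv.Perm.mul_apply, (h.pow_pow k j).eq]

theorem avg_adj (σ : Equiv.Perm X) (hσ : σ ^ p = 1) (f g : X → ℝ) :
    ∑ x, avg p σ f x * g x = ∑ x, f x * avg p σ g x := by
  have h1 : ∀ j, ∑ x, f ((σ ^ j) x) * g x = ∑ y, f y * g (((σ ^ j)⁻¹) y) := by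
    intro j
    rw [← Equiv.sum_comp (σ ^ j) (fun y => f y * g (((σ ^ j)⁻¹) y))]
    refine Finset.sum_congr rfl (fun x _ => ?_)
    rw [← Equiv.Perm.mul_apply, inv_mul_cancel, Equiv.Perm.one_apply]
  have h2 : ∑ x, avg p σ f x * g x = (∑ j ∈ range p, ∑ y, f y * g (((σ ^ j)⁻¹) y)) / p := by
    rw [← Finset.sum_congr rfl (fun j _ => h1 j), Finset.sum_comm, Finset.sum_div]
    refine Finset.sum_congr rfl (fun x _ => ?_)
    simp only [avg]
    rw [div_mul_eq_mul_div, Finset.sum_mul]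
  have h3 : ∀ y, ∑ j ∈ range p, g (((σ ^ j)⁻¹) y) = ∑ j ∈ range p, g ((σ ^ j) y) := by
    intro y
    rw [← sum_shift σ hσ g y, ← Finset.sum_range_reflect (fun j => g ((σ ^ (j + 1)) y))]
    refine Finset.sum_congr rfl (fun j hj => ?_)
    rw [Finset.mem_range] at hj
    congr 2
    rw [inv_eq_iff_mul_eq_one, ← pow_add]
    have : j + (p - 1 - j + 1) = p := by omega
    rw [this, hσ]
  rw [h2, Finset.sum_comm, Finset.sum_div]
  refine Finset.sum_congr rfl (fun y _ => ?_)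
  rw [← Finset.mul_sum, h3]
  simp only [avg]
  ring

omit [Fintype X] in
theorem avg_sub (σ : Equiv.Perm X) (f g : X → ℝ) :
    avg p σ (fun x => f x - g x) = fun x => avg p σ f x - avg p σ g x := by
  funext x
  simp only [avg]
  rw [Finset.sum_sub_distrib, sub_div]

omit [Fintype X] in
theorem avg_lap (σ τ : Equiv.Perm X) (g : X → ℝ) (x : X) :
    avg p σ (lap p τ g) x = avg p σ g x - avg p σ (avg p τ g) x :=
  congrFun (avg_sub σ g (avg p τ g)) x

omit [Fintype X] in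
theorem lap_lap (hp : p.Prime) (σ : Equiv.Perm X) (hσ : σ ^ p = 1) (g : X → ℝ) :
    lap p σ (lap p σ g) = lap p σ g := by
  funext x
  have h1 := avg_lap (p := p) σ σ g x
  rw [avg_avg hp σ hσ] at h1
  have h2 : lap p σ (lap p σ g) x = lap p σ g x - avg p σ (lap p σ g) x := rfl
  rw [h2, h1]
  ring

omit [Fintype X] in
theorem lap_comm (σ τ : Equiv.Perm X) (h : Commute σ τ) (g : X → ℝ) :
    lap p σ (lap p τ g) = lap p τ (lap p σ g) := by
  funext x
  have h1 := avg_lap (p := p) σ τ g x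
  have h2 := avg_lap (p := p) τ σ g x
  rw [avg_comm σ τ h] at h1
  have h3 : lap p σ (lap p τ g) x = (g x - avg p τ g x) - avg p σ (lap p τ g) x := rfl
  have h4 : lap p τ (lap p σ g) x = (g x - avg p σ g x) - avg p τ (lap p σ g) x := rfl
  rw [h3, h4, h1, h2]
  ring

theorem lap_adj (σ : Equiv.Perm X) (hσ : σ ^ p = 1) (f g : X → ℝ) :
    ∑ x, lap p σ f x * g x = ∑ x, f x * lap p σ g x := by
  simp only [lap, sub_mul, mul_sub, Finset.sum_sub_distrib]
  rw [avg_adj σ hσ]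

end PairComm

/-- TARGET -/
theorem pair_comm {X : Type} [Fintype X] {p : ℕ} (hp : p.Prime) (σ τ : Equiv.Perm X)
    (hσ : σ ^ p = 1) (hτ : τ ^ p = 1) (h1 : Commute σ τ) (f : X → ℝ) :
    0 ≤ ∑ x, lap p σ f x * lap p τ f x := by
  have e1 : ∑ x, lap p σ f x * lap p τ f x =
      ∑ x, lap p τ (lap p σ f) x * lap p τ (lap p σ f) x := by
    calc ∑ x, lap p σ f x * lap p τ f x
        = ∑ x, lap p σ (lap p σ f) x * lap p τ f x := by rw [PairComm.lap_lap hp σ hσ]
      _ = ∑ x, lap p σ f x * lap p σ (lap p τ f) x := PairComm.lap_adj σ hσ _ _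
      _ = ∑ x, lap p σ f x * lap p τ (lap p σ f) x := by rw [PairComm.lap_comm σ τ h1]
      _ = ∑ x, lap p σ f x * lap p τ (lap p τ (lap p σ f)) x := by
          rw [PairComm.lap_lap hp τ hτ]
      _ = ∑ x, lap p τ (lap p σ f) x * lap p τ (lap p σ f) x :=
          (PairComm.lap_adj τ hτ _ _).symm
  rw [e1]
  exact Finset.sum_nonneg (fun x _ => mul_self_nonneg _)

end Helper418
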