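import Pool.Agent.Helper418_Sofic.Defs

open Filter Topology Finset
open scoped Classical

namespace Helper418.PairHeis

section Mon

variable {M : Type*} [Monoid M] {a b c : M} {p : ℕ}

lemma a_bpow (hab : a * b = c * b * a) (hcb : Commute c b) (j : ℕ) :
    a * b ^ j = c ^ j * b ^ j * a := by
  induction j with
  | zero => simp
  | succ j ih =>
    have h1 : b ^ j * c = c * b ^ j := (hcb.pow_right j).symm.eq
    calc a * b ^ (j + 1) = (a * b ^ j) * b := by rw [pow_succ, mul_assoc]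
      _ = c ^ j * b ^ j * (a * b) := by rw [ih, mul_assoc]
      _ = c ^ j * (b ^ j * c) * b * a := by rw [hab]; simp only [mul_assoc]
      _ = c ^ (j + 1) * b ^ (j + 1) * a := by rw [h1, pow_succ, pow_succ]; simp only [mul_assoc]

lemma c_pow (hp : p.Prime) (ha : a ^ p = 1) (hb : b ^ p = 1) (hab : a * b = c * b * a)
    (hcb : Commute c b) : c ^ p = 1 := by
  have h1 := a_bpow hab hcb p
  rw [hb, mul_one, mul_one] at h1
  have h2 : a * a ^ (p - 1) = 1 := by rw [← pow_succ', Nat.sub_add_cancel hp.one_le, ha]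
  calc c ^ p = c ^ p * (a * a ^ (p - 1)) := by rw [h2, mul_one]
    _ = (c ^ p * a) * a ^ (p - 1) := by rw [mul_assoc]
    _ = 1 := by rw [← h1, h2]

end Mon

section Alg

variable {A : Type*} [Ring A] [Algebra ℝ A]

/-- the mean of the powers -/
noncomputable def mean (p : ℕ) (x : A) : A := (p : ℝ)⁻¹ • ∑ j ∈ range p, x ^ j

lemma mul_mean {p : ℕ} {x : A} (hx : x ^ p = 1) : x * mean p x = mean p x := by
  unfold mean
  rw [mul_smul_comm, mul_sum]
  congr 1
  have h1 : ∑ i ∈ range p, x * x ^ i = ∑ i ∈ range p, x ^ (i + 1) :=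
    sum_congr rfl fun i _ => (pow_succ' x i).symm
  have h2 := Finset.sum_range_succ (fun i => x ^ i) p
  have h3 := Finset.sum_range_succ' (fun i => x ^ i) p
  rw [h1]
  rw [h2, hx, pow_zero] at h3
  exact (add_right_cancel h3).symm

lemma pow_mul_mean {p : ℕ} {x : A} (hx : x ^ p = 1) (i : ℕ) : x ^ i * mean p x = mean p x := by
  induction i with
  | zero => simp
  | succ i ih => rw [pow_succ, mul_assoc, mul_mean hx, ih]

lemma mean_mul_of {p : ℕ} (hp : 0 < p) {x m : A} (h : x * m = m) : mean p x * m = m := by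
  unfold mean
  rw [smul_mul_assoc, sum_mul]
  have h1 : ∀ i, x ^ i * m = m := by
    intro i
    induction i with
    | zero => simp
    | succ i ih => rw [pow_succ, mul_assoc, h, ih]
  simp_rw [h1]
  rw [sum_const, card_range, ← Nat.cast_smul_eq_nsmul ℝ, smul_smul, inv_mul_cancel₀, one_smul]
  exact_mod_cast hp.ne'

lemma mean_mul_mean {p : ℕ} (hp : 0 < p) {x : A} (hx : x ^ p = 1) :
    mean p x * mean p x = mean p x := mean_mul_of hp (mul_mean hx)

lemma commute_mean {p : ℕ} {x y : A} (h : Commute x y) : Commute x (mean p y) := by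
  unfold mean
  exact Commute.smul_right (Commute.sum_right _ _ _ fun i _ => h.pow_right i) _

lemma mean_pow {p j : ℕ} (hp : p.Prime) {x : A} (hx : x ^ p = 1) (hj : j.Coprime p) :
    mean p (x ^ j) = mean p x := by
  have h1 : (x ^ j) ^ p = 1 := by rw [← pow_mul, mul_comm, pow_mul, hx, one_pow]
  obtain ⟨k, hk⟩ : ∃ k : ℕ, j * k ≡ 1 [MOD p] := by
    obtain ⟨k, -, hk⟩ := Nat.exists_mul_mod_eq_one_of_coprime hj hp.one_lt
    exact ⟨k, by rw [Nat.ModEq, hk, Nat.mod_eq_of_lt hp.one_lt]⟩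
  have h2 : x = (x ^ j) ^ k := by
    rw [← pow_mul]
    have h3 : ∀ n : ℕ, x ^ n = x ^ (n % p) := by
      intro n
      conv_lhs => rw [← Nat.div_add_mod n p]
      rw [pow_add, pow_mul, hx, one_pow, one_mul]
    rw [h3 (j * k), hk, Nat.mod_eq_of_lt hp.one_lt, pow_one]
  have h4 : x * mean p (x ^ j) = mean p (x ^ j) := by
    nth_rewrite 1 [h2]
    exact pow_mul_mean h1 k
  have h5 : mean p x * mean p (x ^ j) = mean p (x ^ j) := mean_mul_of hp.pos h4
  have h6 : mean p (x ^ j) * mean p x = mean p x :=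
    mean_mul_of hp.pos (pow_mul_mean hx j)
  have h7 : Commute (mean p x) (mean p (x ^ j)) :=
    commute_mean (commute_mean ((Commute.refl x).pow_left j)).symm
  rw [← h5, h7.eq, h6]

variable {a b c : A} {p : ℕ}

lemma apow_bpow (hab : a * b = c * b * a) (hca : Commute c a) (hcb : Commute c b) (i j : ℕ) :
    a ^ i * b ^ j = c ^ (i * j) * b ^ j * a ^ i := by
  induction i with
  | zero => simp
  | succ i ih =>
    have h1 : a * c ^ (i * j) = c ^ (i * j) * a := (hca.pow_left (i * j)).symm.eq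
    calc a ^ (i + 1) * b ^ j = a * (a ^ i * b ^ j) := by rw [pow_succ', mul_assoc]
      _ = (a * c ^ (i * j)) * b ^ j * a ^ i := by rw [ih]; simp only [mul_assoc]
      _ = c ^ (i * j) * (a * b ^ j) * a ^ i := by rw [h1]; simp only [mul_assoc]
      _ = c ^ ((i + 1) * j) * b ^ j * a ^ (i + 1) := by
        rw [a_bpow hab hcb j, pow_succ', add_mul, one_mul, pow_add]; simp only [mul_assoc]

lemma PbP (hp : p.Prime) (ha : a ^ p = 1) (hb : b ^ p = 1) (hab : a * b = c * b * a)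
    (hca : Commute c a) (hcb : Commute c b) {j : ℕ} (hj : j.Coprime p) :
    mean p a * b ^ j * mean p a = mean p c * b ^ j * mean p a := by
  have hc := c_pow hp ha hb hab hcb
  have h1 : mean p a * b ^ j * mean p a = mean p (c ^ j) * b ^ j * mean p a := by
    conv_lhs => rw [mul_assoc]
    conv_lhs => arg 1; unfold mean
    rw [smul_mul_assoc, sum_mul]
    have h2 : ∀ i ∈ range p, a ^ i * (b ^ j * mean p a) = (c ^ j) ^ i * (b ^ j * mean p a) := by
      intro i _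
      rw [← mul_assoc, apow_bpow hab hca hcb, mul_assoc, pow_mul_mean ha, mul_assoc, mul_comm i j,
        pow_mul]
    rw [sum_congr rfl h2, ← sum_mul, ← smul_mul_assoc, ← mul_assoc]
    rfl
  rw [h1, mean_pow hp hc hj]

lemma PQP (hp : p.Prime) (ha : a ^ p = 1) (hb : b ^ p = 1) (hab : a * b = c * b * a)
    (hca : Commute c a) (hcb : Commute c b) :
    mean p a * mean p b * mean p a =
      (p : ℝ)⁻¹ • (mean p a - mean p c * mean p a) + mean p c * mean p b * mean p a := by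
  have h1 : ∀ j ∈ range p, mean p a * b ^ j * mean p a =
      mean p c * b ^ j * mean p a + if j = 0 then (mean p a - mean p c * mean p a) else 0 := by
    intro j hj
    split_ifs with h
    · subst h
      rw [pow_zero, mul_one, mul_one, mean_mul_mean hp.pos ha]
      abel
    · rw [add_zero]
      refine PbP hp ha hb hab hca hcb ?_
      rw [Nat.coprime_comm, hp.coprime_iff_not_dvd]
      intro hd
      exact h (Nat.eq_zero_of_dvd_of_lt hd (mem_range.mp hj))
  have h2 : ∀ m : A, m * mean p b * mean p a = (p : ℝ)⁻¹ • ∑ j ∈ range p, m * b ^ j * mean p a := by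
    intro m
    conv_lhs => arg 1; arg 2; unfold mean
    rw [mul_smul_comm, smul_mul_assoc, mul_sum, sum_mul]
  rw [h2, h2, sum_congr rfl h1, sum_add_distrib, smul_add, add_comm]
  congr 2
  rw [sum_ite_eq' (range p) 0, if_pos (mem_range.mpr hp.pos)]

lemma PQR (hp : p.Prime) (ha : a ^ p = 1) (hb : b ^ p = 1) (hab : a * b = c * b * a)
    (hca : Commute c a) (hcb : Commute c b) :
    mean p a * mean p b * mean p c = mean p b * mean p a * mean p c := by
  have hc := c_pow hp ha hb hab hcb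
  have h1 : ∀ x y : A, mean p x * mean p y * mean p c =
      (p : ℝ)⁻¹ • (p : ℝ)⁻¹ • ∑ i ∈ range p, ∑ j ∈ range p, x ^ i * y ^ j * mean p c := by
    intro x y
    conv_lhs => arg 1; unfold mean
    rw [smul_mul_assoc, smul_mul_assoc, mul_smul_comm, smul_mul_assoc, sum_mul, sum_mul]
    congr 2
    refine sum_congr rfl fun i _ => ?_
    rw [mul_sum, sum_mul]
  rw [h1, h1, sum_comm]
  congr 2
  refine sum_congr rfl fun j _ => sum_congr rfl fun i _ => ?_
  rw [apow_bpow hab hca hcb]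
  have h2 : c ^ (i * j) * b ^ j * a ^ i = b ^ j * a ^ i * c ^ (i * j) := by
    have h3 : Commute (c ^ (i * j)) (b ^ j * a ^ i) :=
      ((hcb.pow_pow _ _)).mul_right (hca.pow_pow _ _)
    rw [mul_assoc, h3.eq]
  rw [h2, mul_assoc, pow_mul_mean hc]

end Alg

/-- the final real inequality -/
lemma scal {N α β γ ε : ℝ} (hN : 0 ≤ N) (hα : 0 ≤ α) (hβ : 0 ≤ β) (hε : 0 ≤ ε) (hε1 : ε ≤ 1)
    (h1 : γ ^ 2 ≤ ε ^ 2 * (α * β)) (h2 : (α + β) ^ 2 ≤ (α + β + 2 * γ) * N) :
    -ε * ((N - α) + (N - β)) ≤ 2 * (N - α - β + γ) := by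
  have hs : 0 ≤ α + β := by linarith
  have h3 : 2 * γ ≤ ε * (α + β) := by
    by_contra hcon
    push Not at hcon
    have h4 : (ε * (α + β)) ^ 2 < (2 * γ) ^ 2 := pow_lt_pow_left₀ hcon (by positivity) two_ne_zero
    have h5 : ε ^ 2 * (α - β) ^ 2 ≥ 0 := by positivity
    nlinarith
  rcases hs.eq_or_lt with h0 | h0
  · have hα0 : α = 0 := by linarith
    have hβ0 : β = 0 := by linarith
    have hγ0 : γ = 0 := by
      have : γ ^ 2 ≤ 0 := by rw [hα0] at h1; simpa using h1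
      exact pow_eq_zero_iff two_ne_zero |>.mp (le_antisymm this (sq_nonneg _))
    rw [hα0, hβ0, hγ0]
    nlinarith
  · have h5 : (α + β) ≤ (1 + ε) * N := by
      have h6 : (α + β) * (α + β) ≤ (α + β) * ((1 + ε) * N) := by nlinarith
      exact le_of_mul_le_mul_left h6 h0
    have hN' : 0 < N := by
      rcases hN.eq_or_lt with h | h
      · rw [← h] at h5; linarith
      · exact h
    have h7 : 0 ≤ (2 * N - (α + β)) * ((1 + ε) * N - (α + β)) := by
      apply mul_nonneg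
      · nlinarith
      · linarith
    have h8 : 0 ≤ N * (2 * (N - α - β + γ) + ε * ((N - α) + (N - β))) := by nlinarith
    have h9 := nonneg_of_mul_nonneg_right h8 hN'
    linarith

section Main

variable {X : Type} [Fintype X]

/-- the permutation representation -/
noncomputable def V : Equiv.Perm X →* Module.End ℝ (X → ℝ) where
  toFun σ := LinearMap.funLeft ℝ ℝ (σ⁻¹ : Equiv.Perm X)
  map_one' := by ext; simp [LinearMap.funLeft]
  map_mul' σ τ := by
    ext f x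
    simp [LinearMap.funLeft, mul_inv_rev]

lemma V_apply (σ : Equiv.Perm X) (f : X → ℝ) (x : X) : V σ f x = f (σ⁻¹ x) := rfl

lemma avg_eq (p : ℕ) (σ : Equiv.Perm X) (f : X → ℝ) : avg p σ f = mean p (V σ⁻¹) f := by
  funext x
  unfold avg mean
  rw [LinearMap.smul_apply, Pi.smul_apply, LinearMap.sum_apply, Finset.sum_apply, smul_eq_mul,
    div_eq_inv_mul]
  congr 1
  refine sum_congr rfl fun j _ => ?_
  rw [← map_pow, V_apply]
  simp

lemma dot_V (σ : Equiv.Perm X) (f g : X → ℝ) : (V σ f) ⬝ᵥ g = f ⬝ᵥ (V σ⁻¹ g) := by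
  unfold dotProduct
  rw [← Equiv.sum_comp σ]
  refine sum_congr rfl fun x _ => ?_
  rw [V_apply, V_apply]
  simp

lemma dot_mean {p : ℕ} (hp : p.Prime) (σ : Equiv.Perm X) (hσ : σ ^ p = 1) (f g : X → ℝ) :
    (mean p (V σ) f) ⬝ᵥ g = f ⬝ᵥ (mean p (V σ) g) := by
  have h1 : mean p (V σ⁻¹) = mean p (V σ) := by
    have h2 : V (σ⁻¹) = V σ ^ (p - 1) := by
      rw [← map_pow]
      congr 1
      rw [inv_eq_iff_mul_eq_one, ← pow_succ', Nat.sub_add_cancel hp.one_le, hσ]
    rw [h2]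
    refine mean_pow hp (by rw [← map_pow, hσ, map_one]) ?_
    have := hp.one_le
    have h3 : (p - 1).Coprime (p - 1 + 1) := by simp
    rwa [Nat.sub_add_cancel this] at h3
  conv_rhs => rw [← h1]
  unfold mean
  rw [LinearMap.smul_apply, LinearMap.smul_apply, smul_dotProduct, dotProduct_smul,
    LinearMap.sum_apply, LinearMap.sum_apply, sum_dotProduct, dotProduct_sum]
  congr 1
  refine sum_congr rfl fun j _ => ?_
  rw [← map_pow, ← map_pow, dot_V, inv_pow]

lemma dot_self_nonneg (x : X → ℝ) : 0 ≤ x ⬝ᵥ x := by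
  unfold dotProduct
  exact sum_nonneg fun i _ => mul_self_nonneg _

lemma dot_cs (x y : X → ℝ) : (x ⬝ᵥ y) ^ 2 ≤ (x ⬝ᵥ x) * (y ⬝ᵥ y) := by
  have h := Finset.sum_mul_sq_le_sq_mul_sq (univ : Finset X) x y
  unfold dotProduct
  simpa only [pow_two] using h

lemma dot_lap {S : Module.End ℝ (X → ℝ)} (sS : ∀ f g, S f ⬝ᵥ g = f ⬝ᵥ S g)
    (iS : ∀ f, S (S f) = S f) (x y : X → ℝ) : (x - S x) ⬝ᵥ (y - S y) = (x - S x) ⬝ᵥ y := by
  rw [dotProduct_sub, ← sS, map_sub, iS, sub_self, zero_dotProduct, sub_zero]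

theorem abs_ineq (P Q R : Module.End ℝ (X → ℝ)) (pinv ε : ℝ) (hε : ε ^ 2 = pinv) (hε0 : 0 ≤ ε)
    (hε1 : ε ≤ 1) (sP : ∀ f g, P f ⬝ᵥ g = f ⬝ᵥ P g) (sQ : ∀ f g, Q f ⬝ᵥ g = f ⬝ᵥ Q g)
    (sR : ∀ f g, R f ⬝ᵥ g = f ⬝ᵥ R g)
    (iP : ∀ f, P (P f) = P f) (iQ : ∀ f, Q (Q f) = Q f) (iR : ∀ f, R (R f) = R f)
    (hPR : ∀ f, R (P f) = P (R f)) (hQR : ∀ f, R (Q f) = Q (R f))
    (h1 : ∀ f, P (Q (P f)) = pinv • (P f - R (P f)) + R (Q (P f)))
    (h2 : ∀ f, P (Q (R f)) = Q (P (R f))) (f : X → ℝ) :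
    -ε * ((f - P f) ⬝ᵥ (f - P f) + (f - Q f) ⬝ᵥ (f - Q f)) ≤ 2 * ((f - P f) ⬝ᵥ (f - Q f)) := by
  set f0 := R f with hf0
  set g := f - R f with hg
  have hRg : R g = 0 := by rw [hg, map_sub, iR, sub_self]
  set u0 := f0 - P f0 with hu0
  set u1 := g - P g with hu1
  set v0 := f0 - Q f0 with hv0
  set v1 := g - Q g with hv1
  have eP : f - P f = u0 + u1 := by
    rw [hu0, hu1, hg, map_sub]; abel
  have eQ : f - Q f = v0 + v1 := by
    rw [hv0, hv1, hg, map_sub]; abel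
  clear_value g
  have hRu1 : R u1 = 0 := by rw [hu1, map_sub, hPR, hRg, map_zero, sub_zero]
  have hRv1 : R v1 = 0 := by rw [hv1, map_sub, hQR, hRg, map_zero, sub_zero]
  have eu0 : u0 = R (f - P f) := by rw [hu0, hf0, map_sub, hPR]
  have ev0 : v0 = R (f - Q f) := by rw [hv0, hf0, map_sub, hQR]
  have c1 : u0 ⬝ᵥ u1 = 0 := by rw [eu0, sR, hRu1, dotProduct_zero]
  have c2 : u0 ⬝ᵥ v1 = 0 := by rw [eu0, sR, hRv1, dotProduct_zero]
  have c3 : v0 ⬝ᵥ u1 = 0 := by rw [ev0, sR, hRu1, dotProduct_zero]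
  have c4 : v0 ⬝ᵥ v1 = 0 := by rw [ev0, sR, hRv1, dotProduct_zero]
  have c5 : 0 ≤ u0 ⬝ᵥ v0 := by
    have hw : v0 - P v0 = u0 - Q u0 := by
      rw [hv0, hu0, map_sub, map_sub, hf0, h2]; abel
    have k1 : (v0 - P v0) ⬝ᵥ (v0 - P v0) = u0 ⬝ᵥ v0 := by
      rw [dot_lap sP iP, dotProduct_comm, hw, hv0, dot_lap sQ iQ, dotProduct_comm]
    rw [← k1]
    exact dot_self_nonneg _
  -- the scalars
  set N := g ⬝ᵥ g with hN
  set α := P g ⬝ᵥ P g with hα
  set β := Q g ⬝ᵥ Q g with hβ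
  set γ := P g ⬝ᵥ Q g with hγ
  have a1 : P g ⬝ᵥ g = α := by rw [hα, sP, sP, iP]
  have b1 : Q g ⬝ᵥ g = β := by rw [hβ, sQ, sQ, iQ]
  have a2 : g ⬝ᵥ P g = α := by rw [dotProduct_comm, a1]
  have b2 : g ⬝ᵥ Q g = β := by rw [dotProduct_comm, b1]
  have d1 : u1 ⬝ᵥ u1 = N - α := by
    rw [hu1, dot_lap sP iP, sub_dotProduct, a1]
  have d2 : v1 ⬝ᵥ v1 = N - β := by
    rw [hv1, dot_lap sQ iQ, sub_dotProduct, b1]
  have d3 : u1 ⬝ᵥ v1 = N - α - β + γ := by
    rw [hu1, hv1, sub_dotProduct, dotProduct_sub, dotProduct_sub, a1, b2]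
    ring
  have k1 : P (Q (P g)) = pinv • P g := by
    rw [h1 g, hPR, hRg, map_zero, sub_zero, hQR, hPR, hRg, map_zero, map_zero, add_zero]
  have k2 : Q (P g) ⬝ᵥ Q (P g) = pinv * α := by
    rw [sQ, iQ, sP, k1, dotProduct_smul, a2, smul_eq_mul]
  have k3 : γ ^ 2 ≤ ε ^ 2 * (α * β) := by
    have k4 : γ = Q (P g) ⬝ᵥ Q g := by rw [hγ, sQ, iQ]
    rw [k4, hε]
    refine (dot_cs _ _).trans (le_of_eq ?_)
    rw [k2]; ring
  have k5 : (α + β) ^ 2 ≤ (α + β + 2 * γ) * N := by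
    have k6 : α + β = (P g + Q g) ⬝ᵥ g := by rw [add_dotProduct, a1, b1]
    have k7 : (P g + Q g) ⬝ᵥ (P g + Q g) = α + β + 2 * γ := by
      rw [add_dotProduct, dotProduct_add, dotProduct_add, dotProduct_comm (Q g) (P g)]
      ring
    rw [← k7, k6]
    exact dot_cs _ _
  have key := scal (N := N) (α := α) (β := β) (γ := γ) (dot_self_nonneg _) (dot_self_nonneg _)
    (dot_self_nonneg _) hε0 hε1 k3 k5
  rw [eP, eQ]
  have e1 : (u0 + u1) ⬝ᵥ (u0 + u1) = u0 ⬝ᵥ u0 + (N - α) := by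
    rw [add_dotProduct, dotProduct_add, dotProduct_add, dotProduct_comm u1 u0, c1, d1]; ring
  have e2 : (v0 + v1) ⬝ᵥ (v0 + v1) = v0 ⬝ᵥ v0 + (N - β) := by
    rw [add_dotProduct, dotProduct_add, dotProduct_add, dotProduct_comm v1 v0, c4, d2]; ring
  have e3 : (u0 + u1) ⬝ᵥ (v0 + v1) = u0 ⬝ᵥ v0 + (N - α - β + γ) := by
    rw [add_dotProduct, dotProduct_add, dotProduct_add, dotProduct_comm u1 v0, c2, c3, d3]; ring
  rw [e1, e2, e3]
  have q1 := dot_self_nonneg u0
  have q2 := dot_self_nonneg v0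
  nlinarith [mul_nonneg hε0 q1, mul_nonneg hε0 q2]

end Main

end Helper418.PairHeis

namespace Helper418

open PairHeis

/-- TARGET -/
theorem pair_heis {X : Type} [Fintype X] {p : ℕ} (hp : p.Prime) (σ τ : Equiv.Perm X)
    (hσ : σ ^ p = 1) (hτ : τ ^ p = 1) (h1 : Commute (cm σ τ) σ) (h2 : Commute (cm σ τ) τ)
    (f : X → ℝ) :
    -(1 / Real.sqrt p) * (∑ x, lap p σ f x ^ 2 + ∑ x, lap p τ f x ^ 2) ≤
      2 * ∑ x, lap p σ f x * lap p τ f x := by
  have hσ' : (σ⁻¹) ^ p = 1 := by rw [inv_pow, hσ, inv_one]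
  have hτ' : (τ⁻¹) ^ p = 1 := by rw [inv_pow, hτ, inv_one]
  have ha : (V σ⁻¹) ^ p = 1 := by rw [← map_pow, hσ', map_one]
  have hb : (V τ⁻¹) ^ p = 1 := by rw [← map_pow, hτ', map_one]
  have hg : σ⁻¹ * τ⁻¹ = cm σ τ * τ⁻¹ * σ⁻¹ := by
    have k1 : σ * τ = cm σ τ * τ * σ := by unfold cm; group
    have k2 : cm σ τ * (τ * σ) = (τ * σ) * cm σ τ := (h2.mul_right h1).eq
    have k3 : σ⁻¹ * τ⁻¹ * (σ * τ) = cm σ τ := by
      rw [k1, mul_assoc (cm σ τ), k2]; group
    calc σ⁻¹ * τ⁻¹ = (σ⁻¹ * τ⁻¹ * (σ * τ)) * τ⁻¹ * σ⁻¹ := by group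
      _ = _ := by rw [k3]
  have hab : V σ⁻¹ * V τ⁻¹ = V (cm σ τ) * V τ⁻¹ * V σ⁻¹ := by
    rw [← map_mul, ← map_mul, ← map_mul, hg]
  have hca : Commute (V (cm σ τ)) (V σ⁻¹) := h1.inv_right.map V
  have hcb : Commute (V (cm σ τ)) (V τ⁻¹) := h2.inv_right.map V
  have hc : (cm σ τ) ^ p = 1 := by
    refine c_pow (a := σ⁻¹) (b := τ⁻¹) hp hσ' hτ' hg h2.inv_right
  have hcV : (V (cm σ τ)) ^ p = 1 := by rw [← map_pow, hc, map_one]
  have hp0 : (0 : ℝ) < p := by exact_mod_cast hp.pos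
  have hp1 : (1 : ℝ) ≤ p := by exact_mod_cast hp.one_le
  have hcP := commute_mean (p := p) (commute_mean (p := p) hca).symm
  have hcQ := commute_mean (p := p) (commute_mean (p := p) hcb).symm
  have key := abs_ineq (mean p (V σ⁻¹)) (mean p (V τ⁻¹)) (mean p (V (cm σ τ))) (p : ℝ)⁻¹
    (1 / Real.sqrt p)
    (by rw [div_pow, one_pow, Real.sq_sqrt hp0.le, one_div])
    (by positivity)
    (by
      rw [div_le_one (Real.sqrt_pos.mpr hp0)]
      exact Real.one_le_sqrt.mpr hp1)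
    (dot_mean hp _ hσ') (dot_mean hp _ hτ') (dot_mean hp _ hc)
    (fun f => by rw [← Module.End.mul_apply, mean_mul_mean hp.pos ha])
    (fun f => by rw [← Module.End.mul_apply, mean_mul_mean hp.pos hb])
    (fun f => by rw [← Module.End.mul_apply, mean_mul_mean hp.pos hcV])
    (fun f => by rw [← Module.End.mul_apply, ← Module.End.mul_apply, hcP.eq])
    (fun f => by rw [← Module.End.mul_apply, ← Module.End.mul_apply, hcQ.eq])
    (fun f => by
      have := congrArg (fun T => T f) (PQP hp ha hb hab hca hcb)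
      simpa only [Module.End.mul_apply, LinearMap.add_apply, LinearMap.smul_apply,
        LinearMap.sub_apply] using this)
    (fun f => by
      have := congrArg (fun T => T f) (PQR hp ha hb hab hca hcb)
      simpa only [Module.End.mul_apply] using this) f
  have eσ : lap p σ f = f - mean p (V σ⁻¹) f := by
    funext x; unfold lap; rw [avg_eq]; rfl
  have eτ : lap p τ f = f - mean p (V τ⁻¹) f := by
    funext x; unfold lap; rw [avg_eq]; rfl
  rw [eσ, eτ]
  unfold dotProduct at key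
  simpa only [pow_two] using key

end Helper418
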