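import Pool.Agent.Helper418_Sofic.Finest
import Pool.Agent.Helper418_Sofic.Level
import Pool.Agent.Helper418_Sofic.Defs

open Filter Topology Finset
open scoped Classical

namespace Helper418

variable {A : ℕ → Type} [∀ n, Fintype (A n)] {ι : Type} [Fintype ι]

/-! GIVEN (proved elsewhere) -/
namespace Size

theorem dens_perm (τ : ∀ n, Equiv.Perm (A n)) (P : ∀ n, A n → Prop) (n : ℕ) :
    dens (fun n a => P n (τ n a)) n = dens P n := by
  unfold dens
  congr 2
  apply card_bij (fun a _ => τ n a)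
  · intro a ha
    simpa using ha
  · intro a _ b _ h
    exact (τ n).injective h
  · intro b hb
    exact ⟨(τ n).symm b, by simpa using hb, by simp⟩

theorem transport (τ : ∀ n, Equiv.Perm (A n)) {P : ∀ n, A n → Prop}
    (h : ∀ᶠ x in ae A, P x.1 x.2) : ∀ᶠ x in ae A, P x.1 (τ x.1 x.2) := by
  rw [mem_ae] at h
  rw [mem_ae (P := fun n a => P n (τ n a))]
  refine h.congr (fun n => ?_)
  exact (dens_perm τ (fun n a => ¬ P n a) n).symm

variable {G : Type} [Group G] (Φ : Approx G A)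

theorem one_act : ∀ᶠ x in ae A, Φ.φ x.1 1 x.2 = x.2 := by
  have h := Φ.mul 1 1
  filter_upwards [h] with x hx
  rw [mul_one] at hx
  exact ((Φ.φ x.1 1).injective hx).symm

theorem inv_act (v : G) : ∀ᶠ x in ae A, Φ.φ x.1 v (Φ.φ x.1 v⁻¹ x.2) = x.2 := by
  filter_upwards [Φ.mul v v⁻¹, one_act Φ] with x hx h1
  rw [← hx, mul_inv_cancel, h1]

theorem inv_act' (v : G) : ∀ᶠ x in ae A, Φ.φ x.1 v⁻¹ (Φ.φ x.1 v x.2) = x.2 := by
  have := inv_act Φ v⁻¹
  rwa [inv_inv] at this

theorem ginv (s : ι → G) (hs : Subgroup.closure (Set.range s) = ⊤) {g : ∀ n, A n → ℕ}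
    (hg : AsInv (fun n i => Φ.φ n (s i)) g) (v : G) :
    ∀ᶠ x in ae A, g x.1 (Φ.φ x.1 v x.2) = g x.1 x.2 := by
  have hv : v ∈ Subgroup.closure (Set.range s) := by rw [hs]; trivial
  induction hv using Subgroup.closure_induction with
  | mem x hx =>
    obtain ⟨i, rfl⟩ := hx
    exact hg i
  | one =>
    filter_upwards [one_act Φ] with x hx
    rw [hx]
  | mul a b _ _ ha hb =>
    have ha' := transport (fun n => Φ.φ n b) (P := fun n y => g n (Φ.φ n a y) = g n y) ha
    filter_upwards [Φ.mul a b, ha', hb] with x h1 h2 h3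
    rw [h1, h2, h3]
  | inv a _ ha =>
    have ha' := transport (fun n => Φ.φ n a⁻¹) (P := fun n y => g n (Φ.φ n a y) = g n y) ha
    filter_upwards [inv_act Φ a, ha'] with x h1 h2
    rw [h1] at h2
    exact h2.symm

theorem exists_median {X : Type} (Q : Finset X) (hQ : Q.Nonempty) (F : X → ℝ) :
    ∃ x0 ∈ Q, 2 * (Q.filter (fun x => F x0 < F x)).card ≤ Q.card ∧
      2 * (Q.filter (fun x => F x < F x0)).card ≤ Q.card := by
  set S : Finset X := Q.filter (fun x => 2 * (Q.filter (fun y => F x < F y)).card ≤ Q.card) with hS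
  have hne : S.Nonempty := by
    obtain ⟨x, hxQ, hx⟩ := exists_max_image Q F hQ
    refine ⟨x, ?_⟩
    rw [hS, mem_filter]
    refine ⟨hxQ, ?_⟩
    have : (Q.filter (fun y => F x < F y)) = ∅ := by
      rw [filter_eq_empty_iff]
      intro y hy
      exact not_lt.mpr (hx y hy)
    rw [this]
    simp
  obtain ⟨x0, hx0, hmin⟩ := exists_min_image S F hne
  have hx0' := mem_filter.mp (hS ▸ hx0)
  refine ⟨x0, hx0'.1, hx0'.2, ?_⟩
  rcases (Q.filter (fun x => F x < F x0)).eq_empty_or_nonempty with he | hne'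
  · rw [he]; simp
  · obtain ⟨x1, hx1, hmax⟩ := exists_max_image _ F hne'
    have hx1' := mem_filter.mp hx1
    have hnS : x1 ∉ S := fun hc => absurd (hmin x1 hc) (not_le.mpr hx1'.2)
    rw [hS, mem_filter] at hnS
    push Not at hnS
    have h1 := hnS hx1'.1
    have h2 : Disjoint (Q.filter (fun y => F x1 < F y)) (Q.filter (fun x => F x < F x0)) := by
      rw [Finset.disjoint_left]
      intro y hy1 hy2
      have := hmax y hy2
      rw [mem_filter] at hy1
      exact absurd hy1.2 (not_lt.mpr this)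
    have h3 : (Q.filter (fun y => F x1 < F y)).card +
        (Q.filter (fun x => F x < F x0)).card ≤ Q.card := by
      rw [← card_union_of_disjoint h2]
      exact card_le_card (union_subset (filter_subset _ _) (filter_subset _ _))
    omega

theorem sz_pos {X : Type} [Fintype X] (f : X → ℕ) (x : X) : 0 < sz f x := by
  unfold sz
  exact card_pos.mpr ⟨x, by simp⟩

theorem exists_M (f g : ∀ n, A n → ℕ) : ∃ M : ℕ → ℕ → ℝ, (∀ n i, 0 < M n i) ∧
    (∀ n a, 2 * (univ.filter fun b => g n b = g n a ∧ M n (g n a) < (sz (f n) b : ℝ)).card ≤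
      sz (g n) a) ∧
    (∀ n a, 2 * (univ.filter fun b => g n b = g n a ∧ (sz (f n) b : ℝ) < M n (g n a)).card ≤
      sz (g n) a) := by
  have key : ∀ n i, ∃ m : ℝ, 0 < m ∧ ((univ.filter fun b : A n => g n b = i).Nonempty →
      2 * ((univ.filter fun b : A n => g n b = i).filter
        (fun b => m < (sz (f n) b : ℝ))).card ≤ (univ.filter fun b : A n => g n b = i).card ∧
      2 * ((univ.filter fun b : A n => g n b = i).filter
        (fun b => (sz (f n) b : ℝ) < m)).card ≤ (univ.filter fun b : A n => g n b = i).card) := by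
    intro n i
    by_cases hQ : (univ.filter fun b : A n => g n b = i).Nonempty
    · obtain ⟨x0, _, h1, h2⟩ := exists_median _ hQ (fun b => (sz (f n) b : ℝ))
      exact ⟨sz (f n) x0, by exact_mod_cast sz_pos (f n) x0, fun _ => ⟨h1, h2⟩⟩
    · exact ⟨1, one_pos, fun h => absurd h hQ⟩
  choose M hM0 hM using key
  refine ⟨M, hM0, ?_, ?_⟩
  · intro n a
    have := (hM n (g n a) ⟨a, by simp⟩).1
    rw [filter_filter] at this
    exact this
  · intro n a
    have := (hM n (g n a) ⟨a, by simp⟩).2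
    rw [filter_filter] at this
    exact this

end Size

/-- TARGET -/
theorem size_thm [∀ n, Nonempty (A n)] {G : Type} [Group G] (Φ : Approx G A) (s : ι → G)
    (hI : Improves (fun n i => Φ.φ n (s i))) (P : Set G)
    (hP : Subgroup.closure P = ⊤)
    (f : ∀ n, A n → ℕ)
    (hf : ∀ v ∈ P, ∀ η : ℝ, 0 < η → ∀ᶠ x in ae A,
      (sz (f x.1) x.2 : ℝ) ≤ (1 + η) * sz (f x.1) (Φ.φ x.1 v x.2))
    (hs : Subgroup.closure (Set.range s) = ⊤) :
    ∀ v ∈ P, ∀ η : ℝ, 0 < η → ∀ᶠ x in ae A,
      (sz (f x.1) (Φ.φ x.1 v x.2) : ℝ) ≤ (1 + η) * sz (f x.1) x.2 := by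
  obtain ⟨g, hg⟩ := exists_finest hI
  have hginv := Size.ginv Φ s hs hg.1
  obtain ⟨M, hM0, hM1, hM2⟩ := Size.exists_M f g
  have hsz : ∀ n (a : A n), (0 : ℝ) < sz (f n) a := fun n a => by
    exact_mod_cast Size.sz_pos (f n) a
  have L1 := level_lemma Φ s hI hg P (fun i => by rw [hP]; trivial) (fun v _ => hginv v)
    (fun n a => (sz (f n) a : ℝ)) hsz M hM0 hM1 hf
  have L2 := level_lemma Φ s hI hg P⁻¹ (fun i => by rw [Subgroup.closure_inv, hP]; trivial)
    (fun v _ => hginv v)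
    (fun n a => 1 / (sz (f n) a : ℝ)) (fun n a => one_div_pos.mpr (hsz n a))
    (fun n i => 1 / M n i) (fun n i => one_div_pos.mpr (hM0 n i))
    (by
      intro n a
      refine le_trans ?_ (hM2 n a)
      refine Nat.mul_le_mul_left 2 (card_le_card ?_)
      intro b hb
      simp only [mem_filter, mem_univ, true_and] at hb ⊢
      refine ⟨hb.1, ?_⟩
      exact (one_div_lt_one_div (hM0 n (g n a)) (hsz n b)).mp hb.2)
    (by
      intro v hv η hη
      have hv' : v⁻¹ ∈ P := hv
      have h1 := Size.transport (fun n => Φ.φ n v) (P := fun n y =>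
        (sz (f n) y : ℝ) ≤ (1 + η) * sz (f n) (Φ.φ n v⁻¹ y)) (hf v⁻¹ hv' η hη)
      filter_upwards [h1, Size.inv_act' Φ v] with x h2 h3
      rw [h3] at h2
      have ha := hsz x.1 x.2
      have hb := hsz x.1 (Φ.φ x.1 v x.2)
      rw [mul_one_div, div_le_div_iff₀ ha hb, one_mul]
      exact h2)
  intro v hv η hη
  set l : ℝ := Real.sqrt (1 + η) with hl
  have hl1 : 1 < l := by
    rw [hl]
    apply Real.lt_sqrt_of_sq_lt
    linarith
  have hl2 : l * l = 1 + η := Real.mul_self_sqrt (by linarith)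
  have h1 := Size.transport (fun n => Φ.φ n v) (P := fun n y =>
    (sz (f n) y : ℝ) ≤ l * M n (g n y)) (L1 l hl1)
  filter_upwards [h1, L2 l hl1, hginv v] with x h2 h3 h4
  rw [h4] at h2
  have ha := hsz x.1 x.2
  have hM := hM0 x.1 (g x.1 x.2)
  rw [mul_one_div, div_le_div_iff₀ ha hM, one_mul] at h3
  calc (sz (f x.1) (Φ.φ x.1 v x.2) : ℝ) ≤ l * M x.1 (g x.1 x.2) := h2
    _ ≤ l * (l * sz (f x.1) x.2) := by
        apply mul_le_mul_of_nonneg_left h3 (by linarith)
    _ = (1 + η) * sz (f x.1) x.2 := by rw [← mul_assoc, hl2]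

end Helper418
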