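import Pool.Agent.Helper418_Sofic.PairHeis
import Pool.Agent.Helper418_Sofic.PairComm
import Pool.Agent.Helper418_Sofic.Defs

open Filter Topology Finset
open scoped Classical

namespace Helper418

/-! GIVEN (proved elsewhere) -/
namespace TIneq

section basic

variable {X : Type} {p : ℕ}

/-- the average is invariant -/
theorem avg_apply (σ : Equiv.Perm X) (hσ : σ ^ p = 1) (f : X → ℝ) (x : X) :
    avg p σ f (σ x) = avg p σ f x := by
  unfold avg
  congr 1
  have h : ∀ j, (σ ^ j) (σ x) = (σ ^ (j + 1)) x := fun j => by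
    rw [pow_succ]; rfl
  simp only [h]
  have h1 := Finset.sum_range_succ (fun j => f ((σ ^ j) x)) p
  have h2 := Finset.sum_range_succ' (fun j => f ((σ ^ j) x)) p
  rw [h1] at h2
  simp only [hσ, pow_zero] at h2
  linarith

theorem avg_pow_apply (σ : Equiv.Perm X) (hσ : σ ^ p = 1) (f : X → ℝ) (k : ℕ) (x : X) :
    avg p σ f ((σ ^ k) x) = avg p σ f x := by
  induction k with
  | zero => simp
  | succ k ih => rw [pow_succ', Equiv.Perm.mul_apply, avg_apply σ hσ, ih]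

theorem sum_mul_avg [Fintype X] (hp : 0 < p) (σ : Equiv.Perm X) (hσ : σ ^ p = 1) (f : X → ℝ) :
    ∑ x, f x * avg p σ f x = ∑ x, avg p σ f x ^ 2 := by
  have h : ∀ k, ∑ x, f ((σ ^ k) x) * avg p σ f x = ∑ x, f x * avg p σ f x := fun k => by
    rw [← Equiv.sum_comp (σ ^ k) (fun x => f x * avg p σ f x)]
    exact Finset.sum_congr rfl fun x _ => by rw [avg_pow_apply σ hσ]
  have hp' : (p : ℝ) ≠ 0 := by exact_mod_cast hp.ne'
  have h2 : ∑ k ∈ range p, ∑ x, f ((σ ^ k) x) * avg p σ f x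
      = p * ∑ x, f x * avg p σ f x := by
    rw [Finset.sum_congr rfl fun k _ => h k]
    simp
  have h3 : ∑ k ∈ range p, ∑ x, f ((σ ^ k) x) * avg p σ f x
      = p * ∑ x, avg p σ f x ^ 2 := by
    rw [Finset.sum_comm, Finset.mul_sum]
    refine Finset.sum_congr rfl fun x _ => ?_
    rw [← Finset.sum_mul, sq]
    have : (∑ k ∈ range p, f ((σ ^ k) x)) = p * avg p σ f x := by
      unfold avg; field_simp
    rw [this]; ring
  have h4 := h2.symm.trans h3
  exact mul_left_cancel₀ hp' h4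

theorem sum_lap_sq_le [Fintype X] (hp : 0 < p) (σ : Equiv.Perm X) (hσ : σ ^ p = 1)
    (f : X → ℝ) : ∑ x, lap p σ f x ^ 2 ≤ ∑ x, f x ^ 2 := by
  have h1 : ∑ x, lap p σ f x ^ 2 = ∑ x, f x ^ 2 - 2 * ∑ x, f x * avg p σ f x
      + ∑ x, avg p σ f x ^ 2 := by
    rw [Finset.mul_sum, ← Finset.sum_sub_distrib, ← Finset.sum_add_distrib]
    exact Finset.sum_congr rfl fun x _ => by unfold lap; ring
  have h2 := sum_mul_avg hp σ hσ f
  have h3 : 0 ≤ ∑ x, avg p σ f x ^ 2 := Finset.sum_nonneg fun x _ => sq_nonneg _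
  rw [h1, h2]
  linarith

end basic

section restrict

variable {X : Type} [Fintype X] {p : ℕ}

/-- a finite invariant set is invariant in both directions -/
theorem inv_iff {σ : Equiv.Perm X} {Y : Finset X} (h : ∀ x ∈ Y, σ x ∈ Y) (x : X) :
    σ x ∈ Y ↔ x ∈ Y := by
  constructor
  · intro hx
    have hsub : Y.image σ ⊆ Y := by
      intro y hy
      obtain ⟨z, hz, rfl⟩ := Finset.mem_image.1 hy
      exact h z hz
    have heq : Y.image σ = Y := Finset.eq_of_subset_of_card_le hsub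
      (by rw [Finset.card_image_of_injective _ σ.injective])
    rw [← heq] at hx
    obtain ⟨z, hz, hzx⟩ := Finset.mem_image.1 hx
    rw [← σ.injective hzx]
    exact hz
  · exact h x

/-- restriction to an invariant set -/
def res {σ : Equiv.Perm X} {P : X → Prop} (h : ∀ x, P (σ x) ↔ P x) : Equiv.Perm {x // P x} :=
  σ.subtypePerm h

theorem res_apply {σ : Equiv.Perm X} {P : X → Prop} (h : ∀ x, P (σ x) ↔ P x)
    (x : {x // P x}) : ((res h x : {x // P x}) : X) = σ x := rfl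

theorem res_pow_apply {σ : Equiv.Perm X} {P : X → Prop} (h : ∀ x, P (σ x) ↔ P x) (k : ℕ)
    (x : {x // P x}) : (((res h ^ k) x : {x // P x}) : X) = (σ ^ k) x := by
  induction k with
  | zero => rfl
  | succ k ih => rw [pow_succ', Equiv.Perm.mul_apply, res_apply, ih, pow_succ',
      Equiv.Perm.mul_apply]

theorem res_pow_eq_one {σ : Equiv.Perm X} {P : X → Prop} (h : ∀ x, P (σ x) ↔ P x) {k : ℕ}
    (hk : σ ^ k = 1) : res h ^ k = 1 := by
  ext x
  rw [res_pow_apply, hk]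
  rfl

theorem lap_res {σ : Equiv.Perm X} {P : X → Prop} (h : ∀ x, P (σ x) ↔ P x) (f : X → ℝ)
    (x : {x // P x}) : lap p (res h) (fun y => f y.1) x = lap p σ f x.1 := by
  unfold lap avg
  simp only [res_pow_apply]

/-- the bound on an invariant set -/
theorem sum_lap_sq_le_on (hp : 0 < p) {σ : Equiv.Perm X} (hσ : σ ^ p = 1) {Z : Finset X}
    (h : ∀ x, σ x ∈ Z ↔ x ∈ Z) (f : X → ℝ) :
    ∑ x ∈ Z, lap p σ f x ^ 2 ≤ ∑ x ∈ Z, f x ^ 2 := by
  have h1 := sum_lap_sq_le hp (res (P := fun x => x ∈ Z) h) (res_pow_eq_one _ hσ)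
    (fun y => f y.1)
  simp only [lap_res] at h1
  rw [← Finset.sum_coe_sort Z (fun x => lap p σ f x ^ 2),
    ← Finset.sum_coe_sort Z (fun x => f x ^ 2)]
  convert h1

theorem res_commute {σ τ : Equiv.Perm X} {P : X → Prop} (h : ∀ x, P (σ x) ↔ P x)
    (h' : ∀ x, P (τ x) ↔ P x) (hc : ∀ x, P x → σ (τ x) = τ (σ x)) :
    Commute (res h) (res h') := by
  ext x
  exact hc x.1 x.2

theorem inv_symm {σ : Equiv.Perm X} {P : X → Prop} (h : ∀ x, P (σ x) ↔ P x) (x : X) :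
    P (σ⁻¹ x) ↔ P x := by
  rw [← h (σ⁻¹ x)]
  simp

theorem cm_inv {σ τ : Equiv.Perm X} {P : X → Prop} (h : ∀ x, P (σ x) ↔ P x)
    (h' : ∀ x, P (τ x) ↔ P x) (x : X) : P (cm σ τ x) ↔ P x := by
  unfold cm
  simp only [Equiv.Perm.mul_apply]
  rw [h, h', inv_symm h, inv_symm h']

theorem res_inv_apply {σ : Equiv.Perm X} {P : X → Prop} (h : ∀ x, P (σ x) ↔ P x)
    (x : {x // P x}) : ((((res h)⁻¹) x : {x // P x}) : X) = σ⁻¹ x := rfl

theorem cm_res {σ τ : Equiv.Perm X} {P : X → Prop} (h : ∀ x, P (σ x) ↔ P x)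
    (h' : ∀ x, P (τ x) ↔ P x) : cm (res h) (res h') = res (cm_inv h h') := by
  ext x
  rfl

/-- off the good set -/
theorem off_bound (hp : 0 < p) {σ τ : Equiv.Perm X} (hσ : σ ^ p = 1) (hτ : τ ^ p = 1)
    {Z B : Finset X} (h : ∀ x, σ x ∈ Z ↔ x ∈ Z) (h' : ∀ x, τ x ∈ Z ↔ x ∈ Z) (hZ : Z ⊆ B)
    (f : X → ℝ) : -∑ x ∈ B, f x ^ 2 ≤ ∑ x ∈ Z, lap p σ f x * lap p τ f x := by
  have h1 := sum_lap_sq_le_on hp hσ h f
  have h2 := sum_lap_sq_le_on hp hτ h' f
  have h3 : ∑ x ∈ Z, f x ^ 2 ≤ ∑ x ∈ B, f x ^ 2 :=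
    Finset.sum_le_sum_of_subset_of_nonneg hZ fun x _ _ => sq_nonneg _
  have h4 : -(∑ x ∈ Z, lap p σ f x ^ 2 + ∑ x ∈ Z, lap p τ f x ^ 2)
      ≤ 2 * ∑ x ∈ Z, lap p σ f x * lap p τ f x := by
    rw [← Finset.sum_add_distrib, Finset.mul_sum, ← Finset.sum_neg_distrib]
    refine Finset.sum_le_sum fun x _ => ?_
    nlinarith [sq_nonneg (lap p σ f x + lap p τ f x)]
  linarith

theorem compl_inv {σ : Equiv.Perm X} {Y : Finset X} (h : ∀ x, σ x ∈ Y ↔ x ∈ Y) (x : X) :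
    σ x ∈ Yᶜ ↔ x ∈ Yᶜ := by
  rw [Finset.mem_compl, Finset.mem_compl, h]

theorem pair_comm_bound (hp : p.Prime) {σ τ : Equiv.Perm X} (hσ : σ ^ p = 1) (hτ : τ ^ p = 1)
    {B Y : Finset X} (hY : ∀ x, x ∉ B → x ∈ Y) (h1 : ∀ x ∈ Y, σ x ∈ Y) (h2 : ∀ x ∈ Y, τ x ∈ Y)
    (hc : ∀ x ∈ Y, σ (τ x) = τ (σ x)) (f : X → ℝ) :
    -∑ x ∈ B, f x ^ 2 ≤ ∑ x, lap p σ f x * lap p τ f x := by
  have i1 := inv_iff h1
  have i2 := inv_iff h2
  have hon := pair_comm hp (res (P := fun x => x ∈ Y) i1) (res (P := fun x => x ∈ Y) i2)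
    (res_pow_eq_one _ hσ) (res_pow_eq_one _ hτ) (res_commute i1 i2 hc) (fun y => f y.1)
  simp only [lap_res] at hon
  have hoff := off_bound hp.pos hσ hτ (compl_inv i1) (compl_inv i2)
    (B := B) (fun x hx => by
      by_contra hB
      exact (Finset.mem_compl.1 hx) (hY x hB)) f
  have hon' : 0 ≤ ∑ x ∈ Y, lap p σ f x * lap p τ f x := by
    rw [← Finset.sum_coe_sort Y (fun x => lap p σ f x * lap p τ f x)]
    convert hon
  rw [← Finset.sum_add_sum_compl Y (fun x => lap p σ f x * lap p τ f x)]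
  linarith

theorem pair_heis_bound (hp : p.Prime) {σ τ : Equiv.Perm X} (hσ : σ ^ p = 1) (hτ : τ ^ p = 1)
    {B Y : Finset X} (hY : ∀ x, x ∉ B → x ∈ Y) (h1 : ∀ x ∈ Y, σ x ∈ Y) (h2 : ∀ x ∈ Y, τ x ∈ Y)
    (hc1 : ∀ x ∈ Y, cm σ τ (σ x) = σ (cm σ τ x)) (hc2 : ∀ x ∈ Y, cm σ τ (τ x) = τ (cm σ τ x))
    (f : X → ℝ) :
    -(1 / Real.sqrt p) / 2 * (∑ x, lap p σ f x ^ 2 + ∑ x, lap p τ f x ^ 2)
      - ∑ x ∈ B, f x ^ 2 ≤ ∑ x, lap p σ f x * lap p τ f x := by
  have i1 := inv_iff h1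
  have i2 := inv_iff h2
  have hcm1 : Commute (cm (res (P := fun x => x ∈ Y) i1) (res (P := fun x => x ∈ Y) i2))
      (res (P := fun x => x ∈ Y) i1) := by
    rw [cm_res]
    exact res_commute _ _ hc1
  have hcm2 : Commute (cm (res (P := fun x => x ∈ Y) i1) (res (P := fun x => x ∈ Y) i2))
      (res (P := fun x => x ∈ Y) i2) := by
    rw [cm_res]
    exact res_commute _ _ hc2
  have hon := pair_heis hp (res (P := fun x => x ∈ Y) i1) (res (P := fun x => x ∈ Y) i2)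
    (res_pow_eq_one _ hσ) (res_pow_eq_one _ hτ) hcm1 hcm2 (fun y => f y.1)
  simp only [lap_res] at hon
  have hoff := off_bound hp.pos hσ hτ (compl_inv i1) (compl_inv i2)
    (B := B) (fun x hx => by
      by_contra hB
      exact (Finset.mem_compl.1 hx) (hY x hB)) f
  have hon' : -(1 / Real.sqrt p) * (∑ x ∈ Y, lap p σ f x ^ 2 + ∑ x ∈ Y, lap p τ f x ^ 2)
      ≤ 2 * ∑ x ∈ Y, lap p σ f x * lap p τ f x := by
    rw [← Finset.sum_coe_sort Y (fun x => lap p σ f x * lap p τ f x),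
      ← Finset.sum_coe_sort Y (fun x => lap p σ f x ^ 2),
      ← Finset.sum_coe_sort Y (fun x => lap p τ f x ^ 2)]
    convert hon
  have hs1 : ∑ x ∈ Y, lap p σ f x ^ 2 ≤ ∑ x, lap p σ f x ^ 2 :=
    Finset.sum_le_sum_of_subset_of_nonneg (Finset.subset_univ _) fun x _ _ => sq_nonneg _
  have hs2 : ∑ x ∈ Y, lap p τ f x ^ 2 ≤ ∑ x, lap p τ f x ^ 2 :=
    Finset.sum_le_sum_of_subset_of_nonneg (Finset.subset_univ _) fun x _ _ => sq_nonneg _
  have he : 0 ≤ 1 / Real.sqrt p := by positivity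
  rw [← Finset.sum_add_sum_compl Y (fun x => lap p σ f x * lap p τ f x)]
  have hm := mul_le_mul_of_nonneg_left (add_le_add hs1 hs2) he
  linarith

end restrict

end TIneq

/-- TARGET -/
theorem T_ineq {ι : Type} [Fintype ι] {p D : ℕ} (hp : p.Prime) {nc : ι → ι → Prop}
    (hsymm : ∀ i j, nc i j → nc j i) (hirr : ∀ i, ¬ nc i i)
    (hdeg : ∀ i, (univ.filter fun j => nc i j).card ≤ D) {X : Type} [Fintype X]
    {σ : ι → Equiv.Perm X} {B : Finset X} (h : IsTAct p nc σ B) (f : X → ℝ) :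
    (1 - D / Real.sqrt p) * ∑ i, ∑ x, lap p (σ i) f x ^ 2
      - (Fintype.card ι : ℝ) ^ 2 * ∑ x ∈ B, f x ^ 2 ≤ ∑ x, (∑ i, lap p (σ i) f x) ^ 2 := by
  set N : ι → ℝ := fun i => ∑ x, lap p (σ i) f x ^ 2 with hN
  set b : ℝ := ∑ x ∈ B, f x ^ 2 with hb
  have hb0 : 0 ≤ b := Finset.sum_nonneg fun x _ => sq_nonneg _
  have hN0 : ∀ i, 0 ≤ N i := fun i => Finset.sum_nonneg fun x _ => sq_nonneg _
  set e : ℝ := 1 / Real.sqrt p with he
  have he0 : 0 ≤ e := by positivity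
  -- the pairwise bounds
  have key : ∀ i j, (if i = j then N i else 0) - (if nc i j then e / 2 * (N i + N j) else 0) - b
      ≤ ∑ x, lap p (σ i) f x * lap p (σ j) f x := by
    intro i j
    by_cases hij : i = j
    · subst hij
      rw [if_pos rfl, if_neg (hirr i)]
      have : ∑ x, lap p (σ i) f x * lap p (σ i) f x = N i :=
        Finset.sum_congr rfl fun x _ => by ring
      rw [this]
      linarith
    · rw [if_neg hij]
      by_cases hnc : nc i j
      · rw [if_pos hnc]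
        obtain ⟨Y, hY, h1, h2, hc1, hc2⟩ := h.heis i j hnc
        have := TIneq.pair_heis_bound hp (h.pow i) (h.pow j) hY h1 h2 hc1 hc2 f
        have e1 : (0:ℝ) - e / 2 * (N i + N j) - b = -(1 / Real.sqrt p) / 2 *
            (∑ x, lap p (σ i) f x ^ 2 + ∑ x, lap p (σ j) f x ^ 2) - ∑ x ∈ B, f x ^ 2 := by
          rw [hN, he, hb]; ring
        rw [e1]
        exact this
      · rw [if_neg hnc]
        obtain ⟨Y, hY, h1, h2, hc⟩ := h.comm i j hij hnc
        have := TIneq.pair_comm_bound hp (h.pow i) (h.pow j) hY h1 h2 hc f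
        linarith
  have hexp : ∑ x, (∑ i, lap p (σ i) f x) ^ 2
      = ∑ i, ∑ j, ∑ x, lap p (σ i) f x * lap p (σ j) f x := by
    calc ∑ x, (∑ i, lap p (σ i) f x) ^ 2
        = ∑ x, ∑ i, ∑ j, lap p (σ i) f x * lap p (σ j) f x := by
          refine Finset.sum_congr rfl fun x _ => ?_
          rw [sq, Finset.sum_mul_sum]
      _ = ∑ i, ∑ x, ∑ j, lap p (σ i) f x * lap p (σ j) f x := Finset.sum_comm
      _ = _ := Finset.sum_congr rfl fun i _ => Finset.sum_comm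
  have hsum := Finset.sum_le_sum fun i (_ : i ∈ (univ : Finset ι)) =>
    Finset.sum_le_sum fun j (_ : j ∈ (univ : Finset ι)) => key i j
  rw [hexp]
  refine le_trans ?_ hsum
  simp only [Finset.sum_sub_distrib, Finset.sum_const, Finset.card_univ, nsmul_eq_mul]
  have hd : ∑ i, ∑ j, (if i = j then N i else 0) = ∑ i, N i := by
    refine Finset.sum_congr rfl fun i _ => ?_
    rw [Finset.sum_ite_eq]
    simp
  have hrow : ∑ i, ∑ j, (if nc i j then N i else 0) ≤ D * ∑ i, N i := by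
    rw [Finset.mul_sum]
    refine Finset.sum_le_sum fun i _ => ?_
    rw [← Finset.sum_filter, Finset.sum_const, nsmul_eq_mul]
    exact mul_le_mul_of_nonneg_right (by exact_mod_cast hdeg i) (hN0 i)
  have hcol : ∑ i, ∑ j, (if nc i j then N j else 0) ≤ D * ∑ i, N i := by
    rw [Finset.sum_comm]
    refine le_trans (le_of_eq ?_) hrow
    refine Finset.sum_congr rfl fun i _ => Finset.sum_congr rfl fun j _ => ?_
    by_cases hij : nc i j
    · rw [if_pos hij, if_pos (hsymm _ _ hij)]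
    · rw [if_neg hij, if_neg (fun hh => hij (hsymm _ _ hh))]
  have hnc : ∑ i, ∑ j, (if nc i j then e / 2 * (N i + N j) else 0) ≤ e * D * ∑ i, N i := by
    have : ∑ i, ∑ j, (if nc i j then e / 2 * (N i + N j) else 0)
        = e / 2 * (∑ i, ∑ j, (if nc i j then N i else 0)
          + ∑ i, ∑ j, (if nc i j then N j else 0)) := by
      rw [← Finset.sum_add_distrib, Finset.mul_sum]
      refine Finset.sum_congr rfl fun i _ => ?_
      rw [← Finset.sum_add_distrib, Finset.mul_sum]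
      refine Finset.sum_congr rfl fun j _ => ?_
      split_ifs <;> ring
    rw [this]
    have := mul_le_mul_of_nonneg_left (add_le_add hrow hcol) (by positivity : (0:ℝ) ≤ e / 2)
    linarith
  rw [hd]
  have hD : (D : ℝ) / Real.sqrt p = e * D := by rw [he]; ring
  rw [hD]
  have : ∑ i, ∑ x, lap p (σ i) f x ^ 2 = ∑ i, N i := rfl
  rw [this]
  nlinarith [hnc]

end Helper418
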